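import Pool.Agent.Work.MP_2b9663_nt.PosDefs

set_option autoImplicit false

/-!
The coefficients in even degree of the powers of the trace polynomials of two types.
-/

namespace Pool.Agent.Work.MP_2b9663_nt

open Polynomial Finset

/-- nonnegative coefficients -/
def NN (W : ℝ[X]) : Prop := ∀ j, 0 ≤ W.coeff j

lemma NN.mul {W W' : ℝ[X]} (h : NN W) (h' : NN W') : NN (W * W') := by
  intro j
  rw [coeff_mul]
  exact Finset.sum_nonneg fun x _ => mul_nonneg (h _) (h' _)

lemma NN.one : NN 1 := by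
  intro j
  rw [coeff_one]
  split_ifs <;> norm_num

lemma NN.pow {W : ℝ[X]} (h : NN W) (n : ℕ) : NN (W ^ n) := by
  induction n with
  | zero => simpa using NN.one
  | succ n ih => rw [pow_succ]; exact ih.mul h

lemma NN.sum {ι : Type*} (s : Finset ι) {W : ι → ℝ[X]} (h : ∀ l ∈ s, NN (W l)) :
    NN (∑ l ∈ s, W l) := by
  intro j
  rw [finsetSum_coeff]
  exact Finset.sum_nonneg fun l hl => h l hl j

lemma NN.monomial {a : ℝ} (ha : 0 ≤ a) (k : ℕ) : NN (C a * X ^ k) := by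
  intro j
  rw [coeff_C_mul_X_pow]
  split_ifs
  · exact ha
  · exact le_rfl

lemma NN.X_pow (k : ℕ) : NN (X ^ k) := by
  have := NN.monomial (a := 1) zero_le_one k
  rwa [C_1, one_mul] at this

lemma gradedPoly_eq (g d : ℕ) (b : ℕ → ℕ) (q : ℕ) : gradedPoly g d b q =
    expand ℝ (2 * g) (∑ l ∈ Finset.range (d + 1), C ((b l : ℝ) * (q : ℝ) ^ (g * l)) * X ^ l) := by
  rw [map_sum, gradedPoly]
  refine Finset.sum_congr rfl fun l _ => ?_
  rw [map_mul (expand ℝ (2 * g)) (C _), expand_C, map_pow, expand_X, ← pow_mul]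

lemma gradedPoly_nn (g d : ℕ) (b : ℕ → ℕ) (q : ℕ) : NN (gradedPoly g d b q) :=
  NN.sum _ fun _ _ => NN.monomial (by positivity) _

lemma mixed_zero {g : ℕ} (hg : 1 ≤ g) (d : ℕ) (b c : ℕ → ℕ) (q : ℕ) (m k : ℕ) (hk : ¬ Even k)
    {i : ℕ} (hi : 2 * g ∣ i) : ((gradedPoly g d b q) ^ m * (X ^ g * gradedPoly g d c q) ^ k).coeff i = 0 := by
  rw [gradedPoly_eq, gradedPoly_eq, mul_pow, mul_left_comm, ← map_pow, ← map_pow, ← map_mul, ← pow_mul,
    coeff_X_pow_mul']
  split_ifs with h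
  · rw [coeff_expand (by omega), if_neg]
    intro h2
    apply hk
    have h3 : 2 * g ∣ g * k := (Nat.dvd_sub_iff_right h hi).mp h2
    rw [mul_comm 2 g] at h3
    exact even_iff_two_dvd.mpr (Nat.dvd_of_mul_dvd_mul_left (by omega) h3)
  · rfl

/-- the coefficients of the powers of the even part -/
lemma gradedPoly_pow_coeff (g d : ℕ) (b : ℕ → ℕ) (q n i : ℕ) : ((gradedPoly g d b q) ^ n).coeff i =
    ((((gradedBetti g d b) ^ n).coeff i : ℕ) : ℝ) * Real.sqrt q ^ i := by
  have h1 : gradedPoly g d b q = ((gradedBetti g d b).map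
      (Nat.castRingHom ℝ)).comp (C (Real.sqrt q) * X) := by
    rw [gradedPoly, gradedBetti, Polynomial.map_sum, Polynomial.sum_comp]
    refine Finset.sum_congr rfl fun l _ => ?_
    rw [Polynomial.map_mul, map_C, Polynomial.map_pow, map_X, mul_comp, C_comp, X_pow_comp,
      mul_pow, ← C_pow]
    have h2 : Real.sqrt q ^ (2 * g * l) = (q : ℝ) ^ (g * l) := by
      rw [mul_assoc, pow_mul, Real.sq_sqrt (Nat.cast_nonneg q)]
    rw [h2, ← mul_assoc, ← C_mul]
    rfl
  rw [h1, ← pow_comp, comp_C_mul_X_coeff, ← Polynomial.map_pow, coeff_map]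
  rfl

lemma gradedPoly_eval_neg (g d : ℕ) (b : ℕ → ℕ) (q : ℕ) :
    (gradedPoly g d b q).eval (-1) = ∑ l ∈ Finset.range (d + 1), (b l : ℝ) * (q : ℝ) ^ (g * l) := by
  rw [gradedPoly, eval_finsetSum]
  refine Finset.sum_congr rfl fun l _ => ?_
  simp only [eval_mul, eval_C, eval_pow, eval_X]
  rw [mul_assoc 2 g l, pow_mul]
  simp

/-- The trace formula: the value at `-1` of the trace polynomial is the number of points. -/
lemma twoTypePoly_eval {g d : ℕ} {b c : ℕ → ℕ} {q N : ℕ} (hq : 0 < q) (hc : ∃ l ≤ d, c l ≠ 0) :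
    (twoTypePoly g d b c q N).eval (-1) = N := by
  have h1 : (gradedPoly g d c q).eval (-1) ≠ 0 := by
    rw [gradedPoly_eval_neg]
    obtain ⟨l, hl, hcl⟩ := hc
    refine ne_of_gt (Finset.sum_pos' (fun _ _ => by positivity) ⟨l, Finset.mem_range.mpr (by omega), ?_⟩)
    positivity
  have h2 : ((-1 : ℝ) ^ g) * (-1) ^ g = 1 := by
    rw [← mul_pow]
    simp
  rw [twoTypePoly, eval_add, eval_mul, eval_C, eval_mul, eval_pow, eval_X]
  field_simp
  linear_combination ((N : ℝ) - (gradedPoly g d b q).eval (-1)) * h2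

/-- The traces in degrees divisible by `2 g`. -/
theorem trace_even {g : ℕ} (hg : 1 ≤ g) (d : ℕ) (b c : ℕ → ℕ) (q N n : ℕ) {i : ℕ}
    (hi : 2 * g ∣ i) :
    ((((gradedBetti g d b) ^ n).coeff i : ℕ) : ℝ) * Real.sqrt q ^ i ≤ ((twoTypePoly g d b c q N) ^ n).coeff i := by
  rw [← gradedPoly_pow_coeff]
  set x : ℝ := (-1) ^ g * ((N : ℝ) - (gradedPoly g d b q).eval (-1)) /
    (gradedPoly g d c q).eval (-1) with hx
  have h1 : twoTypePoly g d b c q N = gradedPoly g d b q + C x * (X ^ g * gradedPoly g d c q) := rfl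
  rw [h1, add_pow, finsetSum_coeff]
  have h2 : ∀ m ∈ range (n + 1), 0 ≤ ((gradedPoly g d b q) ^ m * (C x * (X ^ g * gradedPoly g d c q)) ^ (n - m) *
      ((n.choose m : ℕ) : ℝ[X])).coeff i := by
    intro m _
    rw [coeff_mul_natCast, mul_pow, ← C_pow, mul_left_comm, coeff_C_mul]
    refine mul_nonneg ?_ (Nat.cast_nonneg _)
    by_cases hk : Even (n - m)
    · exact mul_nonneg (hk.pow_nonneg x) (((gradedPoly_nn g d b q).pow m).mul
        (((NN.X_pow g).mul (gradedPoly_nn g d c q)).pow _) i)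
    · rw [mixed_zero hg d b c q m (n - m) hk hi, mul_zero]
  refine le_trans (le_of_eq ?_) (Finset.single_le_sum h2 (Finset.mem_range.mpr (Nat.lt_succ_self n)))
  simp

end Pool.Agent.Work.MP_2b9663_nt
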