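import Pool.Agent.Work.MP_2b9663_nt.PosDefs

set_option autoImplicit false

/-!
Trace polynomials of products, and of varieties whose cohomology is algebraic outside the middle
degree.
-/

namespace Pool.Agent.Work.MP_2b9663_nt

open Polynomial Finset

lemma dual_iff {d q : ℕ} (hq : 0 < q) (P : ℝ[X]) :
    (∀ j ≤ d, P.coeff (2 * d - j) = (q : ℝ) ^ (d - j) * P.coeff j) ↔
      reflect (2 * d) (P.comp (C (Real.sqrt q)⁻¹ * X)) = P.comp (C (Real.sqrt q)⁻¹ * X) := by
  have hq0 : (0 : ℝ) < q := by exact_mod_cast hq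
  have hs : 0 < Real.sqrt q := Real.sqrt_pos.mpr hq0
  set r := Real.sqrt q with hr
  have hr2 : r ^ 2 = q := Real.sq_sqrt hq0.le
  have key : ∀ j ≤ d, (P.coeff (2 * d - j) = (q : ℝ) ^ (d - j) * P.coeff j ↔
      P.coeff (2 * d - j) * r⁻¹ ^ (2 * d - j) = P.coeff j * r⁻¹ ^ j) := by
    intro j hj
    have e1 : 2 * d - j = 2 * (d - j) + j := by omega
    have e2 : (q : ℝ) ^ (d - j) * r⁻¹ ^ (2 * (d - j)) = 1 := by
      rw [← hr2, ← pow_mul, ← mul_pow, mul_inv_cancel₀ hs.ne', one_pow]
    have e3 : r⁻¹ ^ (2 * d - j) ≠ 0 := pow_ne_zero _ (inv_ne_zero hs.ne')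
    constructor
    · intro h
      rw [h, e1, pow_add]
      calc (q : ℝ) ^ (d - j) * P.coeff j * (r⁻¹ ^ (2 * (d - j)) * r⁻¹ ^ j) =
          ((q : ℝ) ^ (d - j) * r⁻¹ ^ (2 * (d - j))) * (P.coeff j * r⁻¹ ^ j) := by ring
        _ = _ := by rw [e2, one_mul]
    · intro h
      apply mul_right_cancel₀ e3
      rw [h]
      conv_rhs => rw [e1, pow_add]
      calc P.coeff j * r⁻¹ ^ j = ((q : ℝ) ^ (d - j) * r⁻¹ ^ (2 * (d - j))) * (P.coeff j * r⁻¹ ^ j) := by
            rw [e2, one_mul]
        _ = _ := by ring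
  constructor
  · intro h
    have h' : ∀ j ≤ d, P.coeff (2 * d - j) * r⁻¹ ^ (2 * d - j) = P.coeff j * r⁻¹ ^ j :=
      fun j hj => (key j hj).mp (h j hj)
    ext a
    rw [coeff_reflect, comp_C_mul_X_coeff, comp_C_mul_X_coeff]
    rcases le_or_gt a (2 * d) with ha | ha
    · rw [revAt_le ha]
      rcases le_or_gt a d with had | had
      · exact h' a had
      · have h1 := h' (2 * d - a) (by omega)
        rw [Nat.sub_sub_self ha] at h1
        exact h1.symm
    · rw [revAt_eq_self_of_lt ha]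
  · intro h j hj
    rw [key j hj]
    have h1 := congrArg (fun W : ℝ[X] => W.coeff j) h
    simp only [coeff_reflect, comp_C_mul_X_coeff] at h1
    rw [revAt_le (by omega)] at h1
    exact h1

lemma natDegree_scale_le (P : ℝ[X]) (a : ℝ) : (P.comp (C a * X)).natDegree ≤ P.natDegree := by
  rw [natDegree_le_iff_coeff_eq_zero]
  intro j hj
  rw [comp_C_mul_X_coeff, coeff_eq_zero_of_natDegree_lt hj, zero_mul]

lemma IsTracePoly.mul {d d' q N N' : ℕ} (hq : 0 < q) {P P' : ℝ[X]} (h : IsTracePoly d q N P)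
    (h' : IsTracePoly d' q N' P') : IsTracePoly (d + d') q (N * N') (P * P') := by
  obtain ⟨h1, h2, h3, h4⟩ := h
  obtain ⟨h1', h2', h3', h4'⟩ := h'
  refine ⟨natDegree_mul_le.trans (by omega), ?_, ?_, ?_⟩
  · rw [eval_mul, h2, h2']
    push_cast
    rfl
  · rw [mul_coeff_zero, h3, h3', one_mul]
  · rw [dual_iff hq, mul_comp, Nat.mul_add, reflect_mul _ _
      ((natDegree_scale_le _ _).trans h1) ((natDegree_scale_le _ _).trans h1'),
      (dual_iff hq P).mp h4, (dual_iff hq P').mp h4']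

lemma IsTracePoly.one (q : ℕ) : IsTracePoly 0 q 1 1 := by
  refine ⟨by simp, by simp, by simp, fun j hj => ?_⟩
  have : j = 0 := by omega
  subst this
  simp

lemma IsTracePoly.prod {ι : Type*} (s : Finset ι) {d N : ι → ℕ} {q : ℕ} (hq : 0 < q)
    {P : ι → ℝ[X]} (h : ∀ m ∈ s, IsTracePoly (d m) q (N m) (P m)) :
    IsTracePoly (∑ m ∈ s, d m) q (∏ m ∈ s, N m) (∏ m ∈ s, P m) := by
  classical
  induction s using Finset.induction_on with
  | empty => exact IsTracePoly.one q
  | insert a s ha ih =>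
    rw [Finset.sum_insert ha, Finset.prod_insert ha, Finset.prod_insert ha]
    exact (h a (Finset.mem_insert_self _ _)).mul hq (ih fun m hm => h m (Finset.mem_insert_of_mem hm))

lemma outerPoly_coeff (d : ℕ) (b : ℕ → ℕ) (q a : ℕ) (ha : a ≤ 2 * d) :
    (outerPoly d b q).coeff a =
      if a ≠ d ∧ Even a then (b (a / 2) : ℝ) * (q : ℝ) ^ (a / 2) else 0 := by
  rw [outerPoly, finsetSum_coeff]
  have h2 : ∀ j ∈ (Finset.range (d + 1)).filter (fun j => 2 * j ≠ d),
      (C ((b j : ℝ) * (q : ℝ) ^ j) * X ^ (2 * j)).coeff a =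
      if j = a / 2 then (if Even a then (b (a / 2) : ℝ) * (q : ℝ) ^ (a / 2) else 0) else 0 := by
    intro j _
    rw [coeff_C_mul_X_pow]
    by_cases hj : a = 2 * j
    · have hj2 : j = a / 2 := by omega
      have hje : Even a := ⟨j, by omega⟩
      rw [if_pos hj, if_pos hj2, if_pos hje, hj2]
    · rw [if_neg hj]
      by_cases hj2 : j = a / 2
      · rw [if_pos hj2, if_neg]
        rintro ⟨e, he⟩
        omega
      · rw [if_neg hj2]
  rw [Finset.sum_congr rfl h2, Finset.sum_ite_eq']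
  by_cases h3 : Even a
  · obtain ⟨e, he⟩ := h3
    have he2 : a / 2 = e := by omega
    by_cases h4 : a = d
    · rw [if_neg, if_neg]
      · rintro ⟨h5, -⟩
        exact h5 h4
      · rw [Finset.mem_filter, he2]
        rintro ⟨-, h5⟩
        omega
    · rw [if_pos, if_pos ⟨e, he⟩, if_pos ⟨h4, ⟨e, he⟩⟩]
      rw [Finset.mem_filter, Finset.mem_range, he2]
      constructor <;> omega
  · have h5 : ¬ (a ≠ d ∧ Even a) := fun h => h3 h.2
    simp only [if_neg h5, if_neg h3, ite_self]

lemma middlePoly_coeff (d : ℕ) (b : ℕ → ℕ) (q N a : ℕ) (ha : a ≤ 2 * d) :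
    (middlePoly d b q N).coeff a =
      if a = d then (-1) ^ d * ((N : ℝ) - (outerPoly d b q).eval (-1))
      else if Even a then (b (a / 2) : ℝ) * (q : ℝ) ^ (a / 2) else 0 := by
  rw [middlePoly, coeff_add, outerPoly_coeff _ _ _ _ ha, coeff_C_mul_X_pow]
  by_cases h3 : a = d
  · rw [if_neg (fun h => h.1 h3), if_pos h3, if_pos h3, zero_add]
  · rw [if_neg h3, if_neg h3, add_zero]
    by_cases h4 : Even a
    · rw [if_pos ⟨h3, h4⟩, if_pos h4]
    · rw [if_neg (fun h => h4 h.2), if_neg h4]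

/-- The trace polynomial of a variety whose cohomology is algebraic outside the middle degree. -/
theorem middlePoly_isTracePoly {d : ℕ} (hd : 1 ≤ d) {b : ℕ → ℕ} (hb0 : b 0 = 1)
    (hb : ∀ j ≤ d, b (d - j) = b j) (q N : ℕ) : IsTracePoly d q N (middlePoly d b q N) := by
  refine ⟨?_, ?_, ?_, ?_⟩
  · rw [middlePoly]
    refine (natDegree_add_le _ _).trans (max_le ?_ ?_)
    · rw [outerPoly]
      refine natDegree_sum_le_of_forall_le _ _ fun j hj => ?_
      rw [Finset.mem_filter, Finset.mem_range] at hj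
      exact (natDegree_C_mul_X_pow_le _ _).trans (by omega)
    · exact (natDegree_C_mul_X_pow_le _ _).trans (by omega)
  · rw [middlePoly, eval_add]
    simp only [eval_mul, eval_C, eval_pow, eval_X]
    have h2 : ((-1 : ℝ) ^ d) * (-1) ^ d = 1 := by
      rw [← mul_pow]
      simp
    linear_combination ((N : ℝ) - (outerPoly d b q).eval (-1)) * h2
  · rw [middlePoly_coeff _ _ _ _ _ (by omega), if_neg (by omega), if_pos (by simp)]
    simp [hb0]
  · intro j hj
    rw [middlePoly_coeff _ _ _ _ _ (by omega), middlePoly_coeff _ _ _ _ _ (by omega)]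
    by_cases h1 : j = d
    · rw [if_pos (by omega), if_pos h1, h1]
      simp
    · rw [if_neg (by omega), if_neg h1]
      by_cases h2 : Even j
      · obtain ⟨e, he⟩ := h2
        have h3 : Even (2 * d - j) := ⟨d - e, by omega⟩
        rw [if_pos h3, if_pos ⟨e, he⟩]
        have h4 : (2 * d - j) / 2 = d - e := by omega
        have h5 : j / 2 = e := by omega
        have h6 : d - e = (d - j) + e := by omega
        rw [h4, h5, hb e (by omega)]
        conv_lhs => rw [h6, pow_add]
        ring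
      · have h3 : ¬ Even (2 * d - j) := by
          rintro ⟨e, he⟩
          exact h2 ⟨d - e, by omega⟩
        rw [if_neg h3, if_neg h2, mul_zero]

end Pool.Agent.Work.MP_2b9663_nt
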