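import Pool.Agent.Work.MP_2b9663_nt.PosDefs

set_option autoImplicit false

/-!
The middle coefficient of an even power of a palindromic polynomial.
-/

namespace Pool.Agent.Work.MP_2b9663_nt

open Polynomial Finset

/-- `W (e ^ (iθ)) = e ^ (ikθ) w(θ)` -/
def CRep (W : ℝ[X]) (k : ℕ) (w : ℝ → ℝ) : Prop :=
  ∀ θ : ℝ, (W.map (algebraMap ℝ ℂ)).eval (Complex.exp (θ * Complex.I)) =
    Complex.exp (((k : ℝ) * θ : ℝ) * Complex.I) * (w θ : ℂ)

lemma CRep.mul {W W' : ℝ[X]} {k k' : ℕ} {w w' : ℝ → ℝ} (h : CRep W k w) (h' : CRep W' k' w') :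
    CRep (W * W') (k + k') (fun θ => w θ * w' θ) := by
  intro θ
  rw [Polynomial.map_mul, eval_mul, h θ, h' θ]
  have : Complex.exp ((((k + k' : ℕ) : ℝ) * θ : ℝ) * Complex.I) =
      Complex.exp (((k : ℝ) * θ : ℝ) * Complex.I) * Complex.exp (((k' : ℝ) * θ : ℝ) * Complex.I) := by
    rw [← Complex.exp_add]
    congr 1
    push_cast
    ring
  rw [this, Complex.ofReal_mul (w θ) (w' θ)]
  ring

lemma CRep.one : CRep 1 0 (fun _ => 1) := by
  intro θ
  simp

lemma CRep.pow {W : ℝ[X]} {k : ℕ} {w : ℝ → ℝ} (h : CRep W k w) (n : ℕ) :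
    CRep (W ^ n) (n * k) (fun θ => w θ ^ n) := by
  induction n with
  | zero => simpa using CRep.one
  | succ n ih =>
    have h1 := ih.mul h
    have h2 : (n + 1) * k = n * k + k := by ring
    rw [pow_succ, h2]
    simpa only [pow_succ] using h1

lemma CRep.sub {W W' : ℝ[X]} {k : ℕ} {w w' : ℝ → ℝ} (h : CRep W k w) (h' : CRep W' k w') :
    CRep (W - W') k (fun θ => w θ - w' θ) := by
  intro θ
  rw [Polynomial.map_sub, eval_sub, h θ, h' θ, Complex.ofReal_sub]
  ring

lemma sum_exp_eq {M : ℕ} (hM : 0 < M) {j k : ℕ} (hj : j < M) (hk : k < M) :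
    ∑ l ∈ range M, Complex.exp ((((j : ℝ) - k) * (2 * Real.pi * l / M) : ℝ) * Complex.I) =
      if j = k then (M : ℂ) else 0 := by
  have hM0 : (M : ℂ) ≠ 0 := by exact_mod_cast hM.ne'
  split_ifs with h
  · subst h
    simp
  · set r : ℂ := Complex.exp (2 * Real.pi * Complex.I * (((j : ℤ) - k : ℤ) / M : ℂ)) with hr
    have h1 : ∀ l ∈ range M,
        Complex.exp ((((j : ℝ) - k) * (2 * Real.pi * l / M) : ℝ) * Complex.I) = r ^ l := by
      intro l _
      rw [hr, ← Complex.exp_nat_mul]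
      congr 1
      push_cast
      ring
    rw [Finset.sum_congr rfl h1]
    have h2 : r ^ M = 1 := by
      rw [hr, ← Complex.exp_nat_mul, Complex.exp_eq_one_iff]
      refine ⟨(j : ℤ) - k, ?_⟩
      field_simp
    have h3 : r ≠ 1 := by
      rw [hr, Ne, Complex.exp_eq_one_iff]
      rintro ⟨m, hm⟩
      have h4 : (((j : ℤ) - k : ℤ) : ℂ) = m * M := by
        have h5 : (2 * Real.pi * Complex.I : ℂ) ≠ 0 := Complex.two_pi_I_ne_zero
        have h6 : (2 * Real.pi * Complex.I : ℂ) * ((((j : ℤ) - k : ℤ) : ℂ) / M) =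
            (2 * Real.pi * Complex.I) * m := by rw [hm]; ring
        have h7 := mul_left_cancel₀ h5 h6
        field_simp at h7
        rw [h7]
        ring
      have h5 : (j : ℤ) - k = m * M := by exact_mod_cast h4
      have h6 : ((j : ℤ) - k) % M = 0 := by rw [h5]; exact Int.mul_emod_left m M
      rcases lt_or_gt_of_ne h with h7 | h7
      · have h8 : m * M < 0 := by rw [← h5]; omega
        have h9 : m < 0 := by nlinarith
        have : m * M ≤ -1 * M := by nlinarith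
        omega
      · have h8 : 0 < m * M := by rw [← h5]; omega
        have h9 : 0 < m := by nlinarith
        have : 1 * (M : ℤ) ≤ m * M := by nlinarith
        omega
    have h4 := geom_sum_mul r M
    rw [h2, sub_self] at h4
    exact (mul_eq_zero.mp h4).resolve_right (sub_ne_zero.mpr h3)

/-- A coefficient as a mean value. -/
lemma CRep.mean {W : ℝ[X]} {k : ℕ} {w : ℝ → ℝ} (h : CRep W k w) {M : ℕ} (hM : W.natDegree < M)
    (hk : k < M) : (M : ℝ) * W.coeff k = ∑ l ∈ range M, w (2 * Real.pi * l / M) := by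
  have hM0 : 0 < M := by omega
  have h1 : ∀ θ : ℝ, (w θ : ℂ) = ∑ j ∈ range M, (W.coeff j : ℂ) *
      Complex.exp ((((j : ℝ) - k) * θ : ℝ) * Complex.I) := by
    intro θ
    have h2 : (w θ : ℂ) = Complex.exp ((-((k : ℝ) * θ) : ℝ) * Complex.I) *
        (W.map (algebraMap ℝ ℂ)).eval (Complex.exp (θ * Complex.I)) := by
      rw [h θ, ← mul_assoc, ← Complex.exp_add]
      have : ((-((k : ℝ) * θ) : ℝ) : ℂ) * Complex.I + (((k : ℝ) * θ : ℝ) : ℂ) * Complex.I = 0 := by
        push_cast; ring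
      rw [this, Complex.exp_zero, one_mul]
    rw [h2, eval_eq_sum_range' (n := M) (lt_of_le_of_lt (natDegree_map_le) hM), Finset.mul_sum]
    refine Finset.sum_congr rfl fun j _ => ?_
    rw [coeff_map, ← Complex.exp_nat_mul]
    have h3 : Complex.exp ((((j : ℝ) - k) * θ : ℝ) * Complex.I) =
        Complex.exp ((-((k : ℝ) * θ) : ℝ) * Complex.I) * Complex.exp ((j : ℂ) * (θ * Complex.I)) := by
      rw [← Complex.exp_add]
      congr 1
      push_cast
      ring
    rw [h3]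
    simp only [Complex.coe_algebraMap]
    ring
  have h2 : ((∑ l ∈ range M, w (2 * Real.pi * l / M) : ℝ) : ℂ) = ((M : ℝ) * W.coeff k : ℝ) := by
    rw [Complex.ofReal_sum]
    have h3 : ∀ l ∈ range M, (w (2 * Real.pi * l / M) : ℂ) = ∑ j ∈ range M, (W.coeff j : ℂ) *
      Complex.exp ((((j : ℝ) - k) * (2 * Real.pi * l / M) : ℝ) * Complex.I) := fun l _ => h1 _
    rw [Finset.sum_congr rfl h3, Finset.sum_comm]
    have h4 : ∀ j ∈ range M, ∑ l ∈ range M, (W.coeff j : ℂ) *
        Complex.exp ((((j : ℝ) - k) * (2 * Real.pi * l / M) : ℝ) * Complex.I) =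
        if j = k then (W.coeff j : ℂ) * M else 0 := by
      intro j hj
      rw [← Finset.mul_sum, sum_exp_eq hM0 (Finset.mem_range.mp hj) hk]
      split_ifs <;> simp
    rw [Finset.sum_congr rfl h4, Finset.sum_ite_eq' (range M) k, if_pos (Finset.mem_range.mpr hk)]
    push_cast
    ring
  exact (Complex.ofReal_injective h2).symm

/-- the tangent line inequality -/
lemma tangent_le {n : ℕ} (hn : Even n) (hn0 : n ≠ 0) (u v : ℝ) :
    v ^ n + n * (v ^ (n - 1) * (u - v)) ≤ u ^ n := by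
  obtain ⟨m, rfl⟩ : ∃ m, n = m + 1 := ⟨n - 1, by omega⟩
  rw [Nat.add_sub_cancel]
  rcases eq_or_ne v 0 with rfl | hv
  · have hm : m ≠ 0 := by
      rintro rfl
      simp at hn
    rw [zero_pow hn0, zero_pow hm, zero_mul, mul_zero, add_zero]
    exact hn.pow_nonneg u
  · set h := u / v - 1 with hh
    have hu : u = v * (1 + h) := by
      rw [hh]
      field_simp
      ring
    have h1 : 1 + ((m + 1 : ℕ) : ℝ) * h ≤ (1 + h) ^ (m + 1) := by
      rcases le_or_gt (-2) h with h2 | h2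
      · exact one_add_mul_le_pow h2 (m + 1)
      · have h3 : (1 : ℝ) ≤ ((m + 1 : ℕ) : ℝ) := by exact_mod_cast Nat.le_add_left 1 m
        have h4 : 1 + ((m + 1 : ℕ) : ℝ) * h ≤ 0 := by nlinarith
        exact h4.trans (hn.pow_nonneg _)
    have h2 := mul_le_mul_of_nonneg_left h1 (hn.pow_nonneg v)
    rw [hu, mul_pow]
    refine le_trans (le_of_eq ?_) h2
    rw [pow_succ]
    ring

/-- Palindromic polynomials. -/
lemma palindromic_crep {d : ℕ} {R : ℝ[X]} (hR : R.natDegree ≤ 2 * d)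
    (hp : ∀ j ≤ d, R.coeff (2 * d - j) = R.coeff j) :
    ∃ a : ℝ → ℝ, CRep R d a := by
  have hp' : ∀ j ∈ range (2 * d + 1), R.coeff (2 * d - j) = R.coeff j := by
    intro j hj
    rw [Finset.mem_range] at hj
    rcases le_or_gt j d with h | h
    · exact hp j h
    · have h1 := hp (2 * d - j) (by omega)
      rw [Nat.sub_sub_self (by omega)] at h1
      exact h1.symm
  refine ⟨fun θ => ∑ j ∈ range (2 * d + 1), R.coeff j * Real.cos (((j : ℝ) - d) * θ), fun θ => ?_⟩
  have h1 : ∑ j ∈ range (2 * d + 1), R.coeff j * Real.sin (((j : ℝ) - d) * θ) = 0 := by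
    have h2 : ∑ j ∈ range (2 * d + 1), R.coeff j * Real.sin (((j : ℝ) - d) * θ) =
        -∑ j ∈ range (2 * d + 1), R.coeff j * Real.sin (((j : ℝ) - d) * θ) := by
      conv_lhs => rw [← Finset.sum_range_reflect]
      rw [← Finset.sum_neg_distrib]
      refine Finset.sum_congr rfl fun j hj => ?_
      have h3 := hp' j hj
      rw [Finset.mem_range] at hj
      rw [Nat.add_sub_cancel, h3, Nat.cast_sub (by omega), ← mul_neg, ← Real.sin_neg]
      congr 2
      push_cast
      ring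
    linarith
  rw [eval_eq_sum_range' (n := 2 * d + 1) (lt_of_le_of_lt natDegree_map_le (by omega))]
  have h2 : Complex.exp (((d : ℝ) * θ : ℝ) * Complex.I) *
      ((∑ j ∈ range (2 * d + 1), R.coeff j * Real.cos (((j : ℝ) - d) * θ) : ℝ) : ℂ) =
      Complex.exp (((d : ℝ) * θ : ℝ) * Complex.I) *
      (((∑ j ∈ range (2 * d + 1), R.coeff j * Real.cos (((j : ℝ) - d) * θ) : ℝ) : ℂ) +
      ((∑ j ∈ range (2 * d + 1), R.coeff j * Real.sin (((j : ℝ) - d) * θ) : ℝ) : ℂ) * Complex.I) := by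
    rw [h1]
    simp
  rw [h2, Complex.ofReal_sum, Complex.ofReal_sum, Finset.sum_mul, ← Finset.sum_add_distrib,
    Finset.mul_sum]
  refine Finset.sum_congr rfl fun j _ => ?_
  rw [coeff_map, ← Complex.exp_nat_mul]
  have h3 : Complex.exp ((j : ℂ) * (θ * Complex.I)) = Complex.exp (((d : ℝ) * θ : ℝ) * Complex.I) *
      Complex.exp (((((j : ℝ) - d) * θ : ℝ) : ℂ) * Complex.I) := by
    rw [← Complex.exp_add]
    congr 1
    push_cast
    ring
  have h4 : Complex.exp (((((j : ℝ) - d) * θ : ℝ) : ℂ) * Complex.I) =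
      (Real.cos (((j : ℝ) - d) * θ) : ℂ) + (Real.sin (((j : ℝ) - d) * θ) : ℂ) * Complex.I := by
    rw [Complex.exp_mul_I, ← Complex.ofReal_cos, ← Complex.ofReal_sin]
  rw [h3, h4, Complex.ofReal_mul (R.coeff j) (Real.cos _), Complex.ofReal_mul (R.coeff j) (Real.sin _)]
  simp only [Complex.coe_algebraMap]
  ring

lemma coeff_pow_top {d : ℕ} (hd : 1 ≤ d) (n k : ℕ) :
    ((1 + X ^ (2 * d) : ℝ[X]) ^ n).coeff (2 * d * k) = (n.choose k : ℝ) := by
  have h1 : (1 + X ^ (2 * d) : ℝ[X]) ^ n = expand ℝ (2 * d) ((1 + X) ^ n) := by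
    rw [map_pow, map_add, map_one, expand_X]
  rw [h1, coeff_expand_mul' (by omega), coeff_one_add_X_pow]

lemma coeff_pow_top_ne {d : ℕ} (hd : 1 ≤ d) (n a : ℕ) (ha : ¬ 2 * d ∣ a) :
    ((1 + X ^ (2 * d) : ℝ[X]) ^ n).coeff a = 0 := by
  have h1 : (1 + X ^ (2 * d) : ℝ[X]) ^ n = expand ℝ (2 * d) ((1 + X) ^ n) := by
    rw [map_pow, map_add, map_one, expand_X]
  rw [h1, coeff_expand (by omega), if_neg ha]

/-- The middle coefficient of an even power of a palindromic polynomial with constant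
coefficient `1`. -/
theorem palindromic_middle {d : ℕ} (hd : 1 ≤ d) {R : ℝ[X]} (hR : R.natDegree ≤ 2 * d)
    (h0 : R.coeff 0 = 1) (hp : ∀ j ≤ d, R.coeff (2 * d - j) = R.coeff j) {n : ℕ} (hn : Even n) :
    (n.choose (n / 2) : ℝ) ≤ (R ^ n).coeff (n * d) := by
  rcases Nat.eq_zero_or_pos n with rfl | hn0
  · simp
  obtain ⟨a, ha⟩ := palindromic_crep hR hp
  have hV : (1 + X ^ (2 * d) : ℝ[X]).natDegree ≤ 2 * d := by
    refine (natDegree_add_le _ _).trans ?_
    rw [natDegree_one, natDegree_X_pow]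
    simp
  have h1X : (1 + X ^ (2 * d) : ℝ[X]).coeff 0 = 1 := by
    rw [coeff_add, coeff_one_zero, coeff_X_pow, if_neg (by omega), add_zero]
  have h2X : ∀ b, 0 < b → (1 + X ^ (2 * d) : ℝ[X]).coeff b = if b = 2 * d then 1 else 0 := by
    intro b hb
    rw [coeff_add, coeff_one, if_neg (by omega), zero_add, coeff_X_pow]
  obtain ⟨v, hv⟩ := palindromic_crep (d := d) hV (fun j hj => by
    rcases Nat.eq_zero_or_pos j with rfl | hj0
    · rw [Nat.sub_zero, h1X, h2X _ (by omega), if_pos rfl]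
    · rw [h2X _ (by omega), h2X _ hj0, if_neg (by omega), if_neg (by omega)])
  set V : ℝ[X] := 1 + X ^ (2 * d) with hVdef
  have hR2 : R.coeff (2 * d) = 1 := by
    have := hp 0 (Nat.zero_le _)
    rw [Nat.sub_zero, h0] at this
    exact this
  -- the mean values
  have e1 := (ha.pow n).mean (M := 2 * (n * d) + 1)
    (lt_of_le_of_lt (natDegree_pow_le.trans (Nat.mul_le_mul_left n hR)) (by
      have : n * (2 * d) = 2 * (n * d) := by ring
      omega)) (by omega)
  have e2 := (hv.pow n).mean (M := 2 * (n * d) + 1)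
    (lt_of_le_of_lt (natDegree_pow_le.trans (Nat.mul_le_mul_left n hV)) (by
      have : n * (2 * d) = 2 * (n * d) := by ring
      omega)) (by omega)
  have hk : (n - 1) * d + d = n * d := by
    obtain ⟨m, rfl⟩ : ∃ m, n = m + 1 := ⟨n - 1, by omega⟩
    rw [Nat.add_sub_cancel]
    ring
  have e3 := ((hv.pow (n - 1)).mul (ha.sub hv)).mean (M := 2 * (n * d) + 1)
    (by
      refine lt_of_le_of_lt (natDegree_mul_le.trans (add_le_add
        (natDegree_pow_le.trans (Nat.mul_le_mul_left (n - 1) hV)) ((natDegree_sub_le _ _).trans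
          (max_le hR hV)))) ?_
      have : (n - 1) * (2 * d) + 2 * d = 2 * ((n - 1) * d + d) := by ring
      rw [this, hk]
      omega) (by rw [hk]; omega)
  rw [hk] at e3
  have e4 : (V ^ (n - 1) * (R - V)).coeff (n * d) = 0 := by
    rw [coeff_mul]
    refine Finset.sum_eq_zero fun x hx => ?_
    rw [HasAntidiagonal.mem_antidiagonal] at hx
    by_cases hdv : 2 * d ∣ x.1
    · have hdn : 2 * d ∣ n * d := by
        obtain ⟨m, hm⟩ := hn
        exact ⟨m, by rw [hm]; ring⟩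
      have h2 : 2 * d ∣ x.2 := by
        rw [← hx] at hdn
        exact (Nat.dvd_add_right hdv).mp hdn
      have h3 : (R - V).coeff x.2 = 0 := by
        obtain ⟨b, hb⟩ := h2
        rw [coeff_sub]
        rcases Nat.eq_zero_or_pos b with rfl | hb0
        · rw [hb, Nat.mul_zero, h0, h1X, sub_self]
        · rcases Nat.lt_or_ge 1 b with hb1 | hb1
          · have h4 : 2 * d < x.2 := by
              rw [hb]
              nlinarith
            rw [h2X _ (by omega), if_neg (by omega), coeff_eq_zero_of_natDegree_lt (by omega),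
              sub_self]
          · have hb2 : b = 1 := by omega
            rw [hb, hb2, Nat.mul_one, h2X _ (by omega), if_pos rfl, hR2, sub_self]
      rw [h3, mul_zero]
    · rw [coeff_pow_top_ne hd _ _ hdv, zero_mul]
  rw [e4, mul_zero] at e3
  have e5 : (V ^ n).coeff (n * d) = (n.choose (n / 2) : ℝ) := by
    have h2 : n * d = 2 * d * (n / 2) := by
      obtain ⟨m, rfl⟩ := hn
      rw [show (m + m) / 2 = m by omega]
      ring
    rw [h2, coeff_pow_top hd]
  rw [e5] at e2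
  have hM : (0 : ℝ) < ((2 * (n * d) + 1 : ℕ) : ℝ) := by positivity
  refine le_of_mul_le_mul_left ?_ hM
  rw [e1, e2]
  have e6 : ∑ l ∈ range (2 * (n * d) + 1), (v (2 * Real.pi * l / ((2 * (n * d) + 1 : ℕ) : ℝ)) ^ n +
      n * (v (2 * Real.pi * l / ((2 * (n * d) + 1 : ℕ) : ℝ)) ^ (n - 1) *
        (a (2 * Real.pi * l / ((2 * (n * d) + 1 : ℕ) : ℝ)) -
          v (2 * Real.pi * l / ((2 * (n * d) + 1 : ℕ) : ℝ))))) ≤
      ∑ l ∈ range (2 * (n * d) + 1), a (2 * Real.pi * l / ((2 * (n * d) + 1 : ℕ) : ℝ)) ^ n :=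
    Finset.sum_le_sum fun l _ => tangent_le hn (by omega) _ _
  rw [Finset.sum_add_distrib, ← Finset.mul_sum, ← e3, mul_zero, add_zero] at e6
  exact e6

/-- The middle coefficient of an even power of a self-dual polynomial. -/
theorem trace_middle_aux {d q : ℕ} (hd : 1 ≤ d) (hq : 0 < q) {P : ℝ[X]}
    (hdeg : P.natDegree ≤ 2 * d) (h0 : P.coeff 0 = 1)
    (hdual : ∀ j ≤ d, P.coeff (2 * d - j) = (q : ℝ) ^ (d - j) * P.coeff j) {n : ℕ} (hn : Even n) :
    (n.choose (n / 2) : ℝ) * Real.sqrt q ^ (n * d) ≤ (P ^ n).coeff (n * d) := by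
  have hq0 : (0 : ℝ) < q := by exact_mod_cast hq
  have hs : 0 < Real.sqrt q := Real.sqrt_pos.mpr hq0
  set r := Real.sqrt q with hr
  have hr2 : r ^ 2 = q := Real.sq_sqrt hq0.le
  set R : ℝ[X] := P.comp (C r⁻¹ * X) with hRdef
  have hcoeff : ∀ j, R.coeff j = P.coeff j * r⁻¹ ^ j := fun j => by
    rw [hRdef, comp_C_mul_X_coeff]
  have hR : R.natDegree ≤ 2 * d := by
    rw [natDegree_le_iff_coeff_eq_zero]
    intro j hj
    rw [hcoeff, coeff_eq_zero_of_natDegree_lt (by omega), zero_mul]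
  have hPR : P = R.comp (C r * X) := by
    ext j
    rw [comp_C_mul_X_coeff, hcoeff, mul_assoc, ← mul_pow, inv_mul_cancel₀ hs.ne', one_pow, mul_one]
  have h1 := palindromic_middle hd hR (by rw [hcoeff, h0]; simp) (fun j hj => by
    rw [hcoeff, hcoeff, hdual j hj, ← hr2]
    have e1 : 2 * d - j = 2 * (d - j) + j := by omega
    rw [e1, pow_add, pow_mul, ← pow_mul]
    have e2 : (r ^ (2 * (d - j))) * (r⁻¹ ^ 2) ^ (d - j) = 1 := by
      rw [pow_mul, ← mul_pow, ← mul_pow, mul_inv_cancel₀ hs.ne', one_pow, one_pow]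
    calc r ^ (2 * (d - j)) * P.coeff j * ((r⁻¹ ^ 2) ^ (d - j) * r⁻¹ ^ j) =
        (r ^ (2 * (d - j)) * (r⁻¹ ^ 2) ^ (d - j)) * (P.coeff j * r⁻¹ ^ j) := by ring
      _ = _ := by rw [e2, one_mul]) hn
  have h2 : (P ^ n).coeff (n * d) = (R ^ n).coeff (n * d) * r ^ (n * d) := by
    conv_lhs => rw [hPR, ← pow_comp]
    rw [comp_C_mul_X_coeff]
  rw [h2]
  exact mul_le_mul_of_nonneg_right h1 (pow_pos hs _).le

/-- The middle degree of an even power of a variety: the traces. -/
theorem trace_middle {d q N : ℕ} (hd : 1 ≤ d) (hq : 0 < q) {P : ℝ[X]} (hP : IsTracePoly d q N P)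
    {n : ℕ} (hn : Even n) :
    (n.choose (n / 2) : ℝ) * Real.sqrt q ^ (n * d) ≤ (P ^ n).coeff (n * d) :=
  trace_middle_aux hd hq hP.1 hP.2.2.1 hP.2.2.2 hn

/-- The middle degree of a variety whose trace polynomials are even powers: the traces. -/
theorem root_middle {d q N : ℕ} (hd : 1 ≤ d) (hq : 0 < q) {n : ℕ} {R : ℝ[X]}
    (hR : IsRootPoly d q n N R) (hn : Even n) :
    (n.choose (n / 2) : ℝ) * Real.sqrt q ^ (n * d) ≤ (R ^ n).coeff (n * d) :=
  trace_middle_aux hd hq hR.1 hR.2.2.1 hR.2.2.2 hn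

/-- The trace polynomial of `Y` is an `n`-th root of the one of `Y ^ n`. -/
lemma IsTracePoly.root {d q N : ℕ} {P : ℝ[X]} (hP : IsTracePoly d q N P) (n : ℕ) :
    IsRootPoly d q n (N ^ n) P :=
  ⟨hP.1, by rw [hP.2.1, Nat.cast_pow], hP.2.2.1, hP.2.2.2⟩

end Pool.Agent.Work.MP_2b9663_nt
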