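import Pool.Agent.Work.MP_2b9663_nt.Lpoly

set_option autoImplicit false

/-!
For `f` of even degree the `L`-polynomial has the trivial zero coming from the two points at
infinity.
-/

namespace Pool.Agent.Work.MP_2b9663_nt

open Finset Polynomial

section

variable {K : Type*} [Field K] [Fintype K] [DecidableEq K]

open Classical in
/-- the polynomials of degree less than `m` -/
noncomputable def LowF (K : Type*) [Field K] [Fintype K] (m : ℕ) : Finset K[X] :=
  (univ : Finset (Fin m → K)).image (fun c => pol c)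

omit [DecidableEq K] in
lemma mem_LowF {m : ℕ} {h : K[X]} : h ∈ LowF K m ↔ h.degree < m := by
  classical
  unfold LowF
  rw [Finset.mem_image]
  constructor
  · rintro ⟨c, -, rfl⟩
    exact pol_degree c
  · intro h1
    refine ⟨fun i => h.coeff i, Finset.mem_univ _, ?_⟩
    ext k
    rcases lt_or_ge k m with hk | hk
    · exact pol_coeff (fun i : Fin m => h.coeff i) ⟨k, hk⟩
    · rw [coeff_eq_zero_of_degree_lt, coeff_eq_zero_of_degree_lt]
      · exact h1.trans_le (by exact_mod_cast hk)
      · exact (pol_degree _).trans_le (by exact_mod_cast hk)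

lemma sum_low_eq_zero (hK : ringChar K ≠ 2) {f : K[X]} (hf : Squarefree f)
    (hf1 : 1 ≤ f.natDegree) :
    ∑ h ∈ LowF K f.natDegree, quadraticChar K (rho f h) = 0 := by
  classical
  have hf0 : f ≠ 0 := hf.ne_zero
  obtain ⟨v, hv⟩ := exists_nonsquare hK hf hf1
  have hrv : rho f v ≠ 0 := by
    intro h
    rw [h, quadraticChar_zero] at hv
    norm_num at hv
  have hcop : IsCoprime f v := by
    by_contra h
    exact hrv (rho_eq_zero hf0 h)
  have hmod : ∀ h : K[X], f ∣ h - h % f := fun h =>
    ⟨h / f, by have := EuclideanDomain.div_add_mod h f; linear_combination this.symm⟩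
  have hdeg : ∀ h : K[X], (h % f).degree < f.degree := fun h => EuclideanDomain.mod_lt h hf0
  set σ : K[X] → K[X] := fun h => (v * h) % f with hσ
  have hσc : ∀ h, f ∣ σ h - v * h := by
    intro h
    obtain ⟨b, hb⟩ := hmod (v * h)
    refine ⟨- b, ?_⟩
    simp only [hσ]
    linear_combination - hb
  have hσm : ∀ h ∈ LowF K f.natDegree, σ h ∈ LowF K f.natDegree := by
    intro h hh
    rw [mem_LowF]
    rw [← degree_eq_natDegree hf0]
    exact hdeg _
  have hσi : Set.InjOn σ (LowF K f.natDegree : Set K[X]) := by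
    intro h1 hh1 h2 hh2 he
    rw [Finset.mem_coe, mem_LowF] at hh1 hh2
    have h3 : f ∣ v * h1 - v * h2 := by
      have := dvd_sub (hσc h2) (hσc h1)
      rw [he] at this
      obtain ⟨w, hw⟩ := this
      exact ⟨w, by linear_combination hw⟩
    rw [← mul_sub] at h3
    have h4 : f ∣ h1 - h2 := hcop.dvd_of_dvd_mul_left h3
    by_contra hne
    have h8 := degree_le_of_dvd h4 (sub_ne_zero.mpr hne)
    have h9 : (h1 - h2).degree < f.degree := by
      rw [degree_eq_natDegree hf0]
      exact (degree_sub_le _ _).trans_lt (max_lt hh1 hh2)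
    exact absurd h8 (not_le.mpr h9)
  have himg : (LowF K f.natDegree).image σ = LowF K f.natDegree := by
    apply Finset.eq_of_subset_of_card_le
    · intro y hy
      rw [Finset.mem_image] at hy
      obtain ⟨x, hx, rfl⟩ := hy
      exact hσm x hx
    · rw [Finset.card_image_of_injOn hσi]
  have h1 : ∑ h ∈ LowF K f.natDegree, quadraticChar K (rho f h) =
      ∑ h ∈ LowF K f.natDegree, quadraticChar K (rho f (σ h)) := by
    conv_lhs => rw [← himg]
    exact Finset.sum_image hσi
  have h2 : ∑ h ∈ LowF K f.natDegree, quadraticChar K (rho f (σ h)) =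
      - ∑ h ∈ LowF K f.natDegree, quadraticChar K (rho f h) := by
    rw [← Finset.sum_neg_distrib]
    refine Finset.sum_congr rfl fun h _ => ?_
    rw [rho_congr hf0 (hσc h), rho_mul hf0, map_mul, hv]
    ring
  omega

omit [Fintype K] [DecidableEq K] in
lemma rho_C {f : K[X]} (hf : f ≠ 0) (a : K) : rho f (C a) = a ^ f.natDegree := by
  have h1 := rho_spec hf (C a) (N := 0) (by simp)
  rw [pow_zero, one_mul] at h1
  rw [← h1]
  simp

theorem sum_cc_even (hK : ringChar K ≠ 2) {f : K[X]} (hf : Squarefree f)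
    (hf1 : 1 ≤ f.natDegree) (he : Even f.natDegree) :
    ∑ n ∈ range f.natDegree, cc f n * (quadraticChar K f.leadingCoeff) ^ n = 0 := by
  classical
  have hf0 : f ≠ 0 := hf.ne_zero
  have hlc : f.leadingCoeff ≠ 0 := leadingCoeff_ne_zero.mpr hf0
  set m := f.natDegree with hm
  have hηsq : ∀ a : K, a ≠ 0 → ∀ n : ℕ, (quadraticChar K a) ^ n * (quadraticChar K a) ^ n = 1 := by
    intro a ha n
    rw [← mul_pow, ← sq, quadraticChar_sq_one ha, one_pow]
  -- first step
  have h1 : ∀ n, cc f n * (quadraticChar K f.leadingCoeff) ^ n =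
      ∑ h ∈ MonF K n, quadraticChar K (rho f h) := by
    intro n
    rw [cc, Finset.sum_mul]
    refine Finset.sum_congr rfl fun h hh => ?_
    rw [mem_MonF] at hh
    rw [chi, rho_comm hf0 hh.1, map_mul, hh.2, he.neg_one_pow, one_mul, map_pow]
    have := hηsq f.leadingCoeff hlc n
    linear_combination (quadraticChar K (rho f h)) * this
  rw [Finset.sum_congr rfl fun n _ => h1 n]
  -- second step
  set M := (LowF K m).filter (fun h => h.Monic) with hM
  have h2 : ∑ n ∈ range m, ∑ h ∈ MonF K n, quadraticChar K (rho f h) =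
      ∑ h ∈ M, quadraticChar K (rho f h) := by
    rw [← Finset.sum_fiberwise_of_maps_to (s := M) (t := range m) (g := fun h => h.natDegree)]
    · refine Finset.sum_congr rfl fun n hn => Finset.sum_congr ?_ fun _ _ => rfl
      ext h
      rw [mem_MonF, Finset.mem_filter, hM, Finset.mem_filter, mem_LowF]
      rw [Finset.mem_range] at hn
      constructor
      · rintro ⟨ha, hb⟩
        refine ⟨⟨?_, ha⟩, hb⟩
        rw [degree_eq_natDegree ha.ne_zero, hb]
        exact_mod_cast hn
      · rintro ⟨⟨_, ha⟩, hb⟩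
        exact ⟨ha, hb⟩
    · intro h hh
      rw [hM, Finset.mem_filter, mem_LowF] at hh
      rw [Finset.mem_range]
      rw [degree_eq_natDegree hh.2.ne_zero] at hh
      exact_mod_cast hh.1
  rw [h2]
  -- third step
  have h3 : ∑ u ∈ (LowF K m).filter (fun u => u ≠ 0), quadraticChar K (rho f u) =
      ∑ x ∈ (univ.filter (fun a : K => a ≠ 0)) ×ˢ M, quadraticChar K (rho f x.2) := by
    symm
    refine Finset.sum_nbij' (fun x => C x.1 * x.2)
      (fun u => (u.leadingCoeff, C (u.leadingCoeff)⁻¹ * u)) ?_ ?_ ?_ ?_ ?_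
    · rintro ⟨a, h⟩ hx
      rw [Finset.mem_product, Finset.mem_filter, hM, Finset.mem_filter, mem_LowF] at hx
      rw [Finset.mem_filter, mem_LowF]
      refine ⟨?_, mul_ne_zero (C_ne_zero.mpr hx.1.2) hx.2.2.ne_zero⟩
      rw [degree_C_mul hx.1.2]
      exact hx.2.1
    · intro u hu
      rw [Finset.mem_filter, mem_LowF] at hu
      rw [Finset.mem_product, Finset.mem_filter, hM, Finset.mem_filter, mem_LowF]
      have hl : u.leadingCoeff ≠ 0 := leadingCoeff_ne_zero.mpr hu.2
      refine ⟨⟨Finset.mem_univ _, hl⟩, ?_, ?_⟩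
      · rw [degree_C_mul (inv_ne_zero hl)]
        exact hu.1
      · rw [mul_comm]
        exact monic_mul_leadingCoeff_inv hu.2
    · rintro ⟨a, h⟩ hx
      rw [Finset.mem_product, Finset.mem_filter, hM, Finset.mem_filter, mem_LowF] at hx
      have ha : a ≠ 0 := hx.1.2
      have hl : (C a * h).leadingCoeff = a := by
        rw [leadingCoeff_mul, leadingCoeff_C, hx.2.2.leadingCoeff, mul_one]
      simp only [hl]
      rw [← mul_assoc, ← C_mul, inv_mul_cancel₀ ha, C_1, one_mul]
    · intro u hu
      rw [Finset.mem_filter] at hu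
      have hl : u.leadingCoeff ≠ 0 := leadingCoeff_ne_zero.mpr hu.2
      simp only
      rw [← mul_assoc, ← C_mul, mul_inv_cancel₀ hl, C_1, one_mul]
    · rintro ⟨a, h⟩ hx
      rw [Finset.mem_product, Finset.mem_filter] at hx
      have ha : a ≠ 0 := hx.1.2
      simp only
      rw [rho_mul hf0, rho_C hf0, map_mul, map_pow]
      obtain ⟨k, hk⟩ := he
      rw [← hm, hk, pow_add, hηsq a ha, one_mul]
  have h4 := sum_low_eq_zero hK hf hf1
  rw [← hm] at h4
  have h5 : ∑ h ∈ LowF K m, quadraticChar K (rho f h) =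
      ∑ u ∈ (LowF K m).filter (fun u => u ≠ 0), quadraticChar K (rho f u) := by
    symm
    apply Finset.sum_filter_of_ne
    intro u _ hu h0
    apply hu
    rw [h0]
    have hfu : ¬ IsUnit f := by
      intro h
      have := natDegree_eq_zero_of_isUnit h
      omega
    rw [rho_eq_zero hf0 (by rw [isCoprime_zero_right]; exact hfu), quadraticChar_zero]
  rw [h5, h3, Finset.sum_product] at h4
  simp only at h4
  rw [Finset.sum_const, nsmul_eq_mul] at h4
  have h6 : (univ.filter (fun a : K => a ≠ 0)).card ≠ 0 := by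
    rw [Finset.card_ne_zero]
    exact ⟨1, Finset.mem_filter.mpr ⟨Finset.mem_univ _, one_ne_zero⟩⟩
  have h7 : (((univ.filter (fun a : K => a ≠ 0)).card : ℕ) : ℤ) ≠ 0 := by exact_mod_cast h6
  exact (mul_eq_zero.mp h4).resolve_left h7

end

end Pool.Agent.Work.MP_2b9663_nt
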