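import Mathlib

set_option autoImplicit false

/-!
Power sums of complex numbers: Newton's identities and growth.
-/

namespace Pool.Agent.Work.MP_2b9663_nt

open Finset Polynomial Filter Topology

/-- Newton's identities characterise power sums. -/
theorem newton_roots (a S : ℕ → ℂ) (r : ℕ) (a0 : a 0 = 1) (ha : ∀ n, r < n → a n = 0)
    (hN : ∀ n : ℕ, (n : ℂ) * a n = ∑ k ∈ Icc 1 n, S k * a (n - k)) :
    ∃ α : Fin r → ℂ, (∀ k, 1 ≤ k → S k = - ∑ j, α j ^ k) ∧
      ∀ z : ℂ, ∑ n ∈ range (r + 1), a n * z ^ (r - n) = ∏ j, (z - α j) := by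
  classical
  set p : ℂ[X] := ∑ n ∈ range (r + 1), C (a n) * X ^ (r - n) with hp
  have hcoeff : ∀ k, k ≤ r → p.coeff k = a (r - k) := by
    intro k hk
    rw [hp, finsetSum_coeff, Finset.sum_eq_single (r - k)]
    · rw [coeff_C_mul_X_pow, if_pos (by omega)]
    · intro b hb hne
      rw [Finset.mem_range] at hb
      rw [coeff_C_mul_X_pow, if_neg]
      omega
    · intro h
      exfalso
      exact h (Finset.mem_range.mpr (by omega))
  have hdeg : p.natDegree ≤ r := by
    rw [hp]
    refine natDegree_sum_le_of_forall_le _ _ fun n _ => ?_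
    exact (natDegree_C_mul_X_pow_le _ _).trans (Nat.sub_le _ _)
  have hlead : p.coeff r = 1 := by rw [hcoeff r le_rfl, Nat.sub_self, a0]
  have hdeg' : p.natDegree = r := by
    apply le_antisymm hdeg
    apply le_natDegree_of_ne_zero
    rw [hlead]
    exact one_ne_zero
  have hmonic : p.Monic := by
    rw [Monic, leadingCoeff, hdeg', hlead]
  have hcard : p.roots.card = r := by
    rw [← (IsAlgClosed.splits p).natDegree_eq_card_roots, hdeg']
  obtain ⟨α, hα⟩ : ∃ α : Fin r → ℂ, p.roots = (univ : Finset (Fin r)).val.map α := by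
    have hlen : p.roots.toList.length = r := by rw [Multiset.length_toList, hcard]
    refine ⟨fun i => p.roots.toList.get (i.cast hlen.symm), ?_⟩
    have h2 : ∀ (L : List ℂ) (h : L.length = r),
        (L : Multiset ℂ) = (univ : Finset (Fin r)).val.map (fun i => L.get (i.cast h.symm)) := by
      intro L h
      subst h
      have : (univ : Finset (Fin L.length)).val = (List.finRange L.length : Multiset (Fin L.length)) := rfl
      rw [this, Multiset.map_coe]
      congr 1
      simp
    exact (Multiset.coe_toList _).symm.trans (h2 p.roots.toList hlen)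
  -- coefficients and elementary symmetric functions
  have he : ∀ n, a n = (-1) ^ n * (p.roots.esymm n) := by
    intro n
    by_cases hn : n ≤ r
    · have h1 := Polynomial.coeff_eq_esymm_roots_of_card (p := p) (by rw [hcard, hdeg'])
        (k := r - n) (by rw [hdeg']; omega)
      rw [hcoeff (r - n) (by omega), hmonic.leadingCoeff, one_mul, hdeg'] at h1
      have h2 : r - (r - n) = n := by omega
      rw [h2] at h1
      exact h1
    · rw [ha n (by omega)]
      have : p.roots.esymm n = 0 := by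
        unfold Multiset.esymm
        rw [Multiset.powersetCard_eq_empty]
        · simp
        · rw [hcard]; omega
      rw [this, mul_zero]
  have hesymm : ∀ n, p.roots.esymm n = MvPolynomial.aeval α (MvPolynomial.esymm (Fin r) ℂ n) := by
    intro n
    rw [MvPolynomial.aeval_esymm_eq_multiset_esymm, hα]
  have hpsum : ∀ n, MvPolynomial.aeval α (MvPolynomial.psum (Fin r) ℂ n) = ∑ j, α j ^ n := by
    intro n
    simp [MvPolynomial.psum]
  have hnewt : ∀ n : ℕ, (n : ℂ) * a n = - ∑ k ∈ Icc 1 n, (∑ j, α j ^ k) * a (n - k) := by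
    intro n
    have h1 := congrArg (MvPolynomial.aeval α) (MvPolynomial.mul_esymm_eq_sum (Fin r) ℂ n)
    simp only [map_mul, map_sum, map_natCast, map_pow, map_neg, map_one] at h1
    rw [← hesymm] at h1
    have h2 : ∑ x ∈ antidiagonal n with x.1 < n, (-1 : ℂ) ^ x.1 *
        (MvPolynomial.aeval α) (MvPolynomial.esymm (Fin r) ℂ x.1) *
        (MvPolynomial.aeval α) (MvPolynomial.psum (Fin r) ℂ x.2) =
        ∑ k ∈ Icc 1 n, (∑ j, α j ^ k) * a (n - k) := by
      refine Finset.sum_bij (fun x _ => x.2) ?_ ?_ ?_ ?_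
      · intro x hx
        rw [Finset.mem_filter, HasAntidiagonal.mem_antidiagonal] at hx
        rw [Finset.mem_Icc]
        omega
      · intro x hx y hy h
        rw [Finset.mem_filter, HasAntidiagonal.mem_antidiagonal] at hx hy
        ext <;> omega
      · intro k hk
        rw [Finset.mem_Icc] at hk
        refine ⟨(n - k, k), ?_, rfl⟩
        rw [Finset.mem_filter, HasAntidiagonal.mem_antidiagonal]
        simp only
        omega
      · intro x hx
        rw [Finset.mem_filter, HasAntidiagonal.mem_antidiagonal] at hx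
        have h3 : n - x.2 = x.1 := by omega
        rw [h3, he, hpsum, hesymm]
        ring
    rw [h2] at h1
    rw [he n]
    have h4 : ((-1 : ℂ) ^ n) * ((-1 : ℂ) ^ n) = 1 := by
      rw [← mul_pow]; norm_num
    calc (n : ℂ) * ((-1) ^ n * p.roots.esymm n) = (-1) ^ n * ((n : ℂ) * p.roots.esymm n) := by ring
      _ = (-1) ^ n * ((-1) ^ (n + 1) * ∑ k ∈ Icc 1 n, (∑ j, α j ^ k) * a (n - k)) := by rw [h1]
      _ = (((-1 : ℂ) ^ n) * ((-1 : ℂ) ^ n)) * (- ∑ k ∈ Icc 1 n, (∑ j, α j ^ k) * a (n - k)) := by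
          rw [pow_succ]; ring
      _ = _ := by rw [h4, one_mul]
  refine ⟨α, ?_, ?_⟩
  swap
  · intro z
    have h1 : p = (p.roots.map (fun a => X - C a)).prod := by
      have := (IsAlgClosed.splits p).eq_prod_roots_of_monic hmonic
      exact this
    have h2 := congrArg (eval z) h1
    rw [hp, eval_finsetSum, ← hp, hα, Multiset.map_map, eval_multiset_prod, Multiset.map_map] at h2
    rw [Finset.prod_eq_multiset_prod]
    convert h2 using 1
    · refine Finset.sum_congr rfl fun n _ => ?_
      simp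
    · congr 1
      refine Multiset.map_congr rfl fun x _ => ?_
      simp
  intro k
  induction k using Nat.strong_induction_on with
  | _ k ih =>
    intro hk
    obtain ⟨n, rfl⟩ : ∃ n, k = n + 1 := ⟨k - 1, by omega⟩
    have h1 := hN (n + 1)
    rw [hnewt (n + 1)] at h1
    rw [Finset.sum_Icc_succ_top (by omega), Finset.sum_Icc_succ_top (by omega), Nat.sub_self,
      a0, mul_one, mul_one] at h1
    have h2 : ∑ k ∈ Icc 1 n, S k * a (n + 1 - k) =
        - ∑ k ∈ Icc 1 n, (∑ j, α j ^ k) * a (n + 1 - k) := by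
      rw [← Finset.sum_neg_distrib]
      refine Finset.sum_congr rfl fun j hj => ?_
      rw [Finset.mem_Icc] at hj
      rw [ih j (by omega) hj.1]
      ring
    rw [h2] at h1
    linear_combination -h1

/-- simultaneous recurrence on the torus -/
lemma recurrence {r : ℕ} (u : Fin r → ℂ) (hu : ∀ j, ‖u j‖ = 1) (N : ℕ) :
    ∃ n, N ≤ n ∧ ∀ j, ‖u j ^ n - 1‖ ≤ 1 / 2 := by
  have hb : ∀ n : ℕ, (fun j => u j ^ n) ∈ Metric.closedBall (0 : Fin r → ℂ) 1 := by
    intro n
    rw [mem_closedBall_zero_iff, pi_norm_le_iff_of_nonneg zero_le_one]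
    intro j
    rw [norm_pow, hu j, one_pow]
  obtain ⟨a, -, φ, hφ, hlim⟩ := tendsto_subseq_of_bounded
    (Metric.isBounded_closedBall (x := (0 : Fin r → ℂ)) (r := 1)) hb
  have hc := hlim.cauchySeq
  rw [Metric.cauchySeq_iff] at hc
  obtain ⟨M, hM⟩ := hc (1 / 2) (by norm_num)
  have hφ1 : M + N ≤ φ (φ M + N + M) := by
    have h1 := hφ.le_apply (x := φ M + N + M)
    omega
  -- choose `l` with `φ l ≥ φ M + N`
  have hl : φ M + N ≤ φ (φ M + N + M) := by
    have h1 := hφ.le_apply (x := φ M + N + M)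
    omega
  have hd := hM (φ M + N + M) (by omega) M le_rfl
  refine ⟨φ (φ M + N + M) - φ M, by omega, fun j => ?_⟩
  have h2 : dist (u j ^ φ (φ M + N + M)) (u j ^ φ M) < 1 / 2 :=
    (dist_le_pi_dist _ _ j).trans_lt hd
  rw [dist_eq_norm] at h2
  have h3 : u j ^ φ (φ M + N + M) - u j ^ φ M =
      (u j ^ (φ (φ M + N + M) - φ M) - 1) * u j ^ φ M := by
    rw [sub_mul, one_mul, ← pow_add, Nat.sub_add_cancel (by omega)]
  rw [h3, norm_mul, norm_pow, hu j, one_pow, mul_one] at h2
  exact h2.le

/-- If the power sums are bounded then so are the numbers. -/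
theorem norm_le_one_of_power_sums {r : ℕ} (β : Fin r → ℂ) (C : ℝ) (n₀ : ℕ)
    (h : ∀ n, n₀ ≤ n → ‖∑ j, β j ^ n‖ ≤ C) (j : Fin r) : ‖β j‖ ≤ 1 := by
  by_contra hlt
  push Not at hlt
  set u : Fin r → ℂ := fun j => if β j = 0 then 1 else β j / ‖β j‖ with hu
  have hu1 : ∀ j, ‖u j‖ = 1 := by
    intro j
    simp only [hu]
    split_ifs with h0
    · exact norm_one
    · rw [norm_div, Complex.norm_real, norm_norm, div_self (norm_ne_zero_iff.mpr h0)]
  have hβ : ∀ j, β j = ‖β j‖ * u j := by
    intro j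
    simp only [hu]
    split_ifs with h0
    · rw [h0]; simp
    · have : (‖β j‖ : ℂ) ≠ 0 := by exact_mod_cast norm_ne_zero_iff.mpr h0
      field_simp
  have htend : Tendsto (fun n : ℕ => ‖β j‖ ^ n) atTop atTop := tendsto_pow_atTop_atTop_of_one_lt hlt
  obtain ⟨N, hN⟩ := (htend.eventually (eventually_gt_atTop (2 * C))).exists_forall_of_atTop
  obtain ⟨n, hn, hun⟩ := recurrence u hu1 (max N n₀)
  have h1 := h n (le_trans (le_max_right _ _) hn)
  have h2 := hN n (le_trans (le_max_left _ _) hn)
  have hre : ∀ i, (1 / 2) * ‖β i‖ ^ n ≤ (β i ^ n).re := by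
    intro i
    have h3 : β i ^ n = ((‖β i‖ ^ n : ℝ) : ℂ) * u i ^ n := by
      nth_rewrite 1 [hβ i]
      rw [mul_pow]
      push_cast
      ring
    rw [h3, Complex.re_ofReal_mul]
    have h4 : 1 / 2 ≤ (u i ^ n).re := by
      have h5 := hun i
      have h6 : |(u i ^ n - 1).re| ≤ 1 / 2 := (Complex.abs_re_le_norm _).trans h5
      rw [Complex.sub_re, Complex.one_re, abs_le] at h6
      linarith [h6.1]
    rw [mul_comm]
    exact mul_le_mul_of_nonneg_left h4 (by positivity)
  have h7 : (1 / 2) * ‖β j‖ ^ n ≤ ‖∑ j, β j ^ n‖ := by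
    refine le_trans ?_ (Complex.re_le_norm _)
    rw [Complex.re_sum]
    refine le_trans (hre j) ?_
    refine Finset.single_le_sum (f := fun i => (β i ^ n).re) ?_ (Finset.mem_univ j)
    intro i _
    exact le_trans (by positivity) (hre i)
  linarith

end Pool.Agent.Work.MP_2b9663_nt
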