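import Pool.Agent.Work.MP_2b9663_nt.Newton
import Pool.Agent.Work.MP_2b9663_nt.Growth
import Pool.Agent.Work.MP_2b9663_nt.Even

set_option autoImplicit false

/-!
The Weil bound for hyperelliptic character sums.
-/

namespace Pool.Agent.Work.MP_2b9663_nt

open Finset Polynomial

section

variable {K : Type*} [Field K] [Fintype K] [DecidableEq K]

/-- The character sum of `y ^ 2 = f(x)`. -/
noncomputable def charSum (K : Type*) [Field K] [Fintype K] [DecidableEq K] (f : K[X]) : ℤ :=
  ∑ x : K, quadraticChar K (f.eval x)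

lemma SP_eq (f : K[X]) {n k : ℕ} (hk : 1 ≤ k) (hkn : k ≤ n) : SP f n k = SP f k k := by
  unfold SP
  symm
  refine Finset.sum_subset ?_ ?_
  · intro P hP
    rw [mem_IrrF] at hP ⊢
    exact ⟨hP.1, hP.2.1, by omega⟩
  · intro P hP hPk
    rw [mem_IrrF] at hP hPk
    rw [if_neg]
    intro hd
    exact hPk ⟨hP.1, hP.2.1, Nat.le_of_dvd (by omega) hd⟩

/-- Stepanov's bound as a two sided bound for the character sum over a field with `P ^ 2`
elements. -/
lemma charSum_sq_le (hK : ringChar K ≠ 2) (p n : ℕ) [Fact p.Prime] [CharP K p] {P : ℕ}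
    (hP : P = p ^ n) (hcard : Fintype.card K = P ^ 2) {f : K[X]} (hf : Squarefree f)
    (hm1 : 1 ≤ f.natDegree) (hmP : 2 * f.natDegree ≤ P) :
    |charSum K f| ≤ 4 * f.natDegree * P := by
  classical
  set m := f.natDegree with hm
  have hodd : P % 2 = 1 := by
    have := FiniteField.odd_card_of_char_ne_two hK
    rw [hcard, Nat.pow_mod] at this
    rcases Nat.mod_two_eq_zero_or_one P with h | h
    · rw [h] at this; simp at this
    · exact h
  obtain ⟨t, ht⟩ : ∃ t, P = 2 * t + 1 := ⟨P / 2, by omega⟩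
  have hst := fun a : K => stepanov_sq p n hP ht hcard hf hm.symm hm1 hmP a
  set N1 := (univ.filter (fun x : K => f.eval x ^ (P ^ 2 / 2) = 1)).card with hN1
  set N2 := (univ.filter (fun x : K => f.eval x ^ (P ^ 2 / 2) = -1)).card with hN2
  have h1 := hst 1
  have h2 := hst (-1)
  rw [← hN1] at h1
  rw [← hN2] at h2
  -- zeros
  set N0 := (univ.filter (fun x : K => f.eval x = 0)).card with hN0
  have hf0 : f ≠ 0 := hf.ne_zero
  have hN0le : N0 ≤ m := by
    have hsub : univ.filter (fun x : K => f.eval x = 0) ⊆ f.roots.toFinset := by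
      intro x hx
      rw [Multiset.mem_toFinset, mem_roots hf0]
      exact (Finset.mem_filter.mp hx).2
    exact (Finset.card_le_card hsub).trans ((Multiset.toFinset_card_le _).trans (card_roots' f))
  have h20 : (2 : K) ≠ 0 := Ring.two_ne_zero hK
  have hone : (1 : K) ≠ -1 := by
    intro h
    apply h20
    linear_combination h
  have hval : ∀ x : K, quadraticChar K (f.eval x) =
      (if f.eval x ^ (P ^ 2 / 2) = 1 then (1 : ℤ) else 0) -
      (if f.eval x ^ (P ^ 2 / 2) = -1 then (1 : ℤ) else 0) := by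
    intro x
    by_cases h0 : f.eval x = 0
    · rw [h0, quadraticChar_zero, zero_pow, if_neg zero_ne_one, if_neg]
      · rfl
      · intro h
        have : (1 : K) = 0 := by linear_combination h
        exact one_ne_zero this
      · have : 1 ≤ t := by omega
        have h3 : P ^ 2 = 2 * (2 * t * (t + 1)) + 1 := by rw [ht]; ring
        have h4 : 0 < 2 * t * (t + 1) := by positivity
        omega
    · have h3 := quadraticChar_eq_pow_of_char_ne_two' hK (f.eval x)
      rw [hcard] at h3
      rcases quadraticChar_dichotomy h0 with h | h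
      · rw [h] at h3 ⊢
        push_cast at h3
        rw [← h3, if_pos rfl, if_neg hone]
        rfl
      · rw [h] at h3 ⊢
        push_cast at h3
        rw [← h3, if_neg hone.symm, if_pos rfl]
        rfl
  have hS : charSum K f = (N1 : ℤ) - N2 := by
    rw [charSum, Finset.sum_congr rfl fun x _ => hval x, Finset.sum_sub_distrib,
      Finset.sum_boole, Finset.sum_boole]
  have htot : P ^ 2 = N0 + N1 + N2 := by
    have h3 : ∀ x : K, (1 : ℕ) = (if f.eval x = 0 then 1 else 0) +
        (if f.eval x ^ (P ^ 2 / 2) = 1 then 1 else 0) +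
        (if f.eval x ^ (P ^ 2 / 2) = -1 then 1 else 0) := by
      intro x
      by_cases h0 : f.eval x = 0
      · have hne : P ^ 2 / 2 ≠ 0 := by
          have : 1 ≤ t := by omega
          have h3 : P ^ 2 = 2 * (2 * t * (t + 1)) + 1 := by rw [ht]; ring
          have h4 : 0 < 2 * t * (t + 1) := by positivity
          omega
        rw [if_pos h0, h0, zero_pow hne, if_neg zero_ne_one, if_neg]
        intro h
        have : (1 : K) = 0 := by linear_combination h
        exact one_ne_zero this
      · rw [if_neg h0]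
        have h3 := quadraticChar_eq_pow_of_char_ne_two' hK (f.eval x)
        rw [hcard] at h3
        rcases quadraticChar_dichotomy h0 with h | h
        · rw [h] at h3
          push_cast at h3
          rw [← h3, if_pos rfl, if_neg hone]
        · rw [h] at h3
          push_cast at h3
          rw [← h3, if_neg hone.symm, if_pos rfl]
    have h4 : Fintype.card K = ∑ _x : K, 1 := by simp
    rw [← hcard, h4, Finset.sum_congr rfl fun x _ => h3 x, Finset.sum_add_distrib,
      Finset.sum_add_distrib, Finset.sum_boole, Finset.sum_boole, Finset.sum_boole]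
    rfl
  rw [hS, abs_le]
  have hP1 : 1 ≤ P := by omega
  have hmP2 : m ≤ m * P := Nat.le_mul_of_pos_right m hP1
  have e1 : 3 * m * P = 3 * (m * P) := by ring
  rw [e1] at h1 h2
  have e2 : (4 : ℤ) * m * P = 4 * ((m * P : ℕ) : ℤ) := by push_cast; ring
  rw [e2]
  constructor <;> omega

/-- **The Weil bound for `y ^ 2 = f(x)`**: the numbers `α j`. -/
theorem weil (hK : ringChar K ≠ 2) {f : K[X]} (hf : Squarefree f) (hm1 : 1 ≤ f.natDegree) :
    ∃ α : Fin (f.natDegree - 1) → ℂ, (∀ j, ‖α j‖ ^ 2 ≤ Fintype.card K) ∧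
      (∀ (k : ℕ), 1 ≤ k → (SP f k k : ℂ) = - ∑ j, α j ^ k) ∧
      (Even f.natDegree → ∃ j, α j = ((quadraticChar K f.leadingCoeff : ℤ) : ℂ)) := by
  classical
  obtain ⟨p, hp⟩ := CharP.exists K
  have hpp : Fact p.Prime := ⟨CharP.char_is_prime K p⟩
  obtain ⟨a, -, ha⟩ := FiniteField.card K p
  set q := Fintype.card K with hq
  have hq1 : 1 < q := Fintype.one_lt_card
  set m := f.natDegree with hm
  obtain ⟨α, hα, hprod⟩ := newton_roots (fun n => ((cc f n : ℤ) : ℂ)) (fun k => ((SP f k k : ℤ) : ℂ))
    (m - 1) (by simp [cc_zero]) (by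
      intro n hn
      rw [cc_eq_zero hK hf hm1 (by omega), Int.cast_zero]) (by
      intro n
      have h := congrArg (Int.cast : ℤ → ℂ) (newton f n)
      push_cast at h
      rw [h]
      refine Finset.sum_congr rfl fun k hk => ?_
      rw [Finset.mem_Icc] at hk
      rw [SP_eq f hk.1 hk.2])
  refine ⟨α, ?_, hα, ?_⟩
  swap
  · intro he
    have hlc : f.leadingCoeff ≠ 0 := leadingCoeff_ne_zero.mpr hf.ne_zero
    have h1 := sum_cc_even hK hf hm1 he
    set z : ℤ := quadraticChar K f.leadingCoeff with hz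
    have hz2 : z ^ 2 = 1 := quadraticChar_sq_one hlc
    have h2 := hprod (z : ℂ)
    have h3 : ∑ n ∈ range (m - 1 + 1), ((cc f n : ℤ) : ℂ) * (z : ℂ) ^ (m - 1 - n) = 0 := by
      have h4 : ∀ n ∈ range (m - 1 + 1), ((cc f n : ℤ) : ℂ) * (z : ℂ) ^ (m - 1 - n) =
          (z : ℂ) ^ (m - 1) * (((cc f n * z ^ n : ℤ)) : ℂ) := by
        intro n hn
        rw [Finset.mem_range] at hn
        have h5 : (z : ℂ) ^ (m - 1 - n) * ((z : ℂ) ^ n * (z : ℂ) ^ n) = (z : ℂ) ^ (m - 1) * (z : ℂ) ^ n := by
          rw [← mul_assoc, ← pow_add, Nat.sub_add_cancel (by omega)]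
        have h6 : (z : ℂ) ^ n * (z : ℂ) ^ n = 1 := by
          rw [← mul_pow, ← sq]
          have : ((z ^ 2 : ℤ) : ℂ) = 1 := by rw [hz2, Int.cast_one]
          push_cast at this
          rw [this, one_pow]
        rw [h6, mul_one] at h5
        push_cast
        rw [h5]
        ring
      rw [Finset.sum_congr rfl h4, ← Finset.mul_sum, ← Int.cast_sum]
      have h7 : m - 1 + 1 = m := by omega
      rw [h7, h1, Int.cast_zero, mul_zero]
    rw [h3] at h2
    obtain ⟨j, -, hj⟩ := Finset.prod_eq_zero_iff.mp h2.symm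
    exact ⟨j, (sub_eq_zero.mp hj).symm⟩
  -- the bound
  have hqR : (0 : ℝ) < q := by exact_mod_cast (by omega : 0 < q)
  have hqC : (q : ℂ) ≠ 0 := by exact_mod_cast (by omega : q ≠ 0)
  have hbound : ∀ n, 2 * m ≤ n → ‖∑ j, (α j ^ 2 / q) ^ n‖ ≤ 4 * m := by
    intro n hn
    have hn0 : 0 < n := by omega
    -- the extension of degree `2 n`
    have : NeZero (2 * n) := ⟨by omega⟩
    let E := FiniteField.Extension K p (2 * n)
    let : Fintype E := Fintype.ofFinite E
    have hcardE : Fintype.card E = q ^ (2 * n) := by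
      rw [← Nat.card_eq_fintype_card, hq, ← Nat.card_eq_fintype_card]
      exact FiniteField.natCard_extension K p (2 * n)
    have hE2 : ringChar E ≠ 2 := by rw [← Algebra.ringChar_eq K E]; exact hK
    have hchE : CharP E p := charP_of_injective_algebraMap (algebraMap K E).injective p
    have hsum := sum_extension (E := E) hK hcardE (by omega) le_rfl f
    have hfE : Squarefree (f.map (algebraMap K E)) := by
      have h1 : f.Separable := PerfectField.separable_iff_squarefree.mpr hf
      exact (h1.map (f := algebraMap K E)).squarefree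
    have hmE : (f.map (algebraMap K E)).natDegree = m := natDegree_map _
    have hPm : 2 * m ≤ q ^ n := by
      have : n < q ^ n := Nat.lt_pow_self hq1
      omega
    have hst := charSum_sq_le (K := E) hE2 p (a * n) (P := q ^ n)
      (by rw [ha, ← pow_mul]) (by rw [hcardE, ← pow_mul, mul_comm]) hfE (by rw [hmE]; exact hm1)
      (by rw [hmE]; exact hPm)
    have hcs : charSum E (f.map (algebraMap K E)) = SP f (2 * n) (2 * n) := by
      rw [← hsum, charSum]
      refine Finset.sum_congr rfl fun x _ => ?_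
      rw [eval_map_algebraMap]
    rw [hcs, hmE] at hst
    have h1 := hα (2 * n) (by omega)
    have h2 : ∑ j, (α j ^ 2 / q) ^ n = - (SP f (2 * n) (2 * n) : ℂ) / (q : ℂ) ^ n := by
      rw [h1, neg_neg, Finset.sum_div]
      refine Finset.sum_congr rfl fun j _ => ?_
      rw [div_pow, ← pow_mul]
    rw [h2, norm_div, norm_neg, norm_pow, Complex.norm_natCast]
    rw [div_le_iff₀ (by positivity)]
    have h3 : ‖((SP f (2 * n) (2 * n) : ℤ) : ℂ)‖ = ((|SP f (2 * n) (2 * n)| : ℤ) : ℝ) := by
      rw [Complex.norm_intCast]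
      push_cast
      rfl
    rw [h3]
    have h4 : ((|SP f (2 * n) (2 * n)| : ℤ) : ℝ) ≤ ((4 * m * (q ^ n : ℕ) : ℤ) : ℝ) := by
      exact_mod_cast hst
    refine h4.trans (le_of_eq ?_)
    push_cast
    ring
  intro j
  have h1 := norm_le_one_of_power_sums (fun j => α j ^ 2 / q) (4 * m) (2 * m) hbound j
  rw [norm_div, norm_pow, Complex.norm_natCast, div_le_one hqR] at h1
  exact h1

/-- **The Weil bound for hyperelliptic character sums.** -/
theorem weil_bound (hK : ringChar K ≠ 2) {f : K[X]} (hf : Squarefree f) (hm1 : 1 ≤ f.natDegree) :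
    |(charSum K f : ℝ)| ≤ (f.natDegree - 1 : ℕ) * Real.sqrt (Fintype.card K) := by
  obtain ⟨α, h1, h2, -⟩ := weil hK hf hm1
  have hsum := sum_extension (K := K) (E := K) (k := 1) (n := 1) hK (by rw [pow_one]) one_pos le_rfl f
  have hcs : charSum K f = SP f 1 1 := by
    rw [← hsum, charSum]
    refine Finset.sum_congr rfl fun x _ => ?_
    rw [coe_aeval_eq_eval]
  have h3 := h2 1 le_rfl
  rw [← hcs] at h3
  have h4 : |(charSum K f : ℝ)| = ‖((charSum K f : ℤ) : ℂ)‖ := by
    rw [Complex.norm_intCast]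
  rw [h4, h3, norm_neg]
  refine (norm_sum_le _ _).trans ?_
  have h5 : ∀ j ∈ (univ : Finset (Fin (f.natDegree - 1))), ‖α j ^ 1‖ ≤
      Real.sqrt (Fintype.card K) := by
    intro j _
    rw [pow_one]
    exact Real.le_sqrt_of_sq_le (h1 j)
  refine (Finset.sum_le_sum h5).trans ?_
  rw [Finset.sum_const, Finset.card_univ, Fintype.card_fin, nsmul_eq_mul]

end

end Pool.Agent.Work.MP_2b9663_nt
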