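import Pool.Agent.Work.MP_2b9663_nt.Euler

set_option autoImplicit false

/-!
Mean values of bounded functions of primes, and a Bessel inequality.
-/

namespace Pool.Agent.Work.MP_2b9663_nt

open Filter Topology NumberTheorySymbols

/-- bounded functions -/
def BD (c : Nat.Primes → ℝ) : Prop := ∃ B : ℝ, ∀ p, |c p| ≤ B

/-- `c` is bounded and has mean value `κ`. -/
def MV (c : Nat.Primes → ℝ) (κ : ℝ) : Prop := BD c ∧ LA (PS c) κ

lemma BD.add {c d : Nat.Primes → ℝ} (hc : BD c) (hd : BD d) : BD (fun p => c p + d p) := by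
  obtain ⟨B, hB⟩ := hc
  obtain ⟨B', hB'⟩ := hd
  exact ⟨B + B', fun p => (abs_add_le _ _).trans (add_le_add (hB p) (hB' p))⟩

lemma BD.const (a : ℝ) : BD (fun _ => a) := ⟨|a|, fun _ => le_rfl⟩

lemma BD.mul {c d : Nat.Primes → ℝ} (hc : BD c) (hd : BD d) : BD (fun p => c p * d p) := by
  obtain ⟨B, hB⟩ := hc
  obtain ⟨B', hB'⟩ := hd
  refine ⟨B * B', fun p => ?_⟩
  rw [abs_mul]
  exact mul_le_mul (hB p) (hB' p) (abs_nonneg _) ((abs_nonneg _).trans (hB p))

lemma BD.sum {ι : Type*} (s : Finset ι) {c : ι → Nat.Primes → ℝ} (h : ∀ i ∈ s, BD (c i)) :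
    BD (fun p => ∑ i ∈ s, c i p) := by
  classical
  induction s using Finset.induction_on with
  | empty => simpa using BD.const 0
  | insert a s ha ih =>
    simp only [Finset.sum_insert ha]
    exact (h a (Finset.mem_insert_self _ _)).add (ih fun i hi => h i (Finset.mem_insert_of_mem hi))

lemma BD.prod {ι : Type*} (s : Finset ι) {c : ι → Nat.Primes → ℝ} (h : ∀ i ∈ s, BD (c i)) :
    BD (fun p => ∏ i ∈ s, c i p) := by
  classical
  induction s using Finset.induction_on with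
  | empty => simpa using BD.const 1
  | insert a s ha ih =>
    simp only [Finset.prod_insert ha]
    exact (h a (Finset.mem_insert_self _ _)).mul (ih fun i hi => h i (Finset.mem_insert_of_mem hi))

lemma BD.jacobi (D : ℤ) : BD (fun p => ((J(D | p) : ℤ) : ℝ)) := ⟨1, fun p => abs_jacobi_le D p⟩

lemma MV.add {c d : Nat.Primes → ℝ} {κ μ : ℝ} (hc : MV c κ) (hd : MV d μ) :
    MV (fun p => c p + d p) (κ + μ) := by
  obtain ⟨hc1, hc2⟩ := hc
  obtain ⟨hd1, hd2⟩ := hd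
  refine ⟨hc1.add hd1, ?_⟩
  obtain ⟨B, hB⟩ := hc1
  obtain ⟨B', hB'⟩ := hd1
  exact LA.PS_add hB hB' hc2 hd2

lemma MV.const_mul {c : Nat.Primes → ℝ} {κ : ℝ} (a : ℝ) (hc : MV c κ) :
    MV (fun p => a * c p) (a * κ) :=
  ⟨(BD.const a).mul hc.1, hc.2.PS_const_mul a⟩

lemma MV.zero : MV (fun _ => 0) 0 := by
  refine ⟨BD.const 0, LA_finite ∅ fun _ _ => rfl⟩

lemma MV.one : MV (fun _ => 1) 1 := ⟨BD.const 1, LA_one⟩

lemma MV.const (a : ℝ) : MV (fun _ => a) a := by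
  have := MV.one.const_mul a
  simpa using this

lemma MV.sum {ι : Type*} (s : Finset ι) {c : ι → Nat.Primes → ℝ} {κ : ι → ℝ}
    (h : ∀ i ∈ s, MV (c i) (κ i)) : MV (fun p => ∑ i ∈ s, c i p) (∑ i ∈ s, κ i) := by
  classical
  induction s using Finset.induction_on with
  | empty => simpa using MV.zero
  | insert a s ha ih =>
    simp only [Finset.sum_insert ha]
    exact (h a (Finset.mem_insert_self _ _)).add (ih fun i hi => h i (Finset.mem_insert_of_mem hi))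

lemma MV.congr {c d : Nat.Primes → ℝ} {κ : ℝ} (hc : MV c κ) (hd : BD d) (T : Finset Nat.Primes)
    (h : ∀ p, p ∉ T → c p = d p) : MV d κ := by
  refine ⟨hd, ?_⟩
  obtain ⟨B', hB'⟩ := hd
  obtain ⟨B, hB⟩ := hc.1
  exact LA.PS_congr hB hB' T h hc.2

lemma MV.nonneg {c : Nat.Primes → ℝ} {κ : ℝ} (hc : MV c κ) (T : Finset Nat.Primes)
    (h : ∀ p, p ∉ T → 0 ≤ c p) : 0 ≤ κ := by
  classical
  have h1 : MV (fun p => if p ∈ T then 0 else c p) κ := by
    obtain ⟨B, hB⟩ := hc.1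
    refine hc.congr ⟨B, fun p => ?_⟩ T fun p hp => (if_neg hp).symm
    beta_reduce
    split_ifs with hp
    · rw [abs_zero]
      exact (abs_nonneg _).trans (hB p)
    · exact hB p
  refine h1.2.nonneg ?_
  filter_upwards [self_mem_nhdsWithin] with ε _
  refine tsum_nonneg fun p => mul_nonneg ?_ (Real.rpow_nonneg (Nat.cast_nonneg _) _)
  beta_reduce
  split_ifs with hp
  · exact le_rfl
  · exact h p hp

lemma MV.mono {c d : Nat.Primes → ℝ} {κ μ : ℝ} (hc : MV c κ) (hd : MV d μ) (T : Finset Nat.Primes)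
    (h : ∀ p, p ∉ T → c p ≤ d p) : κ ≤ μ := by
  have h1 := hd.add (hc.const_mul (-1))
  have h2 := h1.nonneg T fun p hp => by linarith [h p hp]
  linarith

lemma exists_squarefree_part {a : ℤ} (h0 : a ≠ 0) :
    ∃ b s : ℤ, b ≠ 0 ∧ Squarefree s ∧ a = b * b * s := by
  obtain ⟨s, b, hs⟩ := Nat.sq_mul_squarefree a.natAbs
  obtain ⟨hs1, hs2⟩ := hs
  have hb0 : b ≠ 0 := by
    rintro rfl
    have : a.natAbs = 0 := by rw [← hs1]; simp
    exact h0 (Int.natAbs_eq_zero.mp this)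
  rcases Int.natAbs_eq a with ha | ha
  · refine ⟨b, s, by exact_mod_cast hb0, Int.squarefree_natCast.mpr hs2, ?_⟩
    rw [ha, ← hs1]
    push_cast
    ring
  · refine ⟨b, -s, by exact_mod_cast hb0, ?_, ?_⟩
    · rw [← Int.squarefree_natAbs, Int.natAbs_neg, Int.natAbs_natCast]
      exact hs2
    · rw [ha, ← hs1]
      push_cast
      ring

lemma gcd_eq_one_of_big {a : ℤ} (h0 : a ≠ 0) {p : Nat.Primes}
    (hp : p ∉ smallPrimes (a.natAbs + 1)) : a.gcd ((p : ℕ) : ℤ) = 1 := by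
  rw [mem_smallPrimes] at hp
  have hpp : (p : ℕ).Prime := p.2
  rw [← Int.isCoprime_iff_gcd_eq_one, isCoprime_comm]
  rw [Prime.coprime_iff_not_dvd (Nat.prime_iff_prime_int.mp hpp)]
  intro h
  have h1 := Nat.le_of_dvd (Int.natAbs_pos.mpr h0) (Int.natCast_dvd.mp h)
  omega

/-- The quadratic character of a nonzero integer which is not a square has mean value zero. -/
lemma MV.jacobi_nonsquare {a : ℤ} (h0 : a ≠ 0) (h : ¬ IsSquare a) :
    MV (fun p => ((J(a | p) : ℤ) : ℝ)) 0 := by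
  obtain ⟨b, s, hb, hs, hab⟩ := exists_squarefree_part h0
  have hs1 : s ≠ 1 := by
    rintro rfl
    exact h ⟨b, by rw [hab, mul_one]⟩
  refine ⟨BD.jacobi a, ?_⟩
  refine LA_quad (D := s) (D' := 1) hs squarefree_one hs1 (B := 1) (fun p => abs_jacobi_le a p)
    (smallPrimes (b.natAbs + 1)) fun p hp => ?_
  have h1 := jacobiSym.sq_one (gcd_eq_one_of_big hb hp)
  rw [hab, jacobiSym.mul_left, jacobiSym.mul_left, jacobiSym.one_left, ← sq, h1, one_mul, mul_one]

/-- The quadratic character of a nonzero square has mean value one. -/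
lemma MV.jacobi_square {a : ℤ} (h0 : a ≠ 0) (h : IsSquare a) :
    MV (fun p => ((J(a | p) : ℤ) : ℝ)) 1 := by
  obtain ⟨b, rfl⟩ := h
  have hb : b ≠ 0 := fun h => h0 (by rw [h, mul_zero])
  refine MV.one.congr (BD.jacobi _) (smallPrimes (b.natAbs + 1)) fun p hp => ?_
  have h1 := jacobiSym.sq_one (gcd_eq_one_of_big hb hp)
  rw [jacobiSym.mul_left, ← sq, h1, Int.cast_one]

/-- **A Bessel inequality for families.** -/
theorem bessel_family {ι κ : Type*} [DecidableEq ι] (𝒟 : Finset ι) (𝒮 : Finset κ)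
    (u : ι → κ → Nat.Primes → ℝ)
    (horth : ∀ D ∈ 𝒟, ∀ D' ∈ 𝒟, ∀ S ∈ 𝒮,
      MV (fun p => u D S p * u D' S p) (if D = D' then 1 else 0))
    (c : κ → Nat.Primes → ℝ) (γ : κ → ℝ) (T : Finset Nat.Primes)
    (hc : ∀ S ∈ 𝒮, ∀ p, p ∉ T → |c S p| ≤ γ S) (m : ι → ℝ)
    (h : ∀ D ∈ 𝒟, MV (fun p => ∑ S ∈ 𝒮, u D S p * c S p) (-(m D))) :
    ∑ D ∈ 𝒟, m D ^ 2 ≤ (∑ S ∈ 𝒮, γ S) ^ 2 := by
  classical
  set N := ∑ D ∈ 𝒟, m D ^ 2 with hN
  have hN0 : 0 ≤ N := Finset.sum_nonneg fun D _ => sq_nonneg _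
  set ν := Real.sqrt N with hν
  have hν0 : 0 ≤ ν := Real.sqrt_nonneg _
  have hνN : ν ^ 2 = N := Real.sq_sqrt hN0
  set W : κ → Nat.Primes → ℝ := fun S p => ∑ D ∈ 𝒟, m D * u D S p with hW
  -- the linear term
  have h1 : MV (fun p => ∑ S ∈ 𝒮, c S p * W S p) (-N) := by
    have h2 := MV.sum 𝒟 fun D hD => (h D hD).const_mul (m D)
    have h3 : ∑ D ∈ 𝒟, m D * -(m D) = -N := by
      rw [hN, ← Finset.sum_neg_distrib]
      refine Finset.sum_congr rfl fun D _ => ?_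
      ring
    rw [h3] at h2
    have h4 : (fun p => ∑ D ∈ 𝒟, m D * ∑ S ∈ 𝒮, u D S p * c S p) =
        fun p => ∑ S ∈ 𝒮, c S p * W S p := by
      funext p
      simp only [hW, Finset.mul_sum]
      rw [Finset.sum_comm]
      refine Finset.sum_congr rfl fun S _ => Finset.sum_congr rfl fun D _ => ?_
      ring
    rw [← h4]
    exact h2
  -- the quadratic term
  have h2 : ∀ S ∈ 𝒮, MV (fun p => W S p ^ 2) N := by
    intro S hS
    have h3 := MV.sum 𝒟 fun D hD => MV.sum 𝒟 fun D' hD' =>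
      (horth D hD D' hD' S hS).const_mul (m D * m D')
    have h4 : ∑ D ∈ 𝒟, ∑ D' ∈ 𝒟, m D * m D' * (if D = D' then 1 else 0) = N := by
      rw [hN]
      refine Finset.sum_congr rfl fun D hD => ?_
      simp only [mul_ite, mul_one, mul_zero]
      rw [Finset.sum_ite_eq, if_pos hD, sq]
    rw [h4] at h3
    have h5 : (fun p => ∑ D ∈ 𝒟, ∑ D' ∈ 𝒟, m D * m D' * (u D S p * u D' S p)) =
        fun p => W S p ^ 2 := by
      funext p
      simp only [hW]
      rw [sq, Finset.sum_mul_sum]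
      refine Finset.sum_congr rfl fun D _ => Finset.sum_congr rfl fun D' _ => ?_
      ring
    rw [← h5]
    exact h3
  have h3 : MV (fun p => 2 * ν * (∑ S ∈ 𝒮, c S p * W S p) + ∑ S ∈ 𝒮, γ S * (ν ^ 2 + W S p ^ 2))
      (2 * ν * -N + ∑ S ∈ 𝒮, γ S * (ν ^ 2 + N)) :=
    (h1.const_mul (2 * ν)).add (MV.sum 𝒮 fun S hS =>
      (((MV.const (ν ^ 2)).add (h2 S hS))).const_mul (γ S))
  have h4 := h3.nonneg T (by
    intro p hp
    rw [Finset.mul_sum, ← Finset.sum_add_distrib]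
    refine Finset.sum_nonneg fun S hS => ?_
    have h5 := hc S hS p hp
    have h6 : 0 ≤ γ S := (abs_nonneg _).trans h5
    have h7 : -(γ S * |W S p|) ≤ c S p * W S p := by
      have h8 := neg_abs_le (c S p * W S p)
      rw [abs_mul] at h8
      have h9 := mul_le_mul_of_nonneg_right h5 (abs_nonneg (W S p))
      linarith
    have h8 : 2 * ν * |W S p| ≤ ν ^ 2 + W S p ^ 2 := by
      have h9 := sq_nonneg (ν - |W S p|)
      have h10 := sq_abs (W S p)
      nlinarith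
    have h9 := mul_le_mul_of_nonneg_left h8 h6
    have h10 := mul_le_mul_of_nonneg_left h7 (mul_nonneg zero_le_two hν0)
    nlinarith)
  rw [← Finset.sum_mul, hνN, ← hνN] at h4
  -- `0 ≤ - 2 ν ^ 3 + 2 Γ ν ^ 2`
  rcases eq_or_lt_of_le hν0 with h5 | h5
  · rw [← hνN, ← h5, zero_pow two_ne_zero]
    exact sq_nonneg _
  · have h6 : ν ≤ ∑ S ∈ 𝒮, γ S := by
      have h7 : 0 ≤ 2 * ν ^ 2 * ((∑ S ∈ 𝒮, γ S) - ν) := by
        have : 2 * ν ^ 2 * ((∑ S ∈ 𝒮, γ S) - ν) =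
          2 * ν * -ν ^ 2 + (∑ S ∈ 𝒮, γ S) * (ν ^ 2 + ν ^ 2) := by ring
        rw [this]
        exact h4
      have h8 : 0 < 2 * ν ^ 2 := by positivity
      have h9 := nonneg_of_mul_nonneg_right h7 h8
      linarith
    rw [← hνN]
    exact pow_le_pow_left₀ hν0 h6 2

end Pool.Agent.Work.MP_2b9663_nt
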