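import Pool.Agent.Work.MP_2b9663_nt.Zeta1
import Pool.Agent.Work.MP_2b9663_nt.MV

set_option autoImplicit false

/-!
The number of prime ideals of norm `p` has mean value one.
-/

namespace Pool.Agent.Work.MP_2b9663_nt

open NumberField Ideal Filter Topology Asymptotics

section

variable (K : Type) [Field K] [NumberField K]

lemma sum_idc_tendsto : Tendsto (fun n : ℕ => (∑ k ∈ Finset.Icc 1 n, (idc K k : ℝ)) / n) atTop
    (𝓝 (dedekindZeta_residue K)) := by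
  refine ((Ideal.tendsto_norm_le_div_atTop₀ K).comp tendsto_natCast_atTop_atTop).congr fun n ↦ ?_
  unfold idc
  simp only [Function.comp_apply, Nat.cast_le, ← Nat.cast_sum]
  congr
  rw [← add_left_inj 1, ← card_norm_le_eq_card_norm_le_add_one,
    show Finset.Icc 1 n = Finset.Ioc 0 n from Finset.Icc_succ_left_eq_Ioc _ _,
    show 1 = Nat.card {I : Ideal (𝓞 K) // absNorm I = 0} by simp [Ideal.absNorm_eq_zero_iff],
    Finset.sum_Ioc_add_eq_sum_Icc (n.zero_le),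
    ← Finset.card_preimage_eq_sum_card_image_eq (fun k _ ↦ finite_setOfPred_absNorm_eq k)]
  simp [Set.coe_eq_subtype]

lemma sum_idc_bigO : (fun n : ℕ => ∑ k ∈ Finset.Icc 1 n, (idc K k : ℝ)) =O[atTop]
    fun n => (n : ℝ) ^ (1 : ℝ) := by
  have h1 := (sum_idc_tendsto K).isBigO_one ℝ
  have h2 : (fun n : ℕ => (∑ k ∈ Finset.Icc 1 n, (idc K k : ℝ)) / n * n) =O[atTop]
      fun n : ℕ => (1 : ℝ) * (n : ℝ) := h1.mul (isBigO_refl _ _)
  refine (h2.congr' ?_ ?_)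
  · filter_upwards [eventually_gt_atTop 0] with n hn
    have : (n : ℝ) ≠ 0 := by exact_mod_cast hn.ne'
    field_simp
  · filter_upwards with n
    rw [one_mul, Real.rpow_one]

/-- the terms of the Dedekind zeta function -/
noncomputable def fz (s : ℝ) (n : ℕ) : ℝ := idc K n * (n : ℝ) ^ (-s)

lemma fz_nonneg (s : ℝ) (n : ℕ) : 0 ≤ fz K s n :=
  mul_nonneg (Nat.cast_nonneg _) (Real.rpow_nonneg (Nat.cast_nonneg _) _)

lemma fz_zero {s : ℝ} (hs : s ≠ 0) : fz K s 0 = 0 := by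
  rw [fz, Nat.cast_zero, Real.zero_rpow (neg_ne_zero.mpr hs), mul_zero]

lemma fz_term {s : ℝ} (hs : s ≠ 0) (n : ℕ) :
    LSeries.term (fun n => ((idc K n : ℝ) : ℂ)) (s : ℂ) n = ((fz K s n : ℝ) : ℂ) := by
  rcases eq_or_ne n 0 with rfl | hn
  · rw [fz_zero K hs, LSeries.term_zero, Complex.ofReal_zero]
  · rw [LSeries.term_of_ne_zero hn, fz, Complex.ofReal_mul,
      Complex.ofReal_cpow (Nat.cast_nonneg _), Complex.ofReal_neg, Complex.cpow_neg,
      Complex.ofReal_natCast (n := n), div_eq_mul_inv]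

lemma fz_summable {s : ℝ} (hs : 1 < s) : Summable (fz K s) := by
  have h1 : LSeriesSummable (fun n => ((idc K n : ℝ) : ℂ)) (s : ℂ) :=
    LSeriesSummable_of_sum_norm_bigO_and_nonneg (sum_idc_bigO K) (fun n => Nat.cast_nonneg _)
      zero_le_one (by rwa [Complex.ofReal_re])
  have h2 : Summable (fun n => ((fz K s n : ℝ) : ℂ)) := by
    refine (show Summable _ from h1).congr fun n => ?_
    rw [fz_term K (by linarith)]
  exact_mod_cast h2

lemma dedekindZeta_eq {s : ℝ} (hs : 1 < s) :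
    dedekindZeta K (s : ℂ) = ((∑' n, fz K s n : ℝ) : ℂ) := by
  rw [Complex.ofReal_tsum]
  unfold dedekindZeta LSeries
  refine tsum_congr fun n => ?_
  rw [← fz_term K (by linarith)]
  congr 1

lemma fz_one (s : ℝ) : fz K s 1 = 1 := by
  rw [fz, idc_one, Nat.cast_one, Real.one_rpow, mul_one]

lemma fz_mul {s : ℝ} (hs : s ≠ 0) {m n : ℕ} (h : m.Coprime n) :
    fz K s (m * n) = fz K s m * fz K s n := by
  rcases eq_or_ne m 0 with rfl | hm
  · rw [zero_mul, fz_zero K hs, zero_mul]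
  rcases eq_or_ne n 0 with rfl | hn
  · rw [mul_zero, fz_zero K hs, mul_zero]
  rw [fz, fz, fz, idc_mul K hm hn h, Nat.cast_mul, Nat.cast_mul,
    Real.mul_rpow (Nat.cast_nonneg _) (Nat.cast_nonneg _)]
  ring

/-- the Euler factors minus one -/
noncomputable def xz (s : ℝ) (p : Nat.Primes) : ℝ := ∑' e : ℕ, fz K s ((p : ℕ) ^ (e + 1))

lemma fz_pow_summable {s : ℝ} (hs : 1 < s) (p : Nat.Primes) :
    Summable (fun e : ℕ => fz K s ((p : ℕ) ^ e)) :=
  (fz_summable K hs).comp_injective (Nat.pow_right_injective p.2.two_le)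

lemma euler_factor {s : ℝ} (hs : 1 < s) (p : Nat.Primes) :
    ∑' e : ℕ, fz K s ((p : ℕ) ^ e) = 1 + xz K s p := by
  rw [(fz_pow_summable K hs p).tsum_eq_zero_add, pow_zero, fz_one, xz]

lemma xz_nonneg (s : ℝ) (p : Nat.Primes) : 0 ≤ xz K s p := tsum_nonneg fun _ => fz_nonneg K s _

/-- the constant in the bound for the Euler factors -/
noncomputable def CZ : ℝ := ∑' e : ℕ, ((e : ℝ) + 3) ^ Module.finrank ℤ (𝓞 K) * (1 / 2 : ℝ) ^ e

lemma CZ_summable : Summable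
    (fun e : ℕ => ((e : ℝ) + 3) ^ Module.finrank ℤ (𝓞 K) * (1 / 2 : ℝ) ^ e) := by
  have h1 : Summable (fun e : ℕ => ((e : ℝ)) ^ Module.finrank ℤ (𝓞 K) * (1 / 2 : ℝ) ^ e) :=
    summable_pow_mul_geometric_of_norm_lt_one _ (by norm_num)
  have h2 := (summable_nat_add_iff 3).mpr h1
  refine (h2.mul_left 8).congr fun e => ?_
  push_cast
  rw [pow_add]
  ring

lemma fz_prime_pow_le {s : ℝ} (hs : 1 < s) (p : Nat.Primes) (e : ℕ) :
    fz K s ((p : ℕ) ^ (e + 2)) ≤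
      (((e : ℝ) + 3) ^ Module.finrank ℤ (𝓞 K) * (1 / 2 : ℝ) ^ e) * ((p : ℕ) : ℝ) ^ (-2 : ℝ) := by
  have hp0 : (0 : ℝ) < ((p : ℕ) : ℝ) := by exact_mod_cast p.2.pos
  have hp1 : (1 : ℝ) ≤ ((p : ℕ) : ℝ) := by exact_mod_cast p.2.one_le
  have h1 : (idc K ((p : ℕ) ^ (e + 2)) : ℝ) ≤ ((e : ℝ) + 3) ^ Module.finrank ℤ (𝓞 K) := by
    have := idc_prime_pow_le K p.2 (e + 2)
    calc (idc K ((p : ℕ) ^ (e + 2)) : ℝ) ≤ (((e + 2 + 1) ^ Module.finrank ℤ (𝓞 K) : ℕ) : ℝ) := by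
          exact_mod_cast this
      _ = _ := by push_cast; ring
  have h2 : (((p : ℕ) ^ (e + 2) : ℕ) : ℝ) ^ (-s) ≤ (1 / 2 : ℝ) ^ e * ((p : ℕ) : ℝ) ^ (-2 : ℝ) := by
    have h3 : (1 : ℝ) ≤ (((p : ℕ) ^ (e + 2) : ℕ) : ℝ) := by
      exact_mod_cast Nat.one_le_pow _ _ p.2.pos
    have h4 : (((p : ℕ) ^ (e + 2) : ℕ) : ℝ) ^ (-s) ≤ (((p : ℕ) ^ (e + 2) : ℕ) : ℝ) ^ (-1 : ℝ) :=
      Real.rpow_le_rpow_of_exponent_le h3 (by linarith)
    refine h4.trans ?_
    have h5 : ((p : ℕ) : ℝ) ^ (-2 : ℝ) = (((p : ℕ) : ℝ)⁻¹) ^ 2 := by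
      rw [Real.rpow_neg hp0.le, inv_pow]
      norm_num
    rw [Real.rpow_neg_one, h5]
    push_cast
    rw [← inv_pow, pow_add]
    refine mul_le_mul_of_nonneg_right ?_ (by positivity)
    exact pow_le_pow_left₀ (by positivity) (inv_prime_le p) e
  rw [fz]
  calc (idc K ((p : ℕ) ^ (e + 2)) : ℝ) * (((p : ℕ) ^ (e + 2) : ℕ) : ℝ) ^ (-s) ≤
      ((e : ℝ) + 3) ^ Module.finrank ℤ (𝓞 K) * ((1 / 2 : ℝ) ^ e * ((p : ℕ) : ℝ) ^ (-2 : ℝ)) := by
        refine mul_le_mul h1 h2 (Real.rpow_nonneg (Nat.cast_nonneg _) _) (by positivity)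
    _ = _ := by ring

lemma xz_sub_le {s : ℝ} (hs : 1 < s) (p : Nat.Primes) :
    fz K s p ≤ xz K s p ∧ xz K s p - fz K s p ≤ CZ K * ((p : ℕ) : ℝ) ^ (-2 : ℝ) := by
  have h1 : Summable (fun e : ℕ => fz K s ((p : ℕ) ^ (e + 1))) :=
    (summable_nat_add_iff 1).mpr (fz_pow_summable K hs p)
  have h2 : xz K s p = fz K s p + ∑' e : ℕ, fz K s ((p : ℕ) ^ (e + 2)) := by
    rw [xz, h1.tsum_eq_zero_add, zero_add, pow_one]
  have h3 : Summable (fun e : ℕ => fz K s ((p : ℕ) ^ (e + 2))) :=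
    (summable_nat_add_iff 2).mpr (fz_pow_summable K hs p)
  constructor
  · rw [h2]
    have h4 : 0 ≤ ∑' e : ℕ, fz K s ((p : ℕ) ^ (e + 2)) := tsum_nonneg fun e => fz_nonneg K s _
    linarith
  · rw [h2, add_sub_cancel_left, CZ, ← tsum_mul_right]
    exact h3.tsum_le_tsum (fun e => fz_prime_pow_le K hs p e) ((CZ_summable K).mul_right _)

lemma CZ_nonneg : 0 ≤ CZ K := tsum_nonneg fun e => by positivity

lemma P2_le_one (p : Nat.Primes) : ((p : ℕ) : ℝ) ^ (-2 : ℝ) ≤ ((p : ℕ) : ℝ)⁻¹ := by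
  have hp1 : (1 : ℝ) ≤ ((p : ℕ) : ℝ) := by exact_mod_cast p.2.one_le
  rw [← Real.rpow_neg_one]
  exact Real.rpow_le_rpow_of_exponent_le hp1 (by norm_num)

lemma fz_prime_le {s : ℝ} (hs : 1 < s) (p : Nat.Primes) :
    fz K s p ≤ 2 ^ Module.finrank ℤ (𝓞 K) * ((p : ℕ) : ℝ)⁻¹ := by
  have hp1 : (1 : ℝ) ≤ ((p : ℕ) : ℝ) := by exact_mod_cast p.2.one_le
  rw [fz, ← Real.rpow_neg_one]
  refine mul_le_mul ?_ (Real.rpow_le_rpow_of_exponent_le hp1 (by linarith))
    (Real.rpow_nonneg (Nat.cast_nonneg _) _) (by positivity)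
  exact_mod_cast idc_prime_le K p.2

/-- the constant in the bound for the logarithms of the Euler factors -/
noncomputable def CX : ℝ := (2 ^ Module.finrank ℤ (𝓞 K) + CZ K) ^ 2 + CZ K

lemma log_sub_le {s : ℝ} (hs : 1 < s) (p : Nat.Primes) :
    |Real.log (1 + xz K s p) - fz K s p| ≤ CX K * ((p : ℕ) : ℝ) ^ (-2 : ℝ) := by
  have hp0 : (0 : ℝ) < ((p : ℕ) : ℝ) := by exact_mod_cast p.2.pos
  have h0 := xz_nonneg K s p
  obtain ⟨h1, h2⟩ := xz_sub_le K hs p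
  have hC := CZ_nonneg K
  have h3 : xz K s p ≤ (2 ^ Module.finrank ℤ (𝓞 K) + CZ K) * ((p : ℕ) : ℝ)⁻¹ := by
    have h4 := fz_prime_le K hs p
    have h5 := mul_le_mul_of_nonneg_left (P2_le_one p) hC
    linarith
  have h6 : xz K s p ^ 2 ≤ (2 ^ Module.finrank ℤ (𝓞 K) + CZ K) ^ 2 * ((p : ℕ) : ℝ) ^ (-2 : ℝ) := by
    have h5 : ((p : ℕ) : ℝ) ^ (-2 : ℝ) = (((p : ℕ) : ℝ)⁻¹) ^ 2 := by
      rw [Real.rpow_neg hp0.le, inv_pow]
      norm_num
    rw [h5, ← mul_pow]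
    exact pow_le_pow_left₀ h0 h3 2
  have h7 : Real.log (1 + xz K s p) ≤ xz K s p := by
    have := Real.log_le_sub_one_of_pos (x := 1 + xz K s p) (by linarith)
    linarith
  have h8 : xz K s p - xz K s p ^ 2 ≤ Real.log (1 + xz K s p) := by
    have h9 := Real.one_sub_inv_le_log_of_pos (x := 1 + xz K s p) (by linarith)
    have h10 : xz K s p - xz K s p ^ 2 ≤ 1 - (1 + xz K s p)⁻¹ := by
      have h11 : 1 - (1 + xz K s p)⁻¹ = xz K s p / (1 + xz K s p) := by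
        field_simp
        ring
      rw [h11, le_div_iff₀ (by linarith)]
      nlinarith [pow_nonneg h0 3]
    linarith
  have h9 : 0 ≤ CZ K * ((p : ℕ) : ℝ) ^ (-2 : ℝ) :=
    mul_nonneg hC (Real.rpow_nonneg (Nat.cast_nonneg _) _)
  have h10 : 0 ≤ (2 ^ Module.finrank ℤ (𝓞 K) + CZ K) ^ 2 * ((p : ℕ) : ℝ) ^ (-2 : ℝ) :=
    mul_nonneg (sq_nonneg _) (Real.rpow_nonneg (Nat.cast_nonneg _) _)
  rw [CX, add_mul, abs_le]
  constructor <;> linarith

lemma log_zeta {s : ℝ} (hs : 1 < s) :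
    0 < ∑' n, fz K s n ∧
    Real.log (∑' n, fz K s n) = ∑' p : Nat.Primes, Real.log (1 + xz K s p) := by
  have hs0 : s ≠ 0 := by linarith
  have h1 : HasProd (fun p : Nat.Primes => ∑' e : ℕ, fz K s ((p : ℕ) ^ e)) (∑' n, fz K s n) := by
    refine EulerProduct.eulerProduct_hasProd (fz_one K s) (fun {m n} h => fz_mul K hs0 h) ?_
      (fz_zero K hs0)
    exact (fz_summable K hs).norm
  have h2 : Summable (fun p : Nat.Primes => fz K s p) :=
    (fz_summable K hs).comp_injective Subtype.val_injective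
  have h3 : Summable (fun p : Nat.Primes => Real.log (1 + xz K s p)) := by
    have h4 : Summable (fun p : Nat.Primes => Real.log (1 + xz K s p) - fz K s p) :=
      Summable.of_norm_bounded (P2_summable.mul_left (CX K)) fun p => log_sub_le K hs p
    refine (h4.add h2).congr fun p => ?_
    ring
  have h5 : Real.exp (∑' p : Nat.Primes, Real.log (1 + xz K s p)) = ∏' p : Nat.Primes, (1 + xz K s p) :=
    Real.rexp_tsum_eq_tprod (fun p => by linarith [xz_nonneg K s p]) h3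
  have h6 : ∏' p : Nat.Primes, (1 + xz K s p) = ∑' n, fz K s n := by
    rw [← h1.tprod_eq]
    exact tprod_congr fun p => (euler_factor K hs p).symm
  rw [← h6, ← h5]
  exact ⟨Real.exp_pos _, Real.log_exp _⟩

/-- **The number of ideals of norm `p` has mean value one.** -/
theorem MV_idc : MV (fun p => (idc K (p : ℕ) : ℝ)) 1 := by
  refine ⟨⟨2 ^ Module.finrank ℤ (𝓞 K), fun p => ?_⟩, ?_⟩
  · beta_reduce
    rw [abs_of_nonneg (Nat.cast_nonneg _)]
    exact_mod_cast idc_prime_le K p.2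
  have h1 : Tendsto (fun s : ℝ => ‖(s - 1 : ℂ) * dedekindZeta K s‖) (𝓝[>] 1)
      (𝓝 ‖((dedekindZeta_residue K : ℝ) : ℂ)‖) :=
    (tendsto_sub_one_mul_dedekindZeta_nhdsGT K).norm
  have h2 : Tendsto (fun ε : ℝ => 1 + ε) (𝓝[>] 0) (𝓝[>] 1) := by
    rw [tendsto_nhdsWithin_iff]
    constructor
    · have : Tendsto (fun ε : ℝ => 1 + ε) (𝓝 0) (𝓝 (1 + 0)) := Continuous.tendsto (by fun_prop) 0
      rw [add_zero] at this
      exact this.mono_left nhdsWithin_le_nhds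
    · filter_upwards [self_mem_nhdsWithin] with ε hε
      have : (0 : ℝ) < ε := hε
      exact Set.mem_Ioi.mpr (by linarith)
  have h3 := h1.comp h2
  have hA := dedekindZeta_residue_pos K
  rw [Complex.norm_real, Real.norm_eq_abs, abs_of_pos hA] at h3
  have h4 := (Real.continuousAt_log hA.ne').tendsto.comp h3
  have h5 := h4.abs.eventually (gt_mem_nhds (lt_add_one |Real.log (dedekindZeta_residue K)|))
  refine ⟨|Real.log (dedekindZeta_residue K)| + 1 + CX K * P2, ?_⟩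
  filter_upwards [h5, self_mem_nhdsWithin] with ε h6 hε0
  have hε : (0 : ℝ) < ε := hε0
  have hs : 1 < 1 + ε := by linarith
  obtain ⟨hpos, hlog⟩ := log_zeta K hs
  have h7 : ‖(((1 + ε : ℝ) : ℂ) - 1) * dedekindZeta K ((1 + ε : ℝ) : ℂ)‖ =
      ε * ∑' n, fz K (1 + ε) n := by
    have h8 : (((1 + ε : ℝ) : ℂ) - 1) = (ε : ℂ) := by push_cast; ring
    rw [dedekindZeta_eq K hs, h8, norm_mul, Complex.norm_real, Complex.norm_real,
      Real.norm_eq_abs, Real.norm_eq_abs, abs_of_pos hε, abs_of_pos hpos]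
  simp only [Function.comp_apply] at h6
  rw [h7, Real.log_mul hε.ne' hpos.ne', hlog] at h6
  have h8 : PS (fun p => (idc K (p : ℕ) : ℝ)) ε = ∑' p : Nat.Primes, fz K (1 + ε) p := rfl
  have h9 : Summable (fun p : Nat.Primes => fz K (1 + ε) p) :=
    (fz_summable K hs).comp_injective Subtype.val_injective
  have h10 : Summable (fun p : Nat.Primes => Real.log (1 + xz K (1 + ε) p) - fz K (1 + ε) p) :=
    Summable.of_norm_bounded (P2_summable.mul_left (CX K)) fun p => log_sub_le K hs p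
  have h11 : ∑' p : Nat.Primes, Real.log (1 + xz K (1 + ε) p) =
      ∑' p : Nat.Primes, (Real.log (1 + xz K (1 + ε) p) - fz K (1 + ε) p) +
        ∑' p : Nat.Primes, fz K (1 + ε) p := by
    rw [← h10.tsum_add h9]
    refine tsum_congr fun p => ?_
    ring
  have h12 : |∑' p : Nat.Primes, (Real.log (1 + xz K (1 + ε) p) - fz K (1 + ε) p)| ≤ CX K * P2 := by
    rw [P2, ← tsum_mul_left]
    rw [← Real.norm_eq_abs]
    exact tsum_of_norm_bounded (P2_summable.mul_left (CX K)).hasSum fun p => log_sub_le K hs p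
  rw [h11] at h6
  rw [h8, one_mul]
  rw [abs_le] at h12 ⊢
  rw [abs_lt] at h6
  constructor <;> linarith [h6.1, h6.2, h12.1, h12.2]

end

end Pool.Agent.Work.MP_2b9663_nt
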