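import Pool.Agent.Work.MP_2b9663_nt.Order

set_option autoImplicit false

/-!
Families of twists.
-/

namespace Pool.Agent.Work.MP_2b9663_nt

open Polynomial NumberTheorySymbols

section

variable {r : ℕ} {f : Fin r → ℤ[X]}

lemma mult_zero (r i : ℕ) : mult r i 0 = fixedPart r i := by
  unfold mult fixedPart
  simp

lemma jacobi_prod {ι : Type*} (S : Finset ι) (a : ι → ℤ) (n : ℕ) :
    J(∏ j ∈ S, a j | n) = ∏ j ∈ S, J(a j | n) := by
  classical
  induction S using Finset.induction_on with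
  | empty => simp
  | insert b s hb ih => rw [Finset.prod_insert hb, Finset.prod_insert hb, jacobiSym.mul_left, ih]

/-- the sets contributing to `H ^ i` -/
def contrib (r i : ℕ) : Finset (Finset (Fin r)) :=
  Finset.univ.filter (fun S => S.Nonempty ∧ mult r i S.card ≠ 0)

open Classical in
/-- the contribution of `S` to the normalised trace -/
noncomputable def cS (f : Fin r → ℤ[X]) (i : ℕ) (S : Finset (Fin r)) (p : Nat.Primes) : ℝ :=
  if Good f (fun _ => 1) p then (∏ j ∈ S, nx f (fun _ => 1) (Fq p 1) j) * (mult r i S.card : ℝ)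
  else 0

/-- the bound for the contribution of `S` -/
noncomputable def gS (f : Fin r → ℤ[X]) (i : ℕ) (S : Finset (Fin r)) : ℝ :=
  (∏ j ∈ S, ((2 * genus (f j) : ℕ) : ℝ)) * (mult r i S.card : ℝ)

lemma cS_le (hf : ∀ j, IsCurve (f j)) (i : ℕ) (S : Finset (Fin r)) (p : Nat.Primes) :
    |cS f i S p| ≤ gS f i S := by
  unfold cS gS
  split_ifs with hp
  · rw [abs_mul, Finset.abs_prod, abs_of_nonneg (Nat.cast_nonneg _)]
    refine mul_le_mul_of_nonneg_right ?_ (Nat.cast_nonneg _)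
    exact Finset.prod_le_prod (fun j _ => abs_nonneg _) fun j _ => nx_le hf hp one_ne_zero j
  · rw [abs_zero]
    exact mul_nonneg (Finset.prod_nonneg fun j _ => Nat.cast_nonneg _) (Nat.cast_nonneg _)

lemma sum_split (g : Finset (Fin r) → ℝ) (i : ℕ) :
    ∑ S : Finset (Fin r), g S * (mult r i S.card : ℝ) =
      g ∅ * fixedPart r i + ∑ S ∈ contrib r i, g S * (mult r i S.card : ℝ) := by
  classical
  rw [← Finset.add_sum_erase Finset.univ _ (Finset.mem_univ (∅ : Finset (Fin r)))]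
  rw [Finset.card_empty, mult_zero]
  congr 1
  symm
  refine Finset.sum_subset ?_ ?_
  · intro S hS
    rw [contrib, Finset.mem_filter] at hS
    rw [Finset.mem_erase]
    exact ⟨hS.2.1.ne_empty, Finset.mem_univ _⟩
  · intro S hS hS'
    rw [Finset.mem_erase] at hS
    rw [contrib, Finset.mem_filter] at hS'
    have h1 : mult r i S.card = 0 := by
      by_contra h
      exact hS' ⟨Finset.mem_univ _, Finset.nonempty_iff_ne_empty.mpr hS.1, h⟩
    rw [h1, Nat.cast_zero, mul_zero]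

lemma sum_gS (f : Fin r → ℤ[X]) (i : ℕ) :
    ∑ S ∈ contrib r i, gS f i S = (betti f i : ℝ) - fixedPart r i := by
  have h1 := sum_split (fun S => ∏ j ∈ S, ((2 * genus (f j) : ℕ) : ℝ)) i
  rw [← nP_expand, ← betti_eq, Finset.prod_empty, one_mul] at h1
  unfold gS
  linarith

lemma good_one {D : Fin r → ℤ} {p : Nat.Primes} (h : Good f D p) : Good f (fun _ => 1) p := by
  refine ⟨h.1, fun j => ⟨?_, (h.2 j).2⟩⟩
  intro h1
  exact (Nat.prime_iff_prime_int.mp p.2).not_dvd_one h1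

lemma ntr_expand {D : Fin r → ℤ} {p : Nat.Primes} (h : Good f D p) (i : ℕ) :
    ntr f D i p = fixedPart r i +
      ∑ S ∈ contrib r i, ((J(∏ j ∈ S, D j | p) : ℤ) : ℝ) * cS f i S p := by
  rw [ntr_good h, nP_expand, sum_split, Finset.prod_empty, one_mul]
  congr 1
  refine Finset.sum_congr rfl fun S _ => ?_
  rw [cS, if_pos (good_one h), jacobi_prod]
  push_cast
  rw [← mul_assoc, ← Finset.prod_mul_distrib]
  congr 1
  exact Finset.prod_congr rfl fun j _ => nx_twist h j

lemma orth_family {ι : Type*} [DecidableEq ι] {i : ℕ} {D : ι → Fin r → ℤ}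
    (h0 : ∀ k j, D k j ≠ 0) (hind : ∀ k l, k ≠ l → Independent i (D k) (D l)) (k l : ι)
    {S : Finset (Fin r)} (hS : S ∈ contrib r i) :
    MV (fun p => ((J(∏ j ∈ S, D k j | p) : ℤ) : ℝ) * ((J(∏ j ∈ S, D l j | p) : ℤ) : ℝ))
      (if k = l then 1 else 0) := by
  have he : (fun p : Nat.Primes =>
      ((J(∏ j ∈ S, D k j | p) : ℤ) : ℝ) * ((J(∏ j ∈ S, D l j | p) : ℤ) : ℝ)) =
      fun p : Nat.Primes => ((J(∏ j ∈ S, D k j * D l j | p) : ℤ) : ℝ) := by
    funext p
    rw [Finset.prod_mul_distrib, jacobiSym.mul_left]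
    push_cast
    rfl
  have hne : ∏ j ∈ S, D k j * D l j ≠ 0 :=
    Finset.prod_ne_zero_iff.mpr fun j _ => mul_ne_zero (h0 k j) (h0 l j)
  rw [he]
  split_ifs with h
  · refine MV.jacobi_square hne ?_
    rw [← h]
    exact ⟨∏ j ∈ S, D k j, by rw [Finset.prod_mul_distrib]⟩
  · refine MV.jacobi_nonsquare hne ?_
    rw [contrib, Finset.mem_filter] at hS
    obtain ⟨-, h1, h2⟩ := hS
    rw [mult] at h2
    by_cases h3 : S.card ≤ i ∧ Even (i - S.card)
    · rw [if_pos h3] at h2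
      exact hind k l h S h1 h3.1 h3.2 (by
        by_contra h4
        push Not at h4
        exact h2 (Nat.choose_eq_zero_of_lt h4))
    · rw [if_neg h3] at h2
      exact absurd rfl h2

/-- **Bessel's inequality for the orders at `s₀` in a family of twists.** -/
theorem family_bessel (hf : ∀ j, IsCurve (f j)) (i : ℕ) {ι : Type*} (D : ι → Fin r → ℤ)
    (h0 : ∀ k j, D k j ≠ 0) (hind : ∀ k l, k ≠ l → Independent i (D k) (D l))
    (F : ι → ℂ → ℂ) (hF : ∀ k, IsContinuation f (D k) i (F k)) (m : ι → ℤ)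
    (hm : ∀ k, meromorphicOrderAt (F k) ((i : ℂ) / 2 + 1) = m k) (s : Finset ι) :
    ∑ k ∈ s, (m k + (fixedPart r i : ℤ)) ^ 2 ≤ ((betti f i : ℤ) - (fixedPart r i : ℤ)) ^ 2 := by
  classical
  have h1 := bessel_family s (contrib r i) (fun k S p => ((J(∏ j ∈ S, D k j | p) : ℤ) : ℝ))
    (fun k _ l _ S hS => orth_family h0 hind k l hS)
    (cS f i) (gS f i) ∅ (fun S _ p _ => cS_le hf i S p) (fun k => (m k : ℝ) + fixedPart r i) (by
      intro k _
      obtain ⟨n, hn, hmv⟩ := order_mean hf (hF k)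
      have hnm : n = m k := by
        have := hm k
        rw [hn] at this
        exact_mod_cast this
      rw [hnm] at hmv
      obtain ⟨T, hT⟩ := bad_finite (hF k)
      have h2 := hmv.add (MV.const (-(fixedPart r i : ℝ)))
      have h3 : -(m k : ℝ) + -(fixedPart r i : ℝ) = -((m k : ℝ) + fixedPart r i) := by ring
      rw [h3] at h2
      refine h2.congr ?_ T ?_
      · exact BD.sum _ fun S _ => (BD.jacobi _).mul ⟨gS f i S, cS_le hf i S⟩
      · intro p hp
        rw [ntr_expand (hT p hp)]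
        ring)
  rw [sum_gS] at h1
  have h2 : ((∑ k ∈ s, (m k + (fixedPart r i : ℤ)) ^ 2 : ℤ) : ℝ) ≤
      ((((betti f i : ℤ) - (fixedPart r i : ℤ)) ^ 2 : ℤ) : ℝ) := by
    push_cast
    exact h1
  exact_mod_cast h2

lemma fixedPart_le (f : Fin r → ℤ[X]) (i : ℕ) : fixedPart r i ≤ betti f i := by
  have h1 := sum_gS f i
  have h2 : 0 ≤ ∑ S ∈ contrib r i, gS f i S := Finset.sum_nonneg fun S _ =>
    mul_nonneg (Finset.prod_nonneg fun j _ => Nat.cast_nonneg _) (Nat.cast_nonneg _)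
  have h3 : ((fixedPart r i : ℕ) : ℝ) ≤ ((betti f i : ℕ) : ℝ) := by linarith
  exact_mod_cast h3

/-- a set all of whose finite subsets have at most `N` elements -/
lemma encard_le_of_finset {α : Type*} {s : Set α} {N : ℕ}
    (h : ∀ t : Finset α, (t : Set α) ⊆ s → t.card ≤ N) : s.encard ≤ N := by
  by_contra hlt
  push Not at hlt
  have h1 : ((N + 1 : ℕ) : ℕ∞) ≤ s.encard := by
    have := Order.add_one_le_of_lt hlt
    exact_mod_cast this
  obtain ⟨t, hts, ht⟩ := Set.exists_subset_encard_eq h1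
  have hfin : t.Finite := Set.finite_of_encard_eq_coe ht
  have h2 := h hfin.toFinset (by rw [Set.Finite.coe_toFinset]; exact hts)
  rw [hfin.encard_eq_coe_toFinset_card] at ht
  have h3 : hfin.toFinset.card = N + 1 := by exact_mod_cast ht
  omega

/-- The exceptional set. -/
theorem family_encard (hf : ∀ j, IsCurve (f j)) (i : ℕ) {ι : Type*} (D : ι → Fin r → ℤ)
    (h0 : ∀ k j, D k j ≠ 0) (hind : ∀ k l, k ≠ l → Independent i (D k) (D l))
    (F : ι → ℂ → ℂ) (hF : ∀ k, IsContinuation f (D k) i (F k)) (m : ι → ℤ)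
    (hm : ∀ k, meromorphicOrderAt (F k) ((i : ℂ) / 2 + 1) = m k) :
    {k | m k ≠ -(fixedPart r i : ℤ)}.encard ≤ ((betti f i - fixedPart r i) ^ 2 : ℕ) := by
  refine encard_le_of_finset fun t ht => ?_
  have h1 := family_bessel hf i D h0 hind F hF m hm t
  have h2 : ((t.card : ℕ) : ℤ) ≤ ∑ k ∈ t, (m k + (fixedPart r i : ℤ)) ^ 2 := by
    rw [← nsmul_one, ← Finset.sum_const]
    refine Finset.sum_le_sum fun k hk => ?_
    have h3 : m k + (fixedPart r i : ℤ) ≠ 0 := by
      intro h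
      exact ht hk (by omega)
    have h4 : 0 < (m k + (fixedPart r i : ℤ)) ^ 2 := by positivity
    omega
  have h3 := fixedPart_le f i
  have h4 : (((betti f i - fixedPart r i) ^ 2 : ℕ) : ℤ) = ((betti f i : ℤ) - (fixedPart r i : ℤ)) ^ 2 := by
    rw [Nat.cast_pow, Nat.cast_sub h3]
  have h5 : ((t.card : ℕ) : ℤ) ≤ (((betti f i - fixedPart r i) ^ 2 : ℕ) : ℤ) := by
    rw [h4]
    exact h2.trans h1
  exact_mod_cast h5

/-- distinct squarefree integers have a product which is not a square -/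
lemma not_isSquare_mul {D D' : ℤ} (hD : Squarefree D) (hD' : Squarefree D') (hne : D ≠ D') :
    ¬ IsSquare (D * D') := by
  rintro ⟨c, hc⟩
  have h0 : D * D' ≠ 0 := mul_ne_zero hD.ne_zero hD'.ne_zero
  have hpos : 0 < D * D' := by
    rw [hc] at h0 ⊢
    exact mul_self_pos.mpr (left_ne_zero_of_mul h0)
  have hc' : D * D' = c ^ 2 := by rw [hc, sq]
  have key : ∀ {a b : ℤ}, Squarefree a → a * b = c ^ 2 → Squarefree b → a ∣ b := by
    intro a b ha hab hb
    have h1 : a ∣ c := ha.isRadical 2 c ⟨b, hab.symm⟩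
    obtain ⟨d, hd⟩ := h1
    have h2 : a * b = a * (a * d ^ 2) := by rw [hab, hd]; ring
    exact ⟨d ^ 2, mul_left_cancel₀ ha.ne_zero h2⟩
  have h1 : D ∣ D' := key hD hc' hD'
  have h2 : D' ∣ D := key hD' (by rw [mul_comm]; exact hc') hD
  have h3 : D.natAbs = D'.natAbs := Nat.dvd_antisymm (Int.natAbs_dvd_natAbs.mpr h1)
    (Int.natAbs_dvd_natAbs.mpr h2)
  rcases Int.natAbs_eq_natAbs_iff.mp h3 with h4 | h4
  · exact hne h4
  · rw [h4] at hpos
    nlinarith [sq_nonneg D']

lemma diag_independent {i : ℕ} (hi : Odd i) {D D' : ℤ} (hD : Squarefree D) (hD' : Squarefree D')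
    (hne : D ≠ D') : Independent i (fun _ : Fin r => D) (fun _ => D') := by
  intro S _ hSi hev _ hsq
  rw [Finset.prod_const] at hsq
  have hodd : Odd S.card := by
    rcases Nat.even_or_odd S.card with h | h
    · exfalso
      have h1 : Even (i - S.card + S.card) := hev.add h
      rw [Nat.sub_add_cancel hSi] at h1
      exact (Nat.not_even_iff_odd.mpr hi) h1
    · exact h
  obtain ⟨a, ha⟩ := hodd
  rw [ha] at hsq
  apply not_isSquare_mul hD hD' hne
  have h0 : D * D' ≠ 0 := mul_ne_zero hD.ne_zero hD'.ne_zero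
  obtain ⟨c, hc⟩ := hsq
  -- `(D D') ^ (2 a + 1) = c ^ 2`
  have h1 : ((D * D') ^ a) ^ 2 ∣ c ^ 2 := ⟨D * D', by rw [sq c, ← hc]; ring⟩
  have h2 : (D * D') ^ a ∣ c := (Int.pow_dvd_pow_iff two_ne_zero).mp h1
  obtain ⟨d, hd⟩ := h2
  refine ⟨d, ?_⟩
  have h3 : ((D * D') ^ a) ^ 2 * (D * D') = ((D * D') ^ a) ^ 2 * (d * d) := by
    calc ((D * D') ^ a) ^ 2 * (D * D') = (D * D') ^ (2 * a + 1) := by ring
      _ = c * c := hc
      _ = _ := by rw [hd]; ring
  exact mul_left_cancel₀ (pow_ne_zero 2 (pow_ne_zero a h0)) h3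

/-- Odd degrees and quadratic twists. -/
theorem diag_encard (hf : ∀ j, IsCurve (f j)) {i : ℕ} (hi : Odd i) :
    {E : ℤ | Squarefree E ∧ ∃ F : ℂ → ℂ, IsContinuation f (fun _ => E) i F ∧
      meromorphicOrderAt F ((i : ℂ) / 2 + 1) ≠ 0}.encard ≤ ((betti f i) ^ 2 : ℕ) := by
  classical
  set 𝒯 := {E : ℤ | Squarefree E ∧ ∃ F : ℂ → ℂ, IsContinuation f (fun _ => E) i F ∧
      meromorphicOrderAt F ((i : ℂ) / 2 + 1) ≠ 0} with h𝒯
  have hfp : fixedPart r i = 0 := by
    rw [fixedPart, if_neg (Nat.not_even_iff_odd.mpr hi)]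
  choose F hF hF0 using fun E : 𝒯 => E.2.2
  choose m hm _ using fun E : 𝒯 => order_mean hf (hF E)
  have h1 := family_encard hf i (ι := 𝒯) (fun E _ => (E : ℤ)) (fun E _ => E.2.1.ne_zero)
    (fun E E' hne => diag_independent hi E.2.1 E'.2.1 (fun h => hne (Subtype.ext h))) F hF m hm
  rw [hfp, Nat.sub_zero] at h1
  have h2 : {E : 𝒯 | m E ≠ -((0 : ℕ) : ℤ)} = Set.univ := by
    ext E
    simp only [Set.mem_ofPred_eq, Set.mem_univ, iff_true, Nat.cast_zero, neg_zero]
    intro h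
    apply hF0 E
    rw [hm E, h]
    rfl
  rw [h2, Set.encard_univ] at h1
  exact h1

end

end Pool.Agent.Work.MP_2b9663_nt
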