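import Pool.Agent.Work.MP_2b9663_nt.Characters
import Pool.Agent.Work.MP_2b9663_nt.Family

set_option autoImplicit false

/-!
Base change to abelian number fields.
-/

namespace Pool.Agent.Work.MP_2b9663_nt

open Filter Topology ComplexConjugate

lemma norm_sum_char_le {N : ℕ} (Φ : Finset (DirichletCharacter ℂ N)) (a : ZMod N) (k : ℕ) :
    ‖∑ χ ∈ Φ, χ a ^ k‖ ≤ Φ.card := by
  refine (norm_sum_le _ _).trans ?_
  refine (Finset.sum_le_card_nsmul Φ _ 1 fun χ _ => ?_).trans_eq (by simp)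
  rw [norm_pow]
  exact pow_le_one₀ (norm_nonneg _) (χ.norm_le_one _)

lemma norm_sum_char_le' {N : ℕ} (Φ : Finset (DirichletCharacter ℂ N)) (a : ZMod N) :
    ‖∑ χ ∈ Φ, χ a‖ ≤ Φ.card := by
  have := norm_sum_char_le Φ a 1
  simpa using this

section

variable {G : Nat.Primes → Prop} {t : Nat.Primes → ℕ → ℂ} {i : ℕ} {b : ℝ}

lemma weil_twist (h : WeilBound G t i b) {N : ℕ}
    (Φ : Finset (DirichletCharacter ℂ N)) :
    WeilBound (fun p => G p ∧ ¬ ((p : ℕ) ∣ N))
      (fun p k => (∑ χ ∈ Φ, χ ((p : ℕ) : ZMod N) ^ k) * t p k) i (Φ.card * b) := by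
  intro p hp k hk
  have h1 := h p hp.1 k hk
  have h2 : ‖∑ χ ∈ Φ, χ ((p : ℕ) : ZMod N) ^ k‖ ≤ Φ.card := norm_sum_char_le Φ _ k
  rw [norm_mul]
  have h3 := mul_le_mul h2 h1 (norm_nonneg _) (Nat.cast_nonneg _)
  rwa [← mul_assoc] at h3

/-- the order of the twisted product and mean values -/
lemma order_twist (hb : 0 ≤ b) (h : WeilBound G t i b) {N : ℕ} [NeZero N]
    {Φ : Finset (DirichletCharacter ℂ N)} {F : ℂ → ℂ} (hF : IsContinuationAb G t i Φ F) :
    ∃ n : ℤ, meromorphicOrderAt F ((i : ℂ) / 2 + 1) = n ∧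
      MV (fun p => (nt G t i p * ∑ χ ∈ Φ, χ ((p : ℕ) : ZMod N)).re) (-(n : ℝ)) := by
  have hB : 0 ≤ Φ.card * b := mul_nonneg (Nat.cast_nonneg _) hb
  obtain ⟨n, h1, h2⟩ := order_of_euler hB (weil_twist h Φ) hF.1 hF.2
  refine ⟨n, h1, ?_⟩
  have hmv : MV (fun p => (nt (fun p => G p ∧ ¬ ((p : ℕ) ∣ N))
      (fun p k => (∑ χ ∈ Φ, χ ((p : ℕ) : ZMod N) ^ k) * t p k) i p).re) (-(n : ℝ)) :=
    ⟨⟨Φ.card * b, nt_le hB (weil_twist h Φ)⟩, h2⟩
  refine hmv.congr ⟨b * Φ.card, fun p => ?_⟩ (smallPrimes (N + 1)) fun p hp => ?_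
  · refine (Complex.abs_re_le_norm _).trans ?_
    rw [norm_mul]
    exact mul_le_mul (nt_norm_le hb h p) (norm_sum_char_le' Φ _) (norm_nonneg _) hb
  · have hd := not_dvd_of_big (NeZero.ne N) hp
    congr 1
    unfold nt
    by_cases hG : G p
    · rw [if_pos ⟨hG, hd⟩, if_pos hG]
      simp only [pow_one]
      ring
    · rw [if_neg hG, if_neg fun hh => hG hh.1, zero_mul]

/-- **Base change to abelian fields.** -/
theorem abelian_bessel (hb : 0 ≤ b) (h : WeilBound G t i b) {F₁ : ℂ → ℂ} (hF₁ : IsEuler G t i F₁)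
    (hmer : MeromorphicAt F₁ ((i : ℂ) / 2 + 1)) {m₁ : ℤ}
    (hm₁ : meromorphicOrderAt F₁ ((i : ℂ) / 2 + 1) = m₁) {ι : Type*} {N : ι → ℕ}
    (hN : ∀ k, N k ≠ 0) (Φ : ∀ k, Finset (DirichletCharacter ℂ (N k))) (h1 : ∀ k, 1 ∈ Φ k)
    (h2 : ∀ k, 2 ≤ (Φ k).card) (hdis : ∀ k l, k ≠ l → OnlyTrivialCommon (Φ k) (Φ l))
    {F : ι → ℂ → ℂ} (hF : ∀ k, IsContinuationAb G t i (Φ k) (F k)) {m : ι → ℤ}
    (hm : ∀ k, meromorphicOrderAt (F k) ((i : ℂ) / 2 + 1) = m k) (s : Finset ι) :
    (m₁ : ℝ) ^ 2 + ∑ k ∈ s, ((m k : ℝ) - m₁) ^ 2 / ((Φ k).card - 1) ≤ b ^ 2 := by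
  classical
  have : ∀ k, NeZero (N k) := fun k => ⟨hN k⟩
  -- the untwisted function
  obtain ⟨n₁, hn₁, hla₁⟩ := order_of_euler hb h hF₁ hmer
  have hnm₁ : n₁ = m₁ := by
    rw [hn₁] at hm₁
    exact_mod_cast hm₁
  rw [hnm₁] at hla₁
  have hmv₁ : MV (fun p => (nt G t i p).re) (-(m₁ : ℝ)) := ⟨⟨b, nt_le hb h⟩, hla₁⟩
  -- the functions
  set Ψ : ∀ k, Finset (DirichletCharacter ℂ (N k)) := fun k => (Φ k).erase 1 with hΨ
  have hcard : ∀ k, ((Ψ k).card : ℝ) = (Φ k).card - 1 := by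
    intro k
    have h3 : (Ψ k).card + 1 = (Φ k).card := Finset.card_erase_add_one (h1 k)
    rw [← h3]
    push_cast
    ring
  set T : Option ι → Nat.Primes → ℂ := fun o p =>
    match o with
    | none => 1
    | some k => ∑ χ ∈ Ψ k, χ ((p : ℕ) : ZMod (N k)) with hT
  set c : Option ι → ℝ := fun o =>
    match o with
    | none => 1
    | some k => (Φ k).card - 1 with hc
  set μ : Option ι → ℝ := fun o =>
    match o with
    | none => m₁
    | some k => (m k : ℝ) - m₁ with hμ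
  have hne1 : ∀ k, ∀ χ ∈ Ψ k, χ ≠ 1 := fun k χ hχ => Finset.ne_of_mem_erase hχ
  -- characters against the constant
  have hconst : ∀ k, MV (fun p => (T (some k) p).re) 0 := by
    intro k
    have h3 : MV (fun p => ∑ χ ∈ Ψ k, (χ ((p : ℕ) : ZMod (N k))).re) (∑ χ ∈ Ψ k, 0) :=
      MV.sum (Ψ k) fun χ hχ => ⟨⟨1, fun p => (Complex.abs_re_le_norm _).trans (χ.norm_le_one _)⟩,
        LA_char χ (hne1 k χ hχ)⟩
    rw [Finset.sum_const_zero] at h3
    have h4 : (fun p => (T (some k) p).re) =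
        fun p : Nat.Primes => ∑ χ ∈ Ψ k, (χ ((p : ℕ) : ZMod (N k))).re := by
      funext p
      simp only [hT]
      rw [Complex.re_sum]
    rw [h4]
    exact h3
  -- two families of characters
  have hpair : ∀ k l, MV (fun p => (T (some k) p * conj (T (some l) p)).re)
      (∑ χ ∈ Ψ k, ∑ χ' ∈ Ψ l, if Equivalent χ χ' then 1 else 0) := by
    intro k l
    have h3 := MV.sum (Ψ k) fun χ _ => MV.sum (Ψ l) fun χ' _ => MV.pair χ χ'
    have h4 : (fun p => (T (some k) p * conj (T (some l) p)).re) = fun p : Nat.Primes =>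
        ∑ χ ∈ Ψ k, ∑ χ' ∈ Ψ l,
          (χ ((p : ℕ) : ZMod (N k)) * conj (χ' ((p : ℕ) : ZMod (N l)))).re := by
      funext p
      simp only [hT]
      rw [map_sum, Finset.sum_mul_sum, Complex.re_sum]
      refine Finset.sum_congr rfl fun χ _ => ?_
      rw [Complex.re_sum]
    rw [h4]
    exact h3
  have key := bessel_complex (insert none (s.map Function.Embedding.some)) T c (by
      intro o _
      rcases o with _ | k
      · exact one_pos
      · have h3 := h2 k
        have h4 : (2 : ℝ) ≤ (Φ k).card := by exact_mod_cast h3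
        change (0 : ℝ) < (Φ k).card - 1
        linarith) (by
      intro o _ o' _
      rcases o with _ | k <;> rcases o' with _ | l
      · rw [if_pos rfl]
        change MV (fun _ : Nat.Primes => ((1 : ℂ) * conj (1 : ℂ)).re) 1
        simpa using MV.one
      · rw [if_neg (by simp)]
        have h3 : (fun p => (T none p * conj (T (some l) p)).re) = fun p => (T (some l) p).re := by
          funext p
          change ((1 : ℂ) * conj (T (some l) p)).re = _
          rw [one_mul, Complex.conj_re]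
        rw [h3]
        exact hconst l
      · rw [if_neg (by simp)]
        have h3 : (fun p => (T (some k) p * conj (T none p)).re) = fun p => (T (some k) p).re := by
          funext p
          change (T (some k) p * conj (1 : ℂ)).re = _
          rw [map_one, mul_one]
        rw [h3]
        exact hconst k
      · have h3 := hpair k l
        by_cases hkl : k = l
        · subst hkl
          rw [if_pos rfl]
          change MV _ (((Φ k).card : ℝ) - 1)
          have h4 : ∑ χ ∈ Ψ k, ∑ χ' ∈ Ψ k, (if Equivalent χ χ' then (1 : ℝ) else 0) =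
              (Φ k).card - 1 := by
            rw [← hcard k, Finset.cast_card]
            refine Finset.sum_congr rfl fun χ hχ => ?_
            rw [Finset.sum_eq_single χ]
            · rw [if_pos]
              intro n _
              rfl
            · intro χ' _ hne
              rw [if_neg]
              intro heq
              apply hne
              refine MulChar.ext fun a => ?_
              have h5 : ((a : ZMod (N k)).val).Coprime (N k * N k) := by
                have := ZMod.val_coe_unit_coprime a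
                exact Nat.Coprime.mul_right this this
              have h6 := heq _ h5
              rw [ZMod.natCast_zmod_val] at h6
              exact h6.symm
            · intro hh
              exact absurd hχ hh
          rw [h4] at h3
          exact h3
        · rw [if_neg (by simpa using hkl)]
          have h4 : ∑ χ ∈ Ψ k, ∑ χ' ∈ Ψ l, (if Equivalent χ χ' then (1 : ℝ) else 0) = 0 := by
            refine Finset.sum_eq_zero fun χ hχ => Finset.sum_eq_zero fun χ' hχ' => ?_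
            rw [if_neg]
            intro heq
            exact hne1 k χ hχ (hdis k l hkl χ (Finset.mem_of_mem_erase hχ) χ'
              (Finset.mem_of_mem_erase hχ') heq)
          rw [h4] at h3
          exact h3)
    (nt G t i) (nt_norm_le hb h) μ (by
      intro o _
      rcases o with _ | k
      · change MV (fun p => (nt G t i p * (1 : ℂ)).re) (-(m₁ : ℝ))
        simpa using hmv₁
      · change MV (fun p => (nt G t i p * T (some k) p).re) (-((m k : ℝ) - m₁))
        obtain ⟨n, hn, hmv⟩ := order_twist hb h (hF k)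
        have hnm : n = m k := by
          have := hm k
          rw [hn] at this
          exact_mod_cast this
        rw [hnm] at hmv
        have h3 := hmv.add (hmv₁.const_mul (-1))
        have h4 : -(m k : ℝ) + -1 * -(m₁ : ℝ) = -((m k : ℝ) - m₁) := by ring
        rw [h4] at h3
        refine h3.congr ⟨b * (Ψ k).card, fun p => ?_⟩ (smallPrimes (N k + 1)) fun p hp => ?_
        · refine (Complex.abs_re_le_norm _).trans ?_
          rw [norm_mul]
          exact mul_le_mul (nt_norm_le hb h p) (norm_sum_char_le' (Ψ k) _) (norm_nonneg _) hb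
        · have hu : IsUnit (((p : ℕ) : ZMod (N k))) :=
            (ZMod.isUnit_iff_coprime _ _).mpr (coprime_of_big (hN k) hp)
          have h5 : ∑ χ ∈ Φ k, χ ((p : ℕ) : ZMod (N k)) = 1 + T (some k) p := by
            rw [← Finset.add_sum_erase (Φ k) _ (h1 k), MulChar.one_apply hu]
          rw [h5, mul_add, mul_one, Complex.add_re]
          ring)
  rw [Finset.sum_insert (by simp), Finset.sum_map] at key
  have e1 : μ none ^ 2 / c none = (m₁ : ℝ) ^ 2 := by
    change (m₁ : ℝ) ^ 2 / 1 = _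
    rw [div_one]
  rw [e1] at key
  exact key

/-- The exceptional fields. -/
theorem abelian_encard {b : ℕ} (h : WeilBound G t i b) {F₁ : ℂ → ℂ} (hF₁ : IsEuler G t i F₁)
    (hmer : MeromorphicAt F₁ ((i : ℂ) / 2 + 1)) {m₁ : ℤ}
    (hm₁ : meromorphicOrderAt F₁ ((i : ℂ) / 2 + 1) = m₁) {ι : Type*} {N : ι → ℕ}
    (hN : ∀ k, N k ≠ 0) (Φ : ∀ k, Finset (DirichletCharacter ℂ (N k))) (h1 : ∀ k, 1 ∈ Φ k)
    (h2 : ∀ k, 2 ≤ (Φ k).card) (hdis : ∀ k l, k ≠ l → OnlyTrivialCommon (Φ k) (Φ l))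
    {F : ι → ℂ → ℂ} (hF : ∀ k, IsContinuationAb G t i (Φ k) (F k)) {m : ι → ℤ}
    (hm : ∀ k, meromorphicOrderAt (F k) ((i : ℂ) / 2 + 1) = m k) (d : ℕ) :
    {k | (Φ k).card ≤ d ∧ m k ≠ m₁}.encard ≤ ((d - 1) * (b ^ 2 - m₁.natAbs ^ 2) : ℕ) := by
  classical
  refine encard_le_of_finset fun s hs => ?_
  have h3 := abelian_bessel (Nat.cast_nonneg b) h hF₁ hmer hm₁ hN Φ h1 h2 hdis hF hm s
  rcases s.eq_empty_or_nonempty with rfl | ⟨k₀, hk₀⟩
  · simp
  have hd : 2 ≤ d := (h2 k₀).trans (hs hk₀).1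
  have hdR : (0 : ℝ) < (d : ℝ) - 1 := by
    have : (2 : ℝ) ≤ d := by exact_mod_cast hd
    linarith
  have h4 : (s.card : ℝ) / ((d : ℝ) - 1) ≤ ∑ k ∈ s, ((m k : ℝ) - m₁) ^ 2 / ((Φ k).card - 1) := by
    rw [Finset.cast_card, Finset.sum_div]
    refine Finset.sum_le_sum fun k hk => ?_
    have h5 := (hs hk).1
    have h6 := (hs hk).2
    have h7 : (1 : ℝ) ≤ ((m k : ℝ) - m₁) ^ 2 := by
      have h8 : m k - m₁ ≠ 0 := sub_ne_zero.mpr h6
      have h9 : 1 ≤ (m k - m₁) ^ 2 := by
        have : 0 < (m k - m₁) ^ 2 := by positivity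
        omega
      exact_mod_cast h9
    have h8 : (2 : ℝ) ≤ (Φ k).card := by exact_mod_cast h2 k
    have h9 : ((Φ k).card : ℝ) ≤ d := by exact_mod_cast h5
    exact div_le_div₀ (by positivity) h7 (by linarith) (by linarith)
  have h5 : (s.card : ℝ) ≤ ((d : ℝ) - 1) * ((b : ℝ) ^ 2 - (m₁ : ℝ) ^ 2) := by
    have h6 : (s.card : ℝ) / ((d : ℝ) - 1) ≤ (b : ℝ) ^ 2 - (m₁ : ℝ) ^ 2 := by linarith
    rw [div_le_iff₀ hdR] at h6
    linarith
  have h6 : m₁.natAbs ^ 2 ≤ b ^ 2 := by
    have h7 : (0 : ℝ) ≤ (b : ℝ) ^ 2 - (m₁ : ℝ) ^ 2 := by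
      have h8 : (0 : ℝ) ≤ (s.card : ℝ) / ((d : ℝ) - 1) := by positivity
      linarith
    have h8 : ((m₁.natAbs : ℕ) : ℝ) ^ 2 = (m₁ : ℝ) ^ 2 := by
      rw [Nat.cast_natAbs, Int.cast_abs, sq_abs]
    have h9 : ((m₁.natAbs : ℕ) : ℝ) ^ 2 ≤ (b : ℝ) ^ 2 := by rw [h8]; linarith
    exact_mod_cast h9
  have h7 : (((d - 1) * (b ^ 2 - m₁.natAbs ^ 2) : ℕ) : ℝ) =
      ((d : ℝ) - 1) * ((b : ℝ) ^ 2 - (m₁ : ℝ) ^ 2) := by
    rw [Nat.cast_mul, Nat.cast_sub (by omega), Nat.cast_sub h6]
    push_cast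
    rw [Nat.cast_natAbs, Int.cast_abs, sq_abs]
  rw [← h7] at h5
  exact_mod_cast h5

end

end Pool.Agent.Work.MP_2b9663_nt
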