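import Mathlib

set_option autoImplicit false

/-!
Logarithmic asymptotics of sums over primes.
-/

namespace Pool.Agent.Work.MP_2b9663_nt

open Filter Topology Complex

/-- `g ε = κ log (1 / ε) + O(1)` as `ε → 0+`. -/
def LA (g : ℝ → ℝ) (κ : ℝ) : Prop := ∃ C : ℝ, ∀ᶠ ε in 𝓝[>] (0 : ℝ), |g ε + κ * Real.log ε| ≤ C

lemma LA.add {g h : ℝ → ℝ} {κ μ : ℝ} (hg : LA g κ) (hh : LA h μ) :
    LA (fun ε => g ε + h ε) (κ + μ) := by
  obtain ⟨C, hC⟩ := hg
  obtain ⟨D, hD⟩ := hh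
  refine ⟨C + D, ?_⟩
  filter_upwards [hC, hD] with ε h1 h2
  have : g ε + h ε + (κ + μ) * Real.log ε = (g ε + κ * Real.log ε) + (h ε + μ * Real.log ε) := by
    ring
  rw [this]
  exact (abs_add_le _ _).trans (add_le_add h1 h2)

lemma LA.const_mul {g : ℝ → ℝ} {κ : ℝ} (c : ℝ) (hg : LA g κ) : LA (fun ε => c * g ε) (c * κ) := by
  obtain ⟨C, hC⟩ := hg
  refine ⟨|c| * C, ?_⟩
  filter_upwards [hC] with ε h1
  have : c * g ε + c * κ * Real.log ε = c * (g ε + κ * Real.log ε) := by ring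
  rw [this, abs_mul]
  exact mul_le_mul_of_nonneg_left h1 (abs_nonneg c)

lemma LA.zero : LA (fun _ => 0) 0 := ⟨0, by simp⟩

lemma LA.sum {ι : Type*} (s : Finset ι) {g : ι → ℝ → ℝ} {κ : ι → ℝ} (h : ∀ i ∈ s, LA (g i) (κ i)) :
    LA (fun ε => ∑ i ∈ s, g i ε) (∑ i ∈ s, κ i) := by
  classical
  induction s using Finset.induction_on with
  | empty => simpa using LA.zero
  | insert a s ha ih =>
    simp only [Finset.sum_insert ha]
    exact (h a (Finset.mem_insert_self _ _)).add (ih fun i hi => h i (Finset.mem_insert_of_mem hi))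

/-- bounded functions -/
lemma LA.of_bounded {g : ℝ → ℝ} {C : ℝ} (h : ∀ᶠ ε in 𝓝[>] (0 : ℝ), |g ε| ≤ C) : LA g 0 :=
  ⟨C, by filter_upwards [h] with ε h1; simpa using h1⟩

lemma LA.congr_bounded {g h : ℝ → ℝ} {κ C : ℝ} (hg : LA g κ)
    (hd : ∀ᶠ ε in 𝓝[>] (0 : ℝ), |h ε - g ε| ≤ C) : LA h κ := by
  have h1 := hg.add (LA.of_bounded hd)
  rw [add_zero] at h1
  refine ⟨h1.choose, ?_⟩
  filter_upwards [h1.choose_spec] with ε h2
  have : h ε = g ε + (h ε - g ε) := by ring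
  rw [this]
  exact h2

lemma LA.nonneg {g : ℝ → ℝ} {κ : ℝ} (hg : LA g κ) (h0 : ∀ᶠ ε in 𝓝[>] (0 : ℝ), 0 ≤ g ε) :
    0 ≤ κ := by
  by_contra hlt
  push Not at hlt
  obtain ⟨C, hC⟩ := hg
  have h1 : Tendsto (fun ε => κ * Real.log ε) (𝓝[>] (0 : ℝ)) atTop :=
    Tendsto.const_mul_atBot_of_neg hlt Real.tendsto_log_nhdsGT_zero
  have h2 := h1.eventually (eventually_gt_atTop C)
  obtain ⟨ε, h3, h4, h5⟩ := (hC.and (h0.and h2)).exists
  have h6 := (abs_le.mp h3).2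
  linarith

/-- the norm of a power of `p` -/
lemma norm_cpow_prime (p : Nat.Primes) (s : ℂ) : ‖((p : ℕ) : ℂ) ^ (-s)‖ = ((p : ℕ) : ℝ) ^ (-s.re) := by
  rw [Complex.norm_natCast_cpow_of_pos p.2.pos, Complex.neg_re]

/-- the Dirichlet series with coefficients `c` at primes -/
noncomputable def PS (c : Nat.Primes → ℝ) (ε : ℝ) : ℝ := ∑' p : Nat.Primes, c p * ((p : ℕ) : ℝ) ^ (-(1 + ε))

lemma PS_summable {c : Nat.Primes → ℝ} {B : ℝ} (hc : ∀ p, |c p| ≤ B) {ε : ℝ} (hε : 0 < ε) :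
    Summable (fun p : Nat.Primes => c p * ((p : ℕ) : ℝ) ^ (-(1 + ε))) := by
  have h1 : Summable (fun p : Nat.Primes => ((p : ℕ) : ℝ) ^ (-(1 + ε))) :=
    Nat.Primes.summable_rpow.mpr (by linarith)
  refine Summable.of_norm_bounded (h1.mul_left B) fun p => ?_
  rw [norm_mul, Real.norm_eq_abs, Real.norm_eq_abs]
  rw [abs_of_nonneg (Real.rpow_nonneg (Nat.cast_nonneg _) _)]
  exact mul_le_mul_of_nonneg_right (hc p) (Real.rpow_nonneg (Nat.cast_nonneg _) _)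

/-- the constant `∑ p ^ (-2)` -/
noncomputable def P2 : ℝ := ∑' p : Nat.Primes, ((p : ℕ) : ℝ) ^ (-2 : ℝ)

lemma P2_summable : Summable (fun p : Nat.Primes => ((p : ℕ) : ℝ) ^ (-2 : ℝ)) :=
  Nat.Primes.summable_rpow.mpr (by norm_num)

/-- Comparison of `- log (1 - z)` and `z`. -/
lemma norm_neg_log_sub_le {z : ℂ} (hz : ‖z‖ ≤ 1 / 2) : ‖-Complex.log (1 - z) - z‖ ≤ ‖z‖ ^ 2 := by
  have h1 := Complex.norm_log_one_add_sub_self_le (z := -z) (by rw [norm_neg]; linarith)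
  rw [norm_neg] at h1
  have h2 : -Complex.log (1 - z) - z = -(Complex.log (1 + -z) - -z) := by
    rw [← sub_eq_add_neg]; ring
  rw [h2, norm_neg]
  refine h1.trans ?_
  have h3 : (1 - ‖z‖)⁻¹ ≤ 2 := by
    rw [inv_le_comm₀ (by linarith) (by norm_num)]
    linarith
  calc ‖z‖ ^ 2 * (1 - ‖z‖)⁻¹ / 2 ≤ ‖z‖ ^ 2 * 2 / 2 := by
        gcongr
    _ = ‖z‖ ^ 2 := by ring

/-- The logarithm of an Euler product with bounded coefficients. -/
lemma log_euler {a : Nat.Primes → ℂ} (ha : ∀ p, ‖a p‖ ≤ 1) {ε : ℝ} (hε : 0 < ε) :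
    |(∑' p : Nat.Primes, -Complex.log (1 - a p * ((p : ℕ) : ℂ) ^ (-((1 + ε : ℝ) : ℂ)))).re -
      PS (fun p => (a p).re) ε| ≤ P2 := by
  have hnorm : ∀ p : Nat.Primes, ‖a p * ((p : ℕ) : ℂ) ^ (-((1 + ε : ℝ) : ℂ))‖ ≤
      ((p : ℕ) : ℝ) ^ (-(1 + ε)) := by
    intro p
    rw [norm_mul, norm_cpow_prime, Complex.ofReal_re]
    exact mul_le_of_le_one_left (Real.rpow_nonneg (Nat.cast_nonneg _) _) (ha p)
  have hp1 : ∀ p : Nat.Primes, ((p : ℕ) : ℝ) ^ (-(1 + ε)) ≤ ((p : ℕ) : ℝ) ^ (-1 : ℝ) := by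
    intro p
    exact Real.rpow_le_rpow_of_exponent_le (by exact_mod_cast p.2.one_le) (by linarith)
  have hp2 : ∀ p : Nat.Primes, ((p : ℕ) : ℝ) ^ (-1 : ℝ) ≤ 1 / 2 := by
    intro p
    rw [Real.rpow_neg_one, one_div]
    have : (2 : ℝ) ≤ ((p : ℕ) : ℝ) := by exact_mod_cast p.2.two_le
    exact inv_anti₀ (by norm_num) this
  have hhalf : ∀ p : Nat.Primes, ‖a p * ((p : ℕ) : ℂ) ^ (-((1 + ε : ℝ) : ℂ))‖ ≤ 1 / 2 := fun p =>
    (hnorm p).trans ((hp1 p).trans (hp2 p))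
  have hdiff : ∀ p : Nat.Primes, ‖-Complex.log (1 - a p * ((p : ℕ) : ℂ) ^ (-((1 + ε : ℝ) : ℂ))) -
      a p * ((p : ℕ) : ℂ) ^ (-((1 + ε : ℝ) : ℂ))‖ ≤ ((p : ℕ) : ℝ) ^ (-2 : ℝ) := by
    intro p
    refine (norm_neg_log_sub_le (hhalf p)).trans ?_
    calc ‖a p * ((p : ℕ) : ℂ) ^ (-((1 + ε : ℝ) : ℂ))‖ ^ 2 ≤ (((p : ℕ) : ℝ) ^ (-1 : ℝ)) ^ 2 := by
          exact pow_le_pow_left₀ (norm_nonneg _) ((hnorm p).trans (hp1 p)) 2
      _ = ((p : ℕ) : ℝ) ^ (-2 : ℝ) := by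
          rw [← Real.rpow_natCast, ← Real.rpow_mul (Nat.cast_nonneg _)]
          norm_num
  have hs1 : Summable (fun p : Nat.Primes => a p * ((p : ℕ) : ℂ) ^ (-((1 + ε : ℝ) : ℂ))) := by
    refine Summable.of_norm_bounded (g := fun p : Nat.Primes => ((p : ℕ) : ℝ) ^ (-(1 + ε))) ?_ hnorm
    exact Nat.Primes.summable_rpow.mpr (by linarith)
  have hs2 : Summable (fun p : Nat.Primes =>
      -Complex.log (1 - a p * ((p : ℕ) : ℂ) ^ (-((1 + ε : ℝ) : ℂ))) -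
      a p * ((p : ℕ) : ℂ) ^ (-((1 + ε : ℝ) : ℂ))) :=
    Summable.of_norm_bounded P2_summable hdiff
  have hs3 : Summable (fun p : Nat.Primes =>
      -Complex.log (1 - a p * ((p : ℕ) : ℂ) ^ (-((1 + ε : ℝ) : ℂ)))) := by
    have := hs2.add hs1
    refine this.congr fun p => ?_
    ring
  have hre : PS (fun p => (a p).re) ε =
      (∑' p : Nat.Primes, a p * ((p : ℕ) : ℂ) ^ (-((1 + ε : ℝ) : ℂ))).re := by
    rw [Complex.re_tsum hs1, PS]
    refine tsum_congr fun p => ?_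
    have h1 : ((p : ℕ) : ℂ) ^ (-((1 + ε : ℝ) : ℂ)) = ((((p : ℕ) : ℝ) ^ (-(1 + ε)) : ℝ) : ℂ) := by
      rw [Complex.ofReal_cpow (Nat.cast_nonneg _)]
      push_cast
      rfl
    rw [h1, Complex.re_mul_ofReal]
  rw [hre, ← Complex.sub_re, ← hs3.tsum_sub hs1]
  refine (Complex.abs_re_le_norm _).trans ?_
  refine (norm_tsum_le_tsum_norm (hs2.norm)).trans ?_
  exact hs2.norm.tsum_le_tsum hdiff P2_summable

/-- The prime zeta function near `1`. -/
theorem LA_one : LA (PS (fun _ => 1)) 1 := by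
  have h1 : Tendsto (fun s : ℂ => (s - 1) * riemannZeta s) (𝓝[≠] 1) (𝓝 1) := riemannZeta_residue_one
  have h2 : Tendsto (fun ε : ℝ => ((1 + ε : ℝ) : ℂ)) (𝓝[>] 0) (𝓝[≠] 1) := by
    rw [tendsto_nhdsWithin_iff]
    constructor
    · have : Tendsto (fun ε : ℝ => ((1 + ε : ℝ) : ℂ)) (𝓝 0) (𝓝 ((1 + 0 : ℝ) : ℂ)) :=
        (Continuous.tendsto (by fun_prop) 0)
      simp only [add_zero, Complex.ofReal_one] at this
      exact this.mono_left nhdsWithin_le_nhds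
    · filter_upwards [self_mem_nhdsWithin] with ε hε
      simp only [Set.mem_compl_iff, Set.mem_singleton_iff]
      intro h
      have h3 := congrArg Complex.re h
      simp only [Complex.ofReal_re, Complex.one_re] at h3
      have : (0 : ℝ) < ε := hε
      linarith
  have h3 := (h1.comp h2).norm
  rw [norm_one] at h3
  have h4 : ∀ᶠ ε : ℝ in 𝓝[>] 0, (1 / 2 : ℝ) ≤ ‖(((1 + ε : ℝ) : ℂ) - 1) * riemannZeta ((1 + ε : ℝ) : ℂ)‖ ∧
      ‖(((1 + ε : ℝ) : ℂ) - 1) * riemannZeta ((1 + ε : ℝ) : ℂ)‖ ≤ 2 := by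
    have h5 := h3.eventually (Icc_mem_nhds (a := 1 / 2) (b := 2) (by norm_num) (by norm_num))
    filter_upwards [h5] with ε h6
    exact h6
  refine ⟨P2 + Real.log 2, ?_⟩
  filter_upwards [h4, self_mem_nhdsWithin] with ε h5 hε0
  have hε : (0 : ℝ) < ε := hε0
  have h6 := riemannZeta_eulerProduct_exp_log (s := ((1 + ε : ℝ) : ℂ)) (by
    rw [Complex.ofReal_re]; linarith)
  have h7 := log_euler (a := fun _ => 1) (fun _ => by simp) hε
  simp only [one_mul, Complex.one_re] at h7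
  have h8 : ‖riemannZeta ((1 + ε : ℝ) : ℂ)‖ =
      Real.exp (∑' p : Nat.Primes, -Complex.log (1 - ((p : ℕ) : ℂ) ^ (-((1 + ε : ℝ) : ℂ)))).re := by
    rw [← h6, Complex.norm_exp]
  have h9 : ‖(((1 + ε : ℝ) : ℂ) - 1)‖ = ε := by
    have : (((1 + ε : ℝ) : ℂ) - 1) = (ε : ℂ) := by push_cast; ring
    rw [this, Complex.norm_real, Real.norm_eq_abs, abs_of_pos hε]
  rw [norm_mul, h9, h8] at h5
  set R := (∑' p : Nat.Primes, -Complex.log (1 - ((p : ℕ) : ℂ) ^ (-((1 + ε : ℝ) : ℂ)))).re with hR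
  have h10 : |R + Real.log ε| ≤ Real.log 2 := by
    have h11 : Real.log (ε * Real.exp R) = R + Real.log ε := by
      rw [Real.log_mul hε.ne' (Real.exp_pos _).ne', Real.log_exp]; ring
    rw [← h11, abs_le]
    constructor
    · have := Real.log_le_log (by norm_num) h5.1
      rw [one_div, Real.log_inv] at this
      exact this
    · exact Real.log_le_log (by positivity) h5.2
  have h12 : PS (fun _ => 1) ε + 1 * Real.log ε = (R + Real.log ε) - (R - PS (fun _ => 1) ε) := by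
    ring
  rw [h12]
  refine (abs_sub _ _).trans ?_
  linarith

/-- Nontrivial Dirichlet characters. -/
theorem LA_char {N : ℕ} [NeZero N] (χ : DirichletCharacter ℂ N) (hχ : χ ≠ 1) :
    LA (PS (fun p => (χ ((p : ℕ) : ZMod N)).re)) 0 := by
  have hcont : Continuous (fun s => DirichletCharacter.LFunction χ s) :=
    (DirichletCharacter.differentiable_LFunction hχ).continuous
  have hne := DirichletCharacter.LFunction_apply_one_ne_zero hχ
  have h2 : Tendsto (fun ε : ℝ => ‖DirichletCharacter.LFunction χ ((1 + ε : ℝ) : ℂ)‖) (𝓝[>] 0)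
      (𝓝 ‖DirichletCharacter.LFunction χ 1‖) := by
    have h3 : Continuous (fun ε : ℝ => ‖DirichletCharacter.LFunction χ ((1 + ε : ℝ) : ℂ)‖) := by
      fun_prop
    have h4 := h3.tendsto 0
    simp only [add_zero, Complex.ofReal_one] at h4
    exact h4.mono_left nhdsWithin_le_nhds
  set A := ‖DirichletCharacter.LFunction χ 1‖ with hA
  have hA0 : 0 < A := norm_pos_iff.mpr hne
  have h4 : ∀ᶠ ε : ℝ in 𝓝[>] 0, A / 2 ≤ ‖DirichletCharacter.LFunction χ ((1 + ε : ℝ) : ℂ)‖ ∧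
      ‖DirichletCharacter.LFunction χ ((1 + ε : ℝ) : ℂ)‖ ≤ 2 * A := by
    have h5 := h2.eventually (Icc_mem_nhds (a := A / 2) (b := 2 * A) (by linarith) (by linarith))
    filter_upwards [h5] with ε h6
    exact h6
  refine LA.of_bounded (C := P2 + (|Real.log (A / 2)| + |Real.log (2 * A)|)) ?_
  filter_upwards [h4, self_mem_nhdsWithin] with ε h5 hε0
  have hε : (0 : ℝ) < ε := hε0
  have hs : 1 < ((1 + ε : ℝ) : ℂ).re := by rw [Complex.ofReal_re]; linarith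
  have h6 := DirichletCharacter.LSeries_eulerProduct_exp_log χ hs
  have h7 := log_euler (a := fun p => χ ((p : ℕ) : ZMod N)) (fun p => χ.norm_le_one _) hε
  rw [← DirichletCharacter.LFunction_eq_LSeries χ hs] at h6
  rw [← h6, Complex.norm_exp] at h5
  set R := (∑' p : Nat.Primes, -Complex.log (1 - χ ((p : ℕ) : ZMod N) *
    ((p : ℕ) : ℂ) ^ (-((1 + ε : ℝ) : ℂ)))).re with hR
  have h10 : |R| ≤ |Real.log (A / 2)| + |Real.log (2 * A)| := by
    rw [abs_le]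
    constructor
    · have := Real.log_le_log (by linarith) h5.1
      rw [Real.log_exp] at this
      have h12 := neg_abs_le (Real.log (A / 2))
      have h13 := abs_nonneg (Real.log (2 * A))
      linarith
    · have := Real.log_le_log (Real.exp_pos _) h5.2
      rw [Real.log_exp] at this
      have h12 := le_abs_self (Real.log (2 * A))
      have h13 := abs_nonneg (Real.log (A / 2))
      linarith
  have h12 : PS (fun p => (χ ((p : ℕ) : ZMod N)).re) ε =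
      R - (R - PS (fun p => (χ ((p : ℕ) : ZMod N)).re) ε) := by ring
  rw [h12]
  refine (abs_sub _ _).trans ?_
  linarith

end Pool.Agent.Work.MP_2b9663_nt
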