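import Mathlib

set_option autoImplicit false

/-!
Counting the ideals of a number field by their norm.
-/

namespace Pool.Agent.Work.MP_2b9663_nt

open NumberField Ideal

section

variable (K : Type) [Field K] [NumberField K]

/-- the number of ideals of norm `n` -/
noncomputable def idc (n : ℕ) : ℕ := Nat.card {I : Ideal (𝓞 K) // absNorm I = n}

lemma idc_one : idc K 1 = 1 := by
  unfold idc
  rw [Nat.card_eq_one_iff_unique]
  refine ⟨⟨fun a b => ?_⟩, ⟨⟨⊤, by simp⟩⟩⟩
  have ha := absNorm_eq_one_iff.mp a.2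
  have hb := absNorm_eq_one_iff.mp b.2
  exact Subtype.ext (ha.trans hb.symm)

instance idc_finite (n : ℕ) : Finite {I : Ideal (𝓞 K) // absNorm I = n} :=
  finite_setOfPred_absNorm_eq n

lemma idc_ne_zero_aux {m : ℕ} {I : Ideal (𝓞 K)} (hI : absNorm I = m) : (m : 𝓞 K) ∈ I := by
  rw [← hI]
  exact absNorm_mem I

/-- the norm of `I + (m)` is prime to `n` -/
lemma coprime_norm_sup {m n : ℕ} (h : m.Coprime n) (I : Ideal (𝓞 K)) :
    (absNorm (I ⊔ span {(m : 𝓞 K)})).Coprime n := by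
  have h1 : absNorm (I ⊔ span {(m : 𝓞 K)}) ∣ absNorm (span {(m : 𝓞 K)}) :=
    absNorm_dvd_absNorm_of_le le_sup_right
  rw [absNorm_span_natCast] at h1
  exact Nat.Coprime.coprime_dvd_left h1 (Nat.Coprime.pow_left _ h)

lemma span_sup_span_eq_top {m n : ℕ} (h : m.Coprime n) :
    span {(m : 𝓞 K)} ⊔ span {(n : 𝓞 K)} = ⊤ := by
  rw [eq_top_iff_one]
  have h1 : IsCoprime (m : ℤ) (n : ℤ) := Nat.isCoprime_iff_coprime.mpr h
  obtain ⟨a, b, hab⟩ := h1
  have h2 : ((a : ℤ) : 𝓞 K) * m + ((b : ℤ) : 𝓞 K) * n = 1 := by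
    have := congrArg (fun z : ℤ => (z : 𝓞 K)) hab
    push_cast at this
    exact this
  rw [← h2]
  exact add_mem (mem_sup_left (mul_mem_left _ _ (mem_span_singleton_self _)))
    (mem_sup_right (mul_mem_left _ _ (mem_span_singleton_self _)))

lemma sup_mul_sup {m n : ℕ} (h : m.Coprime n) {I : Ideal (𝓞 K)} (hI : absNorm I = m * n) :
    (I ⊔ span {(m : 𝓞 K)}) * (I ⊔ span {(n : 𝓞 K)}) = I := by
  have hmn : ((m * n : ℕ) : 𝓞 K) ∈ I := idc_ne_zero_aux K hI
  apply le_antisymm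
  · rw [Ideal.mul_le]
    intro a ha b hb
    obtain ⟨i, hi, x', hx', rfl⟩ := Submodule.mem_sup.mp ha
    obtain ⟨j, hj, y', hy', rfl⟩ := Submodule.mem_sup.mp hb
    obtain ⟨x, rfl⟩ := mem_span_singleton'.mp hx'
    obtain ⟨y, rfl⟩ := mem_span_singleton'.mp hy'
    have h1 : (i + x * (m : 𝓞 K)) * (j + y * (n : 𝓞 K)) =
        (j + y * (n : 𝓞 K)) * i + x * (m : 𝓞 K) * j + x * y * ((m * n : ℕ) : 𝓞 K) := by
      push_cast
      ring
    rw [h1]
    exact add_mem (add_mem (mul_mem_left _ _ hi) (mul_mem_left _ _ hj)) (mul_mem_left _ _ hmn)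
  · have h1 : (I ⊔ span {(m : 𝓞 K)}) ⊔ (I ⊔ span {(n : 𝓞 K)}) = ⊤ := by
      rw [eq_top_iff, ← span_sup_span_eq_top K h]
      exact sup_le_sup le_sup_right le_sup_right
    rw [Ideal.mul_eq_inf_of_coprime h1]
    exact le_inf le_sup_left le_sup_left

lemma norm_sup_eq {m n : ℕ} (hm : m ≠ 0) (hn : n ≠ 0) (h : m.Coprime n) {I : Ideal (𝓞 K)}
    (hI : absNorm I = m * n) :
    absNorm (I ⊔ span {(m : 𝓞 K)}) = m ∧ absNorm (I ⊔ span {(n : 𝓞 K)}) = n := by
  have h1 : absNorm (I ⊔ span {(m : 𝓞 K)}) * absNorm (I ⊔ span {(n : 𝓞 K)}) = m * n := by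
    rw [← map_mul, sup_mul_sup K h hI, hI]
  have h2 := coprime_norm_sup K h I
  have h3 := coprime_norm_sup K h.symm I
  have h4 : absNorm (I ⊔ span {(m : 𝓞 K)}) ∣ m :=
    h2.dvd_of_dvd_mul_right (Dvd.intro _ h1)
  have h5 : absNorm (I ⊔ span {(n : 𝓞 K)}) ∣ n :=
    h3.dvd_of_dvd_mul_left (Dvd.intro_left _ h1)
  set a := absNorm (I ⊔ span {(m : 𝓞 K)})
  set b := absNorm (I ⊔ span {(n : 𝓞 K)})
  have ha : a ≤ m := Nat.le_of_dvd (Nat.pos_of_ne_zero hm) h4
  have hb : b ≤ n := Nat.le_of_dvd (Nat.pos_of_ne_zero hn) h5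
  have hm' : 0 < m := Nat.pos_of_ne_zero hm
  have hn' : 0 < n := Nat.pos_of_ne_zero hn
  constructor
  · by_contra hne
    have hlt : a < m := lt_of_le_of_ne ha hne
    have : a * b < m * n := Nat.mul_lt_mul_of_lt_of_le hlt hb hn'
    omega
  · by_contra hne
    have hlt : b < n := lt_of_le_of_ne hb hne
    have : a * b < m * n := Nat.mul_lt_mul_of_le_of_lt ha hlt hm'
    omega

lemma mul_sup_span {m n : ℕ} (h : m.Coprime n) {J J' : Ideal (𝓞 K)} (hJ : absNorm J = m)
    (hJ' : absNorm J' = n) : J * J' ⊔ span {(m : 𝓞 K)} = J := by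
  apply le_antisymm
  · refine sup_le mul_le_left ?_
    rw [span_singleton_le_iff_mem]
    exact idc_ne_zero_aux K hJ
  · have h1 : J' ⊔ span {(m : 𝓞 K)} = ⊤ := by
      rw [eq_top_iff, ← span_sup_span_eq_top K h, sup_comm]
      refine sup_le_sup ?_ le_rfl
      rw [span_singleton_le_iff_mem]
      exact idc_ne_zero_aux K hJ'
    calc J = J * (J' ⊔ span {(m : 𝓞 K)}) := by rw [h1, mul_top]
      _ = J * J' ⊔ J * span {(m : 𝓞 K)} := mul_sup _ _ _
      _ ≤ J * J' ⊔ span {(m : 𝓞 K)} := sup_le_sup le_rfl mul_le_right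

/-- The number of ideals of norm `n` is a multiplicative function of `n`. -/
lemma idc_mul {m n : ℕ} (hm : m ≠ 0) (hn : n ≠ 0) (h : m.Coprime n) :
    idc K (m * n) = idc K m * idc K n := by
  unfold idc
  rw [← Nat.card_prod]
  exact Nat.card_congr
    { toFun := fun I => (⟨I.1 ⊔ span {(m : 𝓞 K)}, (norm_sup_eq K hm hn h I.2).1⟩,
        ⟨I.1 ⊔ span {(n : 𝓞 K)}, (norm_sup_eq K hm hn h I.2).2⟩)
      invFun := fun J => ⟨J.1.1 * J.2.1, by rw [map_mul, J.1.2, J.2.2]⟩
      left_inv := fun I => Subtype.ext (sup_mul_sup K h I.2)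
      right_inv := fun J => by
        refine Prod.ext (Subtype.ext (mul_sup_span K h J.1.2 J.2.2)) (Subtype.ext ?_)
        have := mul_sup_span K h.symm J.2.2 J.1.2
        rw [mul_comm] at this
        exact this }

/-- the prime ideals above `p` -/
def above (p : ℕ) : Set (Ideal (𝓞 K)) := {Q | Q.IsPrime ∧ (p : 𝓞 K) ∈ Q}

variable {K}

lemma above_ne_bot {p : ℕ} (hp : p.Prime) {Q : Ideal (𝓞 K)} (hQ : Q ∈ above K p) : Q ≠ ⊥ := by
  rintro rfl
  have h1 : (p : 𝓞 K) = 0 := hQ.2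
  exact hp.ne_zero (by exact_mod_cast h1)

lemma above_norm {p : ℕ} (hp : p.Prime) {Q : Ideal (𝓞 K)} (hQ : Q ∈ above K p) :
    p ∣ absNorm Q := by
  have h1 : Q ∣ span {(p : 𝓞 K)} := by
    rw [dvd_span_singleton]
    exact hQ.2
  have h2 : absNorm Q ∣ p ^ Module.finrank ℤ (𝓞 K) := by
    rw [← absNorm_span_natCast]
    exact map_dvd absNorm h1
  obtain ⟨k, _, hk⟩ := (Nat.dvd_prime_pow hp).mp h2
  rw [hk]
  refine dvd_pow_self p ?_
  rintro rfl
  rw [pow_zero, absNorm_eq_one_iff] at hk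
  exact hQ.1.ne_top hk

lemma above_card_le {p : ℕ} (hp : p.Prime) (s : Finset (Ideal (𝓞 K)))
    (hs : ∀ Q ∈ s, Q ∈ above K p) : s.card ≤ Module.finrank ℤ (𝓞 K) := by
  have h1 : ∏ Q ∈ s, Q ∣ span {(p : 𝓞 K)} := by
    refine Finset.prod_primes_dvd _ (fun Q hQ => ?_) fun Q hQ => ?_
    · exact prime_of_isPrime (above_ne_bot hp (hs Q hQ)) (hs Q hQ).1
    · rw [dvd_span_singleton]
      exact (hs Q hQ).2
  have h2 : absNorm (∏ Q ∈ s, Q) ∣ p ^ Module.finrank ℤ (𝓞 K) := by
    rw [← absNorm_span_natCast]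
    exact map_dvd absNorm h1
  have h3 : p ^ s.card ∣ absNorm (∏ Q ∈ s, Q) := by
    rw [map_prod, ← Finset.prod_const]
    exact Finset.prod_dvd_prod_of_dvd _ _ fun Q hQ => above_norm hp (hs Q hQ)
  exact (Nat.pow_dvd_pow_iff_le_right hp.one_lt).mp (h3.trans h2)

lemma above_finite {p : ℕ} (hp : p.Prime) : (above K p).Finite := by
  by_contra hinf
  obtain ⟨t, ht, hcard⟩ := Set.Infinite.exists_subset_card_eq hinf (Module.finrank ℤ (𝓞 K) + 1)
  have := above_card_le hp t fun Q hQ => ht hQ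
  omega

variable (K)

/-- The number of ideals of norm `p ^ e` is at most `(e + 1) ^ d`. -/
lemma idc_prime_pow_le {p : ℕ} (hp : p.Prime) (e : ℕ) :
    idc K (p ^ e) ≤ (e + 1) ^ Module.finrank ℤ (𝓞 K) := by
  classical
  have hfin := above_finite (K := K) hp
  have : Fintype (above K p) := hfin.fintype
  have hcard : Fintype.card (above K p) ≤ Module.finrank ℤ (𝓞 K) := by
    have h1 := above_card_le hp hfin.toFinset fun Q hQ => hfin.mem_toFinset.mp hQ
    rwa [← Set.toFinset_card, show (above K p).toFinset = hfin.toFinset by ext; simp]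
  have hne : ∀ I : {I : Ideal (𝓞 K) // absNorm I = p ^ e}, I.1 ≠ 0 := by
    rintro ⟨I, hI⟩ h
    simp only at h
    rw [h, Submodule.zero_eq_bot, absNorm_bot] at hI
    exact (pow_ne_zero e hp.ne_zero) hI.symm
  have hmem : ∀ I : {I : Ideal (𝓞 K) // absNorm I = p ^ e},
      ∀ Q ∈ UniqueFactorizationMonoid.normalizedFactors I.1, Q ∈ above K p := by
    intro I Q hQ
    have h1 := UniqueFactorizationMonoid.prime_of_normalized_factor Q hQ
    have h2 := UniqueFactorizationMonoid.dvd_of_mem_normalizedFactors hQ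
    have h3 : Q.IsPrime := isPrime_of_prime h1
    refine ⟨h3, ?_⟩
    have h4 : ((p ^ e : ℕ) : 𝓞 K) ∈ Q := (dvd_iff_le.mp h2) (idc_ne_zero_aux K I.2)
    push_cast at h4
    exact h3.mem_of_pow_mem e h4
  have hcount : ∀ I : {I : Ideal (𝓞 K) // absNorm I = p ^ e}, ∀ Q ∈ above K p,
      (UniqueFactorizationMonoid.normalizedFactors I.1).count Q < e + 1 := by
    intro I Q hQ
    have hQp : Prime Q := prime_of_isPrime (above_ne_bot hp hQ) hQ.1
    set c := (UniqueFactorizationMonoid.normalizedFactors I.1).count Q with hc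
    have h1 : Q ^ c ∣ I.1 := by
      have h5 : Multiset.replicate c Q ≤ UniqueFactorizationMonoid.normalizedFactors I.1 :=
        Multiset.le_count_iff_replicate_le.mp le_rfl
      have h6 := Multiset.prod_dvd_prod_of_le h5
      rw [Multiset.prod_replicate] at h6
      exact h6.trans (UniqueFactorizationMonoid.prod_normalizedFactors (hne I)).dvd
    have h2 : absNorm Q ^ c ∣ p ^ e := by
      rw [← map_pow, ← I.2]
      exact map_dvd absNorm h1
    have h3 : p ^ c ∣ p ^ e := (pow_dvd_pow_of_dvd (above_norm hp hQ) c).trans h2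
    have h4 := (Nat.pow_dvd_pow_iff_le_right hp.one_lt).mp h3
    omega
  have hinj : Function.Injective (fun (I : {I : Ideal (𝓞 K) // absNorm I = p ^ e})
      (Q : above K p) => (⟨(UniqueFactorizationMonoid.normalizedFactors I.1).count Q.1,
        hcount I Q.1 Q.2⟩ : Fin (e + 1))) := by
    intro I J hIJ
    have h1 : UniqueFactorizationMonoid.normalizedFactors I.1 =
        UniqueFactorizationMonoid.normalizedFactors J.1 := by
      ext Q
      by_cases hQ : Q ∈ above K p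
      · have := congrFun hIJ ⟨Q, hQ⟩
        exact congrArg Fin.val this
      · rw [Multiset.count_eq_zero_of_notMem fun h => hQ (hmem I Q h),
          Multiset.count_eq_zero_of_notMem fun h => hQ (hmem J Q h)]
    have h2 := UniqueFactorizationMonoid.prod_normalizedFactors (hne I)
    have h3 := UniqueFactorizationMonoid.prod_normalizedFactors (hne J)
    rw [h1] at h2
    exact Subtype.ext (associated_iff_eq.mp (h2.symm.trans h3))
  unfold idc
  refine (Nat.card_le_card_of_injective _ hinj).trans ?_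
  rw [Nat.card_eq_fintype_card, Fintype.card_fun, Fintype.card_fin]
  exact Nat.pow_le_pow_right (Nat.succ_pos e) hcard

lemma idc_prime_le {p : ℕ} (hp : p.Prime) : idc K p ≤ 2 ^ Module.finrank ℤ (𝓞 K) := by
  have := idc_prime_pow_le K hp 1
  rwa [pow_one] at this

end

end Pool.Agent.Work.MP_2b9663_nt
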