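import Pool.Agent.Work.MP_2b9663_nt.BaseChange

set_option autoImplicit false

/-!
Pure fields of prime degree.
-/

namespace Pool.Agent.Work.MP_2b9663_nt

open NumberField Polynomial

section

variable {Ω : Type} [Field Ω] [CharZero Ω]

lemma finrank_pure {q : ℕ} (hq : q.Prime) {c : ℚ} (hc : ∀ a : ℚ, a ^ q ≠ c) {α : Ω}
    (hα : α ^ q = (c : Ω)) : Module.finrank ℚ (IntermediateField.adjoin ℚ {α}) = q := by
  have hirr : Irreducible (X ^ q - C c : ℚ[X]) := X_pow_sub_C_irreducible_of_prime hq hc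
  have hmon : (X ^ q - C c : ℚ[X]).Monic := monic_X_pow_sub_C c hq.ne_zero
  have hroot : aeval α (X ^ q - C c : ℚ[X]) = 0 := by
    rw [map_sub, map_pow, aeval_X, aeval_C, hα, eq_ratCast, sub_self]
  have h1 : (X ^ q - C c : ℚ[X]) = minpoly ℚ α := minpoly.eq_of_irreducible_of_monic hirr hroot hmon
  have hint : IsIntegral ℚ α := ⟨X ^ q - C c, hmon, hroot⟩
  have h2 := IntermediateField.adjoin.finrank hint
  rw [← h1, natDegree_X_pow_sub_C] at h2
  exact h2

lemma finrank_cyc {q : ℕ} (hq : q.Prime) {ζ : Ω} (hζ : IsPrimitiveRoot ζ q) :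
    Module.finrank ℚ (IntermediateField.adjoin ℚ {ζ}) = q - 1 := by
  have h2 := IntermediateField.adjoin.finrank (K := ℚ) (hζ.isIntegral hq.pos).tower_top
  rw [← cyclotomic_eq_minpoly_rat hζ hq.pos, natDegree_cyclotomic, Nat.totient_prime hq] at h2
  exact h2

lemma galois_cyc [IsAlgClosure ℚ Ω] {q : ℕ} (hq : q.Prime) {ζ : Ω} (hζ : IsPrimitiveRoot ζ q) :
    IsGalois ℚ (IntermediateField.adjoin ℚ {ζ}) := by
  have : NeZero q := ⟨hq.ne_zero⟩
  have : Algebra.IsAlgebraic ℚ Ω := IsAlgClosure.isAlgebraic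
  have : Algebra.IsIntegral ℚ Ω := inferInstance
  have h1 := hζ.intermediateField_adjoin_isCyclotomicExtension ℚ
  have h2 := @IsCyclotomicExtension.isGalois {q} ℚ (IntermediateField.adjoin ℚ {ζ}) _ _
    (IntermediateField.adjoin ℚ {ζ}).algebra' h1
  exact h2

lemma inf_pure {q : ℕ} {K P : IntermediateField ℚ Ω} [NumberField K] [NumberField P]
    (hq : 1 ≤ q) (hK : Module.finrank ℚ K = q) (hP : Module.finrank ℚ P = q - 1) : K ⊓ P = ⊥ := by
  have h1 : Module.finrank ℚ (K ⊓ P : IntermediateField ℚ Ω) ∣ Module.finrank ℚ K :=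
    IntermediateField.finrank_dvd_of_le_right inf_le_left
  have h2 : Module.finrank ℚ (K ⊓ P : IntermediateField ℚ Ω) ∣ Module.finrank ℚ P :=
    IntermediateField.finrank_dvd_of_le_right inf_le_right
  rw [hK] at h1
  rw [hP] at h2
  have h3 : Module.finrank ℚ (K ⊓ P : IntermediateField ℚ Ω) ∣ 1 := by
    have h4 := Nat.dvd_sub h1 h2
    have h5 : q - (q - 1) = 1 := by omega
    rwa [h5] at h4
  rw [Nat.dvd_one] at h3
  exact IntermediateField.finrank_eq_one_iff.mp h3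

/-- homomorphisms from `ℚ(α)` are determined by their value at `α` -/
lemma hom_ext_adjoin {α : Ω} {M : Type} [Field M] [CharZero M]
    {σ τ : IntermediateField.adjoin ℚ {α} →+* M}
    (h : σ ⟨α, IntermediateField.mem_adjoin_simple_self ℚ α⟩ =
      τ ⟨α, IntermediateField.mem_adjoin_simple_self ℚ α⟩) : σ = τ := by
  let σ' : @AlgHom ℚ (IntermediateField.adjoin ℚ {α}) M _ _ _
      (IntermediateField.adjoin ℚ {α}).algebra' _ :=
    { toRingHom := σ
      commutes' := fun r => by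
        rw [eq_ratCast, eq_ratCast]
        exact map_ratCast σ r }
  let τ' : @AlgHom ℚ (IntermediateField.adjoin ℚ {α}) M _ _ _
      (IntermediateField.adjoin ℚ {α}).algebra' _ :=
    { toRingHom := τ
      commutes' := fun r => by
        rw [eq_ratCast, eq_ratCast]
        exact map_ratCast τ r }
  have h1 : σ' = τ' := by
    refine IntermediateField.algHom_ext_of_eq_adjoin ℚ rfl fun x hx => ?_
    obtain rfl : x = α := hx
    exact h
  refine RingHom.ext fun x => ?_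
  exact DFunLike.congr_fun h1 x

end

section

variable {Ω : Type} [Field Ω] [CharZero Ω] {q : ℕ} {c : ℚ} {α ζ : Ω} {M : IntermediateField ℚ Ω}

/-- the generator -/
def genr (α : Ω) : IntermediateField.adjoin ℚ {α} :=
  ⟨α, IntermediateField.mem_adjoin_simple_self ℚ α⟩

lemma hom_gen_pow (hα : α ^ q = (c : Ω)) (σ : IntermediateField.adjoin ℚ {α} →+* M) :
    σ (genr α) ^ q = (c : M) := by
  have h1 : genr α ^ q = (c : IntermediateField.adjoin ℚ {α}) := by
    apply Subtype.ext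
    change α ^ q = _
    rw [hα]
    rfl
  rw [← map_pow, h1, map_ratCast]

lemma hom_pair (hq : q.Prime) (hc : ∀ a : ℚ, a ^ q ≠ c) (hα : α ^ q = (c : Ω)) {z : M}
    (hz : IsPrimitiveRoot z q) (σ τ : IntermediateField.adjoin ℚ {α} →+* M) :
    ∃ j, τ (genr α) = σ (genr α) * z ^ j := by
  have h1 := hom_gen_pow hα σ
  have h2 := hom_gen_pow hα τ
  have hc0 : (c : M) ≠ 0 := by
    have h3 : c ≠ 0 := fun h => hc 0 (by rw [zero_pow hq.ne_zero, h])
    exact_mod_cast h3
  have h3 : σ (genr α) ≠ 0 := by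
    intro h
    rw [h, zero_pow hq.ne_zero] at h1
    exact hc0 h1.symm
  have h4 : (τ (genr α) / σ (genr α)) ^ q = 1 := by
    rw [div_pow, h1, h2, div_self hc0]
  have : NeZero q := ⟨hq.ne_zero⟩
  obtain ⟨j, -, hj⟩ := hz.eq_pow_of_pow_eq_one h4
  refine ⟨j, ?_⟩
  rw [hj]
  field_simp

lemma fix_all (hq : q.Prime) (hc : ∀ a : ℚ, a ^ q ≠ c) (hα : α ^ q = (c : Ω)) {z : M}
    (hz : IsPrimitiveRoot z q) {g : M ≃ₐ[ℚ] M} (hg : g z = z)
    {σ : IntermediateField.adjoin ℚ {α} →+* M} (hσ : ∀ x, g (σ x) = σ x)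
    (τ : IntermediateField.adjoin ℚ {α} →+* M) : ∀ x, g (τ x) = τ x := by
  obtain ⟨j, hj⟩ := hom_pair hq hc hα hz σ τ
  have h1 : (g : M →+* M).comp τ = τ := by
    refine hom_ext_adjoin ?_
    change g (τ (genr α)) = τ (genr α)
    rw [hj, map_mul, map_pow, hg, hσ]
  intro x
  exact DFunLike.congr_fun h1 x

lemma fix_two (hq : q.Prime) (hc : ∀ a : ℚ, a ^ q ≠ c) (hα : α ^ q = (c : Ω)) {z : M}
    (hz : IsPrimitiveRoot z q) {g : M ≃ₐ[ℚ] M} {σ τ : IntermediateField.adjoin ℚ {α} →+* M}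
    (hσ : ∀ x, g (σ x) = σ x) (hτ : ∀ x, g (τ x) = τ x) (hne : σ ≠ τ) : g z = z := by
  obtain ⟨j, hj⟩ := hom_pair hq hc hα hz σ τ
  have h3 : σ (genr α) ≠ 0 := by
    intro h
    have h1 := hom_gen_pow hα σ
    rw [h, zero_pow hq.ne_zero] at h1
    have h3 : c ≠ 0 := fun h => hc 0 (by rw [zero_pow hq.ne_zero, h])
    exact h3 (by exact_mod_cast h1.symm)
  have h4 : g (z ^ j) = z ^ j := by
    have h5 := hτ (genr α)
    rw [hj, map_mul, hσ] at h5
    exact mul_left_cancel₀ h3 h5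
  have h5 : z ^ j ≠ 1 := by
    intro h
    rw [h, mul_one] at hj
    exact hne (hom_ext_adjoin hj.symm)
  have h6 : ¬ q ∣ j := fun h => h5 ((hz.pow_eq_one_iff_dvd j).mpr h)
  have h7 : j.Coprime q := ((Nat.Prime.coprime_iff_not_dvd hq).mpr h6).symm
  have h8 : IsPrimitiveRoot (z ^ j) q := hz.pow_of_coprime j h7
  have : NeZero q := ⟨hq.ne_zero⟩
  obtain ⟨l, -, hl⟩ := h8.eq_pow_of_pow_eq_one hz.pow_eq_one
  rw [← hl, map_pow, h4]

end

section

variable {Ω : Type} [Field Ω] [CharZero Ω] [IsAlgClosure ℚ Ω] {q : ℕ} {c : ℚ} {α ζ : Ω}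
  {M : IntermediateField ℚ Ω} [NumberField M] [IsGalois ℚ M]

omit [IsAlgClosure ℚ Ω] [NumberField M] [IsGalois ℚ M] in
lemma mem_fix_cyc (hP : IntermediateField.adjoin ℚ {ζ} ≤ M) (g : M ≃ₐ[ℚ] M) :
    g ∈ (subf M (IntermediateField.adjoin ℚ {ζ})).fixingSubgroup ↔
      g ⟨ζ, hP (IntermediateField.mem_adjoin_simple_self ℚ ζ)⟩ =
        ⟨ζ, hP (IntermediateField.mem_adjoin_simple_self ℚ ζ)⟩ := by
  rw [IntermediateField.mem_fixingSubgroup_iff]
  constructor
  · intro h
    exact h _ (IntermediateField.mem_adjoin_simple_self ℚ ζ)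
  · intro h x hx
    let ι : IntermediateField.adjoin ℚ {ζ} →+* M :=
      (IntermediateField.inclusion hP : IntermediateField.adjoin ℚ {ζ} →+* M)
    have h1 : (g : M →+* M).comp ι = ι := by
      refine hom_ext_adjoin ?_
      exact h
    exact DFunLike.congr_fun h1 (⟨(x : Ω), hx⟩ : IntermediateField.adjoin ℚ {ζ})

omit [IsAlgClosure ℚ Ω] in
lemma pcf_one {K : IntermediateField ℚ Ω} (hK : K ≤ M) :
    pcf M K 1 = Module.finrank ℚ K := by
  have h1 : pc (subf M K).fixingSubgroup (1 : M ≃ₐ[ℚ] M) = (subf M K).fixingSubgroup.index := by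
    unfold pc Subgroup.index
    have h2 : MulAction.fixedBy ((M ≃ₐ[ℚ] M) ⧸ (subf M K).fixingSubgroup) (1 : M ≃ₐ[ℚ] M) =
        Set.univ := by
      ext x
      simp
    rw [h2]
    exact Nat.card_congr (Equiv.Set.univ _)
  rw [pcf, h1, index_fixing, finrank_subf hK]

/-- The mean distance of the permutation character of `ℚ(α)`, `α ^ q = c`, from one. -/
theorem pure_mean (hq : q.Prime) (hc : ∀ a : ℚ, a ^ q ≠ c) (hα : α ^ q = (c : Ω))
    (hζ : IsPrimitiveRoot ζ q) (hK : IntermediateField.adjoin ℚ {α} ≤ M)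
    (hP : IntermediateField.adjoin ℚ {ζ} ≤ M) :
    (∑ g, |pcf M (IntermediateField.adjoin ℚ {α}) g - 1|) / Fintype.card (M ≃ₐ[ℚ] M) = 2 / q := by
  classical
  set K := IntermediateField.adjoin ℚ {α} with hKdef
  set P := IntermediateField.adjoin ℚ {ζ} with hPdef
  have hKq : Module.finrank ℚ K = q := finrank_pure hq hc hα
  have hPq : Module.finrank ℚ P = q - 1 := finrank_cyc hq hζ
  have hKn : NumberField K := by
    have : FiniteDimensional ℚ K := Module.finite_of_finrank_pos (by rw [hKq]; exact hq.pos)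
    exact ⟨⟩
  have hPn : NumberField P := by
    have : FiniteDimensional ℚ P := Module.finite_of_finrank_pos (by
      rw [hPq]
      have := hq.two_le
      omega)
    exact ⟨⟩
  have hPg : IsGalois ℚ P := galois_cyc hq hζ
  have hinf : K ⊓ P = ⊥ := inf_pure hq.one_le hKq hPq
  have hN := normal_subf hP
  set N := (subf M P).fixingSubgroup with hNdef
  set z : M := ⟨ζ, hP (IntermediateField.mem_adjoin_simple_self ℚ ζ)⟩ with hz
  have hzp : IsPrimitiveRoot z q := by
    refine IsPrimitiveRoot.of_map_of_injective (f := M.val) ?_ Subtype.val_injective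
    exact hζ
  have hfin : Finite (K →+* M) := Finite.of_equiv _ (RingHom.equivRatAlgHom K M).symm
  have hall : Nat.card (K →+* M) = q := by
    have h1 := fixEmb_eq_pcf hK (1 : M ≃ₐ[ℚ] M)
    rw [pcf_one hK, hKq] at h1
    have h2 : fixEmb K M 1 = Nat.card (K →+* M) := by
      unfold fixEmb
      refine Nat.card_congr (Equiv.subtypeUnivEquiv fun σ x => rfl)
    rw [← h2]
    exact_mod_cast h1
  -- averages over the cosets of `N`
  have hS1 : ∀ g, ∑ n : M ≃ₐ[ℚ] M, Set.indicator (N : Set (M ≃ₐ[ℚ] M)) (1 : (M ≃ₐ[ℚ] M) → ℝ) n *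
      pcf M K (g * n) = Nat.card N := by
    intro g
    have h1 := coset_avg (subf M K).fixingSubgroup N g
    rw [hNdef, ← fixing_inf, ← subf_inf, hinf] at h1
    have h2 : (pc (subf M (⊥ : IntermediateField ℚ Ω)).fixingSubgroup g : ℝ) = 1 := pcf_bot g
    rw [h2, mul_one] at h1
    exact h1
  have hle : ∀ g, g ∉ N → pcf M K g ≤ 1 := by
    intro g hg
    rw [← fixEmb_eq_pcf hK]
    have h1 : fixEmb K M g ≤ 1 := by
      unfold fixEmb
      rw [Finite.card_le_one_iff_subsingleton]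
      refine ⟨fun σ τ => ?_⟩
      by_contra hne
      apply hg
      rw [hNdef, mem_fix_cyc hP]
      exact fix_two hq hc hα hzp σ.2 τ.2 fun h => hne (Subtype.ext h)
    exact_mod_cast h1
  have hS2 : ∀ g, g ∉ N → pcf M K g = 1 := by
    intro g hg
    have h1 : ∑ n : M ≃ₐ[ℚ] M, Set.indicator (N : Set (M ≃ₐ[ℚ] M)) (1 : (M ≃ₐ[ℚ] M) → ℝ) n *
      (1 - pcf M K (g * n)) = 0 := by
      simp only [mul_sub, mul_one]
      rw [Finset.sum_sub_distrib, hS1, card_indicator, sub_self]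
    have h2 := (Finset.sum_eq_zero_iff_of_nonneg (fun n _ => ?_)).mp h1 1 (Finset.mem_univ _)
    · rw [Set.indicator_of_mem (show (1 : M ≃ₐ[ℚ] M) ∈ (N : Set (M ≃ₐ[ℚ] M)) from N.one_mem),
        mul_one g, Pi.one_apply, one_mul] at h2
      linarith
    · by_cases hn : n ∈ N
      · rw [Set.indicator_of_mem (show n ∈ (N : Set (M ≃ₐ[ℚ] M)) from hn), Pi.one_apply, one_mul]
        have h3 : g * n ∉ N := fun h => hg ((Subgroup.mul_mem_cancel_right N hn).mp h)
        linarith [hle _ h3]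
      · rw [Set.indicator_of_notMem (show n ∉ (N : Set (M ≃ₐ[ℚ] M)) from hn), zero_mul]
  have hS3 : ∀ g, g ∈ N → pcf M K g = 0 ∨ pcf M K g = q := by
    intro g hg
    rw [← fixEmb_eq_pcf hK]
    by_cases hex : ∃ σ : K →+* M, ∀ x, g (σ x) = σ x
    · right
      obtain ⟨σ, hσ⟩ := hex
      have hgz : g z = z := by
        rw [hNdef, mem_fix_cyc hP] at hg
        exact hg
      have h1 : fixEmb K M g = Nat.card (K →+* M) := by
        unfold fixEmb
        exact Nat.card_congr (Equiv.subtypeUnivEquiv fun τ => fix_all hq hc hα hzp hgz hσ τ)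
      rw [h1, hall]
    · left
      have h1 : fixEmb K M g = 0 := by
        unfold fixEmb
        have : IsEmpty {σ : K →+* M // ∀ x, g (σ x) = σ x} := ⟨fun σ => hex ⟨σ.1, σ.2⟩⟩
        exact Nat.card_of_isEmpty
      rw [h1, Nat.cast_zero]
  have hq0 : (q : ℝ) ≠ 0 := by exact_mod_cast hq.ne_zero
  have hq1 : (1 : ℝ) ≤ q := by exact_mod_cast hq.one_le
  have hS4 : ∑ g, |pcf M K g - 1| = Nat.card N * (2 * (q - 1) / q) := by
    have h1 : ∀ g, |pcf M K g - 1| =
        Set.indicator (N : Set (M ≃ₐ[ℚ] M)) (1 : (M ≃ₐ[ℚ] M) → ℝ) g +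
        (q - 2) / q * (Set.indicator (N : Set (M ≃ₐ[ℚ] M)) (1 : (M ≃ₐ[ℚ] M) → ℝ) g *
          pcf M K (1 * g)) := by
      intro g
      rw [one_mul]
      by_cases hg : g ∈ N
      · rw [Set.indicator_of_mem (show g ∈ (N : Set (M ≃ₐ[ℚ] M)) from hg), Pi.one_apply, one_mul]
        rcases hS3 g hg with h2 | h2
        · rw [h2]
          norm_num
        · rw [h2, abs_of_nonneg (by linarith)]
          field_simp
          ring
      · rw [Set.indicator_of_notMem (show g ∉ (N : Set (M ≃ₐ[ℚ] M)) from hg), hS2 g hg]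
        norm_num
    rw [Finset.sum_congr rfl fun g _ => h1 g, Finset.sum_add_distrib, ← Finset.mul_sum, hS1,
      card_indicator]
    field_simp
    ring
  have hS5 : (Fintype.card (M ≃ₐ[ℚ] M) : ℝ) = Nat.card N * (q - 1) := by
    have h1 := Subgroup.card_mul_index N
    rw [hNdef, index_fixing, finrank_subf hP, hPq] at h1
    rw [← Nat.card_eq_fintype_card, ← h1]
    push_cast [Nat.cast_sub hq.one_le]
    rfl
  have hN0 : (Nat.card N : ℝ) ≠ 0 := by
    have : 0 < Nat.card N := Nat.card_pos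
    exact_mod_cast this.ne'
  have hq2 : (q : ℝ) - 1 ≠ 0 := by
    have : (2 : ℝ) ≤ q := by exact_mod_cast hq.two_le
    linarith
  rw [hS4, hS5]
  field_simp

omit [NumberField M] [IsGalois ℚ M] in
/-- The order for a pure field of large prime degree is the order for `ℚ`. -/
theorem pure_order {a : Nat.Primes → ℝ} {b : ℕ} (ha : ∀ p, |a p| ≤ b) {m₁ m : ℤ}
    (hm₁ : MV a (-(m₁ : ℝ))) (hq : q.Prime) (hqb : 2 * b < q) (hc : ∀ a : ℚ, a ^ q ≠ c)
    (hα : α ^ q = (c : Ω)) [hKn : NumberField (IntermediateField.adjoin ℚ {α})]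
    (hm : MV (fun p : Nat.Primes =>
      (idc (IntermediateField.adjoin ℚ {α}) (p : ℕ) : ℝ) * a p) (-(m : ℝ))) : m = m₁ := by
  have hcl : IsAlgClosed Ω := IsAlgClosure.isAlgClosed ℚ
  obtain ⟨ζ, hζ⟩ : ∃ ζ : Ω, IsPrimitiveRoot ζ q := by
    have : NeZero (q : Ω) := ⟨by exact_mod_cast hq.ne_zero⟩
    obtain ⟨ζ, hζ⟩ := IsAlgClosed.exists_root (cyclotomic q Ω)
      (degree_cyclotomic_pos q Ω hq.pos).ne'
    exact ⟨ζ, isRoot_cyclotomic_iff.mp hζ⟩
  set K := IntermediateField.adjoin ℚ {α} with hKdef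
  set P := IntermediateField.adjoin ℚ {ζ} with hPdef
  have hPn : NumberField P := by
    have : FiniteDimensional ℚ P := Module.finite_of_finrank_pos (by
      rw [hPdef, finrank_cyc hq hζ]
      have := hq.two_le
      omega)
    exact ⟨⟩
  have hKPn : NumberField (K ⊔ P : IntermediateField ℚ Ω) := by
    have h1 : FiniteDimensional ℚ (K ⊔ P : IntermediateField ℚ Ω) :=
      IntermediateField.finiteDimensional_sup K P
    exact ⟨⟩
  have hMn : NumberField (NC (K ⊔ P)) := nc_nf _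
  have hMg : IsGalois ℚ (NC (K ⊔ P)) := nc_gal _
  have hKM : K ≤ NC (K ⊔ P) := le_sup_left.trans (le_nc _)
  have hPM : P ≤ NC (K ⊔ P) := le_sup_right.trans (le_nc _)
  have hBD : BD a := ⟨b, ha⟩
  have h1 : HasVal a (fun _ : NC (K ⊔ P) ≃ₐ[ℚ] NC (K ⊔ P) => (1 : ℝ)) m₁ := by
    unfold HasVal
    simpa using hm₁
  have h2 := (hasVal_pcf hBD hKM hm).sub h1
  have h3 : IsRat (pcf (NC (K ⊔ P)) K - fun _ => (1 : ℝ)) := by
    intro g h hgh
    rw [Pi.sub_apply, Pi.sub_apply, isRat_pcf _ K g h hgh]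
  have h4 := h2.abs_le' ha h3
  have h5 := pure_mean (M := NC (K ⊔ P)) hq hc hα hζ hKM hPM
  have h6 : |(m : ℝ) - m₁| ≤ b * (2 / q) := by
    rw [← h5]
    exact h4
  have hq0 : (0 : ℝ) < q := by exact_mod_cast hq.pos
  have h7 : (b : ℝ) * (2 / q) < 1 := by
    have h8 : (2 : ℝ) * b < q := by exact_mod_cast hqb
    rw [← mul_div_assoc, div_lt_one hq0]
    linarith
  have h8 : |m - m₁| < 1 := by
    have h9 : ((|m - m₁| : ℤ) : ℝ) < 1 := by
      push_cast
      exact h6.trans_lt h7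
    exact_mod_cast h9
  rw [Int.abs_lt_one_iff, sub_eq_zero] at h8
  exact h8

theorem pure_order_of_eq {a : Nat.Primes → ℝ} {b : ℕ} (ha : ∀ p, |a p| ≤ b) {m₁ m : ℤ}
    (hm₁ : MV a (-(m₁ : ℝ))) (hq : q.Prime) (hqb : 2 * b < q) (hc : ∀ a : ℚ, a ^ q ≠ c)
    (hα : α ^ q = (c : Ω)) {E : IntermediateField ℚ Ω} [hE : NumberField E]
    (hEα : E = IntermediateField.adjoin ℚ {α})
    (hm : MV (fun p : Nat.Primes => (idc E (p : ℕ) : ℝ) * a p) (-(m : ℝ))) : m = m₁ := by
  subst hEα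
  exact pure_order ha hm₁ hq hqb hc hα hm

end

end Pool.Agent.Work.MP_2b9663_nt
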