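import Pool.Agent.Work.MP_2b9663_nt.Ch.MainC

set_option autoImplicit false

namespace Pool.Agent.Work.MP_2b9663_nt.ArtinTwistsOld

open Pool.Agent.Work.MP_2b9663_nt

/-- Let `t p k` be a system of Frobenius traces that satisfies the Weil bound of weight `i` and
dimension `b`: for instance the traces of the geometric Frobenius elements on `H ^ i (X)`, for any
smooth projective variety `X` over `ℚ`, by Deligne's theorem. For the character `φ = tr R` of an
Artin representation `R` of `ℚ`, or for the character `φ = fix_K` of a number field `K` (the number
of the embeddings of `K` fixed by an automorphism of the algebraic closure `Ω`), let `m φ` be the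
order at `s₀ = i / 2 + 1` of the `L`-function of `t` twisted by `R`, or of `t` over `K` (for
`H ^ i (X)`: of `H ^ i (X) ⊗ R`, or of `H ^ i (X × Spec K)`), if it extends meromorphically to a
neighbourhood of `s₀`. These orders are finite, and

(1) for every `r` there is one Galois number field `M` such that the orders `m φ`, for all `φ` with
`⟨φ, φ⟩ ≤ r`, depend only on the inner products of `φ` with the irreducible characters of `Gal(M/ℚ)`,
and `m φ = 0` if these inner products are zero. For `φ = fix_K` the inner products depend only on
the intersection of `K` and `M`, and `⟨φ, φ⟩` is the number of orbits of the Galois group on the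
pairs of embeddings of `K`; it is two if the Galois group is doubly transitive;
(2) if `E` is a finite or infinite Galois extension of `ℚ`, for instance an algebraic closure, and
the twists by all irreducible characters of the Galois group of `E` extend, there is one integral
combination `f` of irreducible characters of the Galois group of one number field `M` in `E` such
that `m φ = - ⟨f, φ⟩` for all characters `φ` of the Galois group of `E`. The sum of the squares of
the coefficients of `f` is at most `b ^ 2`, and `|f| ≤ b`. So `m φ = 0` for all but at most `b ^ 2`
of the irreducible `φ`, and the order over a number field `K` in `E` depends only on the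
intersection of `K` and `M`. -/
theorem result (G : Nat.Primes → Prop) (t : Nat.Primes → ℕ → ℂ) (i b : ℕ)
    (h : WeilBound G t i b) (Ω : Type) [Field Ω] [CharZero Ω] [IsAlgClosure ℚ Ω] :
    FiniteOrdChar Ω G t i ∧ StableChar Ω G t i ∧ VirtualChar Ω G t i b :=
  ⟨finiteOrdChar h, stableChar h, virtualChar h⟩

end Pool.Agent.Work.MP_2b9663_nt.ArtinTwistsOld
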