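import Pool.Agent.Work.MP_2b9663_nt.Stab

set_option autoImplicit false

/-!
Base change to number fields: the orders of the `L`-functions.
-/

namespace Pool.Agent.Work.MP_2b9663_nt

open NumberField

section

variable {Ω : Type} [Field Ω] [CharZero Ω] [IsAlgClosure ℚ Ω] {κ : Type}
  {K : κ → IntermediateField ℚ Ω} [hK : ∀ k, NumberField (K k)] {m : κ → ℤ}

omit [IsAlgClosure ℚ Ω] hK in
lemma exists_max_chain {d : ℕ} {B : ℝ} (hB : ∀ l, Chain K m d l → (l.length : ℝ) ≤ B) :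
    ∃ l, Chain K m d l ∧ ∀ k k', embRank (K k) Ω ≤ d → embRank (K k') Ω ≤ d →
      K k ⊓ NC (cmp K l) = K k' ⊓ NC (cmp K l) → m k = m k' := by
  by_contra hcon
  push Not at hcon
  have h1 : ∀ n : ℕ, ∃ l, Chain K m d l ∧ l.length = n := by
    intro n
    induction n with
    | zero => exact ⟨[], trivial, rfl⟩
    | succ n ih =>
      obtain ⟨l, hl, hn⟩ := ih
      obtain ⟨k, k', h1, h2, h3, h4⟩ := hcon l hl
      exact ⟨(k, k') :: l, ⟨hl, ⟨h1, h2⟩, h3, h4⟩, by rw [List.length_cons, hn]⟩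
  obtain ⟨l, hl, hn⟩ := h1 (⌊B⌋₊ + 1)
  have h2 := hB l hl
  rw [hn] at h2
  have h3 := Nat.lt_floor_add_one B
  push_cast at h2
  linarith

end

lemma idc_rat (p : ℕ) [hp : Fact p.Prime] : idc ℚ p = 1 := by
  rw [← card_homs_eq (κ := ZMod p) (Nat.card_zmod p) ℚ, Nat.card_eq_one_iff_unique]
  refine ⟨⟨fun φ ψ => ?_⟩, ⟨(Int.castRingHom (ZMod p)).comp (Rat.ringOfIntegersEquiv : 𝓞 ℚ →+* ℤ)⟩⟩
  have h1 : φ.comp (Rat.ringOfIntegersEquiv.symm : ℤ →+* 𝓞 ℚ) =
      ψ.comp (Rat.ringOfIntegersEquiv.symm : ℤ →+* 𝓞 ℚ) := RingHom.ext_int _ _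
  refine RingHom.ext fun x => ?_
  have h2 : φ (Rat.ringOfIntegersEquiv.symm (Rat.ringOfIntegersEquiv x)) =
      ψ (Rat.ringOfIntegersEquiv.symm (Rat.ringOfIntegersEquiv x)) :=
    DFunLike.congr_fun h1 (Rat.ringOfIntegersEquiv x)
  rwa [RingEquiv.symm_apply_apply] at h2

section

variable {Ω : Type} [Field Ω] [CharZero Ω] {ι : Type} (K : ι → IntermediateField ℚ Ω)

/-- the family together with the field `ℚ` -/
noncomputable def optK : Option ι → IntermediateField ℚ Ω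
  | none => ⊥
  | some k => K k

instance optK_nf [∀ k, NumberField (K k)] (k : Option ι) : NumberField (optK K k) := by
  cases k with
  | none =>
    have h1 : FiniteDimensional ℚ (⊥ : IntermediateField ℚ Ω) := inferInstance
    change NumberField (⊥ : IntermediateField ℚ Ω)
    exact ⟨⟩
  | some k => exact inferInstanceAs (NumberField (K k))

/-- the family of orders together with the order over `ℚ` -/
def optm (m₁ : ℤ) (m : ι → ℤ) : Option ι → ℤ
  | none => m₁
  | some k => m k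

/-- the indices which occur in a list of pairs -/
noncomputable def idx [DecidableEq ι] : List (Option ι × Option ι) → Finset ι
  | [] => ∅
  | q :: l => q.1.toFinset ∪ q.2.toFinset ∪ idx l

lemma card_idx [DecidableEq ι] (l : List (Option ι × Option ι)) :
    (idx l).card ≤ 2 * l.length := by
  induction l with
  | nil => simp [idx]
  | cons q l ih =>
    have h1 : ∀ o : Option ι, o.toFinset.card ≤ 1 := by
      intro o
      cases o <;> simp
    have h2 := Finset.card_union_le (q.1.toFinset ∪ q.2.toFinset) (idx l)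
    have h3 := Finset.card_union_le q.1.toFinset q.2.toFinset
    have h4 := h1 q.1
    have h5 := h1 q.2
    rw [List.length_cons]
    simp only [idx]
    omega

lemma cmp_eq [DecidableEq ι] (l : List (Option ι × Option ι)) :
    cmp (optK K) l = ⨆ k ∈ idx l, K k := by
  induction l with
  | nil => simp [cmp, idx]
  | cons q l ih =>
    have h1 : ∀ o : Option ι, optK K o = ⨆ k ∈ o.toFinset, K k := by
      intro o
      cases o <;> simp [optK]
    simp only [cmp, idx]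
    rw [Finset.iSup_union, Finset.iSup_union, ih, h1 q.1, h1 q.2]

end

section

variable {Ω : Type} [Field Ω] [CharZero Ω] [IsAlgClosure ℚ Ω] {ι : Type}
  {K : ι → IntermediateField ℚ Ω} [hK : ∀ k, NumberField (K k)] {m₁ : ℤ} {m : ι → ℤ}

omit [IsAlgClosure ℚ Ω] hK in
lemma rank_idx [DecidableEq ι] {d : ℕ} {l : List (Option ι × Option ι)}
    (hl : Chain (optK K) (optm m₁ m) d l) : ∀ k ∈ idx l, embRank (K k) Ω ≤ d := by
  induction l with
  | nil => simp [idx]
  | cons q l ih =>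
    obtain ⟨h1, ⟨h2, h3⟩, -⟩ := hl
    intro k hk
    simp only [idx, Finset.mem_union] at hk
    rcases hk with (hk | hk) | hk
    · rw [Option.mem_toFinset, Option.mem_def] at hk
      rw [hk] at h2
      exact h2
    · rw [Option.mem_toFinset, Option.mem_def] at hk
      rw [hk] at h3
      exact h3
    · exact ih h1 k hk

theorem stability {a : Nat.Primes → ℝ} {b : ℕ} (ha : ∀ p, |a p| ≤ b)
    (hm₁ : MV a (-(m₁ : ℝ)))
    (hm : ∀ k, MV (fun p : Nat.Primes => (idc (K k) (p : ℕ) : ℝ) * a p) (-(m k : ℝ))) (d : ℕ) :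
    ∃ S : Finset ι, S.card ≤ 4 * (d - 1) * (b ^ 2 - m₁.natAbs ^ 2) ∧
      (∀ k ∈ S, embRank (K k) Ω ≤ d) ∧
      (∀ k, embRank (K k) Ω ≤ d → K k ⊓ NC (⨆ k ∈ S, K k) = ⊥ → m k = m₁) ∧
      ∀ k k', embRank (K k) Ω ≤ d → embRank (K k') Ω ≤ d →
        K k ⊓ NC (⨆ k ∈ S, K k) = K k' ⊓ NC (⨆ k ∈ S, K k) → m k = m k' := by
  classical
  rcases Nat.eq_zero_or_pos d with hd | hd
  · subst hd
    have h1 : ∀ k, ¬ embRank (K k) Ω ≤ 0 := fun k h =>
      absurd (embRank_pos (K k)) (by omega)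
    refine ⟨∅, by simp, by simp, fun k hk => absurd hk (h1 k), fun k _ hk => absurd hk (h1 k)⟩
  -- the mean value over `ℚ`
  have h0 : ∀ k, MV (fun p : Nat.Primes => (idc (optK K k) (p : ℕ) : ℝ) * a p)
      (-((optm m₁ m k : ℤ) : ℝ)) := by
    intro k
    cases k with
    | none =>
      have h1 : (fun p : Nat.Primes => (idc (optK K none) (p : ℕ) : ℝ) * a p) = a := by
        funext p
        have hp : Fact (p : ℕ).Prime := ⟨p.2⟩
        have h2 : idc (optK K none) (p : ℕ) = 1 := by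
          have e : optK K none ≃+* ℚ := (IntermediateField.botEquiv ℚ Ω).toRingEquiv
          rw [← idc_rat (p : ℕ)]
          exact idc_congr e (p : ℕ)
        rw [h2, Nat.cast_one, one_mul]
      rw [h1]
      exact hm₁
    | some k => exact hm k
  have hB : ∀ l, Chain (optK K) (optm m₁ m) d l →
      (l.length : ℝ) ≤ 2 * (d - 1) * ((b : ℝ) ^ 2 - (m₁ : ℝ) ^ 2) := fun l hl =>
    chain_length (Nat.cast_nonneg b) ha h0 (k₀ := none) rfl hd hl
  obtain ⟨l, hl, hmax⟩ := exists_max_chain hB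
  have hlen : l.length ≤ 2 * (d - 1) * (b ^ 2 - m₁.natAbs ^ 2) := by
    have h1 := hB l hl
    have h2 : (m₁ : ℝ) ^ 2 = ((m₁.natAbs : ℕ) : ℝ) ^ 2 := by
      rw [Nat.cast_natAbs, Int.cast_abs, sq_abs]
    rw [h2] at h1
    rcases le_or_gt (m₁.natAbs ^ 2) (b ^ 2) with h3 | h3
    · have h4 : ((2 * (d - 1) * (b ^ 2 - m₁.natAbs ^ 2) : ℕ) : ℝ) =
          2 * (d - 1) * ((b : ℝ) ^ 2 - ((m₁.natAbs : ℕ) : ℝ) ^ 2) := by
        push_cast [Nat.cast_sub h3, Nat.cast_sub (show 1 ≤ d from hd)]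
        ring
      rw [← h4] at h1
      exact_mod_cast h1
    · have h4 : (b : ℝ) ^ 2 - ((m₁.natAbs : ℕ) : ℝ) ^ 2 ≤ 0 := by
        have h5 : (b : ℝ) ^ 2 < ((m₁.natAbs : ℕ) : ℝ) ^ 2 := by exact_mod_cast h3
        linarith
      have h5 : (0 : ℝ) ≤ 2 * (d - 1) := by
        have : (1 : ℝ) ≤ d := by exact_mod_cast hd
        linarith
      have h6 := mul_nonpos_of_nonneg_of_nonpos h5 h4
      have h7 : (l.length : ℝ) ≤ 0 := h1.trans h6
      have h8 : l.length = 0 := by exact_mod_cast le_antisymm h7 (Nat.cast_nonneg _)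
      rw [h8]
      exact Nat.zero_le _
  refine ⟨idx l, ?_, rank_idx hl, ?_, ?_⟩
  · have h1 := card_idx l
    calc (idx l).card ≤ 2 * l.length := h1
      _ ≤ 2 * (2 * (d - 1) * (b ^ 2 - m₁.natAbs ^ 2)) := Nat.mul_le_mul_left 2 hlen
      _ = 4 * (d - 1) * (b ^ 2 - m₁.natAbs ^ 2) := by ring
  · intro k hk hk2
    rw [← cmp_eq] at hk2
    have h1 : embRank (optK K none) Ω ≤ d := (embRank_bot_le (Ω := Ω)).trans hd
    have h2 : optK K (some k) ⊓ NC (cmp (optK K) l) = optK K none ⊓ NC (cmp (optK K) l) := by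
      change K k ⊓ NC (cmp (optK K) l) = ⊥ ⊓ NC (cmp (optK K) l)
      rw [hk2, bot_inf_eq]
    exact hmax (some k) none hk h1 h2
  · intro k k' hk hk' hkk
    rw [← cmp_eq] at hkk
    exact hmax (some k) (some k') hk hk' hkk

omit [IsAlgClosure ℚ Ω] in
/-- All but finitely many of the fields of bounded degree without proper subfields other than `ℚ`
have the same order as `ℚ`. -/
theorem finite_exceptions {d : ℕ} {S : Finset ι}
    (hS : ∀ k, embRank (K k) Ω ≤ d → K k ⊓ NC (⨆ k ∈ S, K k) = ⊥ → m k = m₁) :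
    {E | ∃ k, K k = E ∧ embRank (K k) Ω ≤ d ∧ IsAtom (K k) ∧ m k ≠ m₁}.Finite := by
  classical
  have h0 : FiniteDimensional ℚ (⨆ k ∈ S, K k : IntermediateField ℚ Ω) := by
    have : ∀ k, FiniteDimensional ℚ (K k) := fun k => inferInstance
    exact IntermediateField.finiteDimensional_iSup_of_finset
  have h1 : NumberField (⨆ k ∈ S, K k : IntermediateField ℚ Ω) := ⟨⟩
  have h2 : NumberField (NC (⨆ k ∈ S, K k)) := nc_nf _
  set L := NC (⨆ k ∈ S, K k) with hL
  have h3 : Finite (IntermediateField ℚ L) :=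
    (Field.exists_primitive_element_iff_finite_intermediateField ℚ L).mp
      ⟨inferInstance, Field.exists_primitive_element ℚ L⟩
  have h4 : {E : IntermediateField ℚ Ω | E ≤ L}.Finite := by
    refine Set.Finite.subset (Set.finite_range fun E : IntermediateField ℚ L =>
      (IntermediateField.lift E : IntermediateField ℚ Ω)) fun E hE => ?_
    exact ⟨IntermediateField.restrict hE, IntermediateField.lift_restrict hE⟩
  refine h4.subset ?_
  rintro E ⟨k, rfl, hd, hat, hne⟩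
  rcases hat.le_iff.mp (inf_le_left : K k ⊓ L ≤ K k) with h5 | h5
  · exact absurd (hS k hd h5) hne
  · exact inf_eq_left.mp h5

omit [IsAlgClosure ℚ Ω] in
/-- the master inequality for a family of fields -/
theorem master_family {a : Nat.Primes → ℝ} {b : ℕ} (ha : ∀ p, |a p| ≤ b)
    (hm₁ : MV a (-(m₁ : ℝ)))
    (hm : ∀ k, MV (fun p : Nat.Primes => (idc (K k) (p : ℕ) : ℝ) * a p) (-(m k : ℝ)))
    (M : IntermediateField ℚ Ω) [NumberField M] [IsGalois ℚ M] (s : Finset ι) (c₀ : ℝ) (c : ι → ℝ)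
    (hs : ∀ k ∈ s, K k ≤ M) :
    |c₀ * m₁ + ∑ k ∈ s, c k * m k| ≤
      b * ((∑ g : M ≃ₐ[ℚ] M, |c₀ + ∑ k ∈ s, c k * fixEmb (K k) M g|) / Nat.card (M ≃ₐ[ℚ] M)) := by
  have hBD : BD a := ⟨b, ha⟩
  have h1 : HasVal a (fun _ : M ≃ₐ[ℚ] M => (1 : ℝ)) m₁ := by
    unfold HasVal
    simpa using hm₁
  have h2 := (h1.smul c₀).add (HasVal.sum s fun k hk => (hasVal_pcf hBD (hs k hk) (hm k)).smul (c k))
  have h3 : IsRat (c₀ • (fun _ : M ≃ₐ[ℚ] M => (1 : ℝ)) + ∑ k ∈ s, c k • pcf M (K k)) := by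
    intro g h hgh
    simp only [Pi.add_apply, Pi.smul_apply, Finset.sum_apply]
    rw [Finset.sum_congr rfl fun k _ => by rw [isRat_pcf M (K k) g h hgh]]
  have h4 := h2.abs_le' ha h3
  have h5 : ∀ g : M ≃ₐ[ℚ] M, (c₀ • (fun _ : M ≃ₐ[ℚ] M => (1 : ℝ)) +
      ∑ k ∈ s, c k • pcf M (K k)) g = c₀ + ∑ k ∈ s, c k * fixEmb (K k) M g := by
    intro g
    simp only [Pi.add_apply, Pi.smul_apply, Finset.sum_apply, smul_eq_mul, mul_one]
    rw [Finset.sum_congr rfl fun k hk => by rw [← fixEmb_eq_pcf (hs k hk)]]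
  rw [funext h5] at h4
  rw [Nat.card_eq_fintype_card]
  exact h4

end

end Pool.Agent.Work.MP_2b9663_nt
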