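import Pool.Agent.Work.MP_2b9663_nt.Quad

set_option autoImplicit false

/-!
The Bessel inequality for quadratic twists.
-/

namespace Pool.Agent.Work.MP_2b9663_nt

open Filter Topology NumberTheorySymbols

lemma LA.congr_eventually {g h : ℝ → ℝ} {κ : ℝ} (hg : LA g κ)
    (he : ∀ ε : ℝ, 0 < ε → h ε = g ε) : LA h κ := by
  obtain ⟨C, hC⟩ := hg
  refine ⟨C, ?_⟩
  filter_upwards [hC, self_mem_nhdsWithin] with ε h1 hε0
  have hε : (0 : ℝ) < ε := hε0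
  rw [he ε hε]
  exact h1

lemma PS_sum {ι : Type*} (s : Finset ι) {c : ι → Nat.Primes → ℝ} {B : ι → ℝ}
    (hc : ∀ i ∈ s, ∀ p, |c i p| ≤ B i) {ε : ℝ} (hε : 0 < ε) :
    PS (fun p => ∑ i ∈ s, c i p) ε = ∑ i ∈ s, PS (c i) ε := by
  simp only [PS]
  rw [← Summable.tsum_finsetSum (fun i hi => PS_summable (hc i hi) hε)]
  refine tsum_congr fun p => ?_
  rw [Finset.sum_mul]

lemma LA.PS_sum {ι : Type*} (s : Finset ι) {c : ι → Nat.Primes → ℝ} {B : ι → ℝ} {κ : ι → ℝ}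
    (hc : ∀ i ∈ s, ∀ p, |c i p| ≤ B i) (h : ∀ i ∈ s, LA (PS (c i)) (κ i)) :
    LA (PS (fun p => ∑ i ∈ s, c i p)) (∑ i ∈ s, κ i) :=
  (LA.sum s h).congr_eventually fun _ hε => Pool.Agent.Work.MP_2b9663_nt.PS_sum s hc hε

lemma LA.PS_add {c d : Nat.Primes → ℝ} {B B' κ μ : ℝ} (hc : ∀ p, |c p| ≤ B)
    (hd : ∀ p, |d p| ≤ B') (h1 : LA (PS c) κ) (h2 : LA (PS d) μ) :
    LA (PS (fun p => c p + d p)) (κ + μ) :=
  (h1.add h2).congr_eventually fun _ hε => Pool.Agent.Work.MP_2b9663_nt.PS_add hc hd hε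

lemma LA.PS_const_mul {c : Nat.Primes → ℝ} {κ : ℝ} (a : ℝ) (h1 : LA (PS c) κ) :
    LA (PS (fun p => a * c p)) (a * κ) :=
  (h1.const_mul a).congr_eventually fun ε _ => Pool.Agent.Work.MP_2b9663_nt.PS_const_mul a c ε

lemma abs_jacobi_le (D : ℤ) (n : ℕ) : |((J(D | n) : ℤ) : ℝ)| ≤ 1 := by
  rcases jacobiSym.trichotomy D n with h | h | h <;> rw [h] <;> norm_num

/-- The square of a quadratic character has mean one. -/
lemma LA_quad_sq {D : ℤ} (hD : D ≠ 0) :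
    LA (PS (fun p => ((J(D | p) * J(D | p) : ℤ) : ℝ))) 1 := by
  refine LA.PS_congr (B := 1) (B' := 1) (c := fun _ => 1) (fun p => by simp) (fun p => ?_)
    (smallPrimes (D.natAbs + 1)) ?_ LA_one
  · push_cast
    rw [abs_mul]
    exact mul_le_one₀ (abs_jacobi_le D p) (abs_nonneg _) (abs_jacobi_le D p)
  · intro p hp
    rw [mem_smallPrimes] at hp
    have hpp : (p : ℕ).Prime := p.2
    have hgcd : D.gcd ((p : ℕ) : ℤ) = 1 := by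
      rw [← Int.isCoprime_iff_gcd_eq_one, isCoprime_comm]
      rw [Prime.coprime_iff_not_dvd (Nat.prime_iff_prime_int.mp hpp)]
      intro h
      have h1 := Nat.le_of_dvd (Int.natAbs_pos.mpr hD) (Int.natCast_dvd.mp h)
      omega
    have h2 := jacobiSym.sq_one hgcd
    rw [sq] at h2
    rw [h2]
    norm_num

/-- **Bessel's inequality for quadratic twists.** -/
theorem bessel (𝒟 : Finset ℤ) (hsq : ∀ D ∈ 𝒟, Squarefree D) {b : Nat.Primes → ℝ} {B β : ℝ}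
    (hB : ∀ p, |b p| ≤ B) (T₀ : Finset Nat.Primes) (hβ : ∀ p, p ∉ T₀ → |b p| ≤ β)
    (m : ℤ → ℝ) (h : ∀ D ∈ 𝒟, LA (PS (fun p => ((J(D | p) : ℤ) : ℝ) * b p)) (-(m D))) :
    ∑ D ∈ 𝒟, m D ^ 2 ≤ β ^ 2 := by
  classical
  -- the pairs
  have hpair : ∀ x ∈ 𝒟 ×ˢ 𝒟, LA (PS (fun p => (m x.1 * m x.2) * ((J(x.1 | p) * J(x.2 | p) : ℤ) : ℝ)))
      (if x.1 = x.2 then m x.1 * m x.2 else 0) := by
    intro x hx
    rw [Finset.mem_product] at hx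
    split_ifs with he
    · have h1 := (LA_quad_sq (hsq x.1 hx.1).ne_zero).PS_const_mul (m x.1 * m x.2)
      rw [mul_one] at h1
      rw [← he] at h1 ⊢
      exact h1
    · have h1 := (LA_quad (hsq x.1 hx.1) (hsq x.2 hx.2) he (B := 1)
        (c := fun p => ((J(x.1 | p) * J(x.2 | p) : ℤ) : ℝ)) (fun p => by
          push_cast
          rw [abs_mul]
          exact mul_le_one₀ (abs_jacobi_le _ p) (abs_nonneg _) (abs_jacobi_le _ p)) ∅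
        (fun p _ => rfl)).PS_const_mul (m x.1 * m x.2)
      rw [mul_zero] at h1
      exact h1
  have hpairB : ∀ x ∈ 𝒟 ×ˢ 𝒟, ∀ p : Nat.Primes,
      |(m x.1 * m x.2) * ((J(x.1 | p) * J(x.2 | p) : ℤ) : ℝ)| ≤ |m x.1 * m x.2| := by
    intro x _ p
    rw [abs_mul]
    refine mul_le_of_le_one_right (abs_nonneg _) ?_
    push_cast
    rw [abs_mul]
    exact mul_le_one₀ (abs_jacobi_le _ p) (abs_nonneg _) (abs_jacobi_le _ p)
  have hP := LA.PS_sum (𝒟 ×ˢ 𝒟) hpairB hpair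
  have hPval : ∑ x ∈ 𝒟 ×ˢ 𝒟, (if x.1 = x.2 then m x.1 * m x.2 else 0) = ∑ D ∈ 𝒟, m D ^ 2 := by
    rw [Finset.sum_product]
    refine Finset.sum_congr rfl fun D hD => ?_
    rw [Finset.sum_ite_eq, if_pos hD, sq]
  rw [hPval] at hP
  -- the cross terms
  have hcross : ∀ D ∈ 𝒟, LA (PS (fun p => (2 * m D) * (((J(D | p) : ℤ) : ℝ) * b p)))
      ((2 * m D) * (-(m D))) := fun D hD => (h D hD).PS_const_mul _
  have hcrossB : ∀ D ∈ 𝒟, ∀ p : Nat.Primes,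
      |(2 * m D) * (((J(D | p) : ℤ) : ℝ) * b p)| ≤ |2 * m D| * B := by
    intro D _ p
    rw [abs_mul (2 * m D), abs_mul ((J(D | p) : ℤ) : ℝ)]
    refine mul_le_mul_of_nonneg_left ?_ (abs_nonneg _)
    calc |((J(D | p) : ℤ) : ℝ)| * |b p| ≤ 1 * B :=
          mul_le_mul (abs_jacobi_le D p) (hB p) (abs_nonneg _) zero_le_one
      _ = B := one_mul B
  have hX := LA.PS_sum 𝒟 hcrossB hcross
  have hXval : ∑ D ∈ 𝒟, (2 * m D) * (-(m D)) = -(2 * ∑ D ∈ 𝒟, m D ^ 2) := by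
    rw [Finset.mul_sum, ← Finset.sum_neg_distrib]
    refine Finset.sum_congr rfl fun D _ => ?_
    ring
  rw [hXval] at hX
  have hone := LA_one.PS_const_mul (β ^ 2)
  -- bounds for the sums
  have hPB : ∀ p : Nat.Primes, |∑ x ∈ 𝒟 ×ˢ 𝒟, (m x.1 * m x.2) * ((J(x.1 | p) * J(x.2 | p) : ℤ) : ℝ)| ≤
      ∑ x ∈ 𝒟 ×ˢ 𝒟, |m x.1 * m x.2| := fun p =>
    (Finset.abs_sum_le_sum_abs _ _).trans (Finset.sum_le_sum fun x hx => hpairB x hx p)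
  have hXB : ∀ p : Nat.Primes, |∑ D ∈ 𝒟, (2 * m D) * (((J(D | p) : ℤ) : ℝ) * b p)| ≤
      ∑ D ∈ 𝒟, |2 * m D| * B := fun p =>
    (Finset.abs_sum_le_sum_abs _ _).trans (Finset.sum_le_sum fun D hD => hcrossB D hD p)
  have hXP := LA.PS_add hXB hPB hX hP
  have hXPB : ∀ p : Nat.Primes, |(∑ D ∈ 𝒟, (2 * m D) * (((J(D | p) : ℤ) : ℝ) * b p)) +
      ∑ x ∈ 𝒟 ×ˢ 𝒟, (m x.1 * m x.2) * ((J(x.1 | p) * J(x.2 | p) : ℤ) : ℝ)| ≤
      (∑ D ∈ 𝒟, |2 * m D| * B) + ∑ x ∈ 𝒟 ×ˢ 𝒟, |m x.1 * m x.2| := fun p =>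
    (abs_add_le _ _).trans (add_le_add (hXB p) (hPB p))
  have honeB : ∀ _p : Nat.Primes, |β ^ 2 * 1| ≤ |β ^ 2| := fun _ => by rw [mul_one]
  have hall := LA.PS_add honeB hXPB hone hXP
  set Φ : Nat.Primes → ℝ := fun p => β ^ 2 * 1 +
    ((∑ D ∈ 𝒟, (2 * m D) * (((J(D | p) : ℤ) : ℝ) * b p)) +
      ∑ x ∈ 𝒟 ×ˢ 𝒟, (m x.1 * m x.2) * ((J(x.1 | p) * J(x.2 | p) : ℤ) : ℝ)) with hΦ
  have hΦB : ∀ p, |Φ p| ≤ |β ^ 2| + ((∑ D ∈ 𝒟, |2 * m D| * B) + ∑ x ∈ 𝒟 ×ˢ 𝒟, |m x.1 * m x.2|) :=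
    fun p => (abs_add_le _ _).trans (add_le_add (honeB p) (hXPB p))
  -- positivity
  have hpos : ∀ p, p ∉ T₀ → 0 ≤ Φ p := by
    intro p hp
    have h1 : b p ^ 2 ≤ β ^ 2 := by
      have h2 := hβ p hp
      have h3 : b p ^ 2 = |b p| ^ 2 := (sq_abs _).symm
      rw [h3]
      exact pow_le_pow_left₀ (abs_nonneg _) h2 2
    have h4 : ∑ x ∈ 𝒟 ×ˢ 𝒟, (m x.1 * m x.2) * ((J(x.1 | p) * J(x.2 | p) : ℤ) : ℝ) =
        (∑ D ∈ 𝒟, m D * ((J(D | p) : ℤ) : ℝ)) ^ 2 := by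
      rw [sq, Finset.sum_mul_sum, ← Finset.sum_product']
      refine Finset.sum_congr rfl fun x _ => ?_
      push_cast
      ring
    have h5 : ∑ D ∈ 𝒟, (2 * m D) * (((J(D | p) : ℤ) : ℝ) * b p) =
        2 * b p * ∑ D ∈ 𝒟, m D * ((J(D | p) : ℤ) : ℝ) := by
      rw [Finset.mul_sum]
      refine Finset.sum_congr rfl fun x _ => ?_
      ring
    simp only [hΦ]
    rw [h4, h5]
    nlinarith [sq_nonneg (b p + ∑ D ∈ 𝒟, m D * ((J(D | p) : ℤ) : ℝ))]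
  have hmod : LA (PS (fun p => if p ∈ T₀ then 0 else Φ p)) (β ^ 2 * 1 + (-(2 * ∑ D ∈ 𝒟, m D ^ 2) +
      ∑ D ∈ 𝒟, m D ^ 2)) := by
    refine LA.PS_congr hΦB (B' := |β ^ 2| + ((∑ D ∈ 𝒟, |2 * m D| * B) +
      ∑ x ∈ 𝒟 ×ˢ 𝒟, |m x.1 * m x.2|)) (fun p => ?_) T₀ (fun p hp => by rw [if_neg hp]) hall
    split_ifs with hp
    · rw [abs_zero]
      exact (abs_nonneg _).trans (hΦB p)
    · exact hΦB p
  have hfin := hmod.nonneg (by
    filter_upwards [self_mem_nhdsWithin] with ε _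
    refine tsum_nonneg fun p => mul_nonneg ?_ (Real.rpow_nonneg (Nat.cast_nonneg _) _)
    beta_reduce
    split_ifs with hp
    · exact le_rfl
    · exact hpos p hp)
  linarith

end Pool.Agent.Work.MP_2b9663_nt
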