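import Pool.Agent.Work.MP_2b9663_nt.MV

set_option autoImplicit false

/-!
A weighted Bessel inequality.
-/

namespace Pool.Agent.Work.MP_2b9663_nt

open Filter Topology

/-- **A Bessel inequality for families of functions supported on a set of primes of density
`ω`.** -/
theorem bessel_weighted {ι κ : Type*} [DecidableEq ι] (𝒟 : Finset ι) (𝒮 : Finset κ)
    (u : ι → κ → Nat.Primes → ℝ) (w : Nat.Primes → ℝ) {ω : ℝ} (hω : 0 < ω) (hw : MV w ω)
    (horth : ∀ D ∈ 𝒟, ∀ D' ∈ 𝒟, ∀ S ∈ 𝒮,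
      MV (fun p => u D S p * u D' S p) (if D = D' then 1 else 0))
    (c : κ → Nat.Primes → ℝ) (γ : κ → ℝ) (T : Finset Nat.Primes)
    (hw0 : ∀ p, p ∉ T → 0 ≤ w p ∧ (1 ≤ w p ∨ ∀ D ∈ 𝒟, ∀ S ∈ 𝒮, u D S p = 0))
    (hc : ∀ S ∈ 𝒮, ∀ p, p ∉ T → |c S p| ≤ γ S) (m : ι → ℝ)
    (h : ∀ D ∈ 𝒟, MV (fun p => ∑ S ∈ 𝒮, u D S p * c S p) (-(m D))) :
    ∑ D ∈ 𝒟, m D ^ 2 ≤ ω * (∑ S ∈ 𝒮, γ S) ^ 2 := by
  classical
  set N := ∑ D ∈ 𝒟, m D ^ 2 with hN
  have hN0 : 0 ≤ N := Finset.sum_nonneg fun D _ => sq_nonneg _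
  set ν := Real.sqrt (N / ω) with hν
  have hν0 : 0 ≤ ν := Real.sqrt_nonneg _
  have hνN : ω * ν ^ 2 = N := by
    rw [hν, Real.sq_sqrt (div_nonneg hN0 hω.le)]
    field_simp
  set W : κ → Nat.Primes → ℝ := fun S p => ∑ D ∈ 𝒟, m D * u D S p with hW
  -- the linear term
  have h1 : MV (fun p => ∑ S ∈ 𝒮, c S p * W S p) (-N) := by
    have h2 := MV.sum 𝒟 fun D hD => (h D hD).const_mul (m D)
    have h3 : ∑ D ∈ 𝒟, m D * -(m D) = -N := by
      rw [hN, ← Finset.sum_neg_distrib]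
      refine Finset.sum_congr rfl fun D _ => ?_
      ring
    rw [h3] at h2
    have h4 : (fun p => ∑ D ∈ 𝒟, m D * ∑ S ∈ 𝒮, u D S p * c S p) =
        fun p => ∑ S ∈ 𝒮, c S p * W S p := by
      funext p
      simp only [hW, Finset.mul_sum]
      rw [Finset.sum_comm]
      refine Finset.sum_congr rfl fun S _ => Finset.sum_congr rfl fun D _ => ?_
      ring
    rw [← h4]
    exact h2
  -- the quadratic term
  have h2 : ∀ S ∈ 𝒮, MV (fun p => W S p ^ 2) N := by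
    intro S hS
    have h3 := MV.sum 𝒟 fun D hD => MV.sum 𝒟 fun D' hD' =>
      (horth D hD D' hD' S hS).const_mul (m D * m D')
    have h4 : ∑ D ∈ 𝒟, ∑ D' ∈ 𝒟, m D * m D' * (if D = D' then 1 else 0) = N := by
      rw [hN]
      refine Finset.sum_congr rfl fun D hD => ?_
      simp only [mul_ite, mul_one, mul_zero]
      rw [Finset.sum_ite_eq, if_pos hD, sq]
    rw [h4] at h3
    have h5 : (fun p => ∑ D ∈ 𝒟, ∑ D' ∈ 𝒟, m D * m D' * (u D S p * u D' S p)) =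
        fun p => W S p ^ 2 := by
      funext p
      simp only [hW]
      rw [sq, Finset.sum_mul_sum]
      refine Finset.sum_congr rfl fun D _ => Finset.sum_congr rfl fun D' _ => ?_
      ring
    rw [← h5]
    exact h3
  have h3 : MV (fun p => 2 * ν * (∑ S ∈ 𝒮, c S p * W S p) +
      ∑ S ∈ 𝒮, γ S * (ν ^ 2 * w p + W S p ^ 2))
      (2 * ν * -N + ∑ S ∈ 𝒮, γ S * (ν ^ 2 * ω + N)) :=
    (h1.const_mul (2 * ν)).add (MV.sum 𝒮 fun S hS =>
      (((hw.const_mul (ν ^ 2)).add (h2 S hS))).const_mul (γ S))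
  have h4 := h3.nonneg T (by
    intro p hp
    rw [Finset.mul_sum, ← Finset.sum_add_distrib]
    refine Finset.sum_nonneg fun S hS => ?_
    have h5 := hc S hS p hp
    have h6 : 0 ≤ γ S := (abs_nonneg _).trans h5
    obtain ⟨hw1, hw2⟩ := hw0 p hp
    rcases hw2 with hw2 | hw2
    · have h7 : -(γ S * |W S p|) ≤ c S p * W S p := by
        have h8 := neg_abs_le (c S p * W S p)
        rw [abs_mul] at h8
        have h9 := mul_le_mul_of_nonneg_right h5 (abs_nonneg (W S p))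
        linarith
      have h8 : 2 * ν * |W S p| ≤ ν ^ 2 * w p + W S p ^ 2 := by
        have h9 := sq_nonneg (ν - |W S p|)
        have h10 := sq_abs (W S p)
        have h11 := mul_le_mul_of_nonneg_left hw2 (sq_nonneg ν)
        nlinarith
      have h9 := mul_le_mul_of_nonneg_left h8 h6
      have h10 := mul_le_mul_of_nonneg_left h7 (mul_nonneg zero_le_two hν0)
      nlinarith
    · have h7 : W S p = 0 := by
        simp only [hW]
        exact Finset.sum_eq_zero fun D hD => by rw [hw2 D hD S hS, mul_zero]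
      rw [h7]
      have h8 : 0 ≤ γ S * (ν ^ 2 * w p) := mul_nonneg h6 (mul_nonneg (sq_nonneg _) hw1)
      simpa using h8)
  have h5 : ∑ S ∈ 𝒮, γ S * (ν ^ 2 * ω + N) = (∑ S ∈ 𝒮, γ S) * (2 * (ω * ν ^ 2)) := by
    rw [← Finset.sum_mul, ← hνN]
    ring
  rw [h5, ← hνN] at h4
  rw [← hνN]
  refine mul_le_mul_of_nonneg_left ?_ hω.le
  rcases eq_or_lt_of_le hν0 with h6 | h6
  · rw [← h6, zero_pow two_ne_zero]
    exact sq_nonneg _
  · have h7 : ν ≤ ∑ S ∈ 𝒮, γ S := by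
      have h8 : 0 ≤ 2 * (ω * ν ^ 2) * ((∑ S ∈ 𝒮, γ S) - ν) := by
        have : 2 * (ω * ν ^ 2) * ((∑ S ∈ 𝒮, γ S) - ν) =
          2 * ν * -(ω * ν ^ 2) + (∑ S ∈ 𝒮, γ S) * (2 * (ω * ν ^ 2)) := by ring
        rw [this]
        exact h4
      have h9 : 0 < 2 * (ω * ν ^ 2) := by positivity
      have h10 := nonneg_of_mul_nonneg_right h8 h9
      linarith
    exact pow_le_pow_left₀ hν0 h7 2

end Pool.Agent.Work.MP_2b9663_nt
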