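import Pool.Agent.Work.MP_2b9663_nt.Defs

set_option autoImplicit false

/-!
Base change to arbitrary number fields.
-/

namespace Pool.Agent.Work.MP_2b9663_nt

open NumberField

/-- `F` is a meromorphic continuation to a neighbourhood of `s₀ = i / 2 + 1` of the `L`-function
with the traces `t p k` times the number of homomorphisms from the ring of integers of `K` to the
field with `p ^ k` elements. If `K` is a number field and `t` belongs to `H ^ i (X)`, this is the
`L`-function of `H ^ i (X_K)`, with `X_K = X × Spec K` regarded as a variety over `ℚ`. -/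
def IsContinuationNF (G : Nat.Primes → Prop) (t : Nat.Primes → ℕ → ℂ) (i : ℕ) (K : Type) [Field K]
    (F : ℂ → ℂ) : Prop :=
  IsEuler G (fun p k => (Nat.card (𝓞 K →+* Fq p k) : ℂ) * t p k) i F ∧
    MeromorphicAt F ((i : ℂ) / 2 + 1)

/-- The number of embeddings of the field `K` into the field `L` which are fixed by the
automorphism `g` of `L`. -/
noncomputable def fixEmb (K L : Type) [Field K] [Field L] [CharZero L] (g : L ≃ₐ[ℚ] L) : ℕ :=
  Nat.card {σ : K →+* L // ∀ x, g (σ x) = σ x}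

/-- the pairs `(σ, τ)` and `(σ', τ')` of embeddings of `K` in `Ω` are conjugate under an
automorphism of `Ω` -/
def pairSetoid (K Ω : Type) [Field K] [Field Ω] : Setoid ((K →+* Ω) × (K →+* Ω)) where
  r x y := ∃ h : Ω ≃+* Ω, (∀ z, h (x.1 z) = y.1 z) ∧ ∀ z, h (x.2 z) = y.2 z
  iseqv :=
    { refl := fun x => ⟨RingEquiv.refl Ω, fun _ => rfl, fun _ => rfl⟩
      symm := fun {x y} ⟨h, h1, h2⟩ => ⟨h.symm, fun z => by rw [← h1 z, RingEquiv.symm_apply_apply],
        fun z => by rw [← h2 z, RingEquiv.symm_apply_apply]⟩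
      trans := fun {x y w} ⟨h, h1, h2⟩ ⟨h', h3, h4⟩ => ⟨h.trans h',
        fun z => by rw [RingEquiv.trans_apply, h1, h3],
        fun z => by rw [RingEquiv.trans_apply, h2, h4]⟩ }

/-- The rank of `K`: the number of orbits of the automorphisms of `Ω` on the pairs of embeddings of
`K` in `Ω`. For `K ≠ ℚ` it is two if and only if the Galois group acts doubly transitively on the
embeddings, for instance if it is the symmetric group. -/
noncomputable def embRank (K Ω : Type) [Field K] [Field Ω] : ℕ :=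
  Nat.card (Quotient (pairSetoid K Ω))

section

variable {Ω : Type} [Field Ω] [CharZero Ω] {ι : Type}

/-- For every Galois number field `M` and all real numbers `c₀` and `c k`, for `K k ≤ M`, the
absolute value of `c₀ * m₁ + ∑ c k * m k` is at most `b` times the mean value of
`|c₀ + ∑ c k * fixEmb (K k) M g|` over all `g` in `Gal(M/ℚ)`. -/
def MeanBound (K : ι → IntermediateField ℚ Ω) (b : ℕ) (m₁ : ℤ) (m : ι → ℤ) : Prop :=
  ∀ (M : IntermediateField ℚ Ω) [NumberField M] [IsGalois ℚ M] (s : Finset ι) (c₀ : ℝ)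
    (c : ι → ℝ), (∀ k ∈ s, K k ≤ M) →
    |c₀ * m₁ + ∑ k ∈ s, c k * m k| ≤
      b * ((∑ g : M ≃ₐ[ℚ] M, |c₀ + ∑ k ∈ s, c k * fixEmb (K k) M g|) / Nat.card (M ≃ₐ[ℚ] M))

/-- For every `r` there are at most `4 (r - 1) (b ^ 2 - m₁ ^ 2)` of the fields `K k` such that, with
`L` the normal closure of their compositum, `m k = m k'` for all `K k` and `K k'` of rank at most
`r` with the same intersection with `L`, and `m k = m₁` for all `K k` of rank at most `r` whose
intersection with `L` is `ℚ`. -/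
def StableOrders (K : ι → IntermediateField ℚ Ω) (b : ℕ) (m₁ : ℤ) (m : ι → ℤ) : Prop :=
  ∀ r : ℕ, ∃ S : Finset ι, S.card ≤ 4 * (r - 1) * (b ^ 2 - m₁.natAbs ^ 2) ∧
    ∀ L : IntermediateField ℚ Ω,
      L = IntermediateField.normalClosure ℚ (⨆ k ∈ S, K k : IntermediateField ℚ Ω) Ω →
      (∀ k k', embRank (K k) Ω ≤ r → embRank (K k') Ω ≤ r → K k ⊓ L = K k' ⊓ L → m k = m k') ∧
      (∀ k, embRank (K k) Ω ≤ r → K k ⊓ L = ⊥ → m k = m₁)

/-- For every `r`, among the fields `K k ≠ ℚ` of rank at most `r` without proper subfields other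
than `ℚ` only finitely many have `m k ≠ m₁`; among the fields of rank at most two only finitely
many have `m k ≠ m₁`. -/
def FinitelyManyExceptions (K : ι → IntermediateField ℚ Ω) (m₁ : ℤ) (m : ι → ℤ) : Prop :=
  (∀ r : ℕ, {E | ∃ k, K k = E ∧ embRank (K k) Ω ≤ r ∧ IsAtom (K k) ∧ m k ≠ m₁}.Finite) ∧
    {E | ∃ k, K k = E ∧ embRank (K k) Ω ≤ 2 ∧ m k ≠ m₁}.Finite

/-- `m k = m₁` if `K k = ℚ(c ^ (1 / q))` for a prime number `q > 2 * b` and a rational number `c`
which is not a `q`-th power. -/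
def PureFieldsEqual (K : ι → IntermediateField ℚ Ω) (b : ℕ) (m₁ : ℤ) (m : ι → ℤ) : Prop :=
  ∀ (k : ι) (q : ℕ) (c : ℚ) (α : Ω), q.Prime → 2 * b < q → (∀ a : ℚ, a ^ q ≠ c) →
    α ^ q = (c : Ω) → K k = IntermediateField.adjoin ℚ {α} → m k = m₁

end

end Pool.Agent.Work.MP_2b9663_nt
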