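import Pool.Agent.Work.MP_2b9663_nt.Defs

set_option autoImplicit false

/-!
The polynomials `∏ (1 + x j * X + X ^ 2)`.
-/

namespace Pool.Agent.Work.MP_2b9663_nt

open Finset Polynomial

/-- the normalised polynomial -/
noncomputable def nP {r : ℕ} (x : Fin r → ℝ) : ℝ[X] := ∏ j, (1 + C (x j) * X + X ^ 2)

/-- the multiplicity of the part of `H ^ i` with `s` factors `H ^ 1` -/
def mult (r i s : ℕ) : ℕ := if s ≤ i ∧ Even (i - s) then (r - s).choose ((i - s) / 2) else 0

/-- domination of polynomials -/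
def Dom (P R : ℝ[X]) : Prop := ∀ i, |P.coeff i| ≤ R.coeff i

lemma Dom.mul {P R P' R' : ℝ[X]} (h : Dom P R) (h' : Dom P' R') : Dom (P * P') (R * R') := by
  intro i
  rw [coeff_mul, coeff_mul]
  refine (Finset.abs_sum_le_sum_abs _ _).trans (Finset.sum_le_sum fun x _ => ?_)
  rw [abs_mul]
  exact mul_le_mul (h _) (h' _) (abs_nonneg _) ((abs_nonneg _).trans (h _))

lemma Dom.prod {ι : Type*} (s : Finset ι) {P R : ι → ℝ[X]} (h : ∀ j ∈ s, Dom (P j) (R j)) :
    Dom (∏ j ∈ s, P j) (∏ j ∈ s, R j) := by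
  classical
  induction s using Finset.induction_on with
  | empty =>
    intro i
    rw [Finset.prod_empty, Finset.prod_empty, coeff_one]
    split_ifs <;> simp
  | insert a s ha ih =>
    rw [Finset.prod_insert ha, Finset.prod_insert ha]
    exact (h a (Finset.mem_insert_self _ _)).mul (ih fun j hj => h j (Finset.mem_insert_of_mem hj))

lemma Dom.factor {x y : ℝ} (h : |x| ≤ y) : Dom (1 + C x * X + X ^ 2) (1 + C y * X + X ^ 2) := by
  intro i
  simp only [coeff_add, coeff_one, coeff_C_mul, coeff_X, coeff_X_pow]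
  rcases i with _ | _ | _ | i
  · simp
  · simpa using h
  · simp
  · simp

lemma nP_coeff_le {r : ℕ} {x y : Fin r → ℝ} (h : ∀ j, |x j| ≤ y j) (i : ℕ) :
    |(nP x).coeff i| ≤ (nP y).coeff i :=
  Dom.prod univ (fun j _ => Dom.factor (h j)) i

lemma nP_scale {r : ℕ} (x : Fin r → ℝ) (c : ℝ) (i : ℕ) :
    (∏ j, (1 + C (c * x j) * X + C (c ^ 2) * X ^ 2)).coeff i = c ^ i * (nP x).coeff i := by
  have h : ∏ j, (1 + C (c * x j) * X + C (c ^ 2) * X ^ 2) = (nP x).comp (C c * X) := by
    rw [nP, Polynomial.prod_comp]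
    refine Finset.prod_congr rfl fun j _ => ?_
    simp only [add_comp, one_comp, mul_comp, C_comp, X_comp, pow_comp, mul_pow, C_mul, C_pow]
    ring
  rw [h, comp_C_mul_X_coeff, mul_comm]

lemma coeff_aux (s n i : ℕ) :
    ((X : ℝ[X]) ^ s * (1 + X ^ 2) ^ n).coeff i =
      if s ≤ i ∧ Even (i - s) then ((n.choose ((i - s) / 2) : ℕ) : ℝ) else 0 := by
  have h1 : ((1 : ℝ[X]) + X ^ 2) ^ n = expand ℝ 2 ((1 + X) ^ n) := by
    rw [map_pow, map_add, map_one, expand_X]
  rw [coeff_X_pow_mul', h1, coeff_expand two_pos, coeff_one_add_X_pow]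
  by_cases h : s ≤ i
  · by_cases h2 : Even (i - s)
    · rw [if_pos h, if_pos h2.two_dvd, if_pos ⟨h, h2⟩]
    · rw [if_pos h, if_neg (fun h3 => h2 (even_iff_two_dvd.mpr h3)), if_neg (fun h3 => h2 h3.2)]
  · rw [if_neg h, if_neg (fun h3 => h h3.1)]

lemma nP_expand {r : ℕ} (x : Fin r → ℝ) (i : ℕ) :
    (nP x).coeff i = ∑ S : Finset (Fin r), (∏ j ∈ S, x j) * (mult r i S.card : ℝ) := by
  have h1 : nP x = ∑ S : Finset (Fin r), C (∏ j ∈ S, x j) * (X ^ S.card * (1 + X ^ 2) ^ (r - S.card)) := by
    have h2 : nP x = ∏ j, (C (x j) * X + (1 + X ^ 2)) := by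
      rw [nP]
      refine Finset.prod_congr rfl fun j _ => ?_
      ring
    rw [h2, Finset.prod_add, Finset.powerset_univ]
    refine Finset.sum_congr rfl fun S _ => ?_
    rw [Finset.prod_mul_distrib, Finset.prod_const, Finset.prod_const, ← map_prod,
      Finset.card_sdiff_of_subset (Finset.subset_univ S), Finset.card_univ, Fintype.card_fin, mul_assoc]
  rw [h1, finsetSum_coeff]
  refine Finset.sum_congr rfl fun S _ => ?_
  rw [coeff_C_mul, coeff_aux, mult]
  push_cast
  rfl

/-- the value in even degree for equal curves -/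
lemma nP_even_ge (r k : ℕ) (x : ℝ) :
    ((r.choose k : ℕ) : ℝ) ≤ (nP (fun _ : Fin r => x)).coeff (2 * k) := by
  rw [nP_expand]
  have h0 : ∀ S ∈ (univ : Finset (Finset (Fin r))),
      0 ≤ (∏ j ∈ S, (fun _ : Fin r => x) j) * (mult r (2 * k) S.card : ℝ) := by
    intro S _
    rw [Finset.prod_const, mult]
    split_ifs with h
    · have he : Even S.card := by
        obtain ⟨a, ha⟩ := h.2
        exact ⟨k - a, by omega⟩
      exact mul_nonneg (he.pow_nonneg x) (Nat.cast_nonneg _)
    · simp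
  refine le_trans ?_ (Finset.single_le_sum h0 (Finset.mem_univ (∅ : Finset (Fin r))))
  rw [Finset.prod_empty, one_mul, Finset.card_empty, mult, if_pos ⟨Nat.zero_le _, by simp⟩]
  simp

lemma nP_reflect_aux {ι : Type*} (s : Finset ι) (x : ι → ℝ) :
    reflect (2 * s.card) (∏ j ∈ s, (1 + C (x j) * X + X ^ 2)) = ∏ j ∈ s, (1 + C (x j) * X + X ^ 2) := by
  classical
  induction s using Finset.induction_on with
  | empty => simp
  | insert a s ha ih =>
    rw [Finset.prod_insert ha, Finset.card_insert_of_notMem ha]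
    have h1 : 2 * (s.card + 1) = 2 + 2 * s.card := by ring
    rw [h1, reflect_mul, ih]
    · congr 1
      ext k
      rw [coeff_reflect]
      rcases k with _ | _ | _ | k
      · have : revAt 2 0 = 2 := by decide
        rw [this]
        simp [coeff_one, coeff_X]
      · have : revAt 2 1 = 1 := by decide
        rw [zero_add, this]
      · have : revAt 2 2 = 0 := by decide
        rw [zero_add, one_add_one_eq_two, this]
        simp [coeff_one, coeff_X]
      · rw [revAt_eq_self_of_lt (by omega)]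
    · compute_degree
    · refine (natDegree_prod_le _ _).trans ?_
      rw [mul_comm]
      refine Finset.sum_le_card_nsmul _ _ 2 fun j _ => ?_
      compute_degree

lemma nP_palindromic {r : ℕ} (x : Fin r → ℝ) {a : ℕ} (ha : a ≤ 2 * r) :
    (nP x).coeff (2 * r - a) = (nP x).coeff a := by
  have h1 := nP_reflect_aux univ x
  rw [Finset.card_univ, Fintype.card_fin] at h1
  have h2 := congrArg (fun P : ℝ[X] => P.coeff a) h1
  rw [coeff_reflect, revAt_le ha] at h2
  exact h2

lemma nP_append {r : ℕ} (x : Fin r → ℝ) : nP (Fin.append x x) = nP x * nP x := by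
  rw [nP, Fin.prod_univ_add]
  congr 1
  · refine Finset.prod_congr rfl fun j _ => ?_
    rw [Fin.append_left]
  · refine Finset.prod_congr rfl fun j _ => ?_
    rw [Fin.append_right]

/-- positivity in the middle degree of a square -/
lemma nP_middle_ge {r : ℕ} (hr : 1 ≤ r) (x : Fin r → ℝ) :
    2 ≤ (nP (Fin.append x x)).coeff (2 * r) := by
  rw [nP_append, coeff_mul, Finset.Nat.sum_antidiagonal_eq_sum_range_succ_mk]
  have h1 : ∀ a ∈ range (2 * r + 1), (nP x).coeff a * (nP x).coeff (2 * r - a) =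
      (nP x).coeff a ^ 2 := by
    intro a ha
    rw [Finset.mem_range] at ha
    rw [nP_palindromic x (by omega), sq]
  rw [Nat.succ_eq_add_one, Finset.sum_congr rfl h1]
  have h0 : (nP x).coeff 0 = 1 := by
    rw [coeff_zero_eq_eval_zero, nP, eval_prod]
    refine Finset.prod_eq_one fun j _ => ?_
    simp
  have h2 : (nP x).coeff (2 * r) = 1 := by
    have := nP_palindromic x (a := 0) (by omega)
    rw [Nat.sub_zero, h0] at this
    exact this
  have h3 : ({0, 2 * r} : Finset ℕ) ⊆ range (2 * r + 1) := by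
    intro a ha
    rw [Finset.mem_insert, Finset.mem_singleton] at ha
    rw [Finset.mem_range]
    omega
  refine le_trans ?_ (Finset.sum_le_sum_of_subset_of_nonneg h3 fun a _ _ => sq_nonneg _)
  rw [Finset.sum_pair (by omega), h0, h2]
  norm_num

end Pool.Agent.Work.MP_2b9663_nt
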