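import Pool.Agent.Work.MP_2b9663_nt.Local
import Pool.Agent.Work.MP_2b9663_nt.NPoly

set_option autoImplicit false

/-!
The normalised traces.
-/

namespace Pool.Agent.Work.MP_2b9663_nt

open Finset Polynomial NumberTheorySymbols

/-- the normalised trace on `H ^ 1` of the `j`-th curve -/
noncomputable def nx {r : ℕ} (f : Fin r → ℤ[X]) (D : Fin r → ℤ) (K : Type) [Field K] (j : Fin r) :
    ℝ := (traceOne (f j) (D j) K : ℝ) / Real.sqrt (Nat.card K)

lemma trace_eq {r : ℕ} (f : Fin r → ℤ[X]) (D : Fin r → ℤ) (i : ℕ) (K : Type) [Field K] [Finite K] :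
    (trace f D i K : ℝ) = Real.sqrt (Nat.card K) ^ i * (nP (nx f D K)).coeff i := by
  have hq : (0 : ℝ) < Nat.card K := by exact_mod_cast Nat.card_pos
  have hs : 0 < Real.sqrt (Nat.card K) := Real.sqrt_pos.mpr hq
  rw [← nP_scale]
  have h1 : (trace f D i K : ℝ) = ((∏ j, (1 + C (traceOne (f j) (D j) K) * X +
      C (Nat.card K : ℤ) * X ^ 2)).map (Int.castRingHom ℝ)).coeff i := by
    rw [coeff_map]
    rfl
  rw [h1, Polynomial.map_prod]
  congr 1
  refine Finset.prod_congr rfl fun j _ => ?_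
  have h2 : Real.sqrt (Nat.card K) * nx f D K j = (traceOne (f j) (D j) K : ℝ) := by
    unfold nx
    field_simp
  rw [h2, Real.sq_sqrt hq.le]
  simp

lemma betti_eq {r : ℕ} (f : Fin r → ℤ[X]) (i : ℕ) :
    (betti f i : ℝ) = (nP (fun j => (2 * genus (f j) : ℕ))).coeff i := by
  have h1 : (betti f i : ℝ) = ((∏ j, (1 + C (2 * genus (f j)) * X + X ^ 2 : ℕ[X])).map
      (Nat.castRingHom ℝ)).coeff i := by
    rw [coeff_map]
    rfl
  rw [h1, Polynomial.map_prod, nP]
  congr 1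
  refine Finset.prod_congr rfl fun j _ => ?_
  simp only [Polynomial.map_add, Polynomial.map_one, Polynomial.map_mul, map_C, map_X,
    Polynomial.map_pow]
  congr 4

section

variable (p : Nat.Primes)

lemma primeFact : Fact (p : ℕ).Prime := ⟨p.2⟩

attribute [local instance] primeFact

lemma card_Fq {k : ℕ} (hk : k ≠ 0) : Nat.card (Fq p k) = (p : ℕ) ^ k := GaloisField.card _ _ hk

lemma ringChar_Fq (k : ℕ) : ringChar (Fq p k) = p := ringChar.eq (Fq p k) p

lemma intCast_Fq_ne_zero (k : ℕ) {a : ℤ} (h : ¬ (((p : ℕ) : ℤ) ∣ a)) : (a : Fq p k) ≠ 0 := by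
  intro h1
  exact h ((CharP.intCast_eq_zero_iff (Fq p k) p a).mp h1)

lemma squarefree_Fq (k : ℕ) {f : ℤ[X]} (h : Squarefree (f.map (Int.castRingHom (ZMod p)))) :
    Squarefree (f.map (Int.castRingHom (Fq p k))) := by
  have h1 : (f.map (Int.castRingHom (ZMod p))).Separable := PerfectField.separable_iff_squarefree.mpr h
  have h2 := (h1.map (f := algebraMap (ZMod p) (Fq p k))).squarefree
  rw [Polynomial.map_map] at h2
  have h3 : (algebraMap (ZMod p) (Fq p k)).comp (Int.castRingHom (ZMod p)) = Int.castRingHom (Fq p k) :=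
    RingHom.ext_int _ _
  rwa [h3] at h2

lemma quadraticChar_Fq (hp : (p : ℕ) ≠ 2) (D : ℤ) [Fintype (Fq p 1)] [DecidableEq (Fq p 1)] :
    quadraticChar (Fq p 1) (D : Fq p 1) = J(D | p) := by
  have hK : ringChar (ZMod p) ≠ 2 := by rw [ZMod.ringChar_zmod_n]; exact hp
  have hE : Fintype.card (Fq p 1) = Fintype.card (ZMod p) ^ 1 := by
    rw [← Nat.card_eq_fintype_card, card_Fq p one_ne_zero, ZMod.card]
  have h1 := quadraticChar_aeval (E := Fq p 1) hK hE (P := (X : (ZMod p)[X])) irreducible_X (x := 0)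
    (by simp) one_pos (C (D : ZMod p))
  rw [natDegree_X, Nat.div_self one_pos, pow_one, chi, rho_C X_ne_zero, natDegree_X, pow_one] at h1
  rw [← jacobiSym.legendreSym.to_jacobiSym, legendreSym, ← h1]
  congr 1
  rw [aeval_C, map_intCast]

end

section

variable {r : ℕ} {f : Fin r → ℤ[X]} {D : Fin r → ℤ} {p : Nat.Primes}

/-- The Weil bound for the normalised traces. -/
lemma nx_le (hf : ∀ j, IsCurve (f j)) (hp : Good f D p) {k : ℕ} (_hk : k ≠ 0) (j : Fin r) :
    |nx f D (Fq p k) j| ≤ (2 * genus (f j) : ℕ) := by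
  classical
  let : Fintype (Fq p k) := Fintype.ofFinite _
  obtain ⟨h2, h⟩ := hp
  obtain ⟨h3, h4, h5⟩ := h j
  have hK : ringChar (Fq p k) ≠ 2 := by rw [ringChar_Fq]; exact h2
  have h6 := traceOne_le (K := Fq p k) hK (hf j).1 (intCast_Fq_ne_zero p k h3)
    (intCast_Fq_ne_zero p k h4) (squarefree_Fq p k h5)
  have hq : (0 : ℝ) < Nat.card (Fq p k) := by exact_mod_cast Nat.card_pos
  have hs : 0 < Real.sqrt (Nat.card (Fq p k)) := Real.sqrt_pos.mpr hq
  rw [nx, abs_div, abs_of_pos hs, div_le_iff₀ hs]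
  exact h6

lemma trace_le (hf : ∀ j, IsCurve (f j)) (hp : Good f D p) {k : ℕ} (hk : k ≠ 0) (i : ℕ) :
    |(trace f D i (Fq p k) : ℝ)| ≤ Real.sqrt (Nat.card (Fq p k)) ^ i * betti f i := by
  rw [trace_eq, abs_mul, abs_of_nonneg (pow_nonneg (Real.sqrt_nonneg _) i), betti_eq]
  exact mul_le_mul_of_nonneg_left (nP_coeff_le (fun j => nx_le hf hp hk j) i)
    (pow_nonneg (Real.sqrt_nonneg _) i)

lemma nx_twist (hp : Good f D p) (j : Fin r) :
    nx f D (Fq p 1) j = (J(D j | p) : ℤ) * nx f (fun _ => 1) (Fq p 1) j := by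
  classical
  let : Fintype (Fq p 1) := Fintype.ofFinite _
  obtain ⟨h2, h⟩ := hp
  obtain ⟨h3, h4, h5⟩ := h j
  have hK : ringChar (Fq p 1) ≠ 2 := by rw [ringChar_Fq]; exact h2
  have e1 := traceOne_eq (K := Fq p 1) hK (f := f j) (intCast_Fq_ne_zero p 1 h3)
    (intCast_Fq_ne_zero p 1 h4)
  have e2 := traceOne_eq (K := Fq p 1) hK (f := f j) (D := 1) (by
    rw [Int.cast_one]; exact one_ne_zero) (intCast_Fq_ne_zero p 1 h4)
  rw [Int.cast_one, map_one] at e2
  rw [nx, nx, e1, e2, quadraticChar_Fq p h2]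
  push_cast
  ring

end

end Pool.Agent.Work.MP_2b9663_nt
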