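import Pool.Agent.Work.MP_2b9663_nt.MV
import Pool.Agent.Work.MP_2b9663_nt.Trace

set_option autoImplicit false

/-!
The order at `s₀` of the `L`-function of a product of hyperelliptic curves.
-/

namespace Pool.Agent.Work.MP_2b9663_nt

open Polynomial NumberTheorySymbols

section

variable {r : ℕ} {f : Fin r → ℤ[X]} {D : Fin r → ℤ}

lemma betti_nonneg (f : Fin r → ℤ[X]) (i : ℕ) : (0 : ℝ) ≤ (betti f i : ℝ) := by
  rw [betti_eq]
  refine (abs_nonneg ((nP (fun _ : Fin r => (0 : ℝ))).coeff i)).trans (nP_coeff_le (fun j => ?_) i)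
  rw [abs_zero]
  exact Nat.cast_nonneg _

lemma weil_trace (hf : ∀ j, IsCurve (f j)) (i : ℕ) :
    WeilBound (Good f D) (fun p k => (trace f D i (Fq p k) : ℂ)) i (betti f i) := by
  intro p hp k hk
  have h1 := trace_le hf hp hk i
  have h2 : (Nat.card (Fq p k) : ℝ) = ((p : ℕ) : ℝ) ^ k := by
    rw [card_Fq p hk]
    push_cast
    rfl
  rw [h2, mul_comm] at h1
  rw [Complex.norm_intCast]
  exact h1

/-- the normalised traces of the product of the curves -/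
noncomputable def ntr (f : Fin r → ℤ[X]) (D : Fin r → ℤ) (i : ℕ) (p : Nat.Primes) : ℝ :=
  (nt (Good f D) (fun p k => (trace f D i (Fq p k) : ℂ)) i p).re

lemma ntr_good {p : Nat.Primes} (hp : Good f D p) (i : ℕ) :
    ntr f D i p = (nP (nx f D (Fq p 1))).coeff i := by
  have h2 : (Nat.card (Fq p 1) : ℝ) = ((p : ℕ) : ℝ) := by
    rw [card_Fq p one_ne_zero, pow_one]
  have hp0 : (0 : ℝ) < ((p : ℕ) : ℝ) := by exact_mod_cast p.2.pos
  have hs : Real.sqrt ((p : ℕ) : ℝ) ^ i ≠ 0 := (pow_pos (Real.sqrt_pos.mpr hp0) i).ne'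
  rw [ntr, nt, if_pos hp]
  have h3 : ((trace f D i (Fq p 1) : ℤ) : ℂ) / ((Real.sqrt ((p : ℕ) : ℝ) ^ i : ℝ) : ℂ) =
      (((trace f D i (Fq p 1) : ℝ) / Real.sqrt ((p : ℕ) : ℝ) ^ i : ℝ) : ℂ) := by
    push_cast
    rfl
  rw [h3, Complex.ofReal_re, trace_eq, h2]
  field_simp

lemma ntr_le (hf : ∀ j, IsCurve (f j)) (i : ℕ) (p : Nat.Primes) : |ntr f D i p| ≤ betti f i :=
  nt_le (betti_nonneg f i) (weil_trace hf i) p

/-- The order at `s₀` is minus the mean value of the normalised traces. -/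
theorem order_mean (hf : ∀ j, IsCurve (f j)) {i : ℕ} {F : ℂ → ℂ} (hF : IsContinuation f D i F) :
    ∃ n : ℤ, meromorphicOrderAt F ((i : ℂ) / 2 + 1) = n ∧ MV (ntr f D i) (-(n : ℝ)) := by
  obtain ⟨n, h1, h2⟩ := order_of_euler (betti_nonneg f i) (weil_trace hf i) hF.1 hF.2
  exact ⟨n, h1, ⟨⟨betti f i, ntr_le hf i⟩, h2⟩⟩

lemma bad_finite {i : ℕ} {F : ℂ → ℂ} (hF : IsContinuation f D i F) :
    ∃ T : Finset Nat.Primes, ∀ p, p ∉ T → Good f D p := by
  obtain ⟨⟨T, Q, hT, -⟩, -⟩ := hF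
  exact ⟨T, fun p hp => by_contra fun h => hp (hT p h)⟩

/-- A lower bound for the traces gives an upper bound for the order. -/
theorem order_le_of_trace_ge (hf : ∀ j, IsCurve (f j)) {i : ℕ} {F : ℂ → ℂ}
    (hF : IsContinuation f D i F) (a : ℤ)
    (ha : ∀ p, Good f D p → (a : ℝ) ≤ (nP (nx f D (Fq p 1))).coeff i) :
    ∃ n : ℤ, meromorphicOrderAt F ((i : ℂ) / 2 + 1) = n ∧ n ≤ -a := by
  obtain ⟨n, h1, h2⟩ := order_mean hf hF
  obtain ⟨T, hT⟩ := bad_finite hF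
  refine ⟨n, h1, ?_⟩
  have h3 := (MV.const (a : ℝ)).mono h2 T fun p hp => by
    rw [ntr_good (hT p hp)]
    exact ha p (hT p hp)
  have h4 : (n : ℝ) ≤ ((-a : ℤ) : ℝ) := by push_cast; linarith
  exact_mod_cast h4

end

end Pool.Agent.Work.MP_2b9663_nt
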