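import Pool.Agent.Work.MP_2b9663_nt.Density
import Pool.Agent.Work.MP_2b9663_nt.DefsNF
import Pool.Agent.Work.MP_2b9663_nt.Order

set_option autoImplicit false

/-!
The inequality between the orders of the `L`-functions of `X_K`, for the subfields `K` of a Galois
number field.
-/

namespace Pool.Agent.Work.MP_2b9663_nt

open NumberField

section

variable {G : Nat.Primes → Prop} {t : Nat.Primes → ℕ → ℂ} {i : ℕ} {b : ℝ}

/-- the normalised traces -/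
noncomputable def na (G : Nat.Primes → Prop) (t : Nat.Primes → ℕ → ℂ) (i : ℕ) (p : Nat.Primes) : ℝ :=
  (nt G t i p).re

lemma na_le (hb : 0 ≤ b) (h : WeilBound G t i b) (p : Nat.Primes) : |na G t i p| ≤ b :=
  nt_le hb h p

lemma BD_na (hb : 0 ≤ b) (h : WeilBound G t i b) : BD (na G t i) := ⟨b, na_le hb h⟩

lemma weil_nf (h : WeilBound G t i b) (K : Type) [Field K] [NumberField K] :
    WeilBound G (fun p k => (Nat.card (𝓞 K →+* Fq p k) : ℂ) * t p k) i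
      (Module.finrank ℚ K * b) := by
  intro p hp k hk
  rw [norm_mul, mul_assoc]
  refine mul_le_mul ?_ (h p hp k hk) (norm_nonneg _) (Nat.cast_nonneg _)
  rw [Complex.norm_natCast]
  have : Finite (Fq p k) := by
    have : Fact (p : ℕ).Prime := ⟨p.2⟩
    infer_instance
  exact_mod_cast card_homs_le K (Fq p k)

lemma nt_nf (K : Type) [Field K] [NumberField K] (p : Nat.Primes) :
    (nt G (fun p k => (Nat.card (𝓞 K →+* Fq p k) : ℂ) * t p k) i p).re =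
      (idc K (p : ℕ) : ℝ) * na G t i p := by
  have hp : Fact (p : ℕ).Prime := ⟨p.2⟩
  have h1 : Nat.card (Fq p 1) = (p : ℕ) := by
    rw [card_Fq p one_ne_zero, pow_one]
  have h2 : Nat.card (𝓞 K →+* Fq p 1) = idc K p := card_homs_eq h1 K
  unfold na nt
  split_ifs with hG
  · beta_reduce
    rw [h2, mul_div_assoc, ← Complex.ofReal_natCast, Complex.re_ofReal_mul]
  · simp

/-- the order of the `L`-function of `X_K` -/
theorem order_nf (hb : 0 ≤ b) (h : WeilBound G t i b) {K : Type} [Field K] [NumberField K]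
    {F : ℂ → ℂ} (hF : IsContinuationNF G t i K F) :
    ∃ n : ℤ, meromorphicOrderAt F ((i : ℂ) / 2 + 1) = n ∧
      MV (fun p : Nat.Primes => (idc K (p : ℕ) : ℝ) * na G t i p) (-(n : ℝ)) := by
  have hB : (0 : ℝ) ≤ Module.finrank ℚ K * b := mul_nonneg (Nat.cast_nonneg _) hb
  obtain ⟨n, h1, h2⟩ := order_of_euler hB (weil_nf h K) hF.1 hF.2
  refine ⟨n, h1, ⟨⟨Module.finrank ℚ K * b, fun p => ?_⟩, ?_⟩⟩
  · beta_reduce
    rw [← nt_nf]
    exact nt_le hB (weil_nf h K) p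
  · have h3 : (fun p => (nt G (fun p k => (Nat.card (𝓞 K →+* Fq p k) : ℂ) * t p k) i p).re) =
        fun p : Nat.Primes => (idc K (p : ℕ) : ℝ) * na G t i p := funext fun p => nt_nf K p
    rw [← h3]
    exact h2

end

section

variable {L : Type} [Field L] [NumberField L] [IsGalois ℚ L] {a : Nat.Primes → ℝ} {b : ℝ}

/-- the mean value of `a p * Φ (frob p)` is `- x` -/
def HasVal (a : Nat.Primes → ℝ) (Φ : (L ≃ₐ[ℚ] L) → ℝ) (x : ℝ) : Prop :=
  MV (fun p => a p * Φ (frob L p)) (-x)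

lemma HasVal.add {Φ Ψ : (L ≃ₐ[ℚ] L) → ℝ} {x y : ℝ} (h : HasVal a Φ x) (h' : HasVal a Ψ y) :
    HasVal a (Φ + Ψ) (x + y) := by
  unfold HasVal at *
  have h1 := MV.add h h'
  have h2 : (fun p => a p * (Φ + Ψ) (frob L p)) =
      fun p => a p * Φ (frob L p) + a p * Ψ (frob L p) := by
    funext p
    rw [Pi.add_apply]
    ring
  rw [h2, neg_add]
  exact h1

lemma HasVal.smul {Φ : (L ≃ₐ[ℚ] L) → ℝ} {x : ℝ} (c : ℝ) (h : HasVal a Φ x) :
    HasVal a (c • Φ) (c * x) := by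
  unfold HasVal at *
  have h1 := MV.const_mul c h
  have h2 : (fun p => a p * (c • Φ) (frob L p)) = fun p => c * (a p * Φ (frob L p)) := by
    funext p
    rw [Pi.smul_apply, smul_eq_mul]
    ring
  have h3 : -(c * x) = c * -x := by ring
  rw [h2, h3]
  exact h1

lemma HasVal.zero : HasVal a (0 : (L ≃ₐ[ℚ] L) → ℝ) 0 := by
  unfold HasVal
  simpa using MV.zero

lemma HasVal.sub {Φ Ψ : (L ≃ₐ[ℚ] L) → ℝ} {x y : ℝ} (h : HasVal a Φ x) (h' : HasVal a Ψ y) :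
    HasVal a (Φ - Ψ) (x - y) := by
  have h1 := h.add (h'.smul (-1))
  have h2 : Φ + (-1 : ℝ) • Ψ = Φ - Ψ := by
    rw [neg_one_smul, sub_eq_add_neg]
  have h3 : x + -1 * y = x - y := by ring
  rw [h2, h3] at h1
  exact h1

lemma HasVal.sum {ι : Type*} (s : Finset ι) {Φ : ι → (L ≃ₐ[ℚ] L) → ℝ} {x : ι → ℝ}
    (h : ∀ j ∈ s, HasVal a (Φ j) (x j)) : HasVal a (∑ j ∈ s, Φ j) (∑ j ∈ s, x j) := by
  classical
  induction s using Finset.induction_on with
  | empty => simpa using HasVal.zero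
  | insert k s hk ih =>
    rw [Finset.sum_insert hk, Finset.sum_insert hk]
    exact (h k (Finset.mem_insert_self _ _)).add (ih fun j hj => h j (Finset.mem_insert_of_mem hj))

lemma hasVal_pc (ha : BD a) (K : IntermediateField ℚ L) {m : ℝ}
    (h : MV (fun p : Nat.Primes => (idc K (p : ℕ) : ℝ) * a p) (-m)) :
    HasVal a (fun g => (pc K.fixingSubgroup g : ℝ)) m := by
  obtain ⟨T, hT⟩ := idc_frob K
  refine h.congr (ha.mul (BD_frob fun g => (pc K.fixingSubgroup g : ℝ))) T fun p hp => ?_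
  rw [hT p hp, mul_comm]

/-- **The master inequality.** -/
theorem HasVal.abs_le' (ha : ∀ p, |a p| ≤ b) {Φ : (L ≃ₐ[ℚ] L) → ℝ} {x : ℝ} (h : HasVal a Φ x)
    (hΦ : IsRat Φ) : |x| ≤ b * ((∑ g, |Φ g|) / Fintype.card (L ≃ₐ[ℚ] L)) := by
  have h1 : MV (fun p => |Φ (frob L p)|) ((∑ g, |Φ g|) / Fintype.card (L ≃ₐ[ℚ] L)) :=
    density (F := fun g => |Φ g|) fun g h hgh => by
      beta_reduce
      rw [hΦ g h hgh]
  have h2 := h1.const_mul b
  have h3 : ∀ p, |a p * Φ (frob L p)| ≤ b * |Φ (frob L p)| := fun p => by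
    rw [abs_mul]
    exact mul_le_mul_of_nonneg_right (ha p) (abs_nonneg _)
  unfold HasVal at h
  have h4 := h.mono h2 ∅ fun p _ => (le_abs_self _).trans (h3 p)
  have h5 := (h.const_mul (-1)).mono h2 ∅ fun p _ => by
    have h6 := (neg_le_abs (a p * Φ (frob L p))).trans (h3 p)
    linarith
  rw [abs_le]
  constructor <;> linarith

/-- The quadratic form of the master inequality. -/
theorem HasVal.sq_le (hb : 0 ≤ b) (ha : ∀ p, |a p| ≤ b) {Φ : (L ≃ₐ[ℚ] L) → ℝ} {x : ℝ}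
    (h : HasVal a Φ x) (hΦ : IsRat Φ) :
    Fintype.card (L ≃ₐ[ℚ] L) * x ^ 2 ≤ b ^ 2 * ∑ g, Φ g ^ 2 := by
  have h1 := h.abs_le' ha hΦ
  have hc : (0 : ℝ) < Fintype.card (L ≃ₐ[ℚ] L) := by exact_mod_cast Fintype.card_pos
  have h2 : (∑ g, |Φ g|) ^ 2 ≤ Fintype.card (L ≃ₐ[ℚ] L) * ∑ g, Φ g ^ 2 := by
    have h3 := sq_sum_le_card_mul_sum_sq (s := (Finset.univ : Finset (L ≃ₐ[ℚ] L)))
      (f := fun g => |Φ g|)
    simpa [sq_abs] using h3
  have h3 : 0 ≤ b * ((∑ g, |Φ g|) / Fintype.card (L ≃ₐ[ℚ] L)) :=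
    mul_nonneg hb (div_nonneg (Finset.sum_nonneg fun g _ => abs_nonneg _) hc.le)
  have h4 : x ^ 2 ≤ (b * ((∑ g, |Φ g|) / Fintype.card (L ≃ₐ[ℚ] L))) ^ 2 := by
    rw [← sq_abs x]
    exact pow_le_pow_left₀ (abs_nonneg _) h1 2
  rw [mul_pow, div_pow] at h4
  have h5 : (Fintype.card (L ≃ₐ[ℚ] L) : ℝ) * (b ^ 2 * ((∑ g, |Φ g|) ^ 2 /
      (Fintype.card (L ≃ₐ[ℚ] L) : ℝ) ^ 2)) ≤ b ^ 2 * ∑ g, Φ g ^ 2 := by
    have h6 : (Fintype.card (L ≃ₐ[ℚ] L) : ℝ) * (b ^ 2 * ((∑ g, |Φ g|) ^ 2 /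
      (Fintype.card (L ≃ₐ[ℚ] L) : ℝ) ^ 2)) = b ^ 2 * ((∑ g, |Φ g|) ^ 2 /
        Fintype.card (L ≃ₐ[ℚ] L)) := by
      field_simp
    rw [h6]
    refine mul_le_mul_of_nonneg_left ?_ (sq_nonneg b)
    rw [div_le_iff₀ hc]
    linarith
  exact (mul_le_mul_of_nonneg_left h4 hc.le).trans h5

end

end Pool.Agent.Work.MP_2b9663_nt
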