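import Pool.Agent.Work.MP_2b9663_nt.Rank

set_option autoImplicit false

/-!
The rank is at most the degree, and fields of rank two have no proper subfields.
-/

namespace Pool.Agent.Work.MP_2b9663_nt

open NumberField

section

variable {Ω : Type} [Field Ω] [CharZero Ω] [IsAlgClosure ℚ Ω]

/-- embeddings of `K` extend to automorphisms of `Ω` -/
lemma exists_extend (K : IntermediateField ℚ Ω) (σ : K →+* Ω) :
    ∃ h : Ω ≃+* Ω, ∀ z : K, h (z : Ω) = σ z := by
  have halg : Algebra.IsAlgebraic ℚ Ω := IsAlgClosure.isAlgebraic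
  let σ' : @AlgHom ℚ K Ω _ _ _ K.algebra' _ :=
    { toRingHom := σ
      commutes' := fun r => by
        rw [eq_ratCast, eq_ratCast]
        exact map_ratCast σ r }
  let ψ : Ω →ₐ[ℚ] Ω := σ'.liftNormal Ω
  have hψ : ∀ z : K, ψ (z : Ω) = σ z := fun z => σ'.liftNormal_commutes Ω z
  have hbij : Function.Bijective ψ := Algebra.IsAlgebraic.algHom_bijective ψ
  exact ⟨RingEquiv.ofBijective (ψ : Ω →+* Ω) hbij, hψ⟩

theorem embRank_le_finrank (K : IntermediateField ℚ Ω) [NumberField K] :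
    embRank K Ω ≤ Module.finrank ℚ K := by
  have hfinΩ : Finite (K →+* Ω) := Finite.of_equiv _ (RingHom.equivRatAlgHom K Ω).symm
  have h1 : Nat.card (K →+* Ω) ≤ Module.finrank ℚ K := by
    rw [Nat.card_congr (RingHom.equivRatAlgHom K Ω)]
    exact card_algHom_le_finrank ℚ K Ω
  refine le_trans ?_ h1
  refine Nat.card_le_card_of_surjective
    (fun τ : K →+* Ω => Quotient.mk (pairSetoid K Ω) ((K.val : K →+* Ω), τ)) ?_
  intro a
  obtain ⟨⟨σ, τ⟩, rfl⟩ := Quotient.exists_rep a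
  obtain ⟨h, hh⟩ := exists_extend K σ
  refine ⟨(h.symm : Ω →+* Ω).comp τ, ?_⟩
  apply Quotient.sound
  refine ⟨h, fun z => hh z, fun z => ?_⟩
  change h (h.symm (τ z)) = τ z
  rw [RingEquiv.apply_symm_apply]

/-- an element outside `E` is moved by an automorphism over `E` -/
lemma exists_move (E : IntermediateField ℚ Ω) {x : Ω} (hx : x ∉ E) :
    ∃ h : Ω ≃ₐ[ℚ] Ω, (∀ y ∈ E, h y = y) ∧ h x ≠ x := by
  by_contra hcon
  push Not at hcon
  apply hx
  rw [← InfiniteGalois.fixedField_fixingSubgroup E, IntermediateField.mem_fixedField_iff]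
  intro h hh
  refine hcon h fun y hy => ?_
  rw [IntermediateField.mem_fixingSubgroup_iff] at hh
  exact hh y hy

theorem isAtom_of_rank {K : IntermediateField ℚ Ω} [NumberField K] (hK : K ≠ ⊥)
    (hr : embRank K Ω ≤ 2) : IsAtom K := by
  classical
  refine ⟨hK, fun E hE => ?_⟩
  by_contra hEb
  obtain ⟨x, hxK, hxE⟩ := SetLike.exists_of_lt hE
  obtain ⟨y, hyE, hyb⟩ := SetLike.exists_of_lt (bot_lt_iff_ne_bot.mpr hEb)
  obtain ⟨h₁, h1, h1x⟩ := exists_move E hxE
  obtain ⟨h₂, -, h2y⟩ := exists_move (⊥ : IntermediateField ℚ Ω) hyb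
  have hyK : y ∈ K := hE.le hyE
  have hfinΩ : Finite (K →+* Ω) := Finite.of_equiv _ (RingHom.equivRatAlgHom K Ω).symm
  set i : K →+* Ω := (K.val : K →+* Ω) with hi
  set τ₁ : K →+* Ω := (h₁ : Ω →+* Ω).comp i with hτ₁
  set τ₂ : K →+* Ω := (h₂ : Ω →+* Ω).comp i with hτ₂
  have e0 : Quotient.mk (pairSetoid K Ω) (i, i) ≠ Quotient.mk (pairSetoid K Ω) (i, τ₁) := by
    intro h
    obtain ⟨g, g1, g2⟩ := Quotient.exact h
    have g3 := g1 ⟨x, hxK⟩
    have g4 := g2 ⟨x, hxK⟩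
    exact h1x (g4.symm.trans g3)
  have e1 : Quotient.mk (pairSetoid K Ω) (i, i) ≠ Quotient.mk (pairSetoid K Ω) (i, τ₂) := by
    intro h
    obtain ⟨g, g1, g2⟩ := Quotient.exact h
    have g3 := g1 ⟨y, hyK⟩
    have g4 := g2 ⟨y, hyK⟩
    exact h2y (g4.symm.trans g3)
  have e2 : Quotient.mk (pairSetoid K Ω) (i, τ₁) ≠ Quotient.mk (pairSetoid K Ω) (i, τ₂) := by
    intro h
    obtain ⟨g, g1, g2⟩ := Quotient.exact h
    have g3 : g y = y := g1 ⟨y, hyK⟩
    have g4 : g (h₁ y) = h₂ y := g2 ⟨y, hyK⟩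
    rw [h1 y hyE, g3] at g4
    exact h2y g4.symm
  have hle := Nat.card_le_card_of_injective
    (![Quotient.mk (pairSetoid K Ω) (i, i), Quotient.mk (pairSetoid K Ω) (i, τ₁),
      Quotient.mk (pairSetoid K Ω) (i, τ₂)] : Fin 3 → Quotient (pairSetoid K Ω)) (by
    intro a b hab
    fin_cases a <;> fin_cases b
    · rfl
    · exact absurd hab e0
    · exact absurd hab e1
    · exact absurd hab.symm e0
    · rfl
    · exact absurd hab e2
    · exact absurd hab.symm e1
    · exact absurd hab.symm e2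
    · rfl)
  rw [Nat.card_fin] at hle
  unfold embRank at hr
  omega

end

end Pool.Agent.Work.MP_2b9663_nt
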