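import Pool.Agent.Work.MP_2b9663_nt.Defs
import Pool.Agent.Work.MP_2b9663_nt.Bessel

set_option autoImplicit false

/-!
The order at `s₀` of the continuation of an Euler product.
-/

namespace Pool.Agent.Work.MP_2b9663_nt

open Filter Topology Polynomial

open Classical in
/-- the normalised traces -/
noncomputable def nt (G : Nat.Primes → Prop) (t : Nat.Primes → ℕ → ℂ) (i : ℕ) (p : Nat.Primes) : ℂ :=
  if G p then t p 1 / ((Real.sqrt ((p : ℕ) : ℝ) ^ i : ℝ) : ℂ) else 0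

lemma nt_norm_le {G : Nat.Primes → Prop} {t : Nat.Primes → ℕ → ℂ} {i : ℕ} {B : ℝ} (hB : 0 ≤ B)
    (h : WeilBound G t i B) (p : Nat.Primes) : ‖nt G t i p‖ ≤ B := by
  unfold nt
  split_ifs with hG
  · have h1 := h p hG 1 one_ne_zero
    rw [pow_one] at h1
    have hp : (0 : ℝ) < ((p : ℕ) : ℝ) := by exact_mod_cast p.2.pos
    have hs : 0 < Real.sqrt ((p : ℕ) : ℝ) ^ i := pow_pos (Real.sqrt_pos.mpr hp) i
    rw [norm_div, Complex.norm_real, Real.norm_eq_abs, abs_of_pos hs, div_le_iff₀ hs]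
    exact h1
  · rw [norm_zero]; exact hB

lemma nt_le {G : Nat.Primes → Prop} {t : Nat.Primes → ℕ → ℂ} {i : ℕ} {B : ℝ} (hB : 0 ≤ B)
    (h : WeilBound G t i B) (p : Nat.Primes) : |(nt G t i p).re| ≤ B :=
  (Complex.abs_re_le_norm _).trans (nt_norm_le hB h p)

/-- the point `s₀ + ε` -/
noncomputable def sp (i : ℕ) (ε : ℝ) : ℂ := (((i : ℝ) / 2 + 1 + ε : ℝ) : ℂ)

lemma sp_re (i : ℕ) (ε : ℝ) : (sp i ε).re = (i : ℝ) / 2 + 1 + ε := Complex.ofReal_re _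

lemma sqrt_pow_mul_rpow (p : Nat.Primes) (i k : ℕ) (ε : ℝ) :
    Real.sqrt (((p : ℕ) : ℝ) ^ k) ^ i * ((p : ℕ) : ℝ) ^ (-((k : ℝ) * ((i : ℝ) / 2 + 1 + ε))) =
      ((p : ℕ) : ℝ) ^ (-((k : ℝ) * (1 + ε))) := by
  have hp : (0 : ℝ) < ((p : ℕ) : ℝ) := by exact_mod_cast p.2.pos
  have h1 : Real.sqrt (((p : ℕ) : ℝ) ^ k) ^ i = ((p : ℕ) : ℝ) ^ ((k : ℝ) * ((i : ℝ) / 2)) := by
    rw [Real.sqrt_eq_rpow, ← Real.rpow_natCast, ← Real.rpow_natCast, ← Real.rpow_mul hp.le,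
      ← Real.rpow_mul hp.le]
    congr 1
    ring
  rw [h1, ← Real.rpow_add hp]
  congr 1
  ring

lemma term_norm (p : Nat.Primes) (i k : ℕ) (ε : ℝ) (a : ℂ) :
    ‖a * ((p : ℕ) : ℂ) ^ (-(((k + 1 : ℕ) : ℂ) * sp i ε)) / ((k + 1 : ℕ) : ℂ)‖ =
      ‖a‖ * ((p : ℕ) : ℝ) ^ (-(((k + 1 : ℕ) : ℝ) * ((i : ℝ) / 2 + 1 + ε))) / ((k + 1 : ℕ) : ℝ) := by
  rw [norm_div, norm_mul, Complex.norm_natCast,
    Complex.norm_natCast_cpow_of_pos p.2.pos]
  congr 3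
  rw [Complex.neg_re, sp, ← Complex.ofReal_natCast, ← Complex.ofReal_mul, Complex.ofReal_re]

lemma term_le {G : Nat.Primes → Prop} {t : Nat.Primes → ℕ → ℂ} {i : ℕ} {B : ℝ} (hB : 0 ≤ B)
    (h : WeilBound G t i B) {p : Nat.Primes} (hp : G p) {ε : ℝ} (hε : 0 < ε) (k : ℕ) :
    ‖t p (k + 1) * ((p : ℕ) : ℂ) ^ (-(((k + 1 : ℕ) : ℂ) * sp i ε)) / ((k + 1 : ℕ) : ℂ)‖ ≤
      B * (((p : ℕ) : ℝ)⁻¹) ^ (k + 1) := by
  have hp0 : (0 : ℝ) < ((p : ℕ) : ℝ) := by exact_mod_cast p.2.pos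
  have hp1 : (1 : ℝ) ≤ ((p : ℕ) : ℝ) := by exact_mod_cast p.2.one_le
  rw [term_norm]
  have h1 := h p hp (k + 1) (by omega)
  have h2 := mul_le_mul_of_nonneg_right h1
    (Real.rpow_nonneg hp0.le (-(((k + 1 : ℕ) : ℝ) * ((i : ℝ) / 2 + 1 + ε))))
  rw [mul_assoc, sqrt_pow_mul_rpow] at h2
  have h3 : ((p : ℕ) : ℝ) ^ (-(((k + 1 : ℕ) : ℝ) * (1 + ε))) ≤ (((p : ℕ) : ℝ)⁻¹) ^ (k + 1) := by
    rw [← Real.rpow_neg_one, ← Real.rpow_natCast, ← Real.rpow_mul hp0.le]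
    apply Real.rpow_le_rpow_of_exponent_le hp1
    have : (0 : ℝ) ≤ ((k + 1 : ℕ) : ℝ) * ε := by positivity
    nlinarith
  have h4 : (1 : ℝ) ≤ ((k + 1 : ℕ) : ℝ) := by exact_mod_cast Nat.le_add_left 1 k
  refine (div_le_self ?_ h4).trans (h2.trans (mul_le_mul_of_nonneg_left h3 hB))
  positivity

lemma inv_prime_le (p : Nat.Primes) : (((p : ℕ) : ℝ)⁻¹) ≤ 1 / 2 := by
  rw [one_div]
  have : (2 : ℝ) ≤ ((p : ℕ) : ℝ) := by exact_mod_cast p.2.two_le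
  exact inv_anti₀ (by norm_num) this

/-- The logarithm of the Euler factor differs little from its first term. -/
lemma logFactor_sub {G : Nat.Primes → Prop} {t : Nat.Primes → ℕ → ℂ} {i : ℕ} {B : ℝ} (hB : 0 ≤ B)
    (h : WeilBound G t i B) {p : Nat.Primes} (hp : G p) {ε : ℝ} (hε : 0 < ε) :
    ‖logFactor (t p) p (sp i ε) - nt G t i p * ((((p : ℕ) : ℝ) ^ (-(1 + ε)) : ℝ) : ℂ)‖ ≤
      2 * B * ((p : ℕ) : ℝ) ^ (-2 : ℝ) := by
  have hp0 : (0 : ℝ) < ((p : ℕ) : ℝ) := by exact_mod_cast p.2.pos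
  set u : ℕ → ℂ := fun k => t p (k + 1) * ((p : ℕ) : ℂ) ^ (-(((k + 1 : ℕ) : ℂ) * sp i ε)) /
    ((k + 1 : ℕ) : ℂ) with hu
  have hx0 : (0 : ℝ) ≤ ((p : ℕ) : ℝ)⁻¹ := by positivity
  have hx1 : ((p : ℕ) : ℝ)⁻¹ < 1 := (inv_prime_le p).trans_lt (by norm_num)
  have hgeo := summable_geometric_of_lt_one hx0 hx1
  have hle : ∀ k, ‖u k‖ ≤ B * (((p : ℕ) : ℝ)⁻¹) ^ (k + 1) := fun k => term_le hB h hp hε k
  have hsum : Summable u := by
    refine Summable.of_norm_bounded (g := fun k => B * (((p : ℕ) : ℝ)⁻¹) ^ (k + 1)) ?_ hle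
    refine (hgeo.mul_left (B * ((p : ℕ) : ℝ)⁻¹)).congr fun k => ?_
    rw [pow_succ]
    ring
  have h0 : u 0 = nt G t i p * ((((p : ℕ) : ℝ) ^ (-(1 + ε)) : ℝ) : ℂ) := by
    have h1 := sqrt_pow_mul_rpow p i 1 ε
    rw [pow_one, Nat.cast_one, one_mul, one_mul] at h1
    have hs : ((Real.sqrt ((p : ℕ) : ℝ) ^ i : ℝ) : ℂ) ≠ 0 := by
      exact_mod_cast (pow_pos (Real.sqrt_pos.mpr hp0) i).ne'
    have h2 : ((((p : ℕ) : ℝ) ^ (-((i : ℝ) / 2 + 1 + ε)) : ℝ) : ℂ) = ((p : ℕ) : ℂ) ^ (-(sp i ε)) := by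
      rw [Complex.ofReal_cpow hp0.le, sp]
      push_cast
      rfl
    simp only [hu]
    rw [zero_add, Nat.cast_one, one_mul, div_one, ← h2, ← h1, nt, if_pos hp, Complex.ofReal_mul]
    field_simp
  have h1 : logFactor (t p) p (sp i ε) = u 0 + ∑' k, u (k + 1) := hsum.tsum_eq_zero_add
  rw [h1, h0, add_sub_cancel_left]
  have hsum1 : Summable (fun k => B * (((p : ℕ) : ℝ)⁻¹) ^ (k + 1 + 1)) := by
    refine (hgeo.mul_left (B * ((p : ℕ) : ℝ)⁻¹ ^ 2)).congr fun k => ?_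
    rw [pow_succ, pow_succ]
    ring
  refine (tsum_of_norm_bounded hsum1.hasSum fun k => hle (k + 1)).trans ?_
  have h3 : ∑' k : ℕ, B * (((p : ℕ) : ℝ)⁻¹) ^ (k + 1 + 1) =
      B * (((p : ℕ) : ℝ)⁻¹) ^ 2 * (1 - ((p : ℕ) : ℝ)⁻¹)⁻¹ := by
    rw [← tsum_geometric_of_lt_one hx0 hx1, ← tsum_mul_left]
    refine tsum_congr fun k => ?_
    rw [pow_succ, pow_succ]
    ring
  rw [h3]
  have h4 : (1 - ((p : ℕ) : ℝ)⁻¹)⁻¹ ≤ 2 := by
    rw [inv_le_comm₀ (by linarith) (by norm_num)]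
    have := inv_prime_le p
    linarith
  have h5 : ((p : ℕ) : ℝ) ^ (-2 : ℝ) = (((p : ℕ) : ℝ)⁻¹) ^ 2 := by
    rw [Real.rpow_neg hp0.le, inv_pow]
    norm_num
  rw [h5]
  calc B * (((p : ℕ) : ℝ)⁻¹) ^ 2 * (1 - ((p : ℕ) : ℝ)⁻¹)⁻¹ ≤ B * (((p : ℕ) : ℝ)⁻¹) ^ 2 * 2 := by
        gcongr
    _ = _ := by ring

/-- The logarithm of the Euler product. -/
lemma log_product {G : Nat.Primes → Prop} {t : Nat.Primes → ℕ → ℂ} {i : ℕ} {B : ℝ} (hB : 0 ≤ B)
    (h : WeilBound G t i B) (T : Finset Nat.Primes) (hT : ∀ p, ¬ G p → p ∈ T) {ε : ℝ} (hε : 0 < ε) :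
    |(∑' p : {p : Nat.Primes // p ∉ T}, logFactor (t p) p (sp i ε)).re -
      PS (fun p => (nt G t i p).re) ε| ≤ 2 * B * P2 + T.card * B := by
  have hnt : ∀ p, |(nt G t i p).re| ≤ B := nt_le hB h
  have hG : ∀ p : {p : Nat.Primes // p ∉ T}, G p := fun p => by
    by_contra hn
    exact p.2 (hT p hn)
  set w : Nat.Primes → ℂ := fun p => nt G t i p * ((((p : ℕ) : ℝ) ^ (-(1 + ε)) : ℝ) : ℂ) with hw
  set v : Nat.Primes → ℝ := fun p => (nt G t i p).re * ((p : ℕ) : ℝ) ^ (-(1 + ε)) with hv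
  have hwv : ∀ p, (w p).re = v p := fun p => by
    simp only [hw, hv]
    rw [Complex.re_mul_ofReal]
  have hvs : Summable v := PS_summable hnt hε
  have hvs' : Summable (fun p : {p : Nat.Primes // p ∉ T} => v p) := hvs.subtype _
  have hws : Summable w := by
    have h1 : Summable (fun p : Nat.Primes => ((p : ℕ) : ℝ) ^ (-(1 + ε))) :=
      Nat.Primes.summable_rpow.mpr (by linarith)
    refine Summable.of_norm_bounded (h1.mul_left B) fun p => ?_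
    simp only [hw]
    rw [norm_mul, Complex.norm_real, Real.norm_eq_abs,
      abs_of_nonneg (Real.rpow_nonneg (Nat.cast_nonneg _) _)]
    exact mul_le_mul_of_nonneg_right (nt_norm_le hB h p) (Real.rpow_nonneg (Nat.cast_nonneg _) _)
  have hvc : Summable (fun p : {p : Nat.Primes // p ∉ T} => w p) := hws.subtype _
  have hdiff : ∀ p : {p : Nat.Primes // p ∉ T},
      ‖logFactor (t p) p (sp i ε) - w p‖ ≤ 2 * B * ((p : ℕ) : ℝ) ^ (-2 : ℝ) :=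
    fun p => logFactor_sub hB h (hG p) hε
  have hP2 : Summable (fun p : {p : Nat.Primes // p ∉ T} => 2 * B * ((p : ℕ) : ℝ) ^ (-2 : ℝ)) :=
    (P2_summable.mul_left (2 * B)).subtype _
  have hds : Summable (fun p : {p : Nat.Primes // p ∉ T} =>
      logFactor (t p) p (sp i ε) - w p) := Summable.of_norm_bounded hP2 hdiff
  have e1 : (∑' p : {p : Nat.Primes // p ∉ T}, logFactor (t p) p (sp i ε)) =
      (∑' p : {p : Nat.Primes // p ∉ T}, (logFactor (t p) p (sp i ε) - w p)) +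
      ∑' p : {p : Nat.Primes // p ∉ T}, w p := by
    rw [← hds.tsum_add hvc]
    refine tsum_congr fun p => ?_
    ring
  have e2 : PS (fun p => (nt G t i p).re) ε = ∑ p ∈ T, v p + ∑' p : {p : Nat.Primes // p ∉ T}, v p :=
    (hvs.sum_add_tsum_subtype_compl T).symm
  have e4 : (∑' p : {p : Nat.Primes // p ∉ T}, w p).re = ∑' p : {p : Nat.Primes // p ∉ T}, v p := by
    rw [Complex.re_tsum hvc]
    exact tsum_congr fun p => hwv p
  rw [e1, e2, Complex.add_re, e4]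
  have e3 : ∀ a b c : ℝ, a + b - (c + b) = a - c := fun a b c => by ring
  rw [e3]
  refine (abs_sub _ _).trans (add_le_add ?_ ?_)
  · refine (Complex.abs_re_le_norm _).trans ?_
    refine (tsum_of_norm_bounded hP2.hasSum hdiff).trans ?_
    rw [P2, ← tsum_mul_left]
    refine (P2_summable.mul_left (2 * B)).tsum_subtype_le
      (fun p : Nat.Primes => 2 * B * ((p : ℕ) : ℝ) ^ (-2 : ℝ)) _ ?_
    intro p
    have : (0 : ℝ) ≤ ((p : ℕ) : ℝ) := Nat.cast_nonneg _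
    positivity
  · refine (Finset.abs_sum_le_sum_abs _ _).trans ?_
    rw [← nsmul_eq_mul]
    refine Finset.sum_le_card_nsmul _ _ _ fun p _ => ?_
    simp only [hv]
    rw [abs_mul, abs_of_nonneg (Real.rpow_nonneg (Nat.cast_nonneg _) _)]
    refine (mul_le_of_le_one_right (abs_nonneg _) ?_).trans (hnt p)
    exact Real.rpow_le_one_of_one_le_of_nonpos (by exact_mod_cast p.2.one_le) (by linarith)

/-- **The order of the continuation at `s₀` and the mean value of the traces.** -/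
theorem order_of_euler {G : Nat.Primes → Prop} {t : Nat.Primes → ℕ → ℂ} {i : ℕ} {B : ℝ}
    (hB : 0 ≤ B) (h : WeilBound G t i B) {F : ℂ → ℂ} (hF : IsEuler G t i F)
    (hm : MeromorphicAt F ((i : ℂ) / 2 + 1)) :
    ∃ n : ℤ, meromorphicOrderAt F ((i : ℂ) / 2 + 1) = n ∧ LA (PS (fun p => (nt G t i p).re)) (-(n : ℝ)) := by
  obtain ⟨T, Q, hT, hQ, hprod⟩ := hF
  set s₀ : ℂ := (i : ℂ) / 2 + 1 with hs₀
  have hsp0 : ∀ ε : ℝ, sp i ε = s₀ + ε := by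
    intro ε
    rw [sp, hs₀]
    push_cast
    ring
  -- the path
  have hpath : Tendsto (fun ε : ℝ => sp i ε) (𝓝[>] 0) (𝓝[≠] s₀) := by
    rw [tendsto_nhdsWithin_iff]
    constructor
    · have h1 : Tendsto (fun ε : ℝ => s₀ + (ε : ℂ)) (𝓝 0) (𝓝 (s₀ + ((0 : ℝ) : ℂ))) :=
        Continuous.tendsto (by fun_prop) 0
      rw [Complex.ofReal_zero, add_zero] at h1
      refine (h1.mono_left nhdsWithin_le_nhds).congr fun ε => ?_
      rw [hsp0]
    · filter_upwards [self_mem_nhdsWithin] with ε hε0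
      have hε : (0 : ℝ) < ε := hε0
      rw [Set.mem_compl_iff, Set.mem_singleton_iff, hsp0]
      intro h1
      have h2 : (ε : ℂ) = 0 := by linear_combination h1
      rw [Complex.ofReal_eq_zero] at h2
      exact hε.ne' h2
  have hpath' : Tendsto (fun ε : ℝ => sp i ε) (𝓝[>] 0) (𝓝 s₀) :=
    hpath.mono_right nhdsWithin_le_nhds
  -- the factors at the exceptional primes
  set ψ : ℂ → ℂ := fun s => ∏ p ∈ T, ((Q p).eval (((p : ℕ) : ℂ) ^ (-s)))⁻¹ with hψ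
  have hψ0 : ψ s₀ ≠ 0 := Finset.prod_ne_zero_iff.mpr fun p hp => inv_ne_zero (hQ p hp)
  have hψc : ContinuousAt ψ s₀ := by
    refine tendsto_finsetProd _ fun p hp => ?_
    refine ContinuousAt.inv₀ ?_ (hQ p hp)
    have hp0 : ((p : ℕ) : ℂ) ≠ 0 := by exact_mod_cast p.2.ne_zero
    have h1 : Continuous (fun s : ℂ => (Q p).eval (((p : ℕ) : ℂ) ^ (-s))) := by
      refine (Q p).continuous.comp ?_
      refine Continuous.const_cpow (by fun_prop) (Or.inl hp0)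
    exact h1.continuousAt
  have bound : ∀ g : ℂ → ℂ, ContinuousAt g s₀ → g s₀ ≠ 0 →
      ∃ A : ℝ, ∀ᶠ ε : ℝ in 𝓝[>] 0, g (sp i ε) ≠ 0 ∧ |Real.log ‖g (sp i ε)‖| ≤ A := by
    intro g hg hg0
    have h1 : Tendsto (fun ε : ℝ => ‖g (sp i ε)‖) (𝓝[>] 0) (𝓝 ‖g s₀‖) :=
      (hg.tendsto.comp hpath').norm
    have hA : 0 < ‖g s₀‖ := norm_pos_iff.mpr hg0
    have h2 := (Real.continuousAt_log hA.ne').tendsto.comp h1
    have h3 := h2.abs.eventually (gt_mem_nhds (lt_add_one |Real.log ‖g s₀‖|))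
    have h4 := h1.eventually (lt_mem_nhds hA)
    refine ⟨|Real.log ‖g s₀‖| + 1, ?_⟩
    filter_upwards [h3, h4] with ε h5 h6
    exact ⟨norm_pos_iff.mp h6, h5.le⟩
  obtain ⟨A, hA⟩ := bound ψ hψc hψ0
  have hval : ∀ ε : ℝ, 0 < ε → F (sp i ε) = ψ (sp i ε) *
      Complex.exp (∑' p : {p : Nat.Primes // p ∉ T}, logFactor (t p) p (sp i ε)) := by
    intro ε hε
    exact hprod (sp i ε) (by rw [sp_re]; linarith)
  -- the order is finite
  have hfin : meromorphicOrderAt F s₀ ≠ ⊤ := by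
    intro htop
    rw [meromorphicOrderAt_eq_top_iff] at htop
    have h1 := hpath.eventually htop
    obtain ⟨ε, h2, ⟨h3, -⟩, hε⟩ := (h1.and (hA.and self_mem_nhdsWithin)).exists
    rw [hval ε hε] at h2
    exact mul_ne_zero h3 (Complex.exp_ne_zero _) h2
  obtain ⟨n, hn⟩ := WithTop.ne_top_iff_exists.mp hfin
  refine ⟨n, hn.symm, ?_⟩
  obtain ⟨g, hg, hg0, hFg⟩ := (meromorphicOrderAt_eq_int_iff hm).mp hn.symm
  obtain ⟨A', hA'⟩ := bound g hg.continuousAt hg0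
  refine ⟨A + A' + (2 * B * P2 + T.card * B), ?_⟩
  filter_upwards [hA, hA', hpath.eventually hFg, self_mem_nhdsWithin] with ε h1 h2 h3 hε0
  have hε : (0 : ℝ) < ε := hε0
  have h4 := log_product hB h T hT hε
  set Z := ∑' p : {p : Nat.Primes // p ∉ T}, logFactor (t p) p (sp i ε) with hZ
  have h5 : Real.log ‖F (sp i ε)‖ = Real.log ‖ψ (sp i ε)‖ + Z.re := by
    rw [hval ε hε, norm_mul, Complex.norm_exp, Real.log_mul (norm_ne_zero_iff.mpr h1.1)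
      (Real.exp_pos _).ne', Real.log_exp]
  have h6 : Real.log ‖F (sp i ε)‖ = n * Real.log ε + Real.log ‖g (sp i ε)‖ := by
    have h7 : sp i ε - s₀ = (ε : ℂ) := by rw [hsp0]; ring
    rw [h3, h7, smul_eq_mul, norm_mul, norm_zpow, Complex.norm_real, Real.norm_eq_abs,
      abs_of_pos hε, Real.log_mul (zpow_ne_zero _ hε.ne') (norm_ne_zero_iff.mpr h2.1),
      Real.log_zpow]
  have h7 : PS (fun p => (nt G t i p).re) ε + -(n : ℝ) * Real.log ε =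
      (Real.log ‖g (sp i ε)‖ - Real.log ‖ψ (sp i ε)‖) - (Z.re - PS (fun p => (nt G t i p).re) ε) := by
    linarith
  rw [h7]
  refine (abs_sub _ _).trans (add_le_add ?_ h4)
  refine (abs_sub _ _).trans ?_
  linarith [h1.2, h2.2]

end Pool.Agent.Work.MP_2b9663_nt
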