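import Pool.Agent.Work.MP_2b9663_nt.Inv

set_option autoImplicit false

/-!
Products of hyperelliptic curves as an instance of varieties with commuting involutions.
-/

namespace Pool.Agent.Work.MP_2b9663_nt

open Polynomial NumberField

section

variable {r : ℕ} {f : Fin r → ℤ[X]} {K : Type} [Field K] [NumberField K] {δ : Fin r → 𝓞 K}
  {p : Nat.Primes}

lemma curveTrace_eq (i : ℕ) (S : Finset (Fin r)) {k : ℕ} (hk : k ≠ 0) : curveTrace f i S p k =
    Real.sqrt (Nat.card (Fq p k)) ^ i *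
      ((∏ j ∈ S, nx f (fun _ => 1) (Fq p k) j) * (mult r i S.card : ℝ)) := by
  have hp0 : (0 : ℝ) < ((p : ℕ) : ℝ) := by exact_mod_cast p.2.pos
  have hcard : (Nat.card (Fq p k) : ℝ) = ((p : ℕ) : ℝ) ^ k := by
    rw [card_Fq p hk]
    push_cast
    rfl
  have hq0 : (0 : ℝ) < Nat.card (Fq p k) := by
    rw [hcard]
    exact pow_pos hp0 k
  have hs : 0 < Real.sqrt (Nat.card (Fq p k)) := Real.sqrt_pos.mpr hq0
  rw [curveTrace, mult]
  split_ifs with h
  · obtain ⟨h1, e, he⟩ := h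
    have h2 : (i - S.card) / 2 = e := by omega
    have h3 : i = S.card + 2 * e := by omega
    have h4 : ∏ j ∈ S, (traceOne (f j) 1 (Fq p k) : ℝ) =
        Real.sqrt (Nat.card (Fq p k)) ^ S.card * ∏ j ∈ S, nx f (fun _ => 1) (Fq p k) j := by
      rw [← Finset.prod_const, ← Finset.prod_mul_distrib]
      refine Finset.prod_congr rfl fun j _ => ?_
      rw [nx]
      field_simp
    have h5 : Real.sqrt (Nat.card (Fq p k)) ^ (2 * e) = ((p : ℕ) : ℝ) ^ (k * e) := by
      rw [pow_mul, Real.sq_sqrt hq0.le, hcard, ← pow_mul]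
    have h6 : Real.sqrt (Nat.card (Fq p k)) ^ i = Real.sqrt (Nat.card (Fq p k)) ^ S.card *
        ((p : ℕ) : ℝ) ^ (k * e) := by
      conv_lhs => rw [h3, pow_add, h5]
    rw [h2, h4, h6]
    ring
  · simp

lemma traceK_eq_twist (h : GoodK f K δ p) (i : ℕ) {k : ℕ} (hk : k ≠ 0) :
    (traceK f K δ i (Fq p k) : ℝ) = twistTrace (curveTrace f i) K δ p k := by
  classical
  have : Fintype (𝓞 K →+* Fq p k) := Fintype.ofFinite _
  have hK : ringChar (Fq p k) ≠ 2 := by rw [ringChar_Fq]; exact h.1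
  rw [traceK, twistTrace, finsum_eq_sum_of_fintype, finsum_eq_sum_of_fintype]
  push_cast
  refine Finset.sum_congr rfl fun φ _ => ?_
  rw [traceAt_eq]
  have h2 : (fun j => (traceOneAt (f j) (φ (δ j)) : ℝ) / Real.sqrt (Nat.card (Fq p k))) =
      fun j => (qc (Fq p k) (φ (δ j)) : ℝ) * nx f (fun _ => 1) (Fq p k) j :=
    funext fun j => h.norm_traceOneAt φ j
  rw [h2, nP_expand, Finset.mul_sum]
  refine Finset.sum_congr rfl fun S _ => ?_
  rw [curveTrace_eq i S hk, sqChar_eq_qc hK, qc_prod, Finset.prod_mul_distrib]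
  push_cast
  ring

/-- The continuation of the `L`-function of a product of curves is one of the `L`-function of the
twist of the product. -/
theorem continuation_of_K {S₀ : Finset Nat.Primes} (hS : ∀ p ∈ S₀, ¬ Good f (fun _ => 1) p) {i : ℕ}
    {F : ℂ → ℂ} (hF : IsContinuationK f K δ i F) :
    IsTwistContinuation S₀ (curveTrace f i) i K δ F := by
  obtain ⟨⟨T, Q, hT, hQ, hprod⟩, hm⟩ := hF
  refine ⟨⟨T, Q, fun p hp => hT p fun h => ?_, hQ, fun s hs => ?_⟩, hm⟩
  · rw [not_not] at hp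
    exact hS p hp h.good
  · rw [hprod s hs]
    congr 2
    refine tsum_congr fun p => ?_
    have hg : GoodK f K δ p := by
      by_contra h
      exact p.2 (hT p h)
    unfold logFactor
    refine tsum_congr fun k => ?_
    have h1 := traceK_eq_twist hg i (k := k + 1) (Nat.succ_ne_zero k)
    have h2 : ((traceK f K δ i (Fq p (k + 1)) : ℤ) : ℂ) =
        ((twistTrace (curveTrace f i) K δ p (k + 1) : ℝ) : ℂ) := by
      rw [← h1]
      push_cast
      rfl
    beta_reduce
    rw [h2]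

lemma independent_of_K {i : ℕ} {D D' : Fin r → 𝓞 K} {σ : K ≃ₐ[ℚ] K}
    (h : IndependentK i D D' σ) : IndependentTwists (curveBetti f i) D D' σ := by
  intro S hS hb
  rw [curveBetti] at hb
  by_cases h1 : S.card ≤ i ∧ Even (i - S.card)
  · rw [if_pos h1] at hb
    refine h S hS h1.1 h1.2 ?_
    by_contra h2
    push Not at h2
    rw [Nat.choose_eq_zero_of_lt h2, mul_zero] at hb
    exact hb rfl
  · rw [if_neg h1] at hb
    exact absurd rfl hb

lemma curveBetti_eq (i : ℕ) (S : Finset (Fin r)) : ((curveBetti f i S : ℕ) : ℝ) =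
    (∏ j ∈ S, ((2 * genus (f j) : ℕ) : ℝ)) * (mult r i S.card : ℝ) := by
  rw [curveBetti, mult]
  split_ifs with h
  · push_cast
    rfl
  · simp

lemma sum_curveBetti (i : ℕ) : ∑ S, curveBetti f i S = betti f i := by
  have h1 : ((∑ S, curveBetti f i S : ℕ) : ℝ) = (betti f i : ℝ) := by
    rw [betti_eq, nP_expand]
    push_cast
    refine Finset.sum_congr rfl fun S _ => ?_
    rw [curveBetti_eq]
    push_cast
    rfl
  exact_mod_cast h1

lemma curveBetti_empty (i : ℕ) : curveBetti f i ∅ = fixedPart r i := by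
  rw [curveBetti, fixedPart]
  simp

end

/-- The theorem on products of hyperelliptic curves as a special case. -/
theorem products_of_curves {r : ℕ} (f : Fin r → ℤ[X]) (hf : ∀ j, IsCurve (f j)) (i : ℕ) (K : Type)
    [Field K] [NumberField K] [IsGalois ℚ K] (ι : Type) (D : ι → Fin r → 𝓞 K)
    (h0 : ∀ k j, D k j ≠ 0)
    (hind : ∀ (k l : ι) (σ : K ≃ₐ[ℚ] K), (k ≠ l ∨ σ ≠ 1) → IndependentK i (D k) (D l) σ)
    (F : ι → ℂ → ℂ) (hF : ∀ k, IsContinuationK f K (D k) i (F k)) :
    ∃ m : ι → ℤ, (∀ k, meromorphicOrderAt (F k) ((i : ℂ) / 2 + 1) = m k) ∧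
      (∀ s : Finset ι, (Module.finrank ℚ K : ℤ) * ∑ k ∈ s, (m k + (fixedPart r i : ℤ)) ^ 2 ≤
        ((betti f i : ℤ) - (fixedPart r i : ℤ)) ^ 2) ∧
      {k | m k ≠ -(fixedPart r i : ℤ)}.encard ≤
        ((betti f i - fixedPart r i) ^ 2 / Module.finrank ℚ K : ℕ) := by
  classical
  rcases isEmpty_or_nonempty ι with he | ⟨⟨k₀⟩⟩
  · refine ⟨fun _ => 0, fun k => (he.false k).elim, fun s => ?_, ?_⟩
    · rw [Finset.eq_empty_of_isEmpty s, Finset.sum_empty, mul_zero]
      exact sq_nonneg _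
    · rw [Set.eq_empty_of_isEmpty {k | (fun _ => 0 : ι → ℤ) k ≠ -(fixedPart r i : ℤ)},
        Set.encard_empty]
      exact zero_le
  obtain ⟨⟨T, -, hT, -⟩, -⟩ := hF k₀
  set S₀ : Finset Nat.Primes := T.filter fun p => ¬ Good f (fun _ => 1) p with hS₀
  have hS1 : ∀ p ∈ S₀, ¬ Good f (fun _ => 1) p := fun p hp => (Finset.mem_filter.mp hp).2
  have hS2 : ∀ p, ¬ Good f (fun _ => 1) p → p ∈ S₀ := fun p hp =>
    Finset.mem_filter.mpr ⟨hT p fun h => hp h.good, hp⟩
  have ht := curve_data hf hS2 i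
  choose m hm _ using fun k => order_twist ht (continuation_of_K hS1 (hF k))
  have h1 := twist_encard ht D h0 (fun k l σ h => independent_of_K (hind k l σ h)) F
    (fun k => continuation_of_K hS1 (hF k)) m hm
  have h2 := twist_bessel ht D h0 (fun k l σ h => independent_of_K (hind k l σ h)) F
    (fun k => continuation_of_K hS1 (hF k)) m hm
  rw [sum_curveBetti, curveBetti_empty] at h1 h2
  exact ⟨m, hm, h2, h1⟩

end Pool.Agent.Work.MP_2b9663_nt
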