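import Pool.Agent.Work.MP_2b9663_nt.MV

set_option autoImplicit false

/-!
Orthogonality of Dirichlet characters and a complex Bessel inequality.
-/

namespace Pool.Agent.Work.MP_2b9663_nt

open Filter Topology ComplexConjugate

/-- the primes dividing `n` lie among the small primes -/
lemma coprime_of_big {n : ℕ} (h0 : n ≠ 0) {p : Nat.Primes} (hp : p ∉ smallPrimes (n + 1)) :
    (p : ℕ).Coprime n := by
  rw [mem_smallPrimes] at hp
  rw [Nat.Prime.coprime_iff_not_dvd p.2]
  intro h
  have := Nat.le_of_dvd (Nat.pos_of_ne_zero h0) h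
  omega

lemma not_dvd_of_big {n : ℕ} (h0 : n ≠ 0) {p : Nat.Primes} (hp : p ∉ smallPrimes (n + 1)) :
    ¬ ((p : ℕ) ∣ n) := by
  rw [mem_smallPrimes] at hp
  intro h
  have := Nat.le_of_dvd (Nat.pos_of_ne_zero h0) h
  omega

/-- the two characters agree at all integers prime to both moduli -/
def Equivalent {N N' : ℕ} (χ : DirichletCharacter ℂ N) (χ' : DirichletCharacter ℂ N') : Prop :=
  ∀ n : ℕ, n.Coprime (N * N') → χ (n : ZMod N) = χ' (n : ZMod N')

lemma norm_char_of_coprime {N : ℕ} (χ : DirichletCharacter ℂ N) {n : ℕ} (h : n.Coprime N) :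
    ‖χ (n : ZMod N)‖ = 1 := by
  have h1 := χ.unit_norm_eq_one (ZMod.unitOfCoprime n h)
  rwa [ZMod.coe_unitOfCoprime] at h1

lemma bound_pair {N N' : ℕ} (χ : DirichletCharacter ℂ N) (χ' : DirichletCharacter ℂ N') :
    BD (fun p => (χ ((p : ℕ) : ZMod N) * conj (χ' ((p : ℕ) : ZMod N'))).re) := by
  refine ⟨1, fun p => (Complex.abs_re_le_norm _).trans ?_⟩
  rw [norm_mul, RCLike.norm_conj]
  exact mul_le_one₀ (χ.norm_le_one _) (norm_nonneg _) (χ'.norm_le_one _)

open Classical in
/-- **Orthogonality of Dirichlet characters** as functions of primes. -/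
theorem MV.pair {N N' : ℕ} [NeZero N] [NeZero N'] (χ : DirichletCharacter ℂ N)
    (χ' : DirichletCharacter ℂ N') :
    MV (fun p => (χ ((p : ℕ) : ZMod N) * conj (χ' ((p : ℕ) : ZMod N'))).re)
      (if Equivalent χ χ' then 1 else 0) := by
  have hNN : N * N' ≠ 0 := mul_ne_zero (NeZero.ne N) (NeZero.ne N')
  have : NeZero (N * N') := ⟨hNN⟩
  split_ifs with h
  · refine MV.one.congr (bound_pair χ χ') (smallPrimes (N * N' + 1)) fun p hp => ?_
    have hc := coprime_of_big hNN hp
    rw [← h p hc, Complex.mul_conj, Complex.normSq_eq_norm_sq,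
      norm_char_of_coprime χ (Nat.Coprime.coprime_mul_right_right hc)]
    simp
  · have h1 : N ∣ N * N' := Dvd.intro _ rfl
    have h2 : N' ∣ N * N' := Dvd.intro_left _ rfl
    set ψ : DirichletCharacter ℂ (N * N') :=
      DirichletCharacter.changeLevel h1 χ * (DirichletCharacter.changeLevel h2 χ')⁻¹ with hψ
    have hval : ∀ n : ℕ, n.Coprime (N * N') →
        ψ (n : ZMod (N * N')) = χ (n : ZMod N) * conj (χ' (n : ZMod N')) := by
      intro n hn
      have hi : IsCoprime (n : ℤ) ((N * N' : ℕ) : ℤ) := Nat.isCoprime_iff_coprime.mpr hn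
      have e1 := DirichletCharacter.changeLevel_eq_cast_of_dvd' (χ := χ) h1 hi
      have e2 := DirichletCharacter.changeLevel_eq_cast_of_dvd' (χ := χ') h2 hi
      simp only [Int.cast_natCast] at e1 e2
      rw [hψ, MulChar.mul_apply, ← MulChar.star_apply', e1, e2]
      rfl
    have hne : ψ ≠ 1 := by
      intro h3
      apply h
      intro n hn
      have h4 := hval n hn
      have hu : IsUnit (n : ZMod (N * N')) := (ZMod.isUnit_iff_coprime n _).mpr hn
      rw [h3, MulChar.one_apply hu] at h4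
      have h5 : χ' (n : ZMod N') * conj (χ' (n : ZMod N')) = 1 := by
        rw [Complex.mul_conj, Complex.normSq_eq_norm_sq,
          norm_char_of_coprime χ' (Nat.Coprime.coprime_mul_left_right hn)]
        simp
      have h6 : conj (χ' (n : ZMod N')) ≠ 0 := right_ne_zero_of_mul (by rw [h5]; exact one_ne_zero)
      exact mul_right_cancel₀ h6 (by rw [← h4, h5])
    have h3 : MV (fun p => (ψ ((p : ℕ) : ZMod (N * N'))).re) 0 :=
      ⟨⟨1, fun p => (Complex.abs_re_le_norm _).trans (ψ.norm_le_one _)⟩, LA_char ψ hne⟩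
    refine h3.congr (bound_pair χ χ') (smallPrimes (N * N' + 1)) fun p hp => ?_
    rw [hval p (coprime_of_big hNN hp)]

/-- **A complex Bessel inequality.** -/
theorem bessel_complex {ι : Type*} [DecidableEq ι] (s : Finset ι) (T : ι → Nat.Primes → ℂ)
    (c : ι → ℝ) (hc : ∀ k ∈ s, 0 < c k)
    (horth : ∀ k ∈ s, ∀ l ∈ s, MV (fun p => (T k p * conj (T l p)).re) (if k = l then c k else 0))
    (x : Nat.Primes → ℂ) {b : ℝ} (hx : ∀ p, ‖x p‖ ≤ b) (μ : ι → ℝ)
    (h : ∀ k ∈ s, MV (fun p => (x p * T k p).re) (-(μ k))) :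
    ∑ k ∈ s, μ k ^ 2 / c k ≤ b ^ 2 := by
  classical
  set w : ι → ℝ := fun k => μ k / c k with hw
  set N := ∑ k ∈ s, μ k ^ 2 / c k with hN
  have h1 : MV (fun p => ∑ k ∈ s, w k * (x p * T k p).re) (-N) := by
    have h2 := MV.sum s fun k hk => (h k hk).const_mul (w k)
    have h3 : ∑ k ∈ s, w k * -(μ k) = -N := by
      rw [hN, ← Finset.sum_neg_distrib]
      refine Finset.sum_congr rfl fun k _ => ?_
      simp only [hw]
      ring
    rwa [h3] at h2
  have h2 : MV (fun p => ∑ k ∈ s, ∑ l ∈ s, w k * w l * (T k p * conj (T l p)).re) N := by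
    have h3 := MV.sum s fun k hk => MV.sum s fun l hl => (horth k hk l hl).const_mul (w k * w l)
    have h4 : ∑ k ∈ s, ∑ l ∈ s, w k * w l * (if k = l then c k else 0) = N := by
      rw [hN]
      refine Finset.sum_congr rfl fun k hk => ?_
      simp only [mul_ite, mul_zero]
      rw [Finset.sum_ite_eq, if_pos hk]
      have := (hc k hk).ne'
      simp only [hw]
      field_simp
    rwa [h4] at h3
  have h3 := ((MV.const (b ^ 2)).add (h1.const_mul 2)).add h2
  have h4 := h3.nonneg ∅ (by
    intro p _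
    set W : ℂ := ∑ k ∈ s, (w k : ℂ) * T k p with hW
    have e1 : ∑ k ∈ s, w k * (x p * T k p).re = (x p * W).re := by
      rw [hW, Finset.mul_sum, Complex.re_sum]
      refine Finset.sum_congr rfl fun k _ => ?_
      have : x p * ((w k : ℂ) * T k p) = (w k : ℂ) * (x p * T k p) := by ring
      rw [this, Complex.re_ofReal_mul]
    have e2 : ∑ k ∈ s, ∑ l ∈ s, w k * w l * (T k p * conj (T l p)).re = ‖W‖ ^ 2 := by
      have e3 : ((‖W‖ ^ 2 : ℝ) : ℂ) = W * conj W := by
        rw [Complex.mul_conj, Complex.normSq_eq_norm_sq]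
      have e4 : ‖W‖ ^ 2 = (W * conj W).re := by rw [← e3, Complex.ofReal_re]
      rw [e4, hW, map_sum, Finset.sum_mul_sum, Complex.re_sum]
      refine Finset.sum_congr rfl fun k _ => ?_
      rw [Complex.re_sum]
      refine Finset.sum_congr rfl fun l _ => ?_
      have : (w k : ℂ) * T k p * conj ((w l : ℂ) * T l p) =
          ((w k * w l : ℝ) : ℂ) * (T k p * conj (T l p)) := by
        rw [map_mul, Complex.conj_ofReal]
        push_cast
        ring
      rw [this, Complex.re_ofReal_mul]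
    rw [e1, e2]
    have h5 : -(‖x p‖ * ‖W‖) ≤ (x p * W).re := by
      have := Complex.abs_re_le_norm (x p * W)
      rw [norm_mul] at this
      exact (abs_le.mp this).1
    have h6 := hx p
    have h7 : 0 ≤ ‖W‖ := norm_nonneg _
    have h8 : 0 ≤ ‖x p‖ := norm_nonneg _
    nlinarith [sq_nonneg (‖x p‖ - ‖W‖)])
  linarith

end Pool.Agent.Work.MP_2b9663_nt
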