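import Pool.Agent.Work.MP_2b9663_nt.Rho

set_option autoImplicit false

/-!
The quadratic character of `K[X]` attached to `f`.
-/

namespace Pool.Agent.Work.MP_2b9663_nt

open Finset Polynomial

section

variable {K : Type*} [Field K] [Fintype K] [DecidableEq K]

/-- the character `h ↦ (f / h)` -/
noncomputable def chi (f h : K[X]) : ℤ := quadraticChar K (rho h f)

lemma chi_mul (f : K[X]) {g h : K[X]} (hg : g ≠ 0) (hh : h ≠ 0) :
    chi f (g * h) = chi f g * chi f h := by
  unfold chi
  rw [rho_mul_left hg hh, map_mul]

lemma chi_one (f : K[X]) : chi f 1 = 1 := by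
  unfold chi
  have h : rho (1 : K[X]) f = 1 := by
    unfold rho
    simp
  rw [h, map_one]

lemma chi_pow (f : K[X]) {g : K[X]} (hg : g ≠ 0) (n : ℕ) : chi f (g ^ n) = chi f g ^ n := by
  induction n with
  | zero => rw [pow_zero, pow_zero, chi_one]
  | succ n ih => rw [pow_succ, pow_succ, chi_mul f (pow_ne_zero _ hg) hg, ih]

/-- reciprocity -/
lemma rho_comm {f h : K[X]} (hf : f ≠ 0) (hh : h.Monic) :
    rho h f = ((-1) ^ f.natDegree * f.leadingCoeff) ^ h.natDegree * rho f h := by
  have h1 := resultant_comm h f h.natDegree f.natDegree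
  rw [rho_spec hh.ne_zero f le_rfl, rho_spec hf h le_rfl, hh.leadingCoeff, one_pow, one_mul] at h1
  rw [h1, mul_pow, ← pow_mul, mul_comm h.natDegree]
  ring

variable {E : Type*} [Field E] [Fintype E] [DecidableEq E] [Algebra K E]

/-- The quadratic character of a value of `f` in an extension. -/
lemma quadraticChar_aeval (hK : ringChar K ≠ 2) {k : ℕ} (hE : Fintype.card E = Fintype.card K ^ k)
    {P : K[X]} (hP : Irreducible P) {x : E} (hx : aeval x P = 0) (hk : 0 < k) (f : K[X]) :
    quadraticChar E (aeval x f) = chi f P ^ (k / P.natDegree) := by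
  have hdk : P.natDegree ∣ k := by
    rw [← frob_fixed_iff (E := E) hP hx, ← hE]
    exact FiniteField.pow_card x
  have hd0 : 0 < P.natDegree := hP.natDegree_pos
  set d := P.natDegree with hd
  obtain ⟨e, he⟩ := hdk
  have he0 : 0 < e := by
    rcases Nat.eq_zero_or_pos e with h | h
    · rw [h, mul_zero] at he; omega
    · exact h
  have hke : k / d = e := by rw [he, Nat.mul_div_cancel_left _ hd0]
  rw [hke]
  have hrho := rho_irreducible (E := E) hP hx f
  set y := aeval x f with hy
  have hyfix : y ^ (Fintype.card K ^ d) = y := by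
    rw [hy, ← aeval_frob]
    congr 1
    rw [(frob_fixed_iff (E := E) hP hx d).mpr dvd_rfl]
  have hE2 : ringChar E ≠ 2 := by rw [← Algebra.ringChar_eq K E]; exact hK
  have hsum0 : ∑ i ∈ range d, Fintype.card K ^ i ≠ 0 := by
    have : Fintype.card K ^ 0 ≤ ∑ i ∈ range d, Fintype.card K ^ i :=
      Finset.single_le_sum (f := fun i => Fintype.card K ^ i) (fun _ _ => Nat.zero_le _)
        (Finset.mem_range.mpr hd0)
    rw [pow_zero] at this
    omega
  by_cases hy0 : y = 0
  · rw [hy0, zero_pow hsum0] at hrho
    have h1 : rho P f = 0 := by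
      rw [← map_zero (algebraMap K E)] at hrho
      exact (algebraMap K E).injective hrho
    rw [hy0, quadraticChar_zero, chi, h1, quadraticChar_zero, zero_pow he0.ne']
  · have hrho0 : rho P f ≠ 0 := by
      intro h
      rw [h, map_zero] at hrho
      exact pow_ne_zero _ hy0 hrho.symm
    -- values in `E`
    have hu : ((chi f P : ℤ) : E) = y ^ ((∑ i ∈ range d, Fintype.card K ^ i) * (Fintype.card K / 2)) := by
      have := congrArg (algebraMap K E) (quadraticChar_eq_pow_of_char_ne_two' hK (rho P f))
      rw [map_pow, hrho, map_intCast, ← pow_mul] at this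
      exact this
    have hv := quadraticChar_eq_pow_of_char_ne_two' hE2 y
    obtain ⟨r, hr⟩ : ∃ r, Fintype.card K = 2 * r + 1 :=
      ⟨Fintype.card K / 2, by have := FiniteField.odd_card_of_char_ne_two hK; omega⟩
    have hr2 : Fintype.card K / 2 = r := by omega
    rw [hr2] at hu
    set s := ∑ i ∈ range d, Fintype.card K ^ i with hs
    have hQ : Fintype.card K ^ d = 2 * (s * r) + 1 := by
      have h1 : ∀ d, Fintype.card K ^ d = 2 * ((∑ i ∈ range d, Fintype.card K ^ i) * r) + 1 := by
        intro d
        induction d with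
        | zero => simp
        | succ d ih =>
          rw [Finset.sum_range_succ, pow_succ]
          have h9 : Fintype.card K ^ d * Fintype.card K = Fintype.card K ^ d * (2 * r + 1) :=
            congrArg _ hr
          rw [h9]
          calc Fintype.card K ^ d * (2 * r + 1) =
                2 * (Fintype.card K ^ d * r) + Fintype.card K ^ d := by ring
            _ = 2 * (Fintype.card K ^ d * r) +
                (2 * ((∑ i ∈ range d, Fintype.card K ^ i) * r) + 1) :=
                congrArg (fun z => 2 * (Fintype.card K ^ d * r) + z) ih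
            _ = _ := by ring
      exact h1 d
    have hstep : ∀ e, y ^ ((Fintype.card K ^ d) ^ e / 2) = (y ^ (s * r)) ^ e := by
      intro e
      induction e with
      | zero => simp
      | succ e ih =>
        obtain ⟨a, ha⟩ : ∃ a, (Fintype.card K ^ d) ^ e = 2 * a + 1 := by
          have : Odd ((Fintype.card K ^ d) ^ e) := by
            apply Odd.pow
            rw [hQ]
            exact odd_two_mul_add_one _
          obtain ⟨a, ha⟩ := this
          exact ⟨a, ha⟩
        have ha2 : (Fintype.card K ^ d) ^ e / 2 = a := by omega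
        rw [ha2] at ih
        have h1 : (Fintype.card K ^ d) ^ (e + 1) / 2 = (Fintype.card K ^ d) * a + s * r := by
          rw [pow_succ, ha]
          nth_rewrite 1 [hQ]
          have : (2 * a + 1) * (2 * (s * r) + 1) = 2 * ((2 * (s * r) + 1) * a + s * r) + 1 := by ring
          rw [this, ← hQ]
          omega
        rw [h1, pow_add, pow_mul, hyfix, ih, pow_succ]
    have hfin : ((quadraticChar E y : ℤ) : E) = ((chi f P ^ e : ℤ) : E) := by
      rw [hv, hE, he, pow_mul, hstep, Int.cast_pow, hu]
    have hchi : chi f P = 1 ∨ chi f P = -1 := quadraticChar_dichotomy hrho0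
    have hchie : chi f P ^ e = 1 ∨ chi f P ^ e = -1 := by
      rcases hchi with h | h
      · left; rw [h, one_pow]
      · rw [h]
        exact neg_one_pow_eq_or ℤ e
    have h20 : (2 : E) ≠ 0 := Ring.two_ne_zero hE2
    rcases quadraticChar_dichotomy hy0 with h6 | h6 <;>
      rcases hchie with h7 | h7 <;> rw [h6, h7] at hfin ⊢
    · exfalso
      push_cast at hfin
      exact h20 (by linear_combination hfin)
    · exfalso
      push_cast at hfin
      exact h20 (by linear_combination -hfin)

end

section

variable {K : Type*} [Field K] [Fintype K] [DecidableEq K]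

/-- Some polynomial has a nonsquare product of values at the roots of `f`. -/
lemma exists_nonsquare (hK : ringChar K ≠ 2) {f : K[X]} (hf : Squarefree f) (hf1 : 1 ≤ f.natDegree) :
    ∃ v : K[X], quadraticChar K (rho f v) = -1 := by
  classical
  have hf0 : f ≠ 0 := hf.ne_zero
  have hfu : ¬ IsUnit f := by
    intro h
    have := natDegree_eq_zero_of_isUnit h
    omega
  obtain ⟨π, hπ, g, hg⟩ := WfDvdMonoid.exists_irreducible_factor hfu hf0
  have hg0 : g ≠ 0 := by
    rintro rfl
    rw [mul_zero] at hg
    exact hf0 hg
  have hcop : IsCoprime π g := by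
    rw [Irreducible.coprime_iff_not_dvd hπ]
    rintro ⟨w, hw⟩
    have : π * π ∣ f := ⟨w, by rw [hg, hw]; ring⟩
    exact hπ.not_isUnit (hf π this)
  -- the residue field
  have : Fact (Irreducible π) := ⟨hπ⟩
  set E := AdjoinRoot π with hEdef
  have hfinE : Module.Finite K E := (AdjoinRoot.powerBasis hπ.ne_zero).finite
  have : Finite E := Module.finite_of_finite K
  let : Fintype E := Fintype.ofFinite E
  have hE2 : ringChar E ≠ 2 := by rw [← Algebra.ringChar_eq K E]; exact hK
  obtain ⟨y, hy⟩ := quadraticChar_exists_neg_one hE2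
  obtain ⟨w, hw⟩ := AdjoinRoot.mk_surjective y
  have hroot : aeval (AdjoinRoot.root π) π = 0 := by
    rw [AdjoinRoot.aeval_eq, AdjoinRoot.mk_self]
  have hyw : aeval (AdjoinRoot.root π) w = y := by
    rw [AdjoinRoot.aeval_eq, hw]
  have hcard : Fintype.card E = Fintype.card K ^ π.natDegree := by
    rw [Module.card_eq_pow_finrank (K := K) (V := E), (AdjoinRoot.powerBasis hπ.ne_zero).finrank,
      AdjoinRoot.powerBasis_dim]
  have h1 := quadraticChar_aeval (E := E) hK hcard hπ hroot hπ.natDegree_pos w
  rw [hyw, hy, Nat.div_self hπ.natDegree_pos, pow_one] at h1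
  obtain ⟨a, b, hab⟩ := hcop
  refine ⟨w * (b * g) + a * π, ?_⟩
  have h2 : rho f (w * (b * g) + a * π) = rho π w := by
    rw [hg, rho_mul_left hπ.ne_zero hg0]
    have h3 : rho π (w * (b * g) + a * π) = rho π w := by
      apply rho_congr hπ.ne_zero
      refine ⟨a - w * a, ?_⟩
      linear_combination w * hab
    have h4 : rho g (w * (b * g) + a * π) = rho g 1 := by
      apply rho_congr hg0
      refine ⟨w * b - b, ?_⟩
      linear_combination hab
    rw [h3, h4, rho_one hg0, mul_one]
  rw [h2]
  exact h1.symm

end

end Pool.Agent.Work.MP_2b9663_nt
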