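import Mathlib

set_option autoImplicit false

/-!
Products of hyperelliptic curves over `ℚ`, the traces of Frobenius on their cohomology, and the
`L`-functions attached to them.
-/

namespace Pool.Agent.Work.MP_2b9663_nt

open Polynomial

/-- `f` defines a hyperelliptic curve `y ^ 2 = f(x)` over `ℚ` (the smooth projective model is
meant): `f` is not constant and squarefree over `ℚ`. -/
def IsCurve (f : ℤ[X]) : Prop := 1 ≤ f.natDegree ∧ Squarefree (f.map (Int.castRingHom ℚ))

/-- The genus of `D y ^ 2 = f(x)`. -/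
def genus (f : ℤ[X]) : ℕ := (f.natDegree - 1) / 2

/-- The number of `K`-points of the smooth projective model of `D y ^ 2 = f(x)` over a finite
field `K` at which this equation has good reduction: the affine points and the points at
infinity. -/
noncomputable def numPoints (f : ℤ[X]) (D : ℤ) (K : Type) [Field K] : ℕ :=
  Nat.card {z : K × K // (D : K) * z.2 ^ 2 = aeval z.1 f} +
    if Odd f.natDegree then 1 else Nat.card {w : K // (D : K) * w ^ 2 = (f.leadingCoeff : K)}

/-- The trace of the Frobenius of `K` on `H ^ 1` of the curve `D y ^ 2 = f(x)`. -/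
noncomputable def traceOne (f : ℤ[X]) (D : ℤ) (K : Type) [Field K] : ℤ :=
  (Nat.card K : ℤ) + 1 - numPoints f D K

/-- The trace of the Frobenius of `K` on `H ^ i` of the product of the curves
`D j * y ^ 2 = f j (x)`: by the Kuenneth formula the coefficient of `X ^ i` in
`∏ (1 + a j X + q X ^ 2)`, `a j` being the trace on `H ^ 1` of the `j`-th curve. -/
noncomputable def trace {r : ℕ} (f : Fin r → ℤ[X]) (D : Fin r → ℤ) (i : ℕ) (K : Type) [Field K] :
    ℤ :=
  (∏ j, (1 + C (traceOne (f j) (D j) K) * X + C (Nat.card K : ℤ) * X ^ 2)).coeff i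

/-- The `i`-th Betti number of the product of the curves: the coefficient of `X ^ i` in
`∏ (1 + 2 g j * X + X ^ 2)`, `g j` being the genus of the `j`-th curve. -/
noncomputable def betti {r : ℕ} (f : Fin r → ℤ[X]) (i : ℕ) : ℕ :=
  (∏ j, (1 + C (2 * genus (f j)) * X + X ^ 2 : ℕ[X])).coeff i

/-- The dimension of the part of `H ^ i` of a product of `r` curves that comes from `H ^ 0` and
`H ^ 2` of the factors: the binomial coefficient `r` over `i / 2` if `i` is even, and `0` if `i`
is odd. -/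
def fixedPart (r i : ℕ) : ℕ := if Even i then r.choose (i / 2) else 0

/-- The vectors `D` and `D'` of nonzero integers are independent in degree `i`: for every
nonempty set `S` of factors such that the product of the `H ^ 1` of the factors in `S` and of
`H ^ 0` or `H ^ 2` of the others occurs in `H ^ i`, the product of all `D j * D' j` with
`j ∈ S` is not a square. -/
def Independent {r : ℕ} (i : ℕ) (D D' : Fin r → ℤ) : Prop :=
  ∀ S : Finset (Fin r), S.Nonempty → S.card ≤ i → Even (i - S.card) →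
    (i - S.card) / 2 ≤ r - S.card → ¬ IsSquare (∏ j ∈ S, D j * D' j)

/-- All the equations `D j * y ^ 2 = f j (x)` have good reduction at `p`. -/
def Good {r : ℕ} (f : Fin r → ℤ[X]) (D : Fin r → ℤ) (p : Nat.Primes) : Prop :=
  (p : ℕ) ≠ 2 ∧ ∀ j, ¬ (((p : ℕ) : ℤ) ∣ D j) ∧ ¬ (((p : ℕ) : ℤ) ∣ (f j).leadingCoeff) ∧
    Squarefree ((f j).map (Int.castRingHom (ZMod p)))

/-- The field with `p ^ k` elements. -/
abbrev Fq (p : Nat.Primes) (k : ℕ) : Type := @GaloisField p ⟨p.2⟩ k

/-- The logarithm `∑ k ≥ 1, t k * p ^ (-k s) / k` of the Euler factor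
`det (1 - Frob * p ^ (-s))⁻¹`, where `t k` is the trace of the `k`-th power of Frobenius. -/
noncomputable def logFactor (t : ℕ → ℂ) (p : Nat.Primes) (s : ℂ) : ℂ :=
  ∑' k : ℕ, t (k + 1) * ((p : ℕ) : ℂ) ^ (-(((k + 1 : ℕ) : ℂ) * s)) / ((k + 1 : ℕ) : ℂ)

/-- `F` agrees for `Re s > i / 2 + 1` with an Euler product whose factor at every prime outside
a finite set `T` of primes, containing all the primes not in `G`, is the one attached to the
traces `t p k`, and whose factors at the primes in `T` are `Q p (p ^ (-s))⁻¹`, with arbitrary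
polynomials `Q p` not vanishing at `p ^ (-(i / 2 + 1))`. -/
def IsEuler (G : Nat.Primes → Prop) (t : Nat.Primes → ℕ → ℂ) (i : ℕ) (F : ℂ → ℂ) : Prop :=
  ∃ (T : Finset Nat.Primes) (Q : Nat.Primes → ℂ[X]), (∀ p, ¬ G p → p ∈ T) ∧
    (∀ p ∈ T, (Q p).eval (((p : ℕ) : ℂ) ^ (-((i : ℂ) / 2 + 1))) ≠ 0) ∧
    ∀ s : ℂ, (i : ℝ) / 2 + 1 < s.re →
      F s = (∏ p ∈ T, ((Q p).eval (((p : ℕ) : ℂ) ^ (-s)))⁻¹) *
        Complex.exp (∑' p : {p : Nat.Primes // p ∉ T}, logFactor (t p) p s)

/-- `F` is a meromorphic continuation of the `L`-function of `H ^ i` of the product of the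
curves `D j * y ^ 2 = f j (x)` to a neighbourhood of `s₀ = i / 2 + 1`. -/
def IsContinuation {r : ℕ} (f : Fin r → ℤ[X]) (D : Fin r → ℤ) (i : ℕ) (F : ℂ → ℂ) : Prop :=
  IsEuler (Good f D) (fun p k => (trace f D i (Fq p k) : ℂ)) i F ∧
    MeromorphicAt F ((i : ℂ) / 2 + 1)

/-- The traces `t p k` satisfy the Weil bound of weight `i` and dimension `b`:
`|t p k| ≤ b * p ^ (k i / 2)` for the primes in `G` and all `k ≥ 1`. -/
def WeilBound (G : Nat.Primes → Prop) (t : Nat.Primes → ℕ → ℂ) (i : ℕ) (b : ℝ) : Prop :=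
  ∀ p, G p → ∀ k : ℕ, k ≠ 0 → ‖t p k‖ ≤ b * Real.sqrt (((p : ℕ) : ℝ) ^ k) ^ i

/-- `F` is a meromorphic continuation to a neighbourhood of `s₀ = i / 2 + 1` of the product, over
the Dirichlet characters `χ` in `Φ` modulo `N`, of the `L`-functions of the traces `t` twisted by
`χ`. If `Φ` is the group of characters of an abelian number field `K` and `t` belongs to
`H ^ i (X)`, this is the `L`-function of `H ^ i (X × Spec K)`. -/
def IsContinuationAb (G : Nat.Primes → Prop) (t : Nat.Primes → ℕ → ℂ) (i : ℕ) {N : ℕ}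
    (Φ : Finset (DirichletCharacter ℂ N)) (F : ℂ → ℂ) : Prop :=
  IsEuler (fun p => G p ∧ ¬ ((p : ℕ) ∣ N))
    (fun p k => (∑ χ ∈ Φ, χ ((p : ℕ) : ZMod N) ^ k) * t p k) i F ∧
    MeromorphicAt F ((i : ℂ) / 2 + 1)

/-- The only Dirichlet character that occurs, up to the choice of the modulus, in both `Φ` and
`Φ'` is the trivial one. -/
def OnlyTrivialCommon {N N' : ℕ} (Φ : Finset (DirichletCharacter ℂ N))
    (Φ' : Finset (DirichletCharacter ℂ N')) : Prop :=
  ∀ χ ∈ Φ, ∀ χ' ∈ Φ', (∀ n : ℕ, n.Coprime (N * N') → χ (n : ZMod N) = χ' (n : ZMod N')) → χ = 1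

end Pool.Agent.Work.MP_2b9663_nt
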