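import Pool.Agent.Work.MP_2b9663_nt.Defs

set_option autoImplicit false

/-!
Products of hyperelliptic curves over `ℚ`, twisted over a number field `K`, as varieties over `ℚ`.
-/

namespace Pool.Agent.Work.MP_2b9663_nt

open Polynomial NumberField

/-- The number of `κ`-points of the smooth projective model of `d y ^ 2 = f(x)`, `d ∈ κ`, over a
finite field `κ` at which this equation has good reduction: the affine points and the points at
infinity. -/
noncomputable def numPointsAt (f : ℤ[X]) {κ : Type} [Field κ] (d : κ) : ℕ :=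
  Nat.card {z : κ × κ // d * z.2 ^ 2 = aeval z.1 f} +
    if Odd f.natDegree then 1 else Nat.card {w : κ // d * w ^ 2 = (f.leadingCoeff : κ)}

/-- The trace of the Frobenius of `κ` on `H ^ 1` of the curve `d y ^ 2 = f(x)`. -/
noncomputable def traceOneAt (f : ℤ[X]) {κ : Type} [Field κ] (d : κ) : ℤ :=
  (Nat.card κ : ℤ) + 1 - numPointsAt f d

/-- The trace of the Frobenius of `κ` on `H ^ i` of the product of the curves
`d j * y ^ 2 = f j (x)` (Kuenneth formula). -/
noncomputable def traceAt {r : ℕ} (f : Fin r → ℤ[X]) (i : ℕ) {κ : Type} [Field κ] (d : Fin r → κ) :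
    ℤ :=
  (∏ j, (1 + C (traceOneAt (f j) (d j)) * X + C (Nat.card κ : ℤ) * X ^ 2)).coeff i

/-- Let `X_δ` be the product over `K` of the curves `δ j * y ^ 2 = f j (x)`, regarded as a variety
over `ℚ`. The trace of the Frobenius of `κ` on `H ^ i (X_δ)`: the sum, over the homomorphisms
`φ` from `𝓞 K` to `κ`, of the traces for the fibres of `X_δ` at `φ`. -/
noncomputable def traceK {r : ℕ} (f : Fin r → ℤ[X]) (K : Type) [Field K] (δ : Fin r → 𝓞 K)
    (i : ℕ) (κ : Type) [Field κ] : ℤ :=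
  ∑ᶠ φ : 𝓞 K →+* κ, traceAt f i (fun j => φ (δ j))

/-- `K` is unramified at `p` and all the equations `δ j * y ^ 2 = f j (x)` have good reduction at
all the primes of `K` above `p`. -/
def GoodK {r : ℕ} (f : Fin r → ℤ[X]) (K : Type) [Field K] [NumberField K] (δ : Fin r → 𝓞 K)
    (p : Nat.Primes) : Prop :=
  (p : ℕ) ≠ 2 ∧ ¬ (((p : ℕ) : ℤ) ∣ discr K) ∧ ∀ j, ¬ ((p : ℕ) ∣ Ideal.absNorm (Ideal.span {δ j})) ∧
    ¬ (((p : ℕ) : ℤ) ∣ (f j).leadingCoeff) ∧ Squarefree ((f j).map (Int.castRingHom (ZMod p)))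

/-- `F` is a meromorphic continuation of the `L`-function of `H ^ i (X_δ)`, `X_δ` regarded as a
variety over `ℚ`, to a neighbourhood of `s₀ = i / 2 + 1`. -/
def IsContinuationK {r : ℕ} (f : Fin r → ℤ[X]) (K : Type) [Field K] [NumberField K]
    (δ : Fin r → 𝓞 K) (i : ℕ) (F : ℂ → ℂ) : Prop :=
  IsEuler (GoodK f K δ) (fun p k => (traceK f K δ i (Fq p k) : ℂ)) i F ∧
    MeromorphicAt F ((i : ℂ) / 2 + 1)

/-- For every nonempty set `S` of factors such that the product of the `H ^ 1` of the factors in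
`S` and of `H ^ 0` or `H ^ 2` of the others occurs in `H ^ i`, the product of `δ j` and
`σ (δ' j)` over all `j ∈ S` is not a square in `K`. -/
def IndependentK {r : ℕ} (i : ℕ) {K : Type} [Field K] [NumberField K] (δ δ' : Fin r → 𝓞 K)
    (σ : K ≃ₐ[ℚ] K) : Prop :=
  ∀ S : Finset (Fin r), S.Nonempty → S.card ≤ i → Even (i - S.card) →
    (i - S.card) / 2 ≤ r - S.card → ¬ IsSquare ((∏ j ∈ S, (δ j : K)) * σ (∏ j ∈ S, (δ' j : K)))

end Pool.Agent.Work.MP_2b9663_nt
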