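import Pool.Agent.Work.MP_2b9663_nt.Frob
import Pool.Agent.Work.MP_2b9663_nt.MV

set_option autoImplicit false

/-!
The theorem of Frobenius on the density of divisions.
-/

namespace Pool.Agent.Work.MP_2b9663_nt

open NumberField

section

variable (L : Type) [Field L] [NumberField L] [IsGalois ℚ L]

/-- a choice of Frobenius elements -/
noncomputable def frob (p : Nat.Primes) : L ≃ₐ[ℚ] L :=
  (exists_frobData (L := L) (p : ℕ) (hp := ⟨p.2⟩)).choose

variable {L}

lemma frob_spec (p : Nat.Primes) : ∃ P : Ideal (𝓞 L), FrobData (p : ℕ) (frob L p) P :=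
  (exists_frobData (L := L) (p : ℕ) (hp := ⟨p.2⟩)).choose_spec

lemma idc_frob (K : IntermediateField ℚ L) : ∃ T : Finset Nat.Primes, ∀ p, p ∉ T →
    idc K p = pc K.fixingSubgroup (frob L p) := by
  obtain ⟨D, hD0, hD⟩ := idc_eq_pc K
  refine ⟨smallPrimes (D + 1), fun p hp => ?_⟩
  obtain ⟨P, hP⟩ := frob_spec (L := L) p
  exact hD p ⟨p.2⟩ _ P hP (not_dvd_of_big hD0 hp)

lemma BD_frob (F : (L ≃ₐ[ℚ] L) → ℝ) : BD (fun p => F (frob L p)) := by
  refine ⟨∑ g, |F g|, fun p => ?_⟩
  exact Finset.single_le_sum (f := fun g => |F g|) (fun g _ => abs_nonneg _) (Finset.mem_univ _)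

/-- **The density theorem of Frobenius** -/
theorem density {F : (L ≃ₐ[ℚ] L) → ℝ} (hF : IsRat F) :
    MV (fun p => F (frob L p)) ((∑ g, F g) / Fintype.card (L ≃ₐ[ℚ] L)) := by
  have hc : (Fintype.card (L ≃ₐ[ℚ] L) : ℝ) ≠ 0 := by exact_mod_cast Fintype.card_ne_zero
  have h1 := artin hF
  clear hF
  unfold permSpan at h1
  induction h1 using Submodule.span_induction with
  | mem x hx =>
    obtain ⟨H, rfl⟩ := hx
    beta_reduce
    rw [sum_pc, div_self hc]
    obtain ⟨T, hT⟩ := idc_frob (IntermediateField.fixedField H)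
    rw [IntermediateField.fixingSubgroup_fixedField] at hT
    refine (MV_idc (IntermediateField.fixedField H)).congr (BD_frob fun g => (pc H g : ℝ)) T
      fun p hp => ?_
    rw [hT p hp]
  | zero =>
    simpa using MV.zero
  | add x y _ _ hx hy =>
    have h2 := (hx).add (hy)
    simp only [Pi.add_apply]
    rw [Finset.sum_add_distrib, add_div]
    exact h2
  | smul a x _ hx =>
    have h2 := hx.const_mul a
    simp only [Pi.smul_apply, smul_eq_mul]
    rw [← Finset.mul_sum, mul_div_assoc]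
    exact h2

end

end Pool.Agent.Work.MP_2b9663_nt
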