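import Pool.Agent.Work.MP_2b9663_nt.Master

set_option autoImplicit false

/-!
Subfields of a Galois number field inside an algebraic closure of `ℚ`.
-/

namespace Pool.Agent.Work.MP_2b9663_nt

open NumberField

section

variable {L : Type} [Field L] [NumberField L] [IsGalois ℚ L]

lemma fixEmb_eq_pc (K : IntermediateField ℚ L) (g : L ≃ₐ[ℚ] L) :
    fixEmb K L g = pc K.fixingSubgroup g := by
  set H := K.fixingSubgroup with hH
  have hmem : ∀ x x' : L ≃ₐ[ℚ] L, x⁻¹ * x' ∈ H ↔ ∀ z : K, x (z : L) = x' (z : L) := by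
    intro x x'
    rw [hH, IntermediateField.mem_fixingSubgroup_iff]
    have h1 : ∀ z : L, (x⁻¹ * x') z = z ↔ x z = x' z := by
      intro z
      rw [AlgEquiv.mul_apply]
      constructor
      · intro h
        have h2 : x (x⁻¹ (x' z)) = x' z := by
          rw [← AlgEquiv.mul_apply, mul_inv_cancel]
          rfl
        rw [← h2, h]
      · intro h
        rw [← h, ← AlgEquiv.mul_apply, inv_mul_cancel]
        rfl
    constructor
    · intro h z
      exact (h1 z).mp (h z z.2)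
    · intro h z hz
      exact (h1 z).mpr (h ⟨z, hz⟩)
  let r : (L ≃ₐ[ℚ] L) → (K →+* L) := fun x => (x : L →+* L).comp (algebraMap K L)
  have hr : ∀ x (z : K), r x z = x (z : L) := fun x z => rfl
  let Ξ : (L ≃ₐ[ℚ] L) ⧸ H → (K →+* L) := Quotient.lift r fun x x' hxx => by
    have h1 : x⁻¹ * x' ∈ H := QuotientGroup.leftRel_apply.mp hxx
    refine RingHom.ext fun z => ?_
    rw [hr, hr, (hmem x x').mp h1]
  have hΞ : ∀ x : L ≃ₐ[ℚ] L, Ξ (x : (L ≃ₐ[ℚ] L) ⧸ H) = r x := fun x => rfl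
  have hinj : Function.Injective Ξ := by
    intro a b hab
    obtain ⟨x, rfl⟩ := QuotientGroup.mk_surjective a
    obtain ⟨x', rfl⟩ := QuotientGroup.mk_surjective b
    rw [hΞ, hΞ] at hab
    rw [QuotientGroup.eq, hmem]
    exact fun z => DFunLike.congr_fun hab z
  have hfin : Finite (K →+* L) := Finite.of_equiv _ (RingHom.equivRatAlgHom K L).symm
  have hcard : Nat.card (K →+* L) ≤ Nat.card ((L ≃ₐ[ℚ] L) ⧸ H) := by
    have h1 : Nat.card ((L ≃ₐ[ℚ] L) ⧸ H) = Module.finrank ℚ K := index_fixing K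
    rw [h1, Nat.card_congr (RingHom.equivRatAlgHom K L)]
    exact card_algHom_le_finrank ℚ K L
  have hbij : Function.Bijective Ξ := hinj.bijective_of_nat_card_le hcard
  have hg : ∀ a z, Ξ (g • a) z = g (Ξ a z) := by
    intro a z
    obtain ⟨x, rfl⟩ := QuotientGroup.mk_surjective a
    rfl
  unfold fixEmb pc
  refine (Nat.card_congr (Equiv.ofBijective
    (fun a : MulAction.fixedBy ((L ≃ₐ[ℚ] L) ⧸ H) g => (⟨Ξ a.1, fun z => ?_⟩ :
      {σ : K →+* L // ∀ x, g (σ x) = σ x})) ⟨?_, ?_⟩)).symm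
  · have h1 : g • a.1 = a.1 := a.2
    rw [← hg, h1]
  · intro a b hab
    have h1 : Ξ a.1 = Ξ b.1 := congrArg Subtype.val hab
    exact Subtype.ext (hinj h1)
  · rintro ⟨σ, hσ⟩
    obtain ⟨a, rfl⟩ := hbij.2 σ
    refine ⟨⟨a, ?_⟩, rfl⟩
    change g • a = a
    apply hinj
    refine RingHom.ext fun z => ?_
    rw [hg, hσ]

omit [IsGalois ℚ L] in
lemma fixEmb_congr {K K' : Type} [Field K] [Field K'] (e : K ≃+* K') (g : L ≃ₐ[ℚ] L) :
    fixEmb K L g = fixEmb K' L g := by
  unfold fixEmb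
  refine Nat.card_congr ⟨fun σ => ⟨σ.1.comp (e.symm : K' →+* K), fun x => σ.2 _⟩,
    fun σ => ⟨σ.1.comp (e : K →+* K'), fun x => σ.2 _⟩, fun σ => ?_, fun σ => ?_⟩
  · apply Subtype.ext
    refine RingHom.ext fun x => ?_
    simp
  · apply Subtype.ext
    refine RingHom.ext fun x => ?_
    simp

end

lemma idc_congr {K K' : Type} [Field K] [NumberField K] [Field K'] [NumberField K'] (e : K ≃+* K')
    (p : ℕ) [hp : Fact p.Prime] : idc K p = idc K' p := by
  rw [← card_homs_eq (κ := ZMod p) (Nat.card_zmod p) K,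
    ← card_homs_eq (κ := ZMod p) (Nat.card_zmod p) K']
  have e' : 𝓞 K ≃+* 𝓞 K' := RingOfIntegers.mapRingEquiv e
  refine Nat.card_congr ⟨fun σ => σ.comp (e'.symm : 𝓞 K' →+* 𝓞 K),
    fun σ => σ.comp (e' : 𝓞 K →+* 𝓞 K'), fun σ => ?_, fun σ => ?_⟩
  · refine RingHom.ext fun x => ?_
    simp
  · refine RingHom.ext fun x => ?_
    simp

section

variable {Ω : Type} [Field Ω] [CharZero Ω]

/-- the subfield `K ∩ M` of `M` -/
noncomputable def subf (M K : IntermediateField ℚ Ω) : IntermediateField ℚ M :=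
  Subfield.toIntermediateField (K.toSubfield.comap (M.val : M →+* Ω)) fun r => by
    change M.val (algebraMap ℚ M r) ∈ K
    rw [eq_ratCast, map_ratCast, ← eq_ratCast (algebraMap ℚ Ω)]
    exact K.algebraMap_mem r

lemma mem_subf (M K : IntermediateField ℚ Ω) (x : M) : x ∈ subf M K ↔ (x : Ω) ∈ K := Iff.rfl

/-- a subfield of `M` as a subfield of `M` -/
noncomputable def subfEquiv {M K : IntermediateField ℚ Ω} (h : K ≤ M) : K ≃+* subf M K where
  toFun x := ⟨⟨x.1, h x.2⟩, x.2⟩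
  invFun x := ⟨x.1.1, x.2⟩
  left_inv _ := rfl
  right_inv _ := rfl
  map_mul' _ _ := rfl
  map_add' _ _ := rfl

lemma subf_inf (M K K' : IntermediateField ℚ Ω) : subf M (K ⊓ K') = subf M K ⊓ subf M K' := by
  ext
  rfl

lemma subf_mono (M : IntermediateField ℚ Ω) {K K' : IntermediateField ℚ Ω} (h : K ≤ K') :
    subf M K ≤ subf M K' := fun _ hx => h hx

end

end Pool.Agent.Work.MP_2b9663_nt
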