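import Pool.Agent.Work.MP_2b9663_nt.Zeta2

set_option autoImplicit false

/-!
Homomorphisms from the ring of integers of a number field to finite fields.
-/

namespace Pool.Agent.Work.MP_2b9663_nt

open NumberField Ideal Polynomial

section

variable (K : Type) [Field K] [NumberField K] (κ : Type) [Field κ]

instance homs_finite [Finite κ] : Finite (𝓞 K →+* κ) := by
  refine Finite.of_injective
    (fun (φ : 𝓞 K →+* κ) (j : Module.Free.ChooseBasisIndex ℤ (𝓞 K)) =>
      φ (RingOfIntegers.basis K j)) ?_
  intro φ ψ h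
  have h1 : φ.toAddMonoidHom.toIntLinearMap = ψ.toAddMonoidHom.toIntLinearMap :=
    (RingOfIntegers.basis K).ext fun j => congrFun h j
  refine RingHom.ext fun x => ?_
  exact LinearMap.congr_fun h1 x

lemma card_homs_le [Finite κ] : Nat.card (𝓞 K →+* κ) ≤ Module.finrank ℚ K := by
  classical
  have : Fintype (𝓞 K →+* κ) := Fintype.ofFinite _
  have hli : LinearIndependent κ (fun (φ : 𝓞 K →+* κ)
      (j : Module.Free.ChooseBasisIndex ℤ (𝓞 K)) => φ (RingOfIntegers.basis K j)) := by
    have h1 := linearIndependent_monoidHom (𝓞 K) κ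
    have h2 : LinearIndependent κ (fun φ : 𝓞 K →+* κ => (φ : 𝓞 K → κ)) :=
      h1.comp (fun φ : 𝓞 K →+* κ => (φ : 𝓞 K →* κ)) (fun φ ψ h => by
        refine RingHom.ext fun x => ?_
        exact DFunLike.congr_fun h x)
    rw [Fintype.linearIndependent_iff] at h2 ⊢
    intro g hg
    apply h2
    set Λ : 𝓞 K →+ κ := ∑ φ : 𝓞 K →+* κ, (AddMonoidHom.mulLeft (g φ)).comp φ.toAddMonoidHom with hΛ
    have h3 : ∀ x, Λ x = ∑ φ : 𝓞 K →+* κ, g φ * φ x := by
      intro x
      rw [hΛ, AddMonoidHom.finsetSum_apply]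
      rfl
    have h4 : Λ.toIntLinearMap = 0 := by
      refine (RingOfIntegers.basis K).ext fun j => ?_
      have h5 := congrFun hg j
      simp only [Finset.sum_apply, Pi.smul_apply, smul_eq_mul, Pi.zero_apply] at h5
      change Λ (RingOfIntegers.basis K j) = 0
      rw [h3]
      exact h5
    funext x
    have h5 : Λ x = 0 := LinearMap.congr_fun h4 x
    rw [h3] at h5
    simp only [Finset.sum_apply, Pi.smul_apply, smul_eq_mul, Pi.zero_apply]
    exact h5
  have h1 := hli.fintype_card_le_finrank
  rw [Module.finrank_fintype_fun_eq_card, ← Module.finrank_eq_card_chooseBasisIndex,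
    RingOfIntegers.rank] at h1
  rwa [Nat.card_eq_fintype_card]

end

section prime

variable {κ : Type} [Field κ] [Finite κ] {p : ℕ} [hp : Fact p.Prime] (hκ : Nat.card κ = p)

include hκ

lemma charP_of_card : CharP κ p := by
  have : Fintype κ := Fintype.ofFinite κ
  exact charP_of_card_eq_prime (by rw [← hκ, Nat.card_eq_fintype_card])

lemma natCast_surj (x : κ) : ∃ n : ℕ, (n : κ) = x := by
  have : Fintype κ := Fintype.ofFinite κ
  have : CharP κ p := charP_of_card hκ
  have h1 : Fintype.card κ = p := by rw [← hκ, Nat.card_eq_fintype_card]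
  obtain ⟨y, hy⟩ := (ZMod.castHom_bijective κ h1).2 x
  refine ⟨y.val, ?_⟩
  rw [← hy]
  simp

variable {R : Type} [CommRing R]

lemma hom_surj (φ : R →+* κ) : Function.Surjective φ := by
  intro x
  obtain ⟨n, rfl⟩ := natCast_surj hκ x
  exact ⟨n, map_natCast φ n⟩

/-- homomorphisms to a field with `p` elements are determined by their kernels -/
lemma hom_eq_of_ker_le {φ ψ : R →+* κ} (h : RingHom.ker φ ≤ RingHom.ker ψ) : φ = ψ := by
  refine RingHom.ext fun x => ?_
  obtain ⟨n, hn⟩ := natCast_surj hκ (φ x)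
  have h1 : x - n ∈ RingHom.ker φ := by
    rw [RingHom.mem_ker, map_sub, map_natCast, hn, sub_self]
  have h2 := h h1
  rw [RingHom.mem_ker, map_sub, map_natCast, hn, sub_eq_zero] at h2
  exact h2.symm

variable (K : Type) [Field K] [NumberField K]

lemma card_homs_eq : Nat.card (𝓞 K →+* κ) = idc K p := by
  have hker : ∀ φ : 𝓞 K →+* κ, absNorm (RingHom.ker φ) = p := by
    intro φ
    rw [absNorm_apply, Submodule.cardQuot_apply, ← hκ]
    exact Nat.card_congr (RingHom.quotientKerEquivOfSurjective (hom_surj hκ φ)).toEquiv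
  unfold idc
  refine Nat.card_congr (Equiv.ofBijective (fun φ : 𝓞 K →+* κ =>
    (⟨RingHom.ker φ, hker φ⟩ : {I : Ideal (𝓞 K) // absNorm I = p})) ⟨?_, ?_⟩)
  · intro φ ψ h
    have h1 : RingHom.ker φ = RingHom.ker ψ := congrArg Subtype.val h
    exact hom_eq_of_ker_le hκ h1.le
  · rintro ⟨I, hI⟩
    have hQ : Nat.card (𝓞 K ⧸ I) = p := by
      rw [← Submodule.cardQuot_apply, ← absNorm_apply, hI]
    have hfin : Finite (𝓞 K ⧸ I) := Nat.finite_of_card_ne_zero (by rw [hQ]; exact hp.out.ne_zero)
    have : Fintype (𝓞 K ⧸ I) := Fintype.ofFinite _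
    have : Fintype κ := Fintype.ofFinite κ
    have h1 : Fintype.card (𝓞 K ⧸ I) = p := by rw [← hQ, Nat.card_eq_fintype_card]
    have h2 : Fintype.card κ = p := by rw [← hκ, Nat.card_eq_fintype_card]
    have : CharP (𝓞 K ⧸ I) p := charP_of_card_eq_prime h1
    have : CharP κ p := charP_of_card hκ
    let e1 := RingEquiv.ofBijective _ (ZMod.castHom_bijective (𝓞 K ⧸ I) h1)
    let e2 := RingEquiv.ofBijective _ (ZMod.castHom_bijective κ h2)
    refine ⟨((e1.symm.trans e2 : (𝓞 K ⧸ I) ≃+* κ) : (𝓞 K ⧸ I) →+* κ).comp (Ideal.Quotient.mk I), ?_⟩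
    apply Subtype.ext
    simp only
    rw [RingHom.ker_comp_of_injective _ (RingEquiv.injective _), Ideal.mk_ker]

end prime

section quadratic

variable {R S κ : Type} [CommRing R] [CommRing S] [Algebra R S] [Field κ]

theorem homs_quadratic {ε : R} {θ : S} (hθ : θ ^ 2 = algebraMap R S ε)
    (hdec : ∀ x : S, ∃ a b : R,
      algebraMap R S (2 * ε) * x = algebraMap R S a + algebraMap R S b * θ)
    (huniq : ∀ a b : R, algebraMap R S a + algebraMap R S b * θ = 0 → a = 0 ∧ b = 0)
    (hε : ∀ φ : R →+* κ, φ (2 * ε) ≠ 0) :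
    Nat.card (S →+* κ) = Nat.card (Σ φ : R →+* κ, {y : κ // y ^ 2 = φ ε}) := by
  refine Nat.card_congr (Equiv.ofBijective (fun ψ : S →+* κ =>
    (⟨ψ.comp (algebraMap R S), ψ θ, by rw [← map_pow, hθ]; rfl⟩ :
      Σ φ : R →+* κ, {y : κ // y ^ 2 = φ ε})) ⟨?_, ?_⟩)
  · intro ψ ψ' h
    have h1 : ψ.comp (algebraMap R S) = ψ'.comp (algebraMap R S) := congrArg Sigma.fst h
    have h2 : ψ θ = ψ' θ := by
      have := congrArg (fun z : Σ φ : R →+* κ, {y : κ // y ^ 2 = φ ε} => (z.2 : κ)) h
      exact this
    refine RingHom.ext fun x => ?_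
    obtain ⟨a, b, hab⟩ := hdec x
    have h3 := congrArg ψ hab
    have h4 := congrArg ψ' hab
    have h5 : ∀ r, ψ (algebraMap R S r) = ψ' (algebraMap R S r) := fun r =>
      DFunLike.congr_fun h1 r
    rw [map_mul ψ, map_add ψ, map_mul ψ, h5, h5, h5, h2] at h3
    rw [map_mul ψ', map_add ψ', map_mul ψ'] at h4
    have h6 := h3.trans h4.symm
    exact mul_left_cancel₀ (hε (ψ'.comp (algebraMap R S))) h6
  · rintro ⟨φ, y, hy⟩
    choose a b hab using hdec
    have hu : ∀ {a b a' b' : R}, algebraMap R S a + algebraMap R S b * θ =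
        algebraMap R S a' + algebraMap R S b' * θ → a = a' ∧ b = b' := by
      intro a b a' b' h
      have h1 := huniq (a - a') (b - b') (by
        rw [map_sub, map_sub]
        linear_combination h)
      exact ⟨sub_eq_zero.mp h1.1, sub_eq_zero.mp h1.2⟩
    have h2ε := hε φ
    have hone : a 1 = 2 * ε ∧ b 1 = 0 := hu (by rw [← hab, map_zero, mul_one, zero_mul, add_zero])
    have hzero : a 0 = 0 ∧ b 0 = 0 := hu (by
      rw [← hab, map_zero, mul_zero, zero_mul, add_zero])
    have hadd : ∀ x x', a (x + x') = a x + a x' ∧ b (x + x') = b x + b x' := by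
      intro x x'
      apply hu
      rw [← hab, mul_add, hab, hab, map_add, map_add]
      ring
    have hmul : ∀ x x', 2 * ε * a (x * x') = a x * a x' + b x * b x' * ε ∧
        2 * ε * b (x * x') = a x * b x' + b x * a x' := by
      intro x x'
      apply hu
      have e0 := hab (x * x')
      have e1 := hab x
      have e2 := hab x'
      simp only [map_mul, map_add] at e0 e1 e2 ⊢
      linear_combination (-(algebraMap R S 2 * algebraMap R S ε)) * e0 +
        (algebraMap R S 2 * algebraMap R S ε * x') * e1 +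
        (algebraMap R S (a x) + algebraMap R S (b x) * θ) * e2 +
        algebraMap R S (b x) * algebraMap R S (b x') * hθ
    have hθab : a θ = 0 ∧ b θ = 2 * ε := hu (by rw [← hab, map_zero, zero_add])
    have halg : ∀ r, a (algebraMap R S r) = 2 * ε * r ∧ b (algebraMap R S r) = 0 := by
      intro r
      apply hu
      rw [← hab, map_zero, zero_mul, add_zero, map_mul (algebraMap R S) (2 * ε) r]
    let ψ : S →+* κ :=
      { toFun := fun x => (φ (a x) + φ (b x) * y) / φ (2 * ε)
        map_one' := by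
          rw [hone.1, hone.2, map_zero, zero_mul, add_zero, div_self h2ε]
        map_zero' := by
          rw [hzero.1, hzero.2, map_zero, zero_mul, add_zero, zero_div]
        map_add' := fun x x' => by
          rw [(hadd x x').1, (hadd x x').2, map_add, map_add]
          ring
        map_mul' := fun x x' => by
          have h1 : φ (2 * ε) * φ (a (x * x')) =
              φ (a x) * φ (a x') + φ (b x) * φ (b x') * φ ε := by
            rw [← map_mul, (hmul x x').1, map_add, map_mul, map_mul, map_mul]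
          have h2 : φ (2 * ε) * φ (b (x * x')) = φ (a x) * φ (b x') + φ (b x) * φ (a x') := by
            rw [← map_mul, (hmul x x').2, map_add, map_mul, map_mul]
          rw [div_mul_div_comm, div_eq_div_iff h2ε (mul_ne_zero h2ε h2ε)]
          linear_combination φ (2 * ε) * h1 + φ (2 * ε) * y * h2 -
            φ (2 * ε) * φ (b x) * φ (b x') * hy }
    refine ⟨ψ, ?_⟩
    have h1 : ψ.comp (algebraMap R S) = φ := by
      refine RingHom.ext fun r => ?_
      change (φ (a (algebraMap R S r)) + φ (b (algebraMap R S r)) * y) / φ (2 * ε) = φ r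
      rw [(halg r).1, (halg r).2, map_zero, zero_mul, add_zero, map_mul, mul_comm,
        mul_div_assoc, div_self h2ε, mul_one]
    have h2 : ψ θ = y := by
      change (φ (a θ) + φ (b θ) * y) / φ (2 * ε) = y
      rw [hθab.1, hθab.2, map_zero, zero_add, mul_comm, mul_div_assoc, div_self h2ε, mul_one]
    exact Sigma.subtype_ext h1 h2

end quadratic

end Pool.Agent.Work.MP_2b9663_nt
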