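import Pool.Agent.Work.MP_2b9663_nt.Perm
import Pool.Agent.Work.MP_2b9663_nt.Homs
import Pool.Agent.Work.MP_2b9663_nt.Characters

set_option autoImplicit false

/-!
Frobenius elements and the number of homomorphisms from the ring of integers of a number field to
the field with `p` elements.
-/

namespace Pool.Agent.Work.MP_2b9663_nt

open NumberField

section

lemma card_frob_homs {R k : Type} [CommRing R] [Field k] (p : ℕ) [hp : Fact p.Prime] [CharP k p] :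
    Nat.card {ψ : R →+* k // ∀ y, ψ y ^ p = ψ y} = Nat.card (R →+* ZMod p) := by
  set c : ZMod p →+* k := ZMod.castHom (dvd_refl p) k with hc
  refine (Nat.card_congr (Equiv.ofBijective (fun φ : R →+* ZMod p =>
    (⟨c.comp φ, fun y => ?_⟩ : {ψ : R →+* k // ∀ y, ψ y ^ p = ψ y})) ⟨?_, ?_⟩)).symm
  · rw [RingHom.comp_apply, ← map_pow, ZMod.pow_card]
  · intro φ φ' h
    have h1 : c.comp φ = c.comp φ' := congrArg Subtype.val h
    refine RingHom.ext fun y => c.injective ?_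
    exact DFunLike.congr_fun h1 y
  · rintro ⟨ψ, hψ⟩
    have h1 : ∀ y, ∃ z, c z = ψ y := by
      intro y
      have h2 := (Subfield.mem_bot_iff_pow_eq_self k p).mpr (hψ y)
      rw [← ZMod.fieldRange_castHom_eq_bot p] at h2
      exact h2
    choose z hz using h1
    refine ⟨{ toFun := z, map_one' := ?_, map_mul' := ?_, map_zero' := ?_, map_add' := ?_ }, ?_⟩
    · apply c.injective
      rw [hz, map_one, map_one]
    · intro a b
      apply c.injective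
      rw [map_mul c, hz, hz, hz, map_mul]
    · apply c.injective
      rw [hz, map_zero, map_zero]
    · intro a b
      apply c.injective
      rw [map_add c, hz, hz, hz, map_add]
    · apply Subtype.ext
      refine RingHom.ext fun y => ?_
      exact hz y

variable {L : Type} [Field L] [NumberField L] [IsGalois ℚ L]

/-- a Frobenius element at some prime above `p` -/
structure FrobData (p : ℕ) (φ : L ≃ₐ[ℚ] L) (P : Ideal (𝓞 L)) : Prop where
  max : P.IsMaximal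
  mem : ((p : ℕ) : 𝓞 L) ∈ P
  mem_iff : ∀ n : ℕ, ((n : ℕ) : 𝓞 L) ∈ P → p ∣ n
  frob : ∀ x : 𝓞 L, φ • x - x ^ p ∈ P

lemma exists_frobData (p : ℕ) [hp : Fact p.Prime] :
    ∃ (φ : L ≃ₐ[ℚ] L) (P : Ideal (𝓞 L)), FrobData p φ P := by
  have hpI : Prime (p : ℤ) := Nat.prime_iff_prime_int.mp hp.out
  have hmax : (Ideal.span {(p : ℤ)}).IsMaximal :=
    PrincipalIdealRing.isMaximal_of_irreducible hpI.irreducible
  obtain ⟨P, hP, hlies⟩ := Ideal.exists_maximal_ideal_liesOver_of_isIntegral (S := 𝓞 L)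
    (Ideal.span {(p : ℤ)})
  have hunder : P.under ℤ = Ideal.span {(p : ℤ)} := (hlies.over).symm
  have hmem : ((p : ℕ) : 𝓞 L) ∈ P := by
    have h1 : (p : ℤ) ∈ P.under ℤ := by
      rw [hunder]
      exact Ideal.mem_span_singleton_self _
    have h2 : algebraMap ℤ (𝓞 L) (p : ℤ) ∈ P := h1
    simpa using h2
  have hP0 : P ≠ ⊥ := by
    rintro rfl
    have h2 : ((p : ℕ) : 𝓞 L) = 0 := hmem
    exact hp.out.ne_zero (by exact_mod_cast h2)
  have hfin : Finite (𝓞 L ⧸ P) := Ideal.finiteQuotientOfFreeOfNeBot P hP0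
  have hPp : P.IsPrime := hP.isPrime
  obtain ⟨φ, hφ⟩ := IsArithFrobAt.exists_of_isInvariant ℤ (L ≃ₐ[ℚ] L) P
  refine ⟨φ, P, hP, hmem, fun n hn => ?_, fun x => ?_⟩
  · have h1 : (n : ℤ) ∈ P.under ℤ := by
      change algebraMap ℤ (𝓞 L) (n : ℤ) ∈ P
      simpa using hn
    rw [hunder, Ideal.mem_span_singleton] at h1
    exact_mod_cast h1
  · have h1 := hφ x
    have h2 : Nat.card (ℤ ⧸ P.under ℤ) = p := by
      rw [hunder, Int.card_ideal_quot]
    rw [h2] at h1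
    exact h1

/-- the homomorphism `y ↦ x y mod P` -/
noncomputable def redHom (K : IntermediateField ℚ L) (P : Ideal (𝓞 L)) (x : L ≃ₐ[ℚ] L) :
    𝓞 K →+* 𝓞 L ⧸ P :=
  (Ideal.Quotient.mk P).comp
    ((MulSemiringAction.toRingHom (L ≃ₐ[ℚ] L) (𝓞 L) x).comp (algebraMap (𝓞 K) (𝓞 L)))

omit [IsGalois ℚ L] in
lemma redHom_apply (K : IntermediateField ℚ L) (P : Ideal (𝓞 L)) (x : L ≃ₐ[ℚ] L) (y : 𝓞 K) :
    redHom K P x y = Ideal.Quotient.mk P (x • algebraMap (𝓞 K) (𝓞 L) y) := rfl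

omit [IsGalois ℚ L] in
lemma smul_eq_of_mem (K : IntermediateField ℚ L) {x x' : L ≃ₐ[ℚ] L}
    (h : x⁻¹ * x' ∈ K.fixingSubgroup) (y : 𝓞 K) :
    x • algebraMap (𝓞 K) (𝓞 L) y = x' • algebraMap (𝓞 K) (𝓞 L) y := by
  rw [IntermediateField.mem_fixingSubgroup_iff] at h
  have h1 := h (y : K) (y : K).2
  apply RingOfIntegers.ext
  change x ((y : K) : L) = x' ((y : K) : L)
  have h2 : x ((x⁻¹ * x') ((y : K) : L)) = x' ((y : K) : L) := by
    rw [← AlgEquiv.mul_apply, ← mul_assoc, mul_inv_cancel, one_mul]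
  rw [← h2, h1]

omit [IsGalois ℚ L] in
lemma exists_smul_ne (K : IntermediateField ℚ L) {x x' : L ≃ₐ[ℚ] L}
    (h : x⁻¹ * x' ∉ K.fixingSubgroup) :
    ∃ y : 𝓞 K, x • algebraMap (𝓞 K) (𝓞 L) y - x' • algebraMap (𝓞 K) (𝓞 L) y ≠ 0 := by
  by_contra hcon
  push Not at hcon
  apply h
  have h0 : ∀ y : 𝓞 K, x ((y : K) : L) = x' ((y : K) : L) := by
    intro y
    have h1 := sub_eq_zero.mp (hcon y)
    exact congrArg (fun z : 𝓞 L => (z : L)) h1
  rw [IntermediateField.mem_fixingSubgroup_iff]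
  intro z hz
  obtain ⟨a, b, hb, hab⟩ := IsFractionRing.div_surjective (A := 𝓞 K) (⟨z, hz⟩ : K)
  have h1 : z = ((a : K) : L) / ((b : K) : L) := by
    have h2 := congrArg (fun w : K => (w : L)) hab
    simpa using h2.symm
  have h2 : x z = x' z := by
    rw [h1, map_div₀, map_div₀, h0, h0]
  rw [AlgEquiv.mul_apply, ← h2]
  have h3 : x⁻¹ (x z) = (x⁻¹ * x) z := rfl
  rw [h3, inv_mul_cancel]
  rfl

omit [IsGalois ℚ L] in
/-- a nonzero integer outside of whose prime divisors the reductions of different embeddings are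
different -/
lemma exists_sep (K : IntermediateField ℚ L) :
    ∃ D : ℕ, D ≠ 0 ∧ ∀ (p : ℕ) (φ : L ≃ₐ[ℚ] L) (P : Ideal (𝓞 L)), FrobData p φ P → ¬ p ∣ D →
      ∀ x x' : L ≃ₐ[ℚ] L, redHom K P x = redHom K P x' → x⁻¹ * x' ∈ K.fixingSubgroup := by
  classical
  choose y hy using fun (x x' : L ≃ₐ[ℚ] L) (h : x⁻¹ * x' ∉ K.fixingSubgroup) =>
    exists_smul_ne K h
  let δ : (L ≃ₐ[ℚ] L) → (L ≃ₐ[ℚ] L) → 𝓞 L := fun x x' =>
    if h : x⁻¹ * x' ∉ K.fixingSubgroup then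
      x • algebraMap (𝓞 K) (𝓞 L) (y x x' h) - x' • algebraMap (𝓞 K) (𝓞 L) (y x x' h) else 1
  have hδ : ∀ x x', δ x x' ≠ 0 := by
    intro x x'
    simp only [δ]
    split_ifs with h
    · exact one_ne_zero
    · exact hy x x' h
  refine ⟨∏ x : L ≃ₐ[ℚ] L, ∏ x' : L ≃ₐ[ℚ] L, Ideal.absNorm (Ideal.span {δ x x'}), ?_, ?_⟩
  · refine Finset.prod_ne_zero_iff.mpr fun x _ => Finset.prod_ne_zero_iff.mpr fun x' _ => ?_
    rw [Ne, Ideal.absNorm_eq_zero_iff, Ideal.span_singleton_eq_bot]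
    exact hδ x x'
  · intro p φ P hP hD x x' hxx
    by_contra h
    apply hD
    have h1 : δ x x' = x • algebraMap (𝓞 K) (𝓞 L) (y x x' h) -
        x' • algebraMap (𝓞 K) (𝓞 L) (y x x' h) := dif_pos h
    have h2 : δ x x' ∈ P := by
      rw [h1, ← Ideal.Quotient.eq]
      exact DFunLike.congr_fun hxx (y x x' h)
    have h3 : ((Ideal.absNorm (Ideal.span {δ x x'}) : ℕ) : 𝓞 L) ∈ P := by
      have h4 : Ideal.span {δ x x'} ≤ P := by
        rw [Ideal.span_singleton_le_iff_mem]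
        exact h2
      exact h4 (Ideal.absNorm_mem _)
    have h4 := hP.mem_iff _ h3
    exact h4.trans ((Finset.dvd_prod_of_mem (fun x' => Ideal.absNorm (Ideal.span {δ x x'}))
      (Finset.mem_univ x')).trans
      (Finset.dvd_prod_of_mem (fun x => ∏ x' : L ≃ₐ[ℚ] L, Ideal.absNorm (Ideal.span {δ x x'}))
        (Finset.mem_univ x)))

lemma index_fixing (K : IntermediateField ℚ L) :
    K.fixingSubgroup.index = Module.finrank ℚ K := by
  have h1 := Subgroup.card_mul_index K.fixingSubgroup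
  rw [IsGalois.card_fixingSubgroup_eq_finrank, IsGalois.card_aut_eq_finrank,
    ← Module.finrank_mul_finrank ℚ K L, mul_comm] at h1
  exact Nat.eq_of_mul_eq_mul_right Module.finrank_pos h1

theorem idc_eq_pc (K : IntermediateField ℚ L) :
    ∃ D : ℕ, D ≠ 0 ∧ ∀ (p : ℕ) (_ : Fact p.Prime) (φ : L ≃ₐ[ℚ] L) (P : Ideal (𝓞 L)),
      FrobData p φ P → ¬ p ∣ D → idc K p = pc K.fixingSubgroup φ := by
  classical
  obtain ⟨D, hD0, hD⟩ := exists_sep K
  refine ⟨D, hD0, fun p hp φ P hP hpD => ?_⟩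
  have hmax := hP.max
  let _ : Field (𝓞 L ⧸ P) := Ideal.Quotient.field P
  have hP0 : P ≠ ⊥ := by
    rintro rfl
    have h2 : ((p : ℕ) : 𝓞 L) = 0 := hP.mem
    exact hp.out.ne_zero (by exact_mod_cast h2)
  have hfin : Finite (𝓞 L ⧸ P) := Ideal.finiteQuotientOfFreeOfNeBot P hP0
  have hchar : CharP (𝓞 L ⧸ P) p := by
    rw [CharP.charP_iff_prime_eq_zero hp.out]
    have h1 := Ideal.Quotient.eq_zero_iff_mem.mpr hP.mem
    simpa using h1
  set H := K.fixingSubgroup with hH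
  -- the reduction map on cosets
  let Θ : (L ≃ₐ[ℚ] L) ⧸ H → (𝓞 K →+* 𝓞 L ⧸ P) := Quotient.lift (redHom K P) fun x x' hxx => by
    have h1 : x⁻¹ * x' ∈ H := QuotientGroup.leftRel_apply.mp hxx
    refine RingHom.ext fun y => ?_
    rw [redHom_apply, redHom_apply, smul_eq_of_mem K h1]
  have hΘ : ∀ x : L ≃ₐ[ℚ] L, Θ (x : (L ≃ₐ[ℚ] L) ⧸ H) = redHom K P x := fun x => rfl
  have hinj : Function.Injective Θ := by
    intro a b hab
    obtain ⟨x, rfl⟩ := QuotientGroup.mk_surjective a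
    obtain ⟨x', rfl⟩ := QuotientGroup.mk_surjective b
    rw [hΘ, hΘ] at hab
    rw [QuotientGroup.eq]
    exact hD p φ P hP hpD x x' hab
  have hcard : Nat.card (𝓞 K →+* 𝓞 L ⧸ P) ≤ Nat.card ((L ≃ₐ[ℚ] L) ⧸ H) := by
    have h1 : Nat.card ((L ≃ₐ[ℚ] L) ⧸ H) = Module.finrank ℚ K := index_fixing K
    rw [h1]
    exact card_homs_le K _
  have hbij : Function.Bijective Θ := hinj.bijective_of_nat_card_le hcard
  have hfrob : ∀ a y, Θ (φ • a) y = Θ a y ^ p := by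
    intro a y
    obtain ⟨x, rfl⟩ := QuotientGroup.mk_surjective a
    have h1 : φ • (x : (L ≃ₐ[ℚ] L) ⧸ H) = ((φ * x : L ≃ₐ[ℚ] L) : (L ≃ₐ[ℚ] L) ⧸ H) := rfl
    rw [h1, hΘ, hΘ, redHom_apply, redHom_apply, mul_smul, ← map_pow, Ideal.Quotient.eq]
    exact hP.frob _
  rw [← card_homs_eq (κ := ZMod p) (Nat.card_zmod p) K, ← card_frob_homs (k := 𝓞 L ⧸ P) p, pc]
  refine (Nat.card_congr (Equiv.ofBijective
    (fun a : MulAction.fixedBy ((L ≃ₐ[ℚ] L) ⧸ H) φ => (⟨Θ a.1, fun y => ?_⟩ :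
      {ψ : 𝓞 K →+* 𝓞 L ⧸ P // ∀ y, ψ y ^ p = ψ y})) ⟨?_, ?_⟩)).symm
  · have h1 : φ • a.1 = a.1 := a.2
    rw [← hfrob, h1]
  · intro a b hab
    have h1 : Θ a.1 = Θ b.1 := congrArg Subtype.val hab
    exact Subtype.ext (hinj h1)
  · rintro ⟨ψ, hψ⟩
    obtain ⟨a, rfl⟩ := hbij.2 ψ
    refine ⟨⟨a, ?_⟩, rfl⟩
    change φ • a = a
    apply hinj
    refine RingHom.ext fun y => ?_
    rw [hfrob, hψ]

end

end Pool.Agent.Work.MP_2b9663_nt
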