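import Pool.Agent.Work.MP_2b9663_nt.Theta

set_option autoImplicit false

/-!
Homomorphisms from the ring of integers of a Galois number field to prime fields.
-/

namespace Pool.Agent.Work.MP_2b9663_nt

open NumberField Ideal Polynomial

section

variable (K : Type) [Field K] [NumberField K] [IsGalois ℚ K]

omit [IsGalois ℚ K] in
lemma coe_smul_int (g : K ≃ₐ[ℚ] K) (x : 𝓞 K) : ((g • x : 𝓞 K) : K) = g (x : K) := rfl

omit [IsGalois ℚ K] in
lemma exists_moved (g : K ≃ₐ[ℚ] K) (hg : g ≠ 1) : ∃ α : 𝓞 K, g • α ≠ α := by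
  by_contra h
  push Not at h
  apply hg
  ext x
  obtain ⟨a, b, hb, hab⟩ := IsFractionRing.div_surjective (A := 𝓞 K) x
  rw [AlgEquiv.one_apply, ← hab, map_div₀]
  have h1 : ∀ y : 𝓞 K, g (algebraMap (𝓞 K) K y) = algebraMap (𝓞 K) K y := by
    intro y
    have := congrArg (fun z : 𝓞 K => (z : K)) (h y)
    exact this
  rw [h1, h1]

variable {K}

/-- composition with an element of the Galois group -/
def homAct {κ : Type} [Field κ] (φ : 𝓞 K →+* κ) (g : K ≃ₐ[ℚ] K) : 𝓞 K →+* κ :=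
  φ.comp (MulSemiringAction.toRingHom (K ≃ₐ[ℚ] K) (𝓞 K) g)

omit [IsGalois ℚ K] in
lemma homAct_apply {κ : Type} [Field κ] (φ : 𝓞 K →+* κ) (g : K ≃ₐ[ℚ] K) (x : 𝓞 K) :
    homAct φ g x = φ (g • x) := rfl

lemma homAct_surj {κ : Type} [Field κ] [Finite κ] {p : ℕ} [Fact p.Prime] (hκ : Nat.card κ = p)
    (φ ψ : 𝓞 K →+* κ) : ∃ g : K ≃ₐ[ℚ] K, homAct φ g = ψ := by
  have hP : (RingHom.ker φ).IsPrime := RingHom.ker_isPrime φ
  have hQ : (RingHom.ker ψ).IsPrime := RingHom.ker_isPrime ψ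
  have h1 : (RingHom.ker φ).under ℤ = (RingHom.ker ψ).under ℤ := by
    ext z
    simp only [Ideal.under_def, Ideal.mem_comap, RingHom.mem_ker, eq_intCast, map_intCast]
  obtain ⟨g, hg⟩ := Algebra.IsInvariant.exists_smul_of_under_eq ℤ (𝓞 K) (K ≃ₐ[ℚ] K)
    (RingHom.ker ψ) (RingHom.ker φ) h1.symm
  refine ⟨g, (hom_eq_of_ker_le hκ (φ := ψ) (ψ := homAct φ g) fun x hx => ?_).symm⟩
  rw [RingHom.mem_ker, homAct_apply, ← RingHom.mem_ker, hg]
  exact Ideal.smul_mem_pointwise_smul g x _ hx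

variable (K)

/-- a finite set of primes outside which the Galois group acts freely -/
lemma exists_free : ∃ T : Finset Nat.Primes, ∀ p : Nat.Primes, p ∉ T → ∀ φ : 𝓞 K →+* Fq p 1,
    Function.Injective (homAct φ) := by
  classical
  have h1 : ∀ g : K ≃ₐ[ℚ] K, ∃ α : 𝓞 K, g ≠ 1 → g • α ≠ α := by
    intro g
    by_cases hg : g = 1
    · exact ⟨0, fun h => absurd hg h⟩
    · obtain ⟨α, hα⟩ := exists_moved K g hg
      exact ⟨α, fun _ => hα⟩
  choose α hα using h1
  refine ⟨Finset.univ.biUnion fun g : K ≃ₐ[ℚ] K => smallPrimes (nm (g • α g - α g) + 1), ?_⟩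
  intro p hp φ g g' hgg
  by_contra hne
  -- `h = g' g⁻¹` fixes `φ`
  have hfix : ∀ x : 𝓞 K, φ ((g' * g⁻¹) • x) = φ x := by
    intro x
    have := DFunLike.congr_fun hgg (g⁻¹ • x)
    rw [homAct_apply, homAct_apply, smul_inv_smul] at this
    rw [mul_smul]
    exact this.symm
  set h := g' * g⁻¹ with hh
  have hne1 : h ≠ 1 := by
    intro h1
    apply hne
    rw [hh, mul_inv_eq_one] at h1
    exact h1.symm
  have h2 : h • α h - α h ≠ 0 := sub_ne_zero.mpr (hα h hne1)
  have h3 : p ∉ smallPrimes (nm (h • α h - α h) + 1) := fun h4 =>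
    hp (Finset.mem_biUnion.mpr ⟨h, Finset.mem_univ _, h4⟩)
  have h4 := hom_ne_zero (not_dvd_nm h2 h3) (charP_Fq p 1) φ
  apply h4
  rw [map_sub, hfix, sub_self]

/-- a set as in `exists_free` -/
noncomputable def freeSet : Finset Nat.Primes := (exists_free K).choose

lemma homAct_bijective {p : Nat.Primes} (hp : p ∉ freeSet K) (φ : 𝓞 K →+* Fq p 1) :
    Function.Bijective (homAct φ) := by
  have hF : Fact (p : ℕ).Prime := ⟨p.2⟩
  have hcard : Nat.card (Fq p 1) = (p : ℕ) := by rw [card_Fq p one_ne_zero, pow_one]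
  exact ⟨(exists_free K).choose_spec p hp φ, fun ψ => homAct_surj hcard φ ψ⟩

lemma card_homs_galois {p : Nat.Primes} (hp : p ∉ freeSet K) (φ : 𝓞 K →+* Fq p 1) :
    idc K (p : ℕ) = Module.finrank ℚ K := by
  have hF : Fact (p : ℕ).Prime := ⟨p.2⟩
  have hcard : Nat.card (Fq p 1) = (p : ℕ) := by rw [card_Fq p one_ne_zero, pow_one]
  rw [← card_homs_eq hcard K, ← IsGalois.card_aut_eq_finrank ℚ K]
  exact (Nat.card_congr (Equiv.ofBijective _ (homAct_bijective K hp φ))).symm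

variable {K}

/-- The product of two sums of characters. -/
lemma theta_mul {p : Nat.Primes} (hp : p ∉ freeSet K) (δ ε : 𝓞 K) :
    theta K δ p * theta K ε p = ∑ g : K ≃ₐ[ℚ] K, theta K (δ * g • ε) p := by
  classical
  have : Fintype (𝓞 K →+* Fq p 1) := Fintype.ofFinite _
  simp only [theta, finsum_eq_sum_of_fintype]
  rw [Finset.sum_mul, Finset.sum_comm]
  refine Finset.sum_congr rfl fun φ _ => ?_
  rw [← (homAct_bijective K hp φ).sum_comp, Finset.mul_sum]
  refine Finset.sum_congr rfl fun g _ => ?_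
  rw [homAct_apply, map_mul, qc_mul]
  push_cast
  rfl

open Classical in
/-- Orthogonality relations. -/
theorem MV_theta_mul {δ ε : 𝓞 K} (hδ : δ ≠ 0) (hε : ε ≠ 0) :
    MV (fun p => theta K δ p * theta K ε p)
      (∑ g : K ≃ₐ[ℚ] K, if IsSquare ((δ : K) * g (ε : K)) then 1 else 0) := by
  have h1 := MV.sum (Finset.univ : Finset (K ≃ₐ[ℚ] K)) (c := fun g => theta K (δ * g • ε))
    (κ := fun g => if IsSquare ((δ : K) * g (ε : K)) then 1 else 0) (fun g _ => by
      have h2 : δ * g • ε ≠ 0 := mul_ne_zero hδ (by rwa [Ne, smul_eq_zero_iff_eq])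
      have h3 : ((δ * g • ε : 𝓞 K) : K) = (δ : K) * g (ε : K) := rfl
      split_ifs with h
      · exact MV_theta_square K h2 (by rw [h3]; exact h)
      · exact MV_theta_nonsquare K h2 (by rw [h3]; exact h))
  exact h1.congr ((theta_BD K δ).mul (theta_BD K ε)) (freeSet K) fun p hp => (theta_mul hp δ ε).symm

end

end Pool.Agent.Work.MP_2b9663_nt
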