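import Pool.Agent.Work.MP_2b9663_nt.DefsK
import Pool.Agent.Work.MP_2b9663_nt.GalSum
import Pool.Agent.Work.MP_2b9663_nt.BesselW

set_option autoImplicit false

/-!
The traces of Frobenius for twists over a number field.
-/

namespace Pool.Agent.Work.MP_2b9663_nt

open Polynomial NumberField

section

variable {κ : Type} [Field κ] [Finite κ]

lemma traceOneAt_eq (hκ : ringChar κ ≠ 2) {f : ℤ[X]} {d : κ} (hd : d ≠ 0)
    (hlc : (f.leadingCoeff : κ) ≠ 0) : traceOneAt f d = qc κ d * traceOne f 1 κ := by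
  classical
  let : Fintype κ := Fintype.ofFinite κ
  have e2 := traceOne_eq (K := κ) hκ (f := f) (D := 1) (by
    rw [Int.cast_one]; exact one_ne_zero) hlc
  rw [Int.cast_one, map_one] at e2
  rw [e2]
  have hlc' : Int.castRingHom κ f.leadingCoeff ≠ 0 := hlc
  have hdeg : (f.map (Int.castRingHom κ)).natDegree = f.natDegree :=
    natDegree_map_of_leadingCoeff_ne_zero _ hlc'
  have hlead : (f.map (Int.castRingHom κ)).leadingCoeff = (f.leadingCoeff : κ) := by
    rw [leadingCoeff_map_of_leadingCoeff_ne_zero _ hlc']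
    rfl
  have hcard : (Nat.card {z : κ × κ // d * z.2 ^ 2 = aeval z.1 f} : ℤ) =
      Nat.card κ + quadraticChar κ d * charSum κ (f.map (Int.castRingHom κ)) := by
    have e : {z : κ × κ // d * z.2 ^ 2 = aeval z.1 f} ≃
        (Σ x : κ, {w : κ // d * w ^ 2 = aeval x f}) :=
      { toFun := fun z => ⟨z.1.1, z.1.2, z.2⟩
        invFun := fun z => ⟨(z.1, z.2.1), z.2.2⟩
        left_inv := fun _ => rfl
        right_inv := fun _ => rfl }
    rw [Nat.card_congr e, Nat.card_sigma]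
    push_cast
    rw [Finset.sum_congr rfl fun x _ => card_sqrt hκ hd (aeval x f)]
    rw [Finset.sum_add_distrib, ← Finset.mul_sum]
    congr 1
    · simp [Nat.card_eq_fintype_card]
    · congr 1
      rw [charSum]
      refine Finset.sum_congr rfl fun x _ => ?_
      rw [eval_map, aeval_def]
      rfl
  have hqc : qc κ d = quadraticChar κ d := by
    unfold qc
    congr
  unfold traceOneAt numPointsAt fullSum
  push_cast
  rw [hcard, hdeg, hlead, hqc]
  split_ifs with h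
  · push_cast
    ring
  · rw [card_sqrt hκ hd]
    ring

lemma traceAt_eq {r : ℕ} (f : Fin r → ℤ[X]) (i : ℕ) (d : Fin r → κ) :
    (traceAt f i d : ℝ) = Real.sqrt (Nat.card κ) ^ i *
      (nP (fun j => (traceOneAt (f j) (d j) : ℝ) / Real.sqrt (Nat.card κ))).coeff i := by
  have hq : (0 : ℝ) < Nat.card κ := by exact_mod_cast Nat.card_pos
  have hs : 0 < Real.sqrt (Nat.card κ) := Real.sqrt_pos.mpr hq
  rw [← nP_scale]
  have h1 : (traceAt f i d : ℝ) = ((∏ j, (1 + C (traceOneAt (f j) (d j)) * X +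
      C (Nat.card κ : ℤ) * X ^ 2)).map (Int.castRingHom ℝ)).coeff i := by
    rw [coeff_map]
    rfl
  rw [h1, Polynomial.map_prod]
  congr 1
  refine Finset.prod_congr rfl fun j _ => ?_
  have h2 : Real.sqrt (Nat.card κ) * ((traceOneAt (f j) (d j) : ℝ) / Real.sqrt (Nat.card κ)) =
      (traceOneAt (f j) (d j) : ℝ) := by
    field_simp
  rw [h2, Real.sq_sqrt hq.le]
  simp

end

section

variable {r : ℕ} {f : Fin r → ℤ[X]} {K : Type} [Field K] [NumberField K] {δ : Fin r → 𝓞 K}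
  {p : Nat.Primes}

lemma GoodK.good (h : GoodK f K δ p) : Good f (fun _ => 1) p := by
  refine ⟨h.1, fun j => ⟨?_, (h.2.2 j).2⟩⟩
  intro h1
  exact (Nat.prime_iff_prime_int.mp p.2).not_dvd_one h1

lemma GoodK.ne_zero (h : GoodK f K δ p) {k : ℕ} (φ : 𝓞 K →+* Fq p k) (j : Fin r) : φ (δ j) ≠ 0 :=
  hom_ne_zero (h.2.2 j).1 (charP_Fq p k) φ

lemma GoodK.norm_traceOneAt (h : GoodK f K δ p) {k : ℕ} (φ : 𝓞 K →+* Fq p k) (j : Fin r) :
    (traceOneAt (f j) (φ (δ j)) : ℝ) / Real.sqrt (Nat.card (Fq p k)) =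
      qc (Fq p k) (φ (δ j)) * nx f (fun _ => 1) (Fq p k) j := by
  have hK : ringChar (Fq p k) ≠ 2 := by rw [ringChar_Fq]; exact h.1
  rw [traceOneAt_eq hK (h.ne_zero φ j) (intCast_Fq_ne_zero p k (h.2.2 j).2.1), nx]
  push_cast
  ring

lemma traceAt_le (hf : ∀ j, IsCurve (f j)) (h : GoodK f K δ p) {k : ℕ} (hk : k ≠ 0) (i : ℕ)
    (φ : 𝓞 K →+* Fq p k) : |(traceAt f i (fun j => φ (δ j)) : ℝ)| ≤
      Real.sqrt (Nat.card (Fq p k)) ^ i * betti f i := by
  rw [traceAt_eq, abs_mul, abs_of_nonneg (pow_nonneg (Real.sqrt_nonneg _) i), betti_eq]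
  refine mul_le_mul_of_nonneg_left (nP_coeff_le (fun j => ?_) i)
    (pow_nonneg (Real.sqrt_nonneg _) i)
  rw [h.norm_traceOneAt φ j, abs_mul]
  have h1 : |((qc (Fq p k) (φ (δ j)) : ℤ) : ℝ)| ≤ 1 := by exact_mod_cast qc_abs_le (φ (δ j))
  have h2 := nx_le hf h.good hk j
  calc _ ≤ 1 * |nx f (fun _ => 1) (Fq p k) j| := mul_le_mul_of_nonneg_right h1 (abs_nonneg _)
    _ = |nx f (fun _ => 1) (Fq p k) j| := one_mul _
    _ ≤ _ := h2

lemma weil_traceK (hf : ∀ j, IsCurve (f j)) (i : ℕ) :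
    WeilBound (GoodK f K δ) (fun p k => (traceK f K δ i (Fq p k) : ℂ)) i
      (Module.finrank ℚ K * betti f i) := by
  classical
  intro p hp k hk
  have : Fintype (𝓞 K →+* Fq p k) := Fintype.ofFinite _
  have h2 : (Nat.card (Fq p k) : ℝ) = ((p : ℕ) : ℝ) ^ k := by
    rw [card_Fq p hk]
    push_cast
    rfl
  rw [Complex.norm_intCast, traceK, finsum_eq_sum_of_fintype]
  push_cast
  refine (Finset.abs_sum_le_sum_abs _ _).trans ?_
  refine (Finset.sum_le_card_nsmul Finset.univ _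
    (Real.sqrt (Nat.card (Fq p k)) ^ i * betti f i) fun φ _ => traceAt_le hf hp hk i φ).trans ?_
  rw [nsmul_eq_mul, Finset.card_univ, ← Nat.card_eq_fintype_card, h2]
  have h3 : ((Nat.card (𝓞 K →+* Fq p k) : ℕ) : ℝ) ≤ Module.finrank ℚ K := by
    exact_mod_cast card_homs_le K (Fq p k)
  have h4 : 0 ≤ Real.sqrt (((p : ℕ) : ℝ) ^ k) ^ i * (betti f i : ℝ) :=
    mul_nonneg (pow_nonneg (Real.sqrt_nonneg _) _) (Nat.cast_nonneg _)
  calc _ ≤ (Module.finrank ℚ K : ℝ) * (Real.sqrt (((p : ℕ) : ℝ) ^ k) ^ i * (betti f i : ℝ)) :=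
        mul_le_mul_of_nonneg_right h3 h4
    _ = _ := by ring

/-- the normalised traces -/
noncomputable def ntrK (f : Fin r → ℤ[X]) (K : Type) [Field K] [NumberField K] (δ : Fin r → 𝓞 K)
    (i : ℕ) (p : Nat.Primes) : ℝ :=
  (nt (GoodK f K δ) (fun p k => (traceK f K δ i (Fq p k) : ℂ)) i p).re

lemma ntrK_expand (h : GoodK f K δ p) (i : ℕ) :
    ntrK f K δ i p = idc K (p : ℕ) * (fixedPart r i : ℝ) +
      ∑ S ∈ contrib r i, theta K (∏ j ∈ S, δ j) p * cS f i S p := by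
  classical
  have : Fintype (𝓞 K →+* Fq p 1) := Fintype.ofFinite _
  have hF : Fact (p : ℕ).Prime := ⟨p.2⟩
  have hcard : Nat.card (Fq p 1) = (p : ℕ) := by rw [card_Fq p one_ne_zero, pow_one]
  have hp0 : (0 : ℝ) < ((p : ℕ) : ℝ) := by exact_mod_cast p.2.pos
  have hs : Real.sqrt ((p : ℕ) : ℝ) ^ i ≠ 0 := (pow_pos (Real.sqrt_pos.mpr hp0) i).ne'
  have h1 : ∀ φ : 𝓞 K →+* Fq p 1, (traceAt f i (fun j => φ (δ j)) : ℝ) =
      Real.sqrt ((p : ℕ) : ℝ) ^ i * ((fixedPart r i : ℝ) +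
        ∑ S ∈ contrib r i, (qc (Fq p 1) (φ (∏ j ∈ S, δ j)) : ℝ) * cS f i S p) := by
    intro φ
    rw [traceAt_eq, hcard]
    congr 1
    have h2 : (fun j => (traceOneAt (f j) (φ (δ j)) : ℝ) / Real.sqrt ((p : ℕ) : ℝ)) =
        fun j => (qc (Fq p 1) (φ (δ j)) : ℝ) * nx f (fun _ => 1) (Fq p 1) j := by
      funext j
      rw [← h.norm_traceOneAt φ j, hcard]
    rw [h2, nP_expand, sum_split, Finset.prod_empty, one_mul]
    congr 1
    refine Finset.sum_congr rfl fun S _ => ?_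
    rw [cS, if_pos h.good, map_prod, qc_prod]
    push_cast
    rw [Finset.prod_mul_distrib]
    ring
  have h3 : (traceK f K δ i (Fq p 1) : ℝ) = Real.sqrt ((p : ℕ) : ℝ) ^ i *
      (idc K (p : ℕ) * (fixedPart r i : ℝ) +
        ∑ S ∈ contrib r i, theta K (∏ j ∈ S, δ j) p * cS f i S p) := by
    rw [traceK, finsum_eq_sum_of_fintype]
    push_cast
    rw [Finset.sum_congr rfl fun φ _ => h1 φ, ← Finset.mul_sum, Finset.sum_add_distrib]
    congr 2
    · rw [Finset.sum_const, nsmul_eq_mul, Finset.card_univ, ← Nat.card_eq_fintype_card,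
        card_homs_eq hcard]
    · rw [Finset.sum_comm]
      refine Finset.sum_congr rfl fun S _ => ?_
      rw [theta, finsum_eq_sum_of_fintype, Finset.sum_mul]
  rw [ntrK, nt, if_pos h]
  have h4 : ((traceK f K δ i (Fq p 1) : ℤ) : ℂ) / ((Real.sqrt ((p : ℕ) : ℝ) ^ i : ℝ) : ℂ) =
      (((traceK f K δ i (Fq p 1) : ℝ) / Real.sqrt ((p : ℕ) : ℝ) ^ i : ℝ) : ℂ) := by
    push_cast
    rfl
  rw [h4, Complex.ofReal_re, h3]
  field_simp

lemma bettiK_nonneg (f : Fin r → ℤ[X]) (K : Type) [Field K] [NumberField K] (i : ℕ) :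
    (0 : ℝ) ≤ Module.finrank ℚ K * betti f i := mul_nonneg (Nat.cast_nonneg _) (Nat.cast_nonneg _)

/-- The order at `s₀` is minus the mean value of the normalised traces. -/
theorem order_meanK (hf : ∀ j, IsCurve (f j)) {i : ℕ} {F : ℂ → ℂ}
    (hF : IsContinuationK f K δ i F) :
    ∃ n : ℤ, meromorphicOrderAt F ((i : ℂ) / 2 + 1) = n ∧ MV (ntrK f K δ i) (-(n : ℝ)) := by
  obtain ⟨n, h1, h2⟩ := order_of_euler (bettiK_nonneg f K i) (weil_traceK hf i) hF.1 hF.2
  exact ⟨n, h1, ⟨⟨_, nt_le (bettiK_nonneg f K i) (weil_traceK hf i)⟩, h2⟩⟩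

end

section

variable {r : ℕ} {f : Fin r → ℤ[X]} {K : Type} [Field K] [NumberField K] [IsGalois ℚ K]

/-- the contributing sets satisfy the conditions in `IndependentK` -/
lemma contrib_cond {i : ℕ} {S : Finset (Fin r)} (hS : S ∈ contrib r i) :
    S.Nonempty ∧ S.card ≤ i ∧ Even (i - S.card) ∧ (i - S.card) / 2 ≤ r - S.card := by
  rw [contrib, Finset.mem_filter] at hS
  obtain ⟨-, h1, h2⟩ := hS
  rw [mult] at h2
  by_cases h3 : S.card ≤ i ∧ Even (i - S.card)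
  · rw [if_pos h3] at h2
    exact ⟨h1, h3.1, h3.2, by
      by_contra h4
      push Not at h4
      exact h2 (Nat.choose_eq_zero_of_lt h4)⟩
  · rw [if_neg h3] at h2
    exact absurd rfl h2

lemma orth_familyK {ι : Type*} [DecidableEq ι] {i : ℕ} {D : ι → Fin r → 𝓞 K}
    (h0 : ∀ k j, D k j ≠ 0)
    (hind : ∀ k l, ∀ σ : K ≃ₐ[ℚ] K, (k ≠ l ∨ σ ≠ 1) → IndependentK i (D k) (D l) σ) (k l : ι)
    {S : Finset (Fin r)} (hS : S ∈ contrib r i) :
    MV (fun p => theta K (∏ j ∈ S, D k j) p * theta K (∏ j ∈ S, D l j) p)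
      (if k = l then 1 else 0) := by
  classical
  have hne : ∀ k, ∏ j ∈ S, D k j ≠ 0 := fun k => Finset.prod_ne_zero_iff.mpr fun j _ => h0 k j
  have h1 := MV_theta_mul (hne k) (hne l)
  have hcoe : ∀ k, ((∏ j ∈ S, D k j : 𝓞 K) : K) = ∏ j ∈ S, (D k j : K) := fun k =>
    map_prod (algebraMap (𝓞 K) K) _ _
  obtain ⟨c1, c2, c3, c4⟩ := contrib_cond hS
  have h2 : (∑ g : K ≃ₐ[ℚ] K, if IsSquare (((∏ j ∈ S, D k j : 𝓞 K) : K) *
      g ((∏ j ∈ S, D l j : 𝓞 K) : K)) then (1 : ℝ) else 0) = if k = l then 1 else 0 := by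
    rw [hcoe, hcoe]
    split_ifs with hkl
    · subst hkl
      rw [Finset.sum_eq_single 1]
      · rw [if_pos]
        exact ⟨∏ j ∈ S, (D k j : K), by rw [AlgEquiv.one_apply]⟩
      · intro g _ hg
        rw [if_neg]
        exact hind k k g (Or.inr hg) S c1 c2 c3 c4
      · intro h
        exact absurd (Finset.mem_univ _) h
    · refine Finset.sum_eq_zero fun g _ => ?_
      rw [if_neg]
      exact hind k l g (Or.inl hkl) S c1 c2 c3 c4
  rwa [h2] at h1

/-- **Bessel's inequality for the orders at `s₀` in a family of twists over a Galois number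
field.** -/
theorem familyK_bessel (hf : ∀ j, IsCurve (f j)) (i : ℕ) {ι : Type*} (D : ι → Fin r → 𝓞 K)
    (h0 : ∀ k j, D k j ≠ 0)
    (hind : ∀ k l, ∀ σ : K ≃ₐ[ℚ] K, (k ≠ l ∨ σ ≠ 1) → IndependentK i (D k) (D l) σ)
    (F : ι → ℂ → ℂ) (hF : ∀ k, IsContinuationK f K (D k) i (F k)) (m : ι → ℤ)
    (hm : ∀ k, meromorphicOrderAt (F k) ((i : ℂ) / 2 + 1) = m k) (s : Finset ι) :
    (Module.finrank ℚ K : ℤ) * ∑ k ∈ s, (m k + (fixedPart r i : ℤ)) ^ 2 ≤
      ((betti f i : ℤ) - (fixedPart r i : ℤ)) ^ 2 := by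
  classical
  have hN : (0 : ℝ) < Module.finrank ℚ K := by exact_mod_cast Module.finrank_pos
  have hω : 0 < (Module.finrank ℚ K : ℝ)⁻¹ := inv_pos.mpr hN
  have hw : MV (fun p => (Module.finrank ℚ K : ℝ)⁻¹ * (idc K (p : ℕ) : ℝ))
      (Module.finrank ℚ K : ℝ)⁻¹ := by
    have := (MV_idc K).const_mul (Module.finrank ℚ K : ℝ)⁻¹
    rwa [mul_one] at this
  have h1 := bessel_weighted s (contrib r i) (fun k S p => theta K (∏ j ∈ S, D k j) p)
    (fun p => (Module.finrank ℚ K : ℝ)⁻¹ * (idc K (p : ℕ) : ℝ)) hω hw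
    (fun k _ l _ S hS => orth_familyK h0 hind k l hS)
    (cS f i) (gS f i) (freeSet K) (by
      intro p hp
      refine ⟨mul_nonneg hω.le (Nat.cast_nonneg _), ?_⟩
      have hFt : Fintype (𝓞 K →+* Fq p 1) := Fintype.ofFinite _
      rcases isEmpty_or_nonempty (𝓞 K →+* Fq p 1) with he | ⟨⟨φ⟩⟩
      · right
        intro k _ S _
        rw [theta, finsum_eq_sum_of_fintype, Finset.univ_eq_empty, Finset.sum_empty]
      · left
        rw [card_homs_galois K hp φ, inv_mul_cancel₀ hN.ne']) (fun S _ p _ => cS_le hf i S p)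
    (fun k => (m k : ℝ) + fixedPart r i) (by
      intro k _
      obtain ⟨n, hn, hmv⟩ := order_meanK hf (hF k)
      have hnm : n = m k := by
        have := hm k
        rw [hn] at this
        exact_mod_cast this
      rw [hnm] at hmv
      obtain ⟨⟨T, Q, hT, -⟩, -⟩ := hF k
      have h2 := hmv.add ((MV_idc K).const_mul (-(fixedPart r i : ℝ)))
      have h3 : -(m k : ℝ) + -(fixedPart r i : ℝ) * 1 = -((m k : ℝ) + fixedPart r i) := by ring
      rw [h3] at h2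
      refine h2.congr ?_ T ?_
      · exact BD.sum _ fun S _ => (theta_BD K _).mul ⟨gS f i S, cS_le hf i S⟩
      · intro p hp
        have hg : GoodK f K (D k) p := by
          by_contra h
          exact hp (hT p h)
        rw [ntrK_expand hg]
        ring)
  rw [sum_gS] at h1
  have h2 : (Module.finrank ℚ K : ℝ) * ∑ k ∈ s, ((m k : ℝ) + fixedPart r i) ^ 2 ≤
      ((betti f i : ℝ) - fixedPart r i) ^ 2 := by
    have h3 := mul_le_mul_of_nonneg_left h1 hN.le
    rwa [← mul_assoc, mul_inv_cancel₀ hN.ne', one_mul] at h3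
  exact_mod_cast h2

/-- The exceptional set. -/
theorem familyK_encard (hf : ∀ j, IsCurve (f j)) (i : ℕ) {ι : Type*} (D : ι → Fin r → 𝓞 K)
    (h0 : ∀ k j, D k j ≠ 0)
    (hind : ∀ k l, ∀ σ : K ≃ₐ[ℚ] K, (k ≠ l ∨ σ ≠ 1) → IndependentK i (D k) (D l) σ)
    (F : ι → ℂ → ℂ) (hF : ∀ k, IsContinuationK f K (D k) i (F k)) (m : ι → ℤ)
    (hm : ∀ k, meromorphicOrderAt (F k) ((i : ℂ) / 2 + 1) = m k) :
    {k | m k ≠ -(fixedPart r i : ℤ)}.encard ≤
      ((betti f i - fixedPart r i) ^ 2 / Module.finrank ℚ K : ℕ) := by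
  refine encard_le_of_finset fun t ht => ?_
  have h1 := familyK_bessel hf i D h0 hind F hF m hm t
  have h2 : ((t.card : ℕ) : ℤ) ≤ ∑ k ∈ t, (m k + (fixedPart r i : ℤ)) ^ 2 := by
    rw [← nsmul_one, ← Finset.sum_const]
    refine Finset.sum_le_sum fun k hk => ?_
    have h3 : m k + (fixedPart r i : ℤ) ≠ 0 := by
      intro h
      exact ht hk (by omega)
    have h4 : 0 < (m k + (fixedPart r i : ℤ)) ^ 2 := by positivity
    omega
  have h3 := fixedPart_le f i
  have hN : 0 < Module.finrank ℚ K := Module.finrank_pos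
  rw [Nat.le_div_iff_mul_le hN]
  have h4 : (((betti f i - fixedPart r i) ^ 2 : ℕ) : ℤ) = ((betti f i : ℤ) - (fixedPart r i : ℤ)) ^ 2 := by
    rw [Nat.cast_pow, Nat.cast_sub h3]
  have h5 : ((t.card * Module.finrank ℚ K : ℕ) : ℤ) ≤
      (((betti f i - fixedPart r i) ^ 2 : ℕ) : ℤ) := by
    rw [h4]
    refine le_trans ?_ h1
    push_cast
    rw [mul_comm]
    exact mul_le_mul_of_nonneg_left h2 (Nat.cast_nonneg _)
  exact_mod_cast h5

end

end Pool.Agent.Work.MP_2b9663_nt
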