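import Pool.Agent.Work.MP_2b9663_nt.InvDefs
import Pool.Agent.Work.MP_2b9663_nt.TraceK

set_option autoImplicit false

/-!
Bessel's inequality for the twists of a variety with commuting involutions.
-/

namespace Pool.Agent.Work.MP_2b9663_nt

open Polynomial NumberField

lemma sqChar_eq_qc {κ : Type} [Field κ] [Finite κ] (hκ : ringChar κ ≠ 2) (a : κ) :
    sqChar κ a = qc κ a := by
  rw [sqChar, card_sq hκ]
  ring

lemma sqChar_abs_le {κ : Type} [Field κ] [Finite κ] (a : κ) : |sqChar κ a| ≤ 1 := by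
  by_cases hκ : ringChar κ = 2
  · have h2 : CharP κ 2 := by
      rw [← hκ]
      exact ringChar.charP κ
    have h3 : Nat.card {y : κ // y ^ 2 = a} ≤ 1 := by
      rw [Finite.card_le_one_iff_subsingleton]
      refine ⟨fun x y => Subtype.ext ?_⟩
      exact frobenius_inj κ 2 (by rw [frobenius_def, frobenius_def, x.2, y.2])
    rw [sqChar, abs_le]
    constructor
    · have : (0 : ℤ) ≤ Nat.card {y : κ // y ^ 2 = a} := Int.natCast_nonneg _
      omega
    · have : (Nat.card {y : κ // y ^ 2 = a} : ℤ) ≤ 1 := by exact_mod_cast h3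
      omega
  · rw [sqChar_eq_qc hκ]
    exact qc_abs_le a

section

variable {r : ℕ} {S₀ : Finset Nat.Primes} {i : ℕ} {b : Finset (Fin r) → ℕ}
  {t : Finset (Fin r) → Nat.Primes → ℕ → ℝ} {K : Type} [Field K] [NumberField K]

lemma weil_twist (ht : IsInvolutionData S₀ i b t) (δ : Fin r → 𝓞 K) :
    WeilBound (fun p => p ∉ S₀) (fun p k => (twistTrace t K δ p k : ℂ)) i
      (Module.finrank ℚ K * ∑ S, b S : ℕ) := by
  classical
  intro p hp k hk
  have : Fintype (𝓞 K →+* Fq p k) := Fintype.ofFinite _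
  rw [Complex.norm_real, Real.norm_eq_abs, twistTrace, finsum_eq_sum_of_fintype]
  refine (Finset.abs_sum_le_sum_abs _ _).trans ?_
  refine (Finset.sum_le_card_nsmul Finset.univ _
    (∑ S, (b S : ℝ) * Real.sqrt (((p : ℕ) : ℝ) ^ k) ^ i) fun φ _ => ?_).trans ?_
  · refine (Finset.abs_sum_le_sum_abs _ _).trans (Finset.sum_le_sum fun S _ => ?_)
    rw [abs_mul]
    have h1 : |((sqChar (Fq p k) (∏ j ∈ S, φ (δ j)) : ℤ) : ℝ)| ≤ 1 := by
      exact_mod_cast sqChar_abs_le (∏ j ∈ S, φ (δ j))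
    calc _ ≤ 1 * |t S p k| := mul_le_mul_of_nonneg_right h1 (abs_nonneg _)
      _ = |t S p k| := one_mul _
      _ ≤ _ := (ht p hp k hk).2 S
  · rw [nsmul_eq_mul, Finset.card_univ, ← Nat.card_eq_fintype_card, ← Finset.sum_mul]
    have h3 : ((Nat.card (𝓞 K →+* Fq p k) : ℕ) : ℝ) ≤ Module.finrank ℚ K := by
      exact_mod_cast card_homs_le K (Fq p k)
    push_cast
    rw [← mul_assoc]
    refine mul_le_mul_of_nonneg_right ?_ (pow_nonneg (Real.sqrt_nonneg _) _)
    exact mul_le_mul_of_nonneg_right h3 (Finset.sum_nonneg fun S _ => Nat.cast_nonneg _)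

open Classical in
/-- the normalised trace on the part `V S` -/
noncomputable def partTrace (S₀ : Finset Nat.Primes) (t : Finset (Fin r) → Nat.Primes → ℕ → ℝ)
    (i : ℕ) (S : Finset (Fin r)) (p : Nat.Primes) : ℝ :=
  if p ∉ S₀ then t S p 1 / Real.sqrt ((p : ℕ) : ℝ) ^ i else 0

lemma partTrace_le (ht : IsInvolutionData S₀ i b t) (S : Finset (Fin r)) (p : Nat.Primes) :
    |partTrace S₀ t i S p| ≤ b S := by
  by_cases hp : p ∉ S₀
  · have hp0 : (0 : ℝ) < ((p : ℕ) : ℝ) := by exact_mod_cast p.2.pos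
    have hs : 0 < Real.sqrt ((p : ℕ) : ℝ) ^ i := pow_pos (Real.sqrt_pos.mpr hp0) i
    have h1 := (ht p hp 1 one_ne_zero).2 S
    rw [pow_one] at h1
    rw [partTrace, if_pos hp, abs_div, abs_of_pos hs, div_le_iff₀ hs]
    exact h1
  · rw [partTrace, if_neg hp, abs_zero]
    exact Nat.cast_nonneg _

/-- the nonempty sets with a nonzero part -/
def parts (b : Finset (Fin r) → ℕ) : Finset (Finset (Fin r)) :=
  Finset.univ.filter fun S => S.Nonempty ∧ b S ≠ 0

/-- the normalised traces of the twist -/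
noncomputable def ntwist (S₀ : Finset Nat.Primes) (t : Finset (Fin r) → Nat.Primes → ℕ → ℝ)
    (K : Type) [Field K] [NumberField K] (δ : Fin r → 𝓞 K) (i : ℕ) (p : Nat.Primes) : ℝ :=
  (nt (fun p => p ∉ S₀) (fun p k => (twistTrace t K δ p k : ℂ)) i p).re

lemma ntwist_expand (ht : IsInvolutionData S₀ i b t) (δ : Fin r → 𝓞 K) {p : Nat.Primes}
    (hp : p ∉ S₀) (hp2 : (p : ℕ) ≠ 2) :
    ntwist S₀ t K δ i p = idc K (p : ℕ) * (b ∅ : ℝ) +
      ∑ S ∈ parts b, theta K (∏ j ∈ S, δ j) p * partTrace S₀ t i S p := by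
  classical
  have : Fintype (𝓞 K →+* Fq p 1) := Fintype.ofFinite _
  have hF : Fact (p : ℕ).Prime := ⟨p.2⟩
  have hcard : Nat.card (Fq p 1) = (p : ℕ) := by rw [card_Fq p one_ne_zero, pow_one]
  have hK : ringChar (Fq p 1) ≠ 2 := by rw [ringChar_Fq]; exact hp2
  have hp0 : (0 : ℝ) < ((p : ℕ) : ℝ) := by exact_mod_cast p.2.pos
  have hs : Real.sqrt ((p : ℕ) : ℝ) ^ i ≠ 0 := (pow_pos (Real.sqrt_pos.mpr hp0) i).ne'
  have h1 : twistTrace t K δ p 1 = Real.sqrt ((p : ℕ) : ℝ) ^ i *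
      ∑ φ : 𝓞 K →+* Fq p 1, ∑ S : Finset (Fin r),
        (qc (Fq p 1) (φ (∏ j ∈ S, δ j)) : ℝ) * partTrace S₀ t i S p := by
    rw [twistTrace, finsum_eq_sum_of_fintype, Finset.mul_sum]
    refine Finset.sum_congr rfl fun φ _ => ?_
    rw [Finset.mul_sum]
    refine Finset.sum_congr rfl fun S _ => ?_
    rw [sqChar_eq_qc hK, partTrace, if_pos hp, map_prod]
    field_simp
  have h2 : ∀ φ : 𝓞 K →+* Fq p 1, ∑ S : Finset (Fin r),
      (qc (Fq p 1) (φ (∏ j ∈ S, δ j)) : ℝ) * partTrace S₀ t i S p = (b ∅ : ℝ) +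
      ∑ S ∈ parts b, (qc (Fq p 1) (φ (∏ j ∈ S, δ j)) : ℝ) * partTrace S₀ t i S p := by
    intro φ
    rw [← Finset.add_sum_erase Finset.univ _ (Finset.mem_univ (∅ : Finset (Fin r)))]
    congr 1
    · rw [Finset.prod_empty, map_one, qc_one, Int.cast_one, one_mul, partTrace, if_pos hp,
        (ht p hp 1 one_ne_zero).1, pow_one, mul_div_assoc, div_self hs, mul_one]
    · symm
      refine Finset.sum_subset ?_ ?_
      · intro S hS
        rw [parts, Finset.mem_filter] at hS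
        rw [Finset.mem_erase]
        exact ⟨hS.2.1.ne_empty, Finset.mem_univ _⟩
      · intro S hS hS'
        rw [Finset.mem_erase] at hS
        rw [parts, Finset.mem_filter] at hS'
        have h3 : b S = 0 := by
          by_contra h
          exact hS' ⟨Finset.mem_univ _, Finset.nonempty_iff_ne_empty.mpr hS.1, h⟩
        have h4 := partTrace_le ht S p
        rw [h3, Nat.cast_zero] at h4
        rw [abs_nonpos_iff.mp h4, mul_zero]
  rw [ntwist, nt, if_pos hp]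
  have h4 : ((twistTrace t K δ p 1 : ℝ) : ℂ) / ((Real.sqrt ((p : ℕ) : ℝ) ^ i : ℝ) : ℂ) =
      ((twistTrace t K δ p 1 / Real.sqrt ((p : ℕ) : ℝ) ^ i : ℝ) : ℂ) := by
    push_cast
    rfl
  rw [h4, Complex.ofReal_re, h1, mul_div_assoc, mul_comm, div_mul_cancel₀ _ hs,
    Finset.sum_congr rfl fun φ _ => h2 φ, Finset.sum_add_distrib]
  congr 1
  · rw [Finset.sum_const, nsmul_eq_mul, Finset.card_univ, ← Nat.card_eq_fintype_card,
      card_homs_eq hcard]
  · rw [Finset.sum_comm]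
    refine Finset.sum_congr rfl fun S _ => ?_
    rw [theta, finsum_eq_sum_of_fintype, Finset.sum_mul]

/-- The order at `s₀` is minus the mean value of the normalised traces. -/
theorem order_twist (ht : IsInvolutionData S₀ i b t) {δ : Fin r → 𝓞 K} {F : ℂ → ℂ}
    (hF : IsTwistContinuation S₀ t i K δ F) :
    ∃ n : ℤ, meromorphicOrderAt F ((i : ℂ) / 2 + 1) = n ∧ MV (ntwist S₀ t K δ i) (-(n : ℝ)) := by
  obtain ⟨n, h1, h2⟩ := order_of_euler (Nat.cast_nonneg _) (weil_twist ht δ) hF.1 hF.2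
  exact ⟨n, h1, ⟨⟨_, nt_le (Nat.cast_nonneg _) (weil_twist ht δ)⟩, h2⟩⟩

variable [IsGalois ℚ K]

lemma orth_twist {ι : Type*} [DecidableEq ι] {D : ι → Fin r → 𝓞 K} (h0 : ∀ k j, D k j ≠ 0)
    (hind : ∀ k l, ∀ σ : K ≃ₐ[ℚ] K, (k ≠ l ∨ σ ≠ 1) → IndependentTwists b (D k) (D l) σ) (k l : ι)
    {S : Finset (Fin r)} (hS : S ∈ parts b) :
    MV (fun p => theta K (∏ j ∈ S, D k j) p * theta K (∏ j ∈ S, D l j) p)
      (if k = l then 1 else 0) := by
  classical
  have hne : ∀ k, ∏ j ∈ S, D k j ≠ 0 := fun k => Finset.prod_ne_zero_iff.mpr fun j _ => h0 k j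
  have h1 := MV_theta_mul (hne k) (hne l)
  have hcoe : ∀ k, ((∏ j ∈ S, D k j : 𝓞 K) : K) = ∏ j ∈ S, (D k j : K) := fun k =>
    map_prod (algebraMap (𝓞 K) K) _ _
  rw [parts, Finset.mem_filter] at hS
  obtain ⟨-, c1, c2⟩ := hS
  have h2 : (∑ g : K ≃ₐ[ℚ] K, if IsSquare (((∏ j ∈ S, D k j : 𝓞 K) : K) *
      g ((∏ j ∈ S, D l j : 𝓞 K) : K)) then (1 : ℝ) else 0) = if k = l then 1 else 0 := by
    rw [hcoe, hcoe]
    split_ifs with hkl
    · subst hkl
      rw [Finset.sum_eq_single 1]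
      · rw [if_pos]
        exact ⟨∏ j ∈ S, (D k j : K), by rw [AlgEquiv.one_apply]⟩
      · intro g _ hg
        rw [if_neg]
        exact hind k k g (Or.inr hg) S c1 c2
      · intro h
        exact absurd (Finset.mem_univ _) h
    · refine Finset.sum_eq_zero fun g _ => ?_
      rw [if_neg]
      exact hind k l g (Or.inl hkl) S c1 c2
  rwa [h2] at h1

lemma sum_parts (b : Finset (Fin r) → ℕ) :
    ∑ S ∈ parts b, (b S : ℝ) = ∑ S : Finset (Fin r), (b S : ℝ) - b ∅ := by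
  classical
  rw [← Finset.add_sum_erase Finset.univ _ (Finset.mem_univ (∅ : Finset (Fin r))),
    add_sub_cancel_left]
  refine Finset.sum_subset ?_ ?_
  · intro S hS
    rw [parts, Finset.mem_filter] at hS
    rw [Finset.mem_erase]
    exact ⟨hS.2.1.ne_empty, Finset.mem_univ _⟩
  · intro S hS hS'
    rw [Finset.mem_erase] at hS
    rw [parts, Finset.mem_filter] at hS'
    have h3 : b S = 0 := by
      by_contra h
      exact hS' ⟨Finset.mem_univ _, Finset.nonempty_iff_ne_empty.mpr hS.1, h⟩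
    rw [h3, Nat.cast_zero]

/-- **Bessel's inequality for the orders at `s₀` in a family of twists of a variety with commuting
involutions over a Galois number field.** -/
theorem twist_bessel (ht : IsInvolutionData S₀ i b t) {ι : Type*} (D : ι → Fin r → 𝓞 K)
    (h0 : ∀ k j, D k j ≠ 0)
    (hind : ∀ k l, ∀ σ : K ≃ₐ[ℚ] K, (k ≠ l ∨ σ ≠ 1) → IndependentTwists b (D k) (D l) σ)
    (F : ι → ℂ → ℂ) (hF : ∀ k, IsTwistContinuation S₀ t i K (D k) (F k)) (m : ι → ℤ)
    (hm : ∀ k, meromorphicOrderAt (F k) ((i : ℂ) / 2 + 1) = m k) (s : Finset ι) :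
    (Module.finrank ℚ K : ℤ) * ∑ k ∈ s, (m k + (b ∅ : ℤ)) ^ 2 ≤ ((∑ S, b S : ℕ) - (b ∅ : ℤ)) ^ 2 := by
  classical
  have hN : (0 : ℝ) < Module.finrank ℚ K := by exact_mod_cast Module.finrank_pos
  have hω : 0 < (Module.finrank ℚ K : ℝ)⁻¹ := inv_pos.mpr hN
  have hw : MV (fun p => (Module.finrank ℚ K : ℝ)⁻¹ * (idc K (p : ℕ) : ℝ))
      (Module.finrank ℚ K : ℝ)⁻¹ := by
    have := (MV_idc K).const_mul (Module.finrank ℚ K : ℝ)⁻¹
    rwa [mul_one] at this
  have h1 := bessel_weighted s (parts b) (fun k S p => theta K (∏ j ∈ S, D k j) p)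
    (fun p => (Module.finrank ℚ K : ℝ)⁻¹ * (idc K (p : ℕ) : ℝ)) hω hw
    (fun k _ l _ S hS => orth_twist h0 hind k l hS)
    (partTrace S₀ t i) (fun S => (b S : ℝ)) (freeSet K) (by
      intro p hp
      refine ⟨mul_nonneg hω.le (Nat.cast_nonneg _), ?_⟩
      have hFt : Fintype (𝓞 K →+* Fq p 1) := Fintype.ofFinite _
      rcases isEmpty_or_nonempty (𝓞 K →+* Fq p 1) with he | ⟨⟨φ⟩⟩
      · right
        intro k _ S _
        rw [theta, finsum_eq_sum_of_fintype, Finset.univ_eq_empty, Finset.sum_empty]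
      · left
        rw [card_homs_galois K hp φ, inv_mul_cancel₀ hN.ne'])
    (fun S _ p _ => partTrace_le ht S p)
    (fun k => (m k : ℝ) + b ∅) (by
      intro k _
      obtain ⟨n, hn, hmv⟩ := order_twist ht (hF k)
      have hnm : n = m k := by
        have := hm k
        rw [hn] at this
        exact_mod_cast this
      rw [hnm] at hmv
      have h2 := hmv.add ((MV_idc K).const_mul (-(b ∅ : ℝ)))
      have h3 : -(m k : ℝ) + -(b ∅ : ℝ) * 1 = -((m k : ℝ) + b ∅) := by ring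
      rw [h3] at h2
      refine h2.congr ?_ (S₀ ∪ smallPrimes 3) ?_
      · exact BD.sum _ fun S _ => (theta_BD K _).mul ⟨b S, partTrace_le ht S⟩
      · intro p hp
        rw [Finset.mem_union, not_or, mem_smallPrimes] at hp
        rw [ntwist_expand ht (D k) hp.1 (by omega)]
        ring)
  rw [sum_parts] at h1
  have h2 : (Module.finrank ℚ K : ℝ) * ∑ k ∈ s, ((m k : ℝ) + b ∅) ^ 2 ≤
      (∑ S, (b S : ℝ) - b ∅) ^ 2 := by
    have h3 := mul_le_mul_of_nonneg_left h1 hN.le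
    rwa [← mul_assoc, mul_inv_cancel₀ hN.ne', one_mul] at h3
  exact_mod_cast h2

/-- The exceptional set. -/
theorem twist_encard (ht : IsInvolutionData S₀ i b t) {ι : Type*} (D : ι → Fin r → 𝓞 K)
    (h0 : ∀ k j, D k j ≠ 0)
    (hind : ∀ k l, ∀ σ : K ≃ₐ[ℚ] K, (k ≠ l ∨ σ ≠ 1) → IndependentTwists b (D k) (D l) σ)
    (F : ι → ℂ → ℂ) (hF : ∀ k, IsTwistContinuation S₀ t i K (D k) (F k)) (m : ι → ℤ)
    (hm : ∀ k, meromorphicOrderAt (F k) ((i : ℂ) / 2 + 1) = m k) :
    {k | m k ≠ -(b ∅ : ℤ)}.encard ≤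
      (((∑ S, b S) - b ∅) ^ 2 / Module.finrank ℚ K : ℕ) := by
  refine encard_le_of_finset fun u hu => ?_
  have h1 := twist_bessel ht D h0 hind F hF m hm u
  have h2 : ((u.card : ℕ) : ℤ) ≤ ∑ k ∈ u, (m k + (b ∅ : ℤ)) ^ 2 := by
    rw [← nsmul_one, ← Finset.sum_const]
    refine Finset.sum_le_sum fun k hk => ?_
    have h3 : m k + (b ∅ : ℤ) ≠ 0 := by
      intro h
      exact hu hk (by omega)
    have h4 : 0 < (m k + (b ∅ : ℤ)) ^ 2 := by positivity
    omega
  have h3 : b ∅ ≤ ∑ S, b S := Finset.single_le_sum (fun S _ => Nat.zero_le (b S)) (Finset.mem_univ _)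
  have hN : 0 < Module.finrank ℚ K := Module.finrank_pos
  rw [Nat.le_div_iff_mul_le hN]
  have h4 : ((((∑ S, b S) - b ∅) ^ 2 : ℕ) : ℤ) = ((∑ S, b S : ℕ) - (b ∅ : ℤ)) ^ 2 := by
    rw [Nat.cast_pow, Nat.cast_sub h3]
  have h5 : ((u.card * Module.finrank ℚ K : ℕ) : ℤ) ≤ ((((∑ S, b S) - b ∅) ^ 2 : ℕ) : ℤ) := by
    rw [h4]
    refine le_trans ?_ h1
    push_cast
    rw [mul_comm]
    exact mul_le_mul_of_nonneg_left h2 (Nat.cast_nonneg _)
  exact_mod_cast h5

end

/-- The data of a product of hyperelliptic curves. -/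
theorem curve_data {r : ℕ} {f : Fin r → ℤ[X]} (hf : ∀ j, IsCurve (f j)) {S₀ : Finset Nat.Primes}
    (hS : ∀ p, ¬ Good f (fun _ => 1) p → p ∈ S₀) (i : ℕ) :
    IsInvolutionData S₀ i (curveBetti f i) (curveTrace f i) := by
  classical
  intro p hp k hk
  have hg : Good f (fun _ => 1) p := by
    by_contra h
    exact hp (hS p h)
  have hp0 : (0 : ℝ) < ((p : ℕ) : ℝ) := by exact_mod_cast p.2.pos
  have hq0 : (0 : ℝ) ≤ ((p : ℕ) : ℝ) ^ k := (pow_pos hp0 k).le
  have hcard : (Nat.card (Fq p k) : ℝ) = ((p : ℕ) : ℝ) ^ k := by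
    rw [card_Fq p hk]
    push_cast
    rfl
  have hsq : ∀ e : ℕ, Real.sqrt (((p : ℕ) : ℝ) ^ k) ^ (2 * e) = ((p : ℕ) : ℝ) ^ (k * e) := by
    intro e
    rw [pow_mul, Real.sq_sqrt hq0, ← pow_mul]
  constructor
  · rw [curveTrace, curveBetti]
    simp only [Finset.card_empty, Nat.zero_le, true_and, Nat.sub_zero, Finset.prod_empty, one_mul]
    split_ifs with h
    · obtain ⟨e, rfl⟩ := h
      have h1 : (e + e) / 2 = e := by omega
      rw [h1, show e + e = 2 * e by ring, hsq]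
    · simp
  · intro S
    rw [curveTrace, curveBetti]
    split_ifs with h
    · obtain ⟨h1, e, he⟩ := h
      have h2 : (i - S.card) / 2 = e := by omega
      have h3 : i = S.card + 2 * e := by omega
      have h4 : |∏ j ∈ S, (traceOne (f j) 1 (Fq p k) : ℝ)| ≤
          (∏ j ∈ S, ((2 * genus (f j) : ℕ) : ℝ)) * Real.sqrt (((p : ℕ) : ℝ) ^ k) ^ S.card := by
        rw [Finset.abs_prod, ← Finset.prod_const, ← Finset.prod_mul_distrib]
        refine Finset.prod_le_prod (fun j _ => abs_nonneg _) fun j _ => ?_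
        have h5 := nx_le hf hg hk j
        have hs : 0 < Real.sqrt (Nat.card (Fq p k)) := by
          rw [hcard]
          exact Real.sqrt_pos.mpr (pow_pos hp0 k)
        rw [nx, abs_div, abs_of_pos hs, div_le_iff₀ hs, hcard] at h5
        exact h5
      rw [abs_mul, abs_of_nonneg (a := ((r - S.card).choose ((i - S.card) / 2) : ℝ) * _)
        (by positivity), h2]
      conv_rhs => rw [h3, pow_add, hsq]
      push_cast
      calc _ ≤ ((∏ j ∈ S, ((2 * genus (f j) : ℕ) : ℝ)) * Real.sqrt (((p : ℕ) : ℝ) ^ k) ^ S.card) *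
            (((r - S.card).choose e : ℝ) * ((p : ℕ) : ℝ) ^ (k * e)) :=
            mul_le_mul_of_nonneg_right h4 (by positivity)
        _ = _ := by
            push_cast
            ring
    · simp

end Pool.Agent.Work.MP_2b9663_nt
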