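import Pool.Agent.Work.MP_2b9663_nt.Defs

set_option autoImplicit false

/-!
Varieties with commuting involutions, and their twists over number fields.
-/

namespace Pool.Agent.Work.MP_2b9663_nt

open Polynomial NumberField

/-- The number of square roots of `a` minus one: for a finite field `κ` of odd characteristic the
quadratic character of `κ`. -/
noncomputable def sqChar (κ : Type) [Field κ] (a : κ) : ℤ := (Nat.card {y : κ // y ^ 2 = a} : ℤ) - 1

/-- `t S p k` has the properties of the traces of the `k`-th powers of the Frobenius at `p` on the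
parts `V S` of `H ^ i (X)`, where `X` is a smooth projective variety over `ℚ` with `r` commuting
involutions and good reduction at the primes `p` outside `S₀`: `V S` is the subspace where the
`j`-th involution acts by `-1` for `j ∈ S` and by `1` for `j ∉ S`, it has dimension `b S`, and
`V ∅` is spanned by classes of algebraic cycles over `ℚ`. The inequality is the Weil bound. -/
def IsInvolutionData {r : ℕ} (S₀ : Finset Nat.Primes) (i : ℕ) (b : Finset (Fin r) → ℕ)
    (t : Finset (Fin r) → Nat.Primes → ℕ → ℝ) : Prop :=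
  ∀ p ∉ S₀, ∀ k : ℕ, k ≠ 0 → t ∅ p k = b ∅ * Real.sqrt (((p : ℕ) : ℝ) ^ k) ^ i ∧
    ∀ S, |t S p k| ≤ b S * Real.sqrt (((p : ℕ) : ℝ) ^ k) ^ i

/-- Let `X_δ` be the twist of `X` over the number field `K` by the square roots of the `δ j`, as a
variety over `ℚ`. The trace of the `k`-th power of the Frobenius at `p` on `H ^ i (X_δ)`: the sum,
over the homomorphisms `φ` from `𝓞 K` to the field with `p ^ k` elements, of the traces on the
fibres, in which `V S` is twisted by the quadratic character of `∏ j ∈ S, φ (δ j)`. -/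
noncomputable def twistTrace {r : ℕ} (t : Finset (Fin r) → Nat.Primes → ℕ → ℝ) (K : Type) [Field K]
    (δ : Fin r → 𝓞 K) (p : Nat.Primes) (k : ℕ) : ℝ :=
  ∑ᶠ φ : 𝓞 K →+* Fq p k, ∑ S : Finset (Fin r), sqChar (Fq p k) (∏ j ∈ S, φ (δ j)) * t S p k

/-- `F` is a meromorphic continuation of the `L`-function of `H ^ i (X_δ)` to a neighbourhood of
`s₀ = i / 2 + 1`. -/
def IsTwistContinuation {r : ℕ} (S₀ : Finset Nat.Primes)
    (t : Finset (Fin r) → Nat.Primes → ℕ → ℝ) (i : ℕ) (K : Type) [Field K] (δ : Fin r → 𝓞 K)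
    (F : ℂ → ℂ) : Prop :=
  IsEuler (fun p => p ∉ S₀) (fun p k => (twistTrace t K δ p k : ℂ)) i F ∧
    MeromorphicAt F ((i : ℂ) / 2 + 1)

/-- For every nonempty `S` such that `V S` is not zero the product of `δ j` and `σ (δ' j)` over
all `j ∈ S` is not a square in `K`. -/
def IndependentTwists {r : ℕ} (b : Finset (Fin r) → ℕ) {K : Type} [Field K] [NumberField K]
    (δ δ' : Fin r → 𝓞 K) (σ : K ≃ₐ[ℚ] K) : Prop :=
  ∀ S : Finset (Fin r), S.Nonempty → b S ≠ 0 →
    ¬ IsSquare ((∏ j ∈ S, (δ j : K)) * σ (∏ j ∈ S, (δ' j : K)))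

/-- The dimension of the part of `H ^ i` of the product of the curves `y ^ 2 = f j (x)` on which
the `j`-th hyperelliptic involution acts by `-1` for `j ∈ S` and by `1` for `j ∉ S`: the tensor
products of the `H ^ 1` of the curves in `S` and of `H ^ 0` or `H ^ 2` of the others. -/
def curveBetti {r : ℕ} (f : Fin r → ℤ[X]) (i : ℕ) (S : Finset (Fin r)) : ℕ :=
  if S.card ≤ i ∧ Even (i - S.card) then
    (∏ j ∈ S, 2 * genus (f j)) * (r - S.card).choose ((i - S.card) / 2) else 0

/-- The trace of the `k`-th power of the Frobenius at `p` on this part. -/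
noncomputable def curveTrace {r : ℕ} (f : Fin r → ℤ[X]) (i : ℕ) (S : Finset (Fin r))
    (p : Nat.Primes) (k : ℕ) : ℝ :=
  if S.card ≤ i ∧ Even (i - S.card) then
    (∏ j ∈ S, (traceOne (f j) 1 (Fq p k) : ℝ)) *
      ((r - S.card).choose ((i - S.card) / 2) * ((p : ℕ) : ℝ) ^ (k * ((i - S.card) / 2))) else 0

end Pool.Agent.Work.MP_2b9663_nt
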