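import Pool.Agent.Work.MP_2b9663_nt.Defs
import Pool.Agent.Work.MP_2b9663_nt.Weil

set_option autoImplicit false

/-!
Local computations: the trace on `H ^ 1` and the Weil bound.
-/

namespace Pool.Agent.Work.MP_2b9663_nt

open Finset Polynomial

section

variable {K : Type} [Field K] [Fintype K] [DecidableEq K]

lemma card_sqrt (hK : ringChar K ≠ 2) {d : K} (hd : d ≠ 0) (a : K) :
    (Nat.card {w : K // d * w ^ 2 = a} : ℤ) = 1 + quadraticChar K d * quadraticChar K a := by
  have h1 := quadraticChar_card_sqrts hK (d⁻¹ * a)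
  have h2 : Nat.card {w : K // d * w ^ 2 = a} = (Set.toFinset {x : K | x ^ 2 = d⁻¹ * a}).card := by
    rw [Nat.card_eq_fintype_card, Fintype.card_subtype]
    congr 1
    ext w
    simp only [Finset.mem_filter, Finset.mem_univ, true_and, Set.mem_toFinset, Set.mem_setOf_eq]
    constructor
    · intro h
      rw [← h, ← mul_assoc, inv_mul_cancel₀ hd, one_mul]
    · intro h
      rw [h, ← mul_assoc, mul_inv_cancel₀ hd, one_mul]
  rw [h2, h1, map_mul]
  have h3 : quadraticChar K d⁻¹ = quadraticChar K d := by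
    have h4 : quadraticChar K d⁻¹ * quadraticChar K d = 1 := by
      rw [← map_mul, inv_mul_cancel₀ hd, map_one]
    have h5 := quadraticChar_sq_one hd
    calc quadraticChar K d⁻¹ = quadraticChar K d⁻¹ * (quadraticChar K d ^ 2) := by rw [h5, mul_one]
      _ = (quadraticChar K d⁻¹ * quadraticChar K d) * quadraticChar K d := by ring
      _ = quadraticChar K d := by rw [h4, one_mul]
  rw [h3]
  ring

/-- the sum attached to the curve -/
noncomputable def fullSum (f : K[X]) : ℤ :=
  charSum K f + if Odd f.natDegree then 0 else quadraticChar K f.leadingCoeff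

lemma traceOne_eq (hK : ringChar K ≠ 2) {f : ℤ[X]} {D : ℤ} (hD : (D : K) ≠ 0)
    (hlc : (f.leadingCoeff : K) ≠ 0) :
    traceOne f D K = - quadraticChar K (D : K) * fullSum (f.map (Int.castRingHom K)) := by
  have hlc' : Int.castRingHom K f.leadingCoeff ≠ 0 := hlc
  have hdeg : (f.map (Int.castRingHom K)).natDegree = f.natDegree :=
    natDegree_map_of_leadingCoeff_ne_zero _ hlc'
  have hlead : (f.map (Int.castRingHom K)).leadingCoeff = (f.leadingCoeff : K) := by
    rw [leadingCoeff_map_of_leadingCoeff_ne_zero _ hlc']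
    rfl
  have hcard : (Nat.card {z : K × K // (D : K) * z.2 ^ 2 = aeval z.1 f} : ℤ) =
      Nat.card K + quadraticChar K (D : K) * charSum K (f.map (Int.castRingHom K)) := by
    have e : {z : K × K // (D : K) * z.2 ^ 2 = aeval z.1 f} ≃
        (Σ x : K, {w : K // (D : K) * w ^ 2 = aeval x f}) :=
      { toFun := fun z => ⟨z.1.1, z.1.2, z.2⟩
        invFun := fun z => ⟨(z.1, z.2.1), z.2.2⟩
        left_inv := fun _ => rfl
        right_inv := fun _ => rfl }
    rw [Nat.card_congr e, Nat.card_sigma]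
    push_cast
    rw [Finset.sum_congr rfl fun x _ => card_sqrt hK hD (aeval x f)]
    rw [Finset.sum_add_distrib, ← Finset.mul_sum]
    congr 1
    · simp [Nat.card_eq_fintype_card]
    · congr 1
      rw [charSum]
      refine Finset.sum_congr rfl fun x _ => ?_
      rw [eval_map, aeval_def]
      rfl
  unfold traceOne numPoints fullSum
  push_cast
  rw [hcard, hdeg, hlead]
  split_ifs with h
  · push_cast
    ring
  · rw [card_sqrt hK hD]
    ring

lemma fullSum_le (hK : ringChar K ≠ 2) {f : K[X]} (hf : Squarefree f) (hm1 : 1 ≤ f.natDegree) :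
    |(fullSum f : ℝ)| ≤ (2 * ((f.natDegree - 1) / 2) : ℕ) * Real.sqrt (Fintype.card K) := by
  obtain ⟨α, h1, h2, h3⟩ := weil hK hf hm1
  have hsum := sum_extension (K := K) (E := K) (k := 1) (n := 1) hK (by rw [pow_one]) one_pos le_rfl f
  have hcs : charSum K f = SP f 1 1 := by
    rw [← hsum, charSum]
    refine Finset.sum_congr rfl fun x _ => ?_
    rw [coe_aeval_eq_eval]
  have h4 := h2 1 le_rfl
  rw [← hcs] at h4
  simp only [pow_one] at h4
  have h5 : ∀ j, ‖α j‖ ≤ Real.sqrt (Fintype.card K) := fun j => Real.le_sqrt_of_sq_le (h1 j)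
  rcases Nat.even_or_odd f.natDegree with he | ho
  · obtain ⟨j₀, hj₀⟩ := h3 he
    have hno : ¬ Odd f.natDegree := Nat.not_odd_iff_even.mpr he
    have h6 : ((fullSum f : ℤ) : ℂ) = - ∑ j ∈ univ.erase j₀, α j := by
      rw [fullSum, if_neg hno]
      push_cast
      rw [h4, ← hj₀, ← Finset.add_sum_erase univ α (Finset.mem_univ j₀)]
      ring
    have h7 : |(fullSum f : ℝ)| = ‖((fullSum f : ℤ) : ℂ)‖ := by rw [Complex.norm_intCast]
    rw [h7, h6, norm_neg]
    refine (norm_sum_le _ _).trans ?_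
    refine (Finset.sum_le_sum fun j _ => h5 j).trans ?_
    rw [Finset.sum_const, nsmul_eq_mul, Finset.card_erase_of_mem (Finset.mem_univ _),
      Finset.card_univ, Fintype.card_fin]
    obtain ⟨k, hk⟩ := he
    have h8 : f.natDegree - 1 - 1 = 2 * ((f.natDegree - 1) / 2) := by omega
    rw [h8]
  · have h6 : ((fullSum f : ℤ) : ℂ) = - ∑ j, α j := by
      rw [fullSum, if_pos ho, add_zero, h4]
    have h7 : |(fullSum f : ℝ)| = ‖((fullSum f : ℤ) : ℂ)‖ := by rw [Complex.norm_intCast]
    rw [h7, h6, norm_neg]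
    refine (norm_sum_le _ _).trans ?_
    refine (Finset.sum_le_sum fun j _ => h5 j).trans ?_
    rw [Finset.sum_const, nsmul_eq_mul, Finset.card_univ, Fintype.card_fin]
    obtain ⟨k, hk⟩ := ho
    have h8 : f.natDegree - 1 = 2 * ((f.natDegree - 1) / 2) := by omega
    rw [← h8]

/-- The Weil bound for the trace on `H ^ 1`. -/
theorem traceOne_le (hK : ringChar K ≠ 2) {f : ℤ[X]} {D : ℤ} (hf1 : 1 ≤ f.natDegree)
    (hD : (D : K) ≠ 0) (hlc : (f.leadingCoeff : K) ≠ 0)
    (hsq : Squarefree (f.map (Int.castRingHom K))) :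
    |(traceOne f D K : ℝ)| ≤ (2 * genus f : ℕ) * Real.sqrt (Nat.card K) := by
  have hlc' : Int.castRingHom K f.leadingCoeff ≠ 0 := hlc
  have hdeg : (f.map (Int.castRingHom K)).natDegree = f.natDegree :=
    natDegree_map_of_leadingCoeff_ne_zero _ hlc'
  have h1 := fullSum_le hK hsq (by rw [hdeg]; exact hf1)
  rw [traceOne_eq hK hD hlc]
  push_cast
  rw [abs_mul, abs_neg]
  have h2 : |((quadraticChar K (D : K) : ℤ) : ℝ)| ≤ 1 := by
    rcases quadraticChar_dichotomy hD with h | h <;> rw [h] <;> norm_num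
  rw [hdeg] at h1
  rw [Nat.card_eq_fintype_card]
  have h3 := mul_le_mul h2 h1 (abs_nonneg _) zero_le_one
  rw [one_mul] at h3
  refine h3.trans (le_of_eq ?_)
  unfold genus
  push_cast
  ring

end

end Pool.Agent.Work.MP_2b9663_nt
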