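import Pool.Agent.Work.MP_2b9663_nt.Chi

set_option autoImplicit false

/-!
The `L`-polynomial of `y ^ 2 = f(x)`.
-/

namespace Pool.Agent.Work.MP_2b9663_nt

open Finset Polynomial

section

variable {K : Type*} [Field K] [Fintype K] [DecidableEq K]

open Classical in
/-- the monic polynomials of degree `n` -/
noncomputable def MonF (K : Type*) [Field K] [Fintype K] (n : ℕ) : Finset K[X] :=
  (univ : Finset (Fin n → K)).image (fun c => X ^ n + pol c)

omit [DecidableEq K] in
lemma mem_MonF {n : ℕ} {h : K[X]} : h ∈ MonF K n ↔ h.Monic ∧ h.natDegree = n := by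
  classical
  unfold MonF
  rw [Finset.mem_image]
  constructor
  · rintro ⟨c, -, rfl⟩
    have h1 : (pol c).degree < ((X : K[X]) ^ n).degree := by
      rw [degree_X_pow]
      exact pol_degree c
    refine ⟨(monic_X_pow n).add_of_left h1, ?_⟩
    rw [natDegree_add_eq_left_of_degree_lt h1, natDegree_X_pow]
  · rintro ⟨h1, h2⟩
    refine ⟨fun i => h.coeff i, Finset.mem_univ _, ?_⟩
    ext k
    rw [coeff_add, coeff_X_pow]
    rcases lt_trichotomy k n with hk | hk | hk
    · rw [if_neg (by omega), zero_add]
      exact pol_coeff (fun i : Fin n => h.coeff i) ⟨k, hk⟩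
    · rw [if_pos hk, coeff_eq_zero_of_degree_lt, add_zero]
      · rw [hk, ← h2]; exact h1.symm
      · rw [hk]; exact pol_degree _
    · rw [if_neg (by omega), zero_add, coeff_eq_zero_of_degree_lt, coeff_eq_zero_of_natDegree_lt]
      · omega
      · refine (pol_degree _).trans ?_
        exact_mod_cast hk

/-- the coefficients of the `L`-polynomial -/
noncomputable def cc (f : K[X]) (n : ℕ) : ℤ := ∑ h ∈ MonF K n, chi f h

lemma cc_zero (f : K[X]) : cc f 0 = 1 := by
  have : MonF K 0 = {1} := by
    ext h
    rw [mem_MonF, Finset.mem_singleton]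
    constructor
    · rintro ⟨h1, h2⟩
      exact eq_one_of_monic_natDegree_zero h1 h2
    · rintro rfl
      exact ⟨monic_one, natDegree_one⟩
  rw [cc, this, Finset.sum_singleton, chi_one]

lemma cc_eq_zero (hK : ringChar K ≠ 2) {f : K[X]} (hf : Squarefree f) (hf1 : 1 ≤ f.natDegree)
    {n : ℕ} (hn : f.natDegree ≤ n) : cc f n = 0 := by
  classical
  have hf0 : f ≠ 0 := hf.ne_zero
  obtain ⟨v, hv⟩ := exists_nonsquare hK hf hf1
  have hrv : rho f v ≠ 0 := by
    intro h
    rw [h, quadraticChar_zero] at hv
    norm_num at hv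
  have hcop : IsCoprime f v := by
    by_contra h
    exact hrv (rho_eq_zero hf0 h)
  -- reduction modulo `f`
  have hmod : ∀ h : K[X], f ∣ h - h % f := fun h =>
    ⟨h / f, by have := EuclideanDomain.div_add_mod h f; linear_combination this.symm⟩
  have hdeg : ∀ h : K[X], (h % f).degree < f.degree := fun h => EuclideanDomain.mod_lt h hf0
  set σ : K[X] → K[X] := fun h => h + ((v * (h % f)) % f - h % f) with hσ
  have hσc : ∀ h, f ∣ σ h - v * h := by
    intro h
    obtain ⟨a, ha⟩ := hmod h
    obtain ⟨b, hb⟩ := hmod (v * (h % f))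
    refine ⟨a - b - v * a, ?_⟩
    simp only [hσ]
    linear_combination (1 - v) * ha - hb
  have hσm : ∀ h ∈ MonF K n, σ h ∈ MonF K n := by
    intro h hh
    rw [mem_MonF] at hh ⊢
    have hd : ((v * (h % f)) % f - h % f).degree < h.degree := by
      refine (degree_sub_le _ _).trans_lt (max_lt ?_ ?_)
      · refine (hdeg _).trans_le ?_
        rw [degree_eq_natDegree hf0, degree_eq_natDegree hh.1.ne_zero, hh.2]
        exact_mod_cast hn
      · refine (hdeg _).trans_le ?_
        rw [degree_eq_natDegree hf0, degree_eq_natDegree hh.1.ne_zero, hh.2]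
        exact_mod_cast hn
    refine ⟨hh.1.add_of_left hd, ?_⟩
    simp only [hσ]
    rw [natDegree_add_eq_left_of_degree_lt hd, hh.2]
  have hσi : Set.InjOn σ (MonF K n : Set K[X]) := by
    intro h1 _ h2 _ he
    have h3 : f ∣ v * h1 - v * h2 := by
      have := dvd_sub (hσc h2) (hσc h1)
      rw [he] at this
      obtain ⟨w, hw⟩ := this
      exact ⟨w, by linear_combination hw⟩
    rw [← mul_sub] at h3
    have h4 : f ∣ h1 - h2 := hcop.dvd_of_dvd_mul_left h3
    have h5 : h1 % f = h2 % f := by
      have h6 : f ∣ h1 % f - h2 % f := by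
        have := dvd_add (dvd_sub h4 (hmod h1)) (hmod h2)
        have h7 : h1 - h2 - (h1 - h1 % f) + (h2 - h2 % f) = h1 % f - h2 % f := by ring
        rwa [h7] at this
      by_contra hne
      have h8 := degree_le_of_dvd h6 (sub_ne_zero.mpr hne)
      have h9 : (h1 % f - h2 % f).degree < f.degree :=
        (degree_sub_le _ _).trans_lt (max_lt (hdeg _) (hdeg _))
      exact absurd h8 (not_le.mpr h9)
    simp only [hσ] at he
    rw [h5] at he
    exact add_right_cancel he
  have himg : (MonF K n).image σ = MonF K n := by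
    apply Finset.eq_of_subset_of_card_le
    · intro y hy
      rw [Finset.mem_image] at hy
      obtain ⟨x, hx, rfl⟩ := hy
      exact hσm x hx
    · rw [Finset.card_image_of_injOn hσi]
  have hG : ∑ h ∈ MonF K n, quadraticChar K (rho f h) = 0 := by
    have h1 : ∑ h ∈ MonF K n, quadraticChar K (rho f h) =
        ∑ h ∈ MonF K n, quadraticChar K (rho f (σ h)) := by
      conv_lhs => rw [← himg]
      exact Finset.sum_image hσi
    have h2 : ∑ h ∈ MonF K n, quadraticChar K (rho f (σ h)) =
        - ∑ h ∈ MonF K n, quadraticChar K (rho f h) := by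
      rw [← Finset.sum_neg_distrib]
      refine Finset.sum_congr rfl fun h _ => ?_
      rw [rho_congr hf0 (hσc h), rho_mul hf0, map_mul, hv]
      ring
    omega
  have h3 : cc f n = quadraticChar K (((-1) ^ f.natDegree * f.leadingCoeff) ^ n) *
      ∑ h ∈ MonF K n, quadraticChar K (rho f h) := by
    rw [cc, Finset.mul_sum]
    refine Finset.sum_congr rfl fun h hh => ?_
    rw [mem_MonF] at hh
    rw [chi, rho_comm hf0 hh.1, map_mul, hh.2]
  rw [h3, hG, mul_zero]

end

end Pool.Agent.Work.MP_2b9663_nt
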