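import Pool.Agent.Work.MP_2b9663_nt.Lpoly

set_option autoImplicit false

/-!
The Newton identities for the `L`-polynomial.
-/

namespace Pool.Agent.Work.MP_2b9663_nt

open Finset Polynomial UniqueFactorizationMonoid

section

variable {K : Type*} [Field K] [Fintype K] [DecidableEq K]

open Classical in
/-- the monic irreducible polynomials of degree at most `n` -/
noncomputable def IrrF (K : Type*) [Field K] [Fintype K] (n : ℕ) : Finset K[X] :=
  ((range (n + 1)).biUnion (fun d => MonF K d)).filter (fun P => Irreducible P)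

omit [DecidableEq K] in
lemma mem_IrrF {n : ℕ} {P : K[X]} :
    P ∈ IrrF K n ↔ Irreducible P ∧ P.Monic ∧ P.natDegree ≤ n := by
  classical
  unfold IrrF
  rw [Finset.mem_filter, Finset.mem_biUnion]
  constructor
  · rintro ⟨⟨d, hd, h1⟩, h2⟩
    rw [mem_MonF] at h1
    rw [Finset.mem_range] at hd
    exact ⟨h2, h1.1, by omega⟩
  · rintro ⟨h1, h2, h3⟩
    exact ⟨⟨P.natDegree, Finset.mem_range.mpr (by omega), mem_MonF.mpr ⟨h2, rfl⟩⟩, h1⟩

open Classical in
/-- the degree as a sum over prime powers dividing a polynomial -/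
lemma deg_eq_sum {n : ℕ} {h : K[X]} (hh : h ∈ MonF K n) :
    (n : ℤ) = ∑ P ∈ IrrF K n, ∑ j ∈ Icc 1 n, if P ^ j ∣ h then (P.natDegree : ℤ) else 0 := by
  rw [mem_MonF] at hh
  obtain ⟨hm, hn⟩ := hh
  have h0 : h ≠ 0 := hm.ne_zero
  have hnorm : normalize h = h := (normalize_eq_self_iff_monic h0).mpr hm
  have hprod : (normalizedFactors h).prod = h := by
    rw [prod_normalizedFactors_eq h0, hnorm]
  have hmem : ∀ P ∈ normalizedFactors h, Irreducible P ∧ P.Monic ∧ P ∣ h := fun P hP =>
    (Polynomial.mem_normalizedFactors_iff h0).mp hP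
  have hdeg : n = ((normalizedFactors h).map natDegree).sum := by
    rw [← natDegree_multiset_prod, hprod, hn]
    intro hz
    exact (hmem 0 hz).1.ne_zero rfl
  rw [Finset.sum_multiset_map_count] at hdeg
  have hcount : ∀ P ∈ IrrF K n, ∑ j ∈ Icc 1 n, (if P ^ j ∣ h then (P.natDegree : ℤ) else 0) =
      (normalizedFactors h).count P * P.natDegree := by
    intro P hP
    rw [mem_IrrF] at hP
    have hnP : normalize P = P := (normalize_eq_self_iff_monic hP.1.ne_zero).mpr hP.2.1
    have hdvd : ∀ j, P ^ j ∣ h ↔ j ≤ (normalizedFactors h).count P := by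
      intro j
      rw [pow_dvd_iff_le_emultiplicity, emultiplicity_eq_count_normalizedFactors hP.1 h0, hnP]
      exact Nat.cast_le
    have hle : (normalizedFactors h).count P ≤ n := by
      have h1 := (hdvd ((normalizedFactors h).count P)).mpr le_rfl
      have h2 := natDegree_le_of_dvd h1 h0
      rw [natDegree_pow, hn] at h2
      have h3 := hP.1.natDegree_pos
      nlinarith
    rw [← Finset.sum_filter, Finset.sum_const, nsmul_eq_mul]
    congr 1
    have : (Icc 1 n).filter (fun j => P ^ j ∣ h) = Icc 1 ((normalizedFactors h).count P) := by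
      ext j
      rw [Finset.mem_filter, Finset.mem_Icc, Finset.mem_Icc, hdvd]
      omega
    rw [this, Nat.card_Icc, Nat.add_sub_cancel]
  rw [Finset.sum_congr rfl hcount]
  have hsub : (normalizedFactors h).toFinset ⊆ IrrF K n := by
    intro P hP
    rw [Multiset.mem_toFinset] at hP
    have h1 := hmem P hP
    rw [mem_IrrF]
    refine ⟨h1.1, h1.2.1, ?_⟩
    have := natDegree_le_of_dvd h1.2.2 h0
    omega
  rw [← Finset.sum_subset hsub]
  · nth_rewrite 1 [hdeg]
    push_cast
    refine Finset.sum_congr rfl fun P _ => ?_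
    rw [nsmul_eq_mul]
    push_cast
    ring
  · intro P _ hP
    rw [Multiset.mem_toFinset] at hP
    rw [Multiset.count_eq_zero_of_notMem hP]
    simp

open Classical in
lemma sum_chi_dvd (f : K[X]) {n j : ℕ} {P : K[X]} (hP : P.Monic) :
    ∑ h ∈ (MonF K n).filter (fun h => P ^ j ∣ h), chi f h =
      if j * P.natDegree ≤ n then chi f P ^ j * cc f (n - j * P.natDegree) else 0 := by
  have hPj : (P ^ j).Monic := hP.pow j
  have hPjd : (P ^ j).natDegree = j * P.natDegree := by rw [natDegree_pow]
  split_ifs with hj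
  · rw [cc, Finset.mul_sum]
    symm
    refine Finset.sum_bij (fun h _ => P ^ j * h) ?_ ?_ ?_ ?_
    · intro h hh
      rw [mem_MonF] at hh
      rw [Finset.mem_filter, mem_MonF]
      refine ⟨⟨hPj.mul hh.1, ?_⟩, dvd_mul_right _ _⟩
      rw [hPj.natDegree_mul hh.1, hPjd, hh.2]
      omega
    · intro a _ b _ hab
      exact mul_left_cancel₀ hPj.ne_zero hab
    · intro h hh
      rw [Finset.mem_filter, mem_MonF] at hh
      obtain ⟨⟨h1, h2⟩, w, hw⟩ := hh
      have hwm : w.Monic := hPj.of_mul_monic_left (hw ▸ h1)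
      refine ⟨w, ?_, hw.symm⟩
      rw [mem_MonF]
      refine ⟨hwm, ?_⟩
      rw [hw, hPj.natDegree_mul hwm, hPjd] at h2
      omega
    · intro h hh
      rw [mem_MonF] at hh
      rw [chi_mul f hPj.ne_zero hh.1.ne_zero, chi_pow f hP.ne_zero]
  · apply Finset.sum_eq_zero
    intro h hh
    exfalso
    rw [Finset.mem_filter, mem_MonF] at hh
    have := natDegree_le_of_dvd hh.2 hh.1.1.ne_zero
    rw [hPjd, hh.1.2] at this
    exact hj this

/-- the power sums in terms of irreducible polynomials -/
noncomputable def SP (f : K[X]) (n k : ℕ) : ℤ :=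
  ∑ P ∈ IrrF K n, if P.natDegree ∣ k then (P.natDegree : ℤ) * chi f P ^ (k / P.natDegree) else 0

open Classical in
/-- **Newton's identity**. -/
theorem newton (f : K[X]) (n : ℕ) :
    (n : ℤ) * cc f n = ∑ k ∈ Icc 1 n, SP f n k * cc f (n - k) := by
  have hL : (n : ℤ) * cc f n = ∑ P ∈ IrrF K n, ∑ j ∈ Icc 1 n,
      (if j * P.natDegree ≤ n then
        (P.natDegree : ℤ) * chi f P ^ j * cc f (n - j * P.natDegree) else 0) := by
    have h1 : (n : ℤ) * cc f n = ∑ h ∈ MonF K n, ∑ P ∈ IrrF K n, ∑ j ∈ Icc 1 n,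
        if P ^ j ∣ h then (P.natDegree : ℤ) * chi f h else 0 := by
      rw [cc, Finset.mul_sum]
      refine Finset.sum_congr rfl fun h hh => ?_
      nth_rewrite 1 [deg_eq_sum hh]
      rw [Finset.sum_mul]
      refine Finset.sum_congr rfl fun P _ => ?_
      rw [Finset.sum_mul]
      refine Finset.sum_congr rfl fun j _ => ?_
      split_ifs <;> simp
    rw [h1, Finset.sum_comm]
    refine Finset.sum_congr rfl fun P hP => ?_
    rw [Finset.sum_comm]
    refine Finset.sum_congr rfl fun j _ => ?_
    rw [mem_IrrF] at hP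
    rw [← Finset.sum_filter, ← Finset.mul_sum, sum_chi_dvd f hP.2.1]
    split_ifs <;> ring
  have hR : ∑ k ∈ Icc 1 n, SP f n k * cc f (n - k) = ∑ P ∈ IrrF K n, ∑ k ∈ Icc 1 n,
      (if P.natDegree ∣ k then
        (P.natDegree : ℤ) * chi f P ^ (k / P.natDegree) * cc f (n - k) else 0) := by
    rw [Finset.sum_comm]
    refine Finset.sum_congr rfl fun k _ => ?_
    rw [SP, Finset.sum_mul]
    refine Finset.sum_congr rfl fun P _ => ?_
    split_ifs <;> ring
  rw [hL, hR]
  refine Finset.sum_congr rfl fun P hP => ?_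
  rw [mem_IrrF] at hP
  have hd := hP.1.natDegree_pos
  rw [← Finset.sum_filter, ← Finset.sum_filter]
  refine Finset.sum_bij (fun j _ => j * P.natDegree) ?_ ?_ ?_ ?_
  · intro j hj
    rw [Finset.mem_filter, Finset.mem_Icc] at hj ⊢
    refine ⟨⟨?_, hj.2⟩, Dvd.intro_left _ rfl⟩
    have : 1 * 1 ≤ j * P.natDegree := Nat.mul_le_mul hj.1.1 hd
    omega
  · intro a _ b _ hab
    exact Nat.eq_of_mul_eq_mul_right hd hab
  · intro k hk
    rw [Finset.mem_filter, Finset.mem_Icc] at hk
    obtain ⟨j, hj⟩ := hk.2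
    refine ⟨j, ?_, by rw [hj, mul_comm]⟩
    rw [Finset.mem_filter, Finset.mem_Icc]
    have h1 : 1 ≤ j := by
      rcases Nat.eq_zero_or_pos j with h | h
      · rw [h, mul_zero] at hj; omega
      · exact h
    have h2 : j * P.natDegree = k := by rw [hj, mul_comm]
    have h3 : j ≤ k := by rw [← h2]; exact Nat.le_mul_of_pos_right j hd
    refine ⟨⟨h1, by omega⟩, by omega⟩
  · intro j _
    rw [Nat.mul_div_cancel _ hd]

variable {E : Type*} [Field E] [Fintype E] [DecidableEq E] [Algebra K E]

/-- The character sum over an extension of degree `k`. -/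
theorem sum_extension (hK : ringChar K ≠ 2) {k n : ℕ} (hE : Fintype.card E = Fintype.card K ^ k)
    (hk : 0 < k) (hkn : k ≤ n) (f : K[X]) :
    ∑ x : E, quadraticChar E (aeval x f) = SP f n k := by
  classical
  have hfin : FiniteDimensional K E := Module.Finite.of_finite
  have hrank : Module.finrank K E = k := by
    have h3 := Module.card_eq_pow_finrank (K := K) (V := E)
    rw [hE] at h3
    exact (Nat.pow_right_injective (Fintype.one_lt_card (α := K)) h3).symm
  have hmaps : ∀ x ∈ (univ : Finset E), minpoly K x ∈ IrrF K n := by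
    intro x _
    have hint : IsIntegral K x := Algebra.IsIntegral.isIntegral x
    rw [mem_IrrF]
    refine ⟨minpoly.irreducible hint, minpoly.monic hint, ?_⟩
    have := minpoly.natDegree_le (A := K) x
    omega
  rw [← Finset.sum_fiberwise_of_maps_to hmaps, SP]
  refine Finset.sum_congr rfl fun P hP => ?_
  rw [mem_IrrF] at hP
  have hfib : univ.filter (fun x : E => minpoly K x = P) = univ.filter (fun x : E => aeval x P = 0) := by
    ext x
    simp only [Finset.mem_filter, Finset.mem_univ, true_and]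
    constructor
    · intro h
      rw [← h]
      exact minpoly.aeval K x
    · intro h
      exact (minpoly.eq_of_irreducible_of_monic hP.1 h hP.2.1).symm
  rw [hfib]
  have hval : ∀ x ∈ univ.filter (fun x : E => aeval x P = 0), quadraticChar E (aeval x f) =
      chi f P ^ (k / P.natDegree) := by
    intro x hx
    exact quadraticChar_aeval hK hE hP.1 (Finset.mem_filter.mp hx).2 hk f
  rw [Finset.sum_congr rfl hval, Finset.sum_const, card_roots_irreducible hE hk hP.1, nsmul_eq_mul]
  split_ifs <;> simp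

end

end Pool.Agent.Work.MP_2b9663_nt
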