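import Mathlib

set_option autoImplicit false

/-!
Permutation characters of a finite group, and Artin's theorem on rational functions.
-/

namespace Pool.Agent.Work.MP_2b9663_nt

open Finset

section

variable {G : Type*} [Group G]

/-- the permutation character of `G / H` -/
noncomputable def pc (H : Subgroup G) (g : G) : ℕ := Nat.card (MulAction.fixedBy (G ⧸ H) g)

/-- `⟨h⟩` is conjugate to `⟨g⟩` -/
def Div (g h : G) : Prop := ∃ x : G, Subgroup.zpowers (x * g * x⁻¹) = Subgroup.zpowers h

lemma fixedBy_mono {X : Type*} [MulAction G X] {g h : G} (hg : g ∈ Subgroup.zpowers h) :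
    MulAction.fixedBy X h ⊆ MulAction.fixedBy X g := by
  intro x hx
  obtain ⟨n, rfl⟩ := Subgroup.mem_zpowers_iff.mp hg
  have h1 : h ∈ MulAction.stabilizer G x := hx
  exact Subgroup.zpow_mem _ h1 n

lemma pc_conj (H : Subgroup G) (x g : G) : pc H (x * g * x⁻¹) = pc H g := by
  unfold pc
  refine (Nat.card_congr (Equiv.ofBijective (fun y : MulAction.fixedBy (G ⧸ H) g =>
    (⟨x • y.1, ?_⟩ : MulAction.fixedBy (G ⧸ H) (x * g * x⁻¹))) ⟨?_, ?_⟩)).symm
  · have h1 : g • y.1 = y.1 := y.2
    change (x * g * x⁻¹) • x • y.1 = x • y.1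
    rw [smul_smul, inv_mul_cancel_right, mul_smul, h1]
  · intro y z hyz
    have h1 : x • y.1 = x • z.1 := congrArg Subtype.val hyz
    exact Subtype.ext (smul_left_cancel x h1)
  · rintro ⟨z, hz⟩
    have h1 : (x * g * x⁻¹) • z = z := hz
    refine ⟨⟨x⁻¹ • z, ?_⟩, ?_⟩
    · change g • x⁻¹ • z = x⁻¹ • z
      rw [eq_inv_smul_iff, smul_smul, smul_smul]
      exact h1
    · apply Subtype.ext
      exact smul_inv_smul x z

lemma pc_div (H : Subgroup G) {g h : G} (hgh : Div g h) : pc H g = pc H h := by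
  obtain ⟨x, hx⟩ := hgh
  rw [← pc_conj H x g]
  have h1 : MulAction.fixedBy (G ⧸ H) (x * g * x⁻¹) = MulAction.fixedBy (G ⧸ H) h := by
    refine Set.Subset.antisymm (fixedBy_mono ?_) (fixedBy_mono ?_)
    · rw [hx]
      exact Subgroup.mem_zpowers h
    · rw [← hx]
      exact Subgroup.mem_zpowers _
  unfold pc
  rw [h1]

lemma div_conj (g x : G) : Div g (x * g * x⁻¹) := ⟨x, rfl⟩

lemma div_of_zpowers {g h : G} (hgh : Subgroup.zpowers g = Subgroup.zpowers h) : Div g h :=
  ⟨1, by rw [one_mul, inv_one, mul_one, hgh]⟩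

lemma mk_fixed_iff (H : Subgroup G) (g x : G) :
    (x : G ⧸ H) ∈ MulAction.fixedBy (G ⧸ H) g ↔ x⁻¹ * g * x ∈ H := by
  rw [MulAction.mem_fixedBy]
  change ((g * x : G) : G ⧸ H) = (x : G ⧸ H) ↔ _
  rw [eq_comm, QuotientGroup.eq, mul_assoc]

variable [Fintype G]

omit [Fintype G] in
lemma pc_mul_card (H : Subgroup G) (g : G) :
    pc H g * Nat.card H = Nat.card {x : G // x⁻¹ * g * x ∈ H} := by
  classical
  have e := QuotientGroup.preimageMkEquivSubgroupProdSet H (MulAction.fixedBy (G ⧸ H) g)
  have h1 := Nat.card_congr e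
  rw [Nat.card_prod] at h1
  rw [pc, mul_comm, ← h1]
  refine Nat.card_congr (Equiv.subtypeEquivRight fun x => ?_)
  exact mk_fixed_iff H g x

lemma pc_mul_card_real (H : Subgroup G) [DecidablePred (· ∈ H)] (g : G) :
    (Nat.card H : ℝ) * pc H g = ∑ x : G, if x⁻¹ * g * x ∈ H then 1 else 0 := by
  have h1 := pc_mul_card H g
  rw [Nat.card_eq_fintype_card (α := {x : G // x⁻¹ * g * x ∈ H}), Fintype.card_subtype] at h1
  rw [Finset.sum_boole, mul_comm]
  exact_mod_cast h1

/-- Frobenius reciprocity -/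
lemma sum_mul_pc (H : Subgroup G) (f : G → ℝ) (hf : ∀ x g, f (x * g * x⁻¹) = f g) :
    (Nat.card H : ℝ) * ∑ g, f g * pc H g = Fintype.card G * ∑ g, f g * Set.indicator H 1 g := by
  classical
  have h1 : (Nat.card H : ℝ) * ∑ g, f g * pc H g =
      ∑ g, ∑ x : G, f g * (if x⁻¹ * g * x ∈ H then 1 else 0) := by
    rw [Finset.mul_sum]
    refine Finset.sum_congr rfl fun g _ => ?_
    rw [← Finset.mul_sum, ← pc_mul_card_real]
    ring
  rw [h1, Finset.sum_comm]
  have h2 : ∀ x : G, ∑ g, f g * (if x⁻¹ * g * x ∈ H then 1 else 0) =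
      ∑ g, f g * Set.indicator (H : Set G) (1 : G → ℝ) g := by
    intro x
    rw [← Equiv.sum_comp (MulAut.conj x).toEquiv]
    refine Finset.sum_congr rfl fun g _ => ?_
    have h3 : (MulAut.conj x).toEquiv g = x * g * x⁻¹ := rfl
    rw [h3, hf]
    have h4 : x⁻¹ * (x * g * x⁻¹) * x = g := by group
    rw [h4, Set.indicator_apply]
    rfl
  rw [Finset.sum_congr rfl fun x _ => h2 x, Finset.sum_const, Finset.card_univ, nsmul_eq_mul]

lemma sum_pc (H : Subgroup G) : ∑ g : G, (pc H g : ℝ) = Fintype.card G := by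
  classical
  have h1 := sum_mul_pc H (fun _ => (1 : ℝ)) fun _ _ => rfl
  simp only [one_mul] at h1
  have h2 : ∑ g : G, Set.indicator (H : Set G) (1 : G → ℝ) g = Nat.card H := by
    simp only [Set.indicator_apply, Pi.one_apply]
    rw [Finset.sum_boole, Nat.card_eq_fintype_card, ← Fintype.card_subtype]
    rfl
  rw [h2] at h1
  have h3 : (Nat.card H : ℝ) ≠ 0 := by
    have : 0 < Nat.card H := Nat.card_pos
    exact_mod_cast this.ne'
  have h4 : (Nat.card H : ℝ) * ∑ g : G, (pc H g : ℝ) = Nat.card H * Fintype.card G := by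
    rw [h1, mul_comm]
  exact mul_left_cancel₀ h3 h4

/-- `F` is constant on the divisions of `G`. -/
def IsRat (F : G → ℝ) : Prop := ∀ g h, Div g h → F g = F h

omit [Fintype G] in
lemma isRat_pc (H : Subgroup G) : IsRat fun g => (pc H g : ℝ) := fun g h hgh => by
  beta_reduce
  rw [pc_div H hgh]

lemma eq_zero_of_orth {f : G → ℝ} (hf : IsRat f) (h0 : ∀ H : Subgroup G, ∑ g, f g * pc H g = 0) :
    f = 0 := by
  classical
  have h1 : ∀ H : Subgroup G, ∑ g, f g * Set.indicator (H : Set G) (1 : G → ℝ) g = 0 := by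
    intro H
    have h2 := sum_mul_pc H f fun x g => (hf _ _ (div_conj g x)).symm
    rw [h0, mul_zero, eq_comm, mul_eq_zero] at h2
    rcases h2 with h2 | h2
    · exact absurd h2 (by exact_mod_cast Fintype.card_ne_zero)
    · exact h2
  have h2 : ∀ n : ℕ, ∀ g : G, orderOf g = n → f g = 0 := by
    intro n
    induction n using Nat.strong_induction_on with
    | _ n ih =>
      intro g hg
      have h3 := h1 (Subgroup.zpowers g)
      have h4 : ∀ h : G, f h * Set.indicator (Subgroup.zpowers g : Set G) (1 : G → ℝ) h =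
          if Subgroup.zpowers h = Subgroup.zpowers g then f g else 0 := by
        intro h
        rw [Set.indicator_apply]
        split_ifs with h5 h6 h6
        · rw [Pi.one_apply, mul_one]
          exact hf _ _ (div_of_zpowers h6)
        · rw [Pi.one_apply, mul_one]
          refine ih (orderOf h) ?_ h rfl
          rw [← hg, ← Nat.card_zpowers, ← Nat.card_zpowers]
          have h7 : Subgroup.zpowers h ≤ Subgroup.zpowers g := by
            rw [Subgroup.zpowers_le]
            exact h5
          refine lt_of_le_of_ne (Nat.card_le_card_of_injective _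
            (Subgroup.inclusion_injective h7)) fun h8 => h6 ?_
          exact Subgroup.eq_of_le_of_card_ge h7 h8.ge
        · exact absurd (h6 ▸ Subgroup.mem_zpowers h) h5
        · rw [mul_zero]
      rw [Finset.sum_congr rfl fun h _ => h4 h, ← Finset.sum_filter, Finset.sum_const,
        nsmul_eq_mul, mul_eq_zero] at h3
      rcases h3 with h3 | h3
      · have h5 : g ∈ Finset.univ.filter fun h => Subgroup.zpowers h = Subgroup.zpowers g := by
          simp
        have h6 := Finset.card_pos.mpr ⟨g, h5⟩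
        exact absurd h3 (by exact_mod_cast h6.ne')
      · exact h3
  funext g
  exact h2 _ g rfl

/-- the span of the permutation characters -/
noncomputable def permSpan (G : Type*) [Group G] : Submodule ℝ (G → ℝ) :=
  Submodule.span ℝ (Set.range fun (H : Subgroup G) (g : G) => (pc H g : ℝ))

omit [Fintype G] in
lemma isRat_of_mem {F : G → ℝ} (hF : F ∈ permSpan G) : IsRat F := by
  unfold permSpan at hF
  induction hF using Submodule.span_induction with
  | mem x hx =>
    obtain ⟨H, rfl⟩ := hx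
    exact isRat_pc H
  | zero => exact fun _ _ _ => rfl
  | add x y _ _ hx hy => exact fun g h hgh => by rw [Pi.add_apply, Pi.add_apply, hx g h hgh, hy g h hgh]
  | smul a x _ hx => exact fun g h hgh => by rw [Pi.smul_apply, Pi.smul_apply, hx g h hgh]

/-- **Artin's theorem** -/
theorem artin {F : G → ℝ} (hF : IsRat F) : F ∈ permSpan G := by
  classical
  set e := (WithLp.linearEquiv 2 ℝ (G → ℝ)) with he
  set W : Submodule ℝ (EuclideanSpace ℝ G) := (permSpan G).comap e.toLinearMap with hW
  set P := W.starProjection (e.symm F) with hP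
  have hPm : P ∈ W := Submodule.starProjection_apply_mem _ _
  have hw : e P ∈ permSpan G := hPm
  have hf : IsRat (F - e P) := by
    intro g h hgh
    rw [Pi.sub_apply, Pi.sub_apply, hF g h hgh, isRat_of_mem hw g h hgh]
  have h1 : ∀ H : Subgroup G, ∑ g, (F - e P) g * pc H g = 0 := by
    intro H
    have h2 : e.symm (fun g => (pc H g : ℝ)) ∈ W := by
      change e (e.symm (fun g => (pc H g : ℝ))) ∈ permSpan G
      rw [LinearEquiv.apply_symm_apply]
      exact Submodule.subset_span ⟨H, rfl⟩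
    have h3 := W.starProjection_inner_eq_zero (e.symm F) _ h2
    rw [PiLp.inner_apply] at h3
    rw [← h3]
    refine Finset.sum_congr rfl fun g _ => ?_
    simp [he, mul_comm]
    exact Or.inl rfl
  have h2 := eq_zero_of_orth hf h1
  rw [sub_eq_zero] at h2
  rw [h2]
  exact hw

/-- the number of elements of a coset of `N` in a subgroup `H` -/
lemma coset_count (H N : Subgroup G) [N.Normal] (a : G) :
    ∑ n : G, Set.indicator (N : Set G) (1 : G → ℝ) n * Set.indicator (H : Set G) (1 : G → ℝ) (a * n)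
      = Nat.card (H ⊓ N : Subgroup G) * Set.indicator (↑(H ⊔ N) : Set G) (1 : G → ℝ) a := by
  classical
  by_cases ha : a ∈ H ⊔ N
  · obtain ⟨h, hh, n0, hn0, rfl⟩ := Subgroup.mem_sup_of_normal_right.mp ha
    have h1 : Set.indicator (↑(H ⊔ N) : Set G) (1 : G → ℝ) (h * n0) = 1 :=
      Set.indicator_of_mem (show h * n0 ∈ (↑(H ⊔ N) : Set G) from ha) _
    rw [h1, mul_one, ← Equiv.sum_comp (Equiv.mulLeft n0⁻¹)]
    have h2 : ∀ n : G, Set.indicator (N : Set G) (1 : G → ℝ) ((Equiv.mulLeft n0⁻¹) n) *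
        Set.indicator (H : Set G) (1 : G → ℝ) (h * n0 * (Equiv.mulLeft n0⁻¹) n) =
        if n ∈ H ⊓ N then 1 else 0 := by
      intro n
      have h3 : (Equiv.mulLeft n0⁻¹) n = n0⁻¹ * n := rfl
      have h4 : h * n0 * (n0⁻¹ * n) = h * n := by group
      rw [h3, h4, Set.indicator_apply, Set.indicator_apply]
      have h5 : (n0⁻¹ * n ∈ (N : Set G)) ↔ n ∈ N := by
        rw [SetLike.mem_coe]
        exact Subgroup.mul_mem_cancel_left N (N.inv_mem hn0)
      have h6 : (h * n ∈ (H : Set G)) ↔ n ∈ H := by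
        rw [SetLike.mem_coe]
        exact Subgroup.mul_mem_cancel_left H hh
      by_cases h7 : n ∈ N <;> by_cases h8 : n ∈ H <;> simp [h5, h6, h7, h8, Subgroup.mem_inf]
    rw [Finset.sum_congr rfl fun n _ => h2 n, Finset.sum_boole, Nat.card_eq_fintype_card,
      ← Fintype.card_subtype]
  · have h1 : Set.indicator (↑(H ⊔ N) : Set G) (1 : G → ℝ) a = 0 :=
      Set.indicator_of_notMem (show a ∉ (↑(H ⊔ N) : Set G) from ha) _
    rw [h1, mul_zero]
    refine Finset.sum_eq_zero fun n _ => ?_
    by_cases h7 : n ∈ N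
    · have h8 : a * n ∉ H := fun h => ha (by
        have h9 : a = a * n * n⁻¹ := by group
        rw [h9]
        exact Subgroup.mul_mem_sup h (N.inv_mem h7))
      rw [Set.indicator_of_notMem (show a * n ∉ (H : Set G) from h8), mul_zero]
    · rw [Set.indicator_of_notMem (show n ∉ (N : Set G) from h7), zero_mul]

lemma card_indicator (H : Subgroup G) :
    ∑ g : G, Set.indicator (H : Set G) (1 : G → ℝ) g = Nat.card H := by
  classical
  simp only [Set.indicator_apply, Pi.one_apply]
  rw [Finset.sum_boole, Nat.card_eq_fintype_card, ← Fintype.card_subtype]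
  rfl

lemma card_sup (H N : Subgroup G) [N.Normal] :
    (Nat.card (H ⊓ N : Subgroup G) : ℝ) * Nat.card (H ⊔ N : Subgroup G) = Nat.card H * Nat.card N := by
  classical
  have h1 : ∑ a : G, ∑ n : G, Set.indicator (N : Set G) (1 : G → ℝ) n *
      Set.indicator (H : Set G) (1 : G → ℝ) (a * n) =
      Nat.card (H ⊓ N : Subgroup G) * Nat.card (H ⊔ N : Subgroup G) := by
    rw [Finset.sum_congr rfl fun a _ => coset_count H N a, ← Finset.mul_sum, card_indicator]
  rw [← h1, Finset.sum_comm]
  have h2 : ∀ n : G, ∑ a : G, Set.indicator (N : Set G) (1 : G → ℝ) n *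
      Set.indicator (H : Set G) (1 : G → ℝ) (a * n) =
      Set.indicator (N : Set G) (1 : G → ℝ) n * Nat.card H := by
    intro n
    rw [← Finset.mul_sum, ← card_indicator H, ← Equiv.sum_comp (Equiv.mulRight n)
      (fun a => Set.indicator (H : Set G) (1 : G → ℝ) a)]
    rfl
  rw [Finset.sum_congr rfl fun n _ => h2 n, ← Finset.sum_mul, card_indicator, mul_comm]

/-- The average of `pc H` over a coset of the normal subgroup `N` is `pc (H ⊔ N)`. -/
lemma coset_avg (H N : Subgroup G) [N.Normal] (g : G) :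
    ∑ n : G, Set.indicator (N : Set G) (1 : G → ℝ) n * pc H (g * n) = Nat.card N * pc (H ⊔ N) g := by
  classical
  have hH : (Nat.card H : ℝ) ≠ 0 := by
    have : 0 < Nat.card H := Nat.card_pos
    exact_mod_cast this.ne'
  apply mul_left_cancel₀ hH
  have h1 : ∀ (K : Subgroup G) (g : G), (Nat.card K : ℝ) * pc K g =
      ∑ x : G, Set.indicator (K : Set G) (1 : G → ℝ) (x⁻¹ * g * x) := by
    intro K g
    rw [pc_mul_card_real]
    refine Finset.sum_congr rfl fun x _ => ?_
    rw [Set.indicator_apply]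
    rfl
  have h2 : (Nat.card H : ℝ) * ∑ n : G, Set.indicator (N : Set G) (1 : G → ℝ) n * pc H (g * n) =
      ∑ n : G, ∑ x : G, Set.indicator (N : Set G) (1 : G → ℝ) n *
        Set.indicator (H : Set G) (1 : G → ℝ) (x⁻¹ * (g * n) * x) := by
    rw [Finset.mul_sum]
    refine Finset.sum_congr rfl fun n _ => ?_
    rw [← Finset.mul_sum, ← h1]
    ring
  rw [h2, Finset.sum_comm]
  have h3 : ∀ x : G, ∑ n : G, Set.indicator (N : Set G) (1 : G → ℝ) n *
      Set.indicator (H : Set G) (1 : G → ℝ) (x⁻¹ * (g * n) * x) =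
      Nat.card (H ⊓ N : Subgroup G) *
        Set.indicator (↑(H ⊔ N) : Set G) (1 : G → ℝ) (x⁻¹ * g * x) := by
    intro x
    rw [← coset_count, ← Equiv.sum_comp (MulAut.conj x).toEquiv]
    refine Finset.sum_congr rfl fun n _ => ?_
    have h4 : (MulAut.conj x).toEquiv n = x * n * x⁻¹ := rfl
    have h5 : x⁻¹ * (g * (x * n * x⁻¹)) * x = x⁻¹ * g * x * n := by group
    rw [h4, h5]
    congr 1
    rw [Set.indicator_apply, Set.indicator_apply]
    have h6 : (x * n * x⁻¹ ∈ (N : Set G)) ↔ n ∈ (N : Set G) := by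
      rw [SetLike.mem_coe, SetLike.mem_coe]
      refine ⟨fun h => ?_, fun h => Subgroup.Normal.conj_mem inferInstance n h x⟩
      have h7 := Subgroup.Normal.conj_mem (H := N) inferInstance _ h x⁻¹
      have h8 : x⁻¹ * (x * n * x⁻¹) * x⁻¹⁻¹ = n := by group
      rwa [h8] at h7
    by_cases h7 : n ∈ (N : Set G)
    · rw [if_pos h7, if_pos (h6.mpr h7)]
      rfl
    · rw [if_neg h7, if_neg fun h => h7 (h6.mp h)]
  rw [Finset.sum_congr rfl fun x _ => h3 x, ← Finset.mul_sum, ← h1, ← mul_assoc, card_sup, mul_assoc]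

/-- For a normal subgroup `N` contained in `M`, the inner product of the permutation characters of
`H` and `M` depends on `H ⊔ N` only. -/
lemma inner_pc (H M N : Subgroup G) [N.Normal] (hNM : N ≤ M) :
    ∑ g : G, (pc H g : ℝ) * pc M g = ∑ g : G, (pc (H ⊔ N) g : ℝ) * pc M g := by
  classical
  have hN : (Nat.card N : ℝ) ≠ 0 := by
    have : 0 < Nat.card N := Nat.card_pos
    exact_mod_cast this.ne'
  apply mul_left_cancel₀ hN
  have hM : ∀ g n : G, n ∈ N → pc M (g * n) = pc M g := by
    intro g n hn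
    unfold pc
    have h1 : MulAction.fixedBy (G ⧸ M) (g * n) = MulAction.fixedBy (G ⧸ M) g := by
      ext y
      obtain ⟨x, rfl⟩ := QuotientGroup.mk_surjective y
      rw [mk_fixed_iff, mk_fixed_iff]
      have h2 : x⁻¹ * (g * n) * x = x⁻¹ * g * x * (x⁻¹ * n * x) := by group
      have h3 : x⁻¹ * n * x ∈ M := hNM (by
        have h4 := Subgroup.Normal.conj_mem (H := N) inferInstance _ hn x⁻¹
        rwa [inv_inv] at h4)
      rw [h2]
      exact Subgroup.mul_mem_cancel_right M h3
    rw [h1]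
  have h1 : (Nat.card N : ℝ) * ∑ g : G, (pc (H ⊔ N) g : ℝ) * pc M g =
      ∑ g : G, ∑ n : G, Set.indicator (N : Set G) (1 : G → ℝ) n * (pc H (g * n) * pc M (g * n)) := by
    rw [Finset.mul_sum]
    refine Finset.sum_congr rfl fun g _ => ?_
    rw [← mul_assoc, ← coset_avg, Finset.sum_mul]
    refine Finset.sum_congr rfl fun n _ => ?_
    by_cases h7 : n ∈ N
    · rw [hM g n h7, mul_assoc]
    · rw [Set.indicator_of_notMem (show n ∉ (N : Set G) from h7), zero_mul, zero_mul, zero_mul]
  rw [h1, Finset.sum_comm]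
  have h2 : ∀ n : G, ∑ g : G, Set.indicator (N : Set G) (1 : G → ℝ) n *
      ((pc H (g * n) : ℝ) * pc M (g * n)) =
      Set.indicator (N : Set G) (1 : G → ℝ) n * ∑ g : G, (pc H g : ℝ) * pc M g := by
    intro n
    rw [← Finset.mul_sum, ← Equiv.sum_comp (Equiv.mulRight n)
      (fun g => (pc H g : ℝ) * pc M g)]
    rfl
  rw [Finset.sum_congr rfl fun n _ => h2 n, ← Finset.sum_mul, card_indicator]

/-- The inner product of two permutation characters is at least one. -/
lemma one_le_inner (H M : Subgroup G) : (Fintype.card G : ℝ) ≤ ∑ g : G, (pc H g : ℝ) * pc M g := by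
  classical
  have hM : (Nat.card M : ℝ) ≠ 0 := by
    have : 0 < Nat.card M := Nat.card_pos
    exact_mod_cast this.ne'
  have h1 := sum_mul_pc M (fun g => (pc H g : ℝ)) fun x g => by
    rw [pc_conj]
  have h2 : (Nat.card M : ℝ) ≤ ∑ g : G, (pc H g : ℝ) * Set.indicator (M : Set G) (1 : G → ℝ) g := by
    have : Fintype M := Fintype.ofFinite _
    have : ∀ a : M, Fintype (MulAction.fixedBy (G ⧸ H) a) := fun a => Fintype.ofFinite _
    have : Fintype (Quotient (MulAction.orbitRel M (G ⧸ H))) := Fintype.ofFinite _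
    have h3 := MulAction.sum_card_fixedBy_eq_card_orbits_mul_card_group M (G ⧸ H)
    have h4 : 1 ≤ Fintype.card (Quotient (MulAction.orbitRel M (G ⧸ H))) :=
      Fintype.card_pos_iff.mpr ⟨Quotient.mk _ ((1 : G) : G ⧸ H)⟩
    have h5 : Fintype.card M ≤ ∑ a : M, Fintype.card (MulAction.fixedBy (G ⧸ H) a) := by
      rw [h3]
      exact Nat.le_mul_of_pos_left _ h4
    have h6 : ∑ g : G, (pc H g : ℝ) * Set.indicator (M : Set G) (1 : G → ℝ) g =
        ∑ a : M, (Fintype.card (MulAction.fixedBy (G ⧸ H) a) : ℝ) := by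
      have h7 : ∀ a : M, (Fintype.card (MulAction.fixedBy (G ⧸ H) a) : ℝ) = pc H (a : G) := by
        intro a
        unfold pc
        rw [← Nat.card_eq_fintype_card]
        rfl
      rw [Finset.sum_congr rfl fun a _ => h7 a]
      simp only [Set.indicator_apply, Pi.one_apply, mul_ite, mul_one, mul_zero]
      rw [← Finset.sum_filter]
      refine Finset.sum_subtype _ (fun x => ?_) fun g => (pc H g : ℝ)
      rw [Finset.mem_filter]
      exact ⟨fun h => h.2, fun h => ⟨Finset.mem_univ _, h⟩⟩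
    rw [h6, Nat.card_eq_fintype_card]
    exact_mod_cast h5
  have h3 : (Nat.card M : ℝ) * ∑ g : G, (pc H g : ℝ) * pc M g ≥ Nat.card M * Fintype.card G := by
    rw [h1, mul_comm (Nat.card M : ℝ)]
    exact mul_le_mul_of_nonneg_left h2 (Nat.cast_nonneg _)
  have h4 : (0 : ℝ) < Nat.card M := lt_of_le_of_ne (Nat.cast_nonneg _) hM.symm
  exact le_of_mul_le_mul_left h3 h4

lemma pc_le (H : Subgroup G) (g : G) : pc H g ≤ H.index := by
  unfold pc Subgroup.index
  exact Nat.card_le_card_of_injective _ Subtype.val_injective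

lemma inner_self_le (H : Subgroup G) :
    ∑ g : G, (pc H g : ℝ) * pc H g ≤ Fintype.card G * H.index := by
  have h1 : ∀ g : G, (pc H g : ℝ) * pc H g ≤ pc H g * H.index := fun g =>
    mul_le_mul_of_nonneg_left (by exact_mod_cast pc_le H g) (Nat.cast_nonneg _)
  refine (Finset.sum_le_sum fun g _ => h1 g).trans ?_
  rw [← Finset.sum_mul, sum_pc]

end

end Pool.Agent.Work.MP_2b9663_nt
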