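import Pool.Agent.Work.MP_2b9663_nt.Defs

set_option autoImplicit false

/-!
Smooth projective varieties over number fields, the traces of Frobenius on the cohomology of their
powers, and the `L`-functions attached to them.
-/

namespace Pool.Agent.Work.MP_2b9663_nt

open Polynomial NumberField

/-- Equations of a projective variety over the field `K`: finitely many homogeneous polynomials
in `N + 1` variables whose coefficients are algebraic integers in `K`. -/
structure ProjVar (K : Type) [Field K] where
  /-- the dimension of the projective space -/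
  N : ℕ
  /-- the number of equations -/
  m : ℕ
  /-- the equations -/
  eqn : Fin m → MvPolynomial (Fin (N + 1)) (𝓞 K)
  /-- the equations are homogeneous -/
  homog : ∀ j, ∃ e : ℕ, (eqn j).IsHomogeneous e

section

variable {K : Type} [Field K]

/-- The ideal generated by the equations over `ℂ`, for an embedding `τ`. -/
noncomputable def ProjVar.ideal (V : ProjVar K) (τ : 𝓞 K →+* ℂ) :
    Ideal (MvPolynomial (Fin (V.N + 1)) ℂ) :=
  Ideal.span (Set.range fun j => MvPolynomial.map τ (V.eqn j))

/-- The differential of the `j`-th equation at `x`, a linear form. -/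
noncomputable def ProjVar.differential (V : ProjVar K) (τ : 𝓞 K →+* ℂ) (x : Fin (V.N + 1) → ℂ)
    (j : Fin V.m) : (Fin (V.N + 1) → ℂ) →ₗ[ℂ] ℂ :=
  ∑ l, MvPolynomial.eval₂ τ x (MvPolynomial.pderiv l (V.eqn j)) • LinearMap.proj l

/-- The Zariski tangent space at `x` of the affine cone over the variety. -/
noncomputable def ProjVar.tangent (V : ProjVar K) (τ : 𝓞 K →+* ℂ) (x : Fin (V.N + 1) → ℂ) :
    Submodule ℂ (Fin (V.N + 1) → ℂ) :=
  ⨅ j, LinearMap.ker (V.differential τ x j)

/-- The equations define in `ℙ ^ N` over `ℂ`, for all embeddings `τ`, a smooth irreducible variety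
of dimension `d`: the affine cone over it is irreducible of dimension `d + 1`, and at every
nonzero point of the cone its Zariski tangent space has dimension `d + 1`. -/
def ProjVar.IsSmooth (V : ProjVar K) (d : ℕ) : Prop :=
  ∀ τ : 𝓞 K →+* ℂ, (V.ideal τ).radical.IsPrime ∧
    ringKrullDim (MvPolynomial (Fin (V.N + 1)) ℂ ⧸ V.ideal τ) = (d + 1 : ℕ) ∧
    ∀ x : Fin (V.N + 1) → ℂ, x ≠ 0 → (∀ j, MvPolynomial.eval₂ τ x (V.eqn j) = 0) →
      Module.finrank ℂ (V.tangent τ x) = d + 1

/-- The number of points over the field `κ` of the fibre at `σ` of the projective scheme over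
`𝓞 K` defined by the equations. -/
noncomputable def ProjVar.numPts (V : ProjVar K) {κ : Type} [Field κ] (σ : 𝓞 K →+* κ) : ℕ :=
  Nat.card {x : Projectivization κ (Fin (V.N + 1) → κ) //
    ∀ j, MvPolynomial.eval₂ σ x.rep (V.eqn j) = 0}

end

/-- `P` has the properties of the polynomial `∑ j, tr(Frob | H ^ j (Y)) X ^ j` of a smooth
projective geometrically irreducible variety `Y` of dimension `d` with `N` points over a field
with `q` elements: `P` has degree at most `2 d`, its value at `-1` is `N` (the trace formula),
the trace on `H ^ 0` is `1`, and the trace on `H ^ (2 d - j)` is `q ^ (d - j)` times the trace on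
`H ^ j` (hard Lefschetz theorem, or Poincare duality and purity). -/
def IsTracePoly (d q N : ℕ) (P : ℝ[X]) : Prop :=
  P.natDegree ≤ 2 * d ∧ P.eval (-1) = N ∧ P.coeff 0 = 1 ∧
    ∀ j ≤ d, P.coeff (2 * d - j) = (q : ℝ) ^ (d - j) * P.coeff j

/-- `R` has the properties of an `n`-th root of the trace polynomial of a smooth projective
geometrically irreducible variety `X` of dimension `n d` with `N` points over a field with `q`
elements: `R` has degree at most `2 d`, the `n`-th power of its value at `-1` is `N` (the trace
formula), its constant coefficient is `1`, and the coefficient of `X ^ (2 d - j)` is `q ^ (d - j)`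
times the coefficient of `X ^ j` (duality). -/
def IsRootPoly (d q n N : ℕ) (R : ℝ[X]) : Prop :=
  R.natDegree ≤ 2 * d ∧ R.eval (-1) ^ n = N ∧ R.coeff 0 = 1 ∧
    ∀ j ≤ d, R.coeff (2 * d - j) = (q : ℝ) ^ (d - j) * R.coeff j

/-- The term `t * p ^ (-k s) / k` of the logarithm of an Euler factor. -/
noncomputable def eulerTerm (t : ℝ) (p k : ℕ) (s : ℂ) : ℂ :=
  (t : ℂ) * (p : ℂ) ^ (-((k : ℂ) * s)) / (k : ℂ)

/-- The double series `∑ p ∉ T, ∑ k ≥ 1, t p k * p ^ (-k s) / k`, indexed by `(p, k - 1)`: its
terms. -/
noncomputable def logTerm (T : Finset Nat.Primes) (t : Nat.Primes → ℕ → ℝ) (s : ℂ)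
    (x : {p : Nat.Primes // p ∉ T} × ℕ) : ℂ :=
  eulerTerm (t x.1 (x.2 + 1)) (x.1 : ℕ) (x.2 + 1) s

/-- The product of the factors `Q p (p ^ (-s))⁻¹` at the primes in `T`. -/
noncomputable def badFactors (T : Finset Nat.Primes) (Q : Nat.Primes → ℂ[X]) (s : ℂ) : ℂ :=
  ∏ p ∈ T, ((Q p).eval (((p : ℕ) : ℂ) ^ (-s)))⁻¹

/-- `F` agrees for `Re s > i / 2 + 1` with an absolutely convergent Euler product. For the primes
`p` outside a finite set `T` of primes containing `S` the logarithm of the factor at `p` is
`∑ k ≥ 1, t p k * p ^ (-k s) / k`, so that the factor is `det (1 - Frob * p ^ (-s))⁻¹` if `t p k`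
is the trace of the `k`-th power of Frobenius. The factors at the primes in `T` are
`Q p (p ^ (-s))⁻¹` with arbitrary polynomials `Q p` with constant coefficient `1`. -/
def IsAbsEuler (S : Finset Nat.Primes) (t : Nat.Primes → ℕ → ℝ) (i : ℕ) (F : ℂ → ℂ) : Prop :=
  ∃ (T : Finset Nat.Primes) (Q : Nat.Primes → ℂ[X]), S ⊆ T ∧ (∀ p ∈ T, (Q p).coeff 0 = 1) ∧
    ∀ s : ℂ, (i : ℝ) / 2 + 1 < s.re → (Summable fun x => ‖logTerm T t s x‖) ∧
      F s = badFactors T Q s * Complex.exp (∑' x, logTerm T t s x)

/-- The sum of the coefficients of `X ^ i` in the `P p k σ ^ n`, over all homomorphisms `σ` from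
`𝓞 K` to the field with `p ^ k` elements. -/
noncomputable def powTrace {K : Type} [Field K]
    (P : (p : Nat.Primes) → (k : ℕ) → (𝓞 K →+* Fq p k) → ℝ[X]) (n i : ℕ) (p : Nat.Primes) (k : ℕ) :
    ℝ :=
  ∑ᶠ σ : 𝓞 K →+* Fq p k, ((P p k σ) ^ n).coeff i

/-- Let `Y` be a variety over the number field `K`, and for `p` outside `S` let `P p k σ` be the
trace polynomial of the Frobenius of the field with `p ^ k` elements on the cohomology of the
fibre of `Y` at `σ`. Then `F` is a meromorphic continuation of the `L`-function of `H ^ i (Y ^ n)`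
to a neighbourhood of `s₀ = i / 2 + 1`. By the Kuenneth formula the trace on the cohomology of
the fibre of `Y ^ n` at `σ` is the coefficient of `X ^ i` in `P p k σ ^ n`, and the `p`-part of
the `L`-function is given by the sum over all `σ`. -/
def IsPowContinuation {K : Type} [Field K] (S : Finset Nat.Primes)
    (P : (p : Nat.Primes) → (k : ℕ) → (𝓞 K →+* Fq p k) → ℝ[X]) (n i : ℕ) (F : ℂ → ℂ) : Prop :=
  IsAbsEuler S (powTrace P n i) i F ∧ MeromorphicAt F ((i : ℂ) / 2 + 1)

/-- The polynomial `∑ b j * q ^ j * X ^ (2 j)` over the `j ≤ d` with `2 j ≠ d`: the part outside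
the middle degree of the trace polynomial of a variety of dimension `d` all of whose cohomology
outside the middle degree is spanned by classes of algebraic cycles. -/
noncomputable def outerPoly (d : ℕ) (b : ℕ → ℕ) (q : ℕ) : ℝ[X] :=
  ∑ j ∈ (Finset.range (d + 1)).filter (fun j => 2 * j ≠ d), C ((b j : ℝ) * (q : ℝ) ^ j) * X ^ (2 * j)

/-- The trace polynomial of a variety `Y` of dimension `d` with `N` points over a field with `q`
elements all of whose cohomology outside the middle degree `d` is spanned by classes of algebraic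
cycles defined over this field, the Betti numbers in the degrees `2 j ≠ d` being `b j`: the trace
on `H ^ (2 j)` is `b j * q ^ j`, and the trace on `H ^ d` is given by the number of points, the
value of the polynomial at `-1`. -/
noncomputable def middlePoly (d : ℕ) (b : ℕ → ℕ) (q N : ℕ) : ℝ[X] :=
  outerPoly d b q + C ((-1) ^ d * ((N : ℝ) - (outerPoly d b q).eval (-1))) * X ^ d

/-- The polynomial `∑ l ≤ d, b l * q ^ (g l) * X ^ (2 g l)`. -/
noncomputable def gradedPoly (g d : ℕ) (b : ℕ → ℕ) (q : ℕ) : ℝ[X] :=
  ∑ l ∈ Finset.range (d + 1), C ((b l : ℝ) * (q : ℝ) ^ (g * l)) * X ^ (2 * g * l)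

/-- The trace polynomial of a variety `Y` of dimension at most `d` with `N` points over a field
with `q` elements with the following property: `H ^ j (Y)` is zero unless `g` divides `j`, spanned
by `b l` classes of algebraic cycles defined over this field if `j = 2 g l`, and the direct sum of
`c l` Tate twists of one Galois representation `M` if `j = 2 g l + g`. The trace on `M` is given by
the number of points, the value of the polynomial at `-1`. -/
noncomputable def twoTypePoly (g d : ℕ) (b c : ℕ → ℕ) (q N : ℕ) : ℝ[X] :=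
  gradedPoly g d b q + C ((-1) ^ g * ((N : ℝ) - (gradedPoly g d b q).eval (-1)) /
    (gradedPoly g d c q).eval (-1)) * (X ^ g * gradedPoly g d c q)

/-- The polynomial `∑ l ≤ d, b l * X ^ (2 g l)`: the Poincare polynomial of the part of the
cohomology in the degrees divisible by `2 g`. -/
noncomputable def gradedBetti (g d : ℕ) (b : ℕ → ℕ) : ℕ[X] :=
  ∑ l ∈ Finset.range (d + 1), C (b l) * X ^ (2 * g * l)

end Pool.Agent.Work.MP_2b9663_nt
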