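import Pool.Agent.Work.MP_2b9663_nt.PosDefs
import Pool.Agent.Work.MP_2b9663_nt.MV

set_option autoImplicit false

/-!
The order at `s₀` of an absolutely convergent Euler product with nonnegative traces.
-/

namespace Pool.Agent.Work.MP_2b9663_nt

open Filter Topology Polynomial

lemma sp_cpow (p : Nat.Primes) (i : ℕ) (ε : ℝ) :
    ((p : ℕ) : ℂ) ^ (-(sp i ε)) = ((((p : ℕ) : ℝ) ^ (-((i : ℝ) / 2 + 1 + ε)) : ℝ) : ℂ) := by
  have hp0 : (0 : ℝ) < ((p : ℕ) : ℝ) := by exact_mod_cast p.2.pos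
  rw [Complex.ofReal_cpow hp0.le, sp]
  push_cast
  rfl

lemma sp_eq (i : ℕ) (ε : ℝ) : sp i ε = ((i : ℂ) / 2 + 1) + ε := by
  rw [sp]
  push_cast
  ring

lemma sp_tendsto (i : ℕ) : Tendsto (fun ε : ℝ => sp i ε) (𝓝[>] 0) (𝓝[≠] ((i : ℂ) / 2 + 1)) := by
  rw [tendsto_nhdsWithin_iff]
  constructor
  · have h1 : Tendsto (fun ε : ℝ => ((i : ℂ) / 2 + 1) + (ε : ℂ)) (𝓝 0)
        (𝓝 (((i : ℂ) / 2 + 1) + ((0 : ℝ) : ℂ))) := Continuous.tendsto (by fun_prop) 0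
    rw [Complex.ofReal_zero, add_zero] at h1
    refine (h1.mono_left nhdsWithin_le_nhds).congr fun ε => ?_
    rw [sp_eq]
  · filter_upwards [self_mem_nhdsWithin] with ε hε0
    have hε : (0 : ℝ) < ε := hε0
    rw [Set.mem_compl_iff, Set.mem_singleton_iff, sp_eq]
    intro h1
    have h2 : (ε : ℂ) = 0 := by linear_combination h1
    rw [Complex.ofReal_eq_zero] at h2
    exact hε.ne' h2

/-- The factor at an exceptional prime. -/
lemma factor_bound {Q : ℂ[X]} (hQ : Q.coeff 0 = 1) (p : Nat.Primes) (i : ℕ) :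
    ∃ A : ℝ, ∀ᶠ ε : ℝ in 𝓝[>] 0, Q.eval (((p : ℕ) : ℂ) ^ (-(sp i ε))) ≠ 0 ∧
      Real.log ‖Q.eval (((p : ℕ) : ℂ) ^ (-(sp i ε)))‖ ≤ A := by
  have hp1 : (1 : ℝ) < ((p : ℕ) : ℝ) := by exact_mod_cast p.2.one_lt
  have hp0 : ((p : ℕ) : ℂ) ≠ 0 := by exact_mod_cast p.2.ne_zero
  have hQ0 : Q ≠ 0 := by
    rintro rfl
    simp at hQ
  have hfin : {z : ℂ | Q.eval z = 0}.Finite := by
    refine (Q.roots.toFinset.finite_toSet).subset fun z hz => ?_
    rw [Finset.mem_coe, Multiset.mem_toFinset, mem_roots hQ0]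
    exact hz
  have hinj : Function.Injective (fun ε : ℝ => ((p : ℕ) : ℂ) ^ (-(sp i ε))) := by
    intro a b hab
    simp only [sp_cpow] at hab
    rw [Complex.ofReal_inj] at hab
    have h1 := (Real.strictMono_rpow_of_base_gt_one hp1).injective hab
    linarith
  have hfin2 : {ε : ℝ | Q.eval (((p : ℕ) : ℂ) ^ (-(sp i ε))) = 0}.Finite :=
    hfin.preimage hinj.injOn
  have hne : ∀ᶠ ε : ℝ in 𝓝[>] 0, Q.eval (((p : ℕ) : ℂ) ^ (-(sp i ε))) ≠ 0 := by
    have h1 : ∀ᶠ ε : ℝ in cofinite, Q.eval (((p : ℕ) : ℂ) ^ (-(sp i ε))) ≠ 0 :=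
      hfin2.compl_mem_cofinite
    exact h1.filter_mono ((nhdsWithin_mono _ fun x hx => ne_of_gt hx).trans (nhdsNE_le_cofinite 0))
  have hc : Tendsto (fun ε : ℝ => ‖Q.eval (((p : ℕ) : ℂ) ^ (-(sp i ε)))‖) (𝓝[>] 0)
      (𝓝 ‖Q.eval (((p : ℕ) : ℂ) ^ (-((i : ℂ) / 2 + 1)))‖) := by
    have h1 : Continuous (fun s : ℂ => Q.eval (((p : ℕ) : ℂ) ^ (-s))) := by
      refine Q.continuous.comp ?_
      exact Continuous.const_cpow (by fun_prop) (Or.inl hp0)
    exact (h1.tendsto _ |>.comp ((sp_tendsto i).mono_right nhdsWithin_le_nhds)).norm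
  refine ⟨Real.log (‖Q.eval (((p : ℕ) : ℂ) ^ (-((i : ℂ) / 2 + 1)))‖ + 1), ?_⟩
  filter_upwards [hne, hc.eventually (gt_mem_nhds (lt_add_one _))] with ε h1 h2
  exact ⟨h1, Real.log_le_log (norm_pos_iff.mpr h1) h2.le⟩

/-- The terms of the double series at a real point. -/
lemma term_eq (T : Finset Nat.Primes) (t : Nat.Primes → ℕ → ℝ) (i : ℕ)
    (x : {p : Nat.Primes // p ∉ T} × ℕ) (ε : ℝ) : logTerm T t (sp i ε) x =
      ((t x.1 (x.2 + 1) * ((x.1 : ℕ) : ℝ) ^ (-(((x.2 + 1 : ℕ) : ℝ) * ((i : ℝ) / 2 + 1 + ε))) /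
        ((x.2 + 1 : ℕ) : ℝ) : ℝ) : ℂ) := by
  have hp0 : (0 : ℝ) < ((x.1 : ℕ) : ℝ) := by exact_mod_cast x.1.1.2.pos
  rw [Complex.ofReal_div, Complex.ofReal_mul, Complex.ofReal_cpow hp0.le, logTerm, eulerTerm, sp]
  push_cast
  rfl

/-- **Nonnegative traces give a pole.** If the traces `t p k` are nonnegative outside a finite set
of primes and `t p 1 ≥ c * w p * p ^ (i / 2)`, where `w` has mean value one, then the order at
`s₀ = i / 2 + 1` is at most `-c`. -/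
theorem order_le_of_abs {S : Finset Nat.Primes} {t : Nat.Primes → ℕ → ℝ} {i : ℕ} {F : ℂ → ℂ}
    {w : Nat.Primes → ℝ} (hw : MV w 1) (c : ℤ) (h0 : ∀ p ∉ S, ∀ k ≠ 0, 0 ≤ t p k)
    (h1 : ∀ p ∉ S, (c : ℝ) * w p * Real.sqrt ((p : ℕ) : ℝ) ^ i ≤ t p 1)
    (hF : IsAbsEuler S t i F) (hm : MeromorphicAt F ((i : ℂ) / 2 + 1)) :
    ∃ n : ℤ, meromorphicOrderAt F ((i : ℂ) / 2 + 1) = n ∧ n ≤ -c := by
  obtain ⟨T, Q, hST, hQ, hprod⟩ := hF
  obtain ⟨⟨B, hB⟩, hLA⟩ := hw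
  set s₀ : ℂ := (i : ℂ) / 2 + 1 with hs₀
  have hpath : Tendsto (fun ε : ℝ => sp i ε) (𝓝[>] 0) (𝓝[≠] s₀) := sp_tendsto i
  have hpath' : Tendsto (fun ε : ℝ => sp i ε) (𝓝[>] 0) (𝓝 s₀) :=
    hpath.mono_right nhdsWithin_le_nhds
  -- the exceptional factors
  have hA : ∃ A : ℝ, ∀ᶠ ε : ℝ in 𝓝[>] 0,
      badFactors T Q (sp i ε) ≠ 0 ∧ -A ≤ Real.log ‖badFactors T Q (sp i ε)‖ := by
    choose! A hA using fun (p : Nat.Primes) (hp : p ∈ T) => factor_bound (hQ p hp) p i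
    refine ⟨∑ p ∈ T, A p, ?_⟩
    have h2 : ∀ᶠ ε : ℝ in 𝓝[>] 0, ∀ p ∈ T, (Q p).eval (((p : ℕ) : ℂ) ^ (-(sp i ε))) ≠ 0 ∧
        Real.log ‖(Q p).eval (((p : ℕ) : ℂ) ^ (-(sp i ε)))‖ ≤ A p :=
      (Filter.eventually_all_finset T).mpr fun p hp => hA p hp
    filter_upwards [h2] with ε h3
    constructor
    · exact Finset.prod_ne_zero_iff.mpr fun p hp => inv_ne_zero (h3 p hp).1
    · rw [badFactors, norm_prod, Real.log_prod (fun p hp => norm_ne_zero_iff.mpr (inv_ne_zero (h3 p hp).1)),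
        ← Finset.sum_neg_distrib]
      refine Finset.sum_le_sum fun p hp => ?_
      rw [norm_inv, Real.log_inv]
      exact neg_le_neg (h3 p hp).2
  obtain ⟨A, hA⟩ := hA
  -- the order is finite
  have hfin : meromorphicOrderAt F s₀ ≠ ⊤ := by
    intro htop
    rw [meromorphicOrderAt_eq_top_iff] at htop
    obtain ⟨ε, h2, ⟨h3, -⟩, hε0⟩ := ((hpath.eventually htop).and (hA.and self_mem_nhdsWithin)).exists
    have hε : (0 : ℝ) < ε := hε0
    rw [(hprod (sp i ε) (by rw [sp_re]; linarith)).2] at h2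
    exact mul_ne_zero h3 (Complex.exp_ne_zero _) h2
  obtain ⟨n, hn⟩ := WithTop.ne_top_iff_exists.mp hfin
  refine ⟨n, hn.symm, ?_⟩
  obtain ⟨g, hg, hg0, hFg⟩ := (meromorphicOrderAt_eq_int_iff hm).mp hn.symm
  have hA' : ∃ A' : ℝ, ∀ᶠ ε : ℝ in 𝓝[>] 0, g (sp i ε) ≠ 0 ∧ Real.log ‖g (sp i ε)‖ ≤ A' := by
    have h2 : Tendsto (fun ε : ℝ => ‖g (sp i ε)‖) (𝓝[>] 0) (𝓝 ‖g s₀‖) :=
      (hg.continuousAt.tendsto.comp hpath').norm
    refine ⟨Real.log (‖g s₀‖ + 1), ?_⟩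
    filter_upwards [h2.eventually (lt_mem_nhds (norm_pos_iff.mpr hg0)),
      h2.eventually (gt_mem_nhds (lt_add_one _))] with ε h3 h4
    exact ⟨norm_pos_iff.mp h3, Real.log_le_log h3 h4.le⟩
  obtain ⟨A', hA'⟩ := hA'
  -- a lower bound for the logarithm of the product
  have hlow : ∀ ε : ℝ, 0 < ε → (c : ℝ) * PS w ε - |(c : ℝ)| * (T.card * B) ≤
      (∑' x, logTerm T t (sp i ε) x).re := by
    intro ε hε
    have hsum := (hprod (sp i ε) (by rw [sp_re]; linarith)).1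
    set u : {p : Nat.Primes // p ∉ T} × ℕ → ℝ := fun x => t x.1 (x.2 + 1) *
      ((x.1 : ℕ) : ℝ) ^ (-(((x.2 + 1 : ℕ) : ℝ) * ((i : ℝ) / 2 + 1 + ε))) / ((x.2 + 1 : ℕ) : ℝ)
      with hu
    have hS : ∀ p : {p : Nat.Primes // p ∉ T}, (p : Nat.Primes) ∉ S := fun p hp => p.2 (hST hp)
    have hu0 : ∀ x, 0 ≤ u x := by
      intro x
      have h2 := h0 x.1 (hS x.1) (x.2 + 1) (by omega)
      simp only [hu]
      positivity
    have hsum2 : Summable u := by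
      have h2 : Summable fun x => ‖(u x : ℂ)‖ := by
        refine hsum.congr fun x => ?_
        rw [term_eq]
      refine h2.congr fun x => ?_
      rw [Complex.norm_real, Real.norm_of_nonneg (hu0 x)]
    have e1 : (∑' x, logTerm T t (sp i ε) x).re =
        ∑' x, u x := by
      rw [show (∑' x, logTerm T t (sp i ε) x) =
        ∑' x, (u x : ℂ) from tsum_congr fun x => term_eq T t i x ε, ← Complex.ofReal_tsum,
        Complex.ofReal_re]
    have e2 : ∑' p : {p : Nat.Primes // p ∉ T}, u (p, 0) ≤ ∑' x, u x :=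
      tsum_comp_le_tsum_of_inj hsum2 hu0 (i := fun p => (p, 0)) (fun a b hab => (Prod.mk.inj hab).1)
    have hs1 : Summable (fun p : {p : Nat.Primes // p ∉ T} => u (p, 0)) :=
      hsum2.comp_injective (i := fun p : {p : Nat.Primes // p ∉ T} => (p, 0))
        (fun a b hab => (Prod.mk.inj hab).1)
    have hPS : Summable (fun p : Nat.Primes => w p * ((p : ℕ) : ℝ) ^ (-(1 + ε))) :=
      PS_summable hB hε
    have e3 : (c : ℝ) * ∑' p : {p : Nat.Primes // p ∉ T}, w p * ((p : ℕ) : ℝ) ^ (-(1 + ε)) ≤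
        ∑' p : {p : Nat.Primes // p ∉ T}, u (p, 0) := by
      rw [← tsum_mul_left]
      refine ((hPS.subtype _).mul_left _).tsum_le_tsum (fun p => ?_) hs1
      simp only [hu, zero_add, Nat.cast_one, one_mul, div_one]
      have h2 := mul_le_mul_of_nonneg_right (h1 p (hS p))
        (Real.rpow_nonneg (Nat.cast_nonneg (p : ℕ)) (-((i : ℝ) / 2 + 1 + ε)))
      have h3 := sqrt_pow_mul_rpow (p : Nat.Primes) i 1 ε
      rw [pow_one, Nat.cast_one, one_mul, one_mul] at h3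
      rw [mul_assoc, h3, mul_assoc] at h2
      exact h2
    have e4 : PS w ε = ∑ p ∈ T, w p * ((p : ℕ) : ℝ) ^ (-(1 + ε)) +
        ∑' p : {p : Nat.Primes // p ∉ T}, w p * ((p : ℕ) : ℝ) ^ (-(1 + ε)) :=
      (hPS.sum_add_tsum_subtype_compl T).symm
    have e5 : |(c : ℝ) * ∑ p ∈ T, w p * ((p : ℕ) : ℝ) ^ (-(1 + ε))| ≤
        |(c : ℝ)| * (T.card * B) := by
      rw [abs_mul]
      refine mul_le_mul_of_nonneg_left ?_ (abs_nonneg _)
      refine (Finset.abs_sum_le_sum_abs _ _).trans ?_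
      rw [← nsmul_eq_mul]
      refine Finset.sum_le_card_nsmul _ _ _ fun p _ => ?_
      rw [abs_mul, abs_of_nonneg (Real.rpow_nonneg (Nat.cast_nonneg _) _)]
      refine (mul_le_of_le_one_right (abs_nonneg _) ?_).trans (hB p)
      exact Real.rpow_le_one_of_one_le_of_nonpos (by exact_mod_cast p.2.one_le) (by linarith)
    rw [e1, e4, mul_add]
    have := (abs_le.mp e5).2
    linarith
  -- comparison
  obtain ⟨C, hC⟩ := hLA
  by_contra hlt
  push Not at hlt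
  have hpos : (0 : ℝ) < n + c := by
    have : (0 : ℤ) < n + c := by omega
    exact_mod_cast this
  have hlim : Tendsto (fun ε : ℝ => ((n : ℝ) + c) * Real.log ε) (𝓝[>] (0 : ℝ)) atBot :=
    Tendsto.const_mul_atBot hpos Real.tendsto_log_nhdsGT_zero
  have hev := hlim.eventually (eventually_lt_atBot (-(A' + A + |(c : ℝ)| * (T.card * B) + |(c : ℝ)| * C)))
  obtain ⟨ε, h2, h3, h4, h5, h6, hε0⟩ := (hA.and (hA'.and ((hpath.eventually hFg).and
    (hC.and (hev.and self_mem_nhdsWithin))))).exists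
  have hε : (0 : ℝ) < ε := hε0
  have hl := hlow ε hε
  set Z := ∑' x, logTerm T t (sp i ε) x with hZ
  have e6 : Real.log ‖F (sp i ε)‖ =
      Real.log ‖badFactors T Q (sp i ε)‖ + Z.re := by
    rw [(hprod (sp i ε) (by rw [sp_re]; linarith)).2, norm_mul, Complex.norm_exp,
      Real.log_mul (norm_ne_zero_iff.mpr h2.1) (Real.exp_pos _).ne', Real.log_exp]
  have e7 : Real.log ‖F (sp i ε)‖ = n * Real.log ε + Real.log ‖g (sp i ε)‖ := by
    have h7 : sp i ε - s₀ = (ε : ℂ) := by rw [sp_eq]; ring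
    rw [h4, h7, smul_eq_mul, norm_mul, norm_zpow, Complex.norm_real, Real.norm_eq_abs,
      abs_of_pos hε, Real.log_mul (zpow_ne_zero _ hε.ne') (norm_ne_zero_iff.mpr h3.1),
      Real.log_zpow]
  have e8 : (c : ℝ) * (PS w ε + 1 * Real.log ε) ≥ -(|(c : ℝ)| * C) := by
    have h7 : |(c : ℝ) * (PS w ε + 1 * Real.log ε)| ≤ |(c : ℝ)| * C := by
      rw [abs_mul]
      exact mul_le_mul_of_nonneg_left h5 (abs_nonneg _)
    exact (abs_le.mp h7).1
  have e9 : ((n : ℝ) + c) * Real.log ε = n * Real.log ε + c * Real.log ε := by ring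
  rw [e9] at h6
  nlinarith [h2.2, h3.2]

end Pool.Agent.Work.MP_2b9663_nt
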