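import Pool.Agent.Work.MP_2b9663_nt.PosEuler
import Pool.Agent.Work.MP_2b9663_nt.Homs
import Pool.Agent.Work.MP_2b9663_nt.Trace

set_option autoImplicit false

/-!
The order at `s₀` of an `L`-function over a number field with nonnegative traces.
-/

namespace Pool.Agent.Work.MP_2b9663_nt

open Polynomial NumberField

/-- If the coefficients of `X ^ i` in the `P p k σ ^ n` are at least `c * p ^ (k i / 2)`, then the
order at `s₀ = i / 2 + 1` is at most `-c`. -/
theorem order_le_of_homs {K : Type} [Field K] [NumberField K] {S : Finset Nat.Primes}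
    {P : (p : Nat.Primes) → (k : ℕ) → (𝓞 K →+* Fq p k) → ℝ[X]} {n i : ℕ} {F : ℂ → ℂ} (c : ℕ)
    (h : ∀ p ∉ S, ∀ k ≠ 0, ∀ σ,
      (c : ℝ) * Real.sqrt (((p : ℕ) ^ k : ℕ) : ℝ) ^ i ≤ ((P p k σ) ^ n).coeff i)
    (hF : IsPowContinuation S P n i F) :
    ∃ o : ℤ, meromorphicOrderAt F ((i : ℂ) / 2 + 1) = o ∧ o ≤ -(c : ℤ) := by
  refine order_le_of_abs (MV_idc K) (c : ℤ) (fun p hp k hk => ?_) (fun p hp => ?_) hF.1 hF.2
  · exact finsum_nonneg fun σ => (by positivity : (0 : ℝ) ≤ _).trans (h p hp k hk σ)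
  · have : Fact (p : ℕ).Prime := ⟨p.2⟩
    have hcard : Nat.card (Fq p 1) = p := by
      have := card_Fq p one_ne_zero
      rwa [pow_one] at this
    have : Finite (Fq p 1) := Nat.finite_of_card_ne_zero (by rw [hcard]; exact p.2.ne_zero)
    have hfin : Finite (𝓞 K →+* Fq p 1) := homs_finite K (Fq p 1)
    have : Fintype (𝓞 K →+* Fq p 1) := Fintype.ofFinite _
    have h2 : (idc K (p : ℕ) : ℝ) = Fintype.card (𝓞 K →+* Fq p 1) := by
      rw [← card_homs_eq hcard K, Nat.card_eq_fintype_card]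
    rw [powTrace, finsum_eq_sum_of_fintype, h2]
    have h3 : ∀ σ ∈ (Finset.univ : Finset (𝓞 K →+* Fq p 1)),
        (c : ℝ) * Real.sqrt ((p : ℕ) : ℝ) ^ i ≤ ((P p 1 σ) ^ n).coeff i := by
      intro σ _
      have := h p hp 1 one_ne_zero σ
      rwa [pow_one] at this
    have h4 := Finset.card_nsmul_le_sum _ _ _ h3
    rw [nsmul_eq_mul, Finset.card_univ] at h4
    refine le_trans (le_of_eq ?_) h4
    push_cast
    ring

end Pool.Agent.Work.MP_2b9663_nt
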