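import Pool.Agent.Work.MP_2b9663_nt.Order

set_option autoImplicit false

/-!
Non-vanishing from positivity of the traces.
-/

namespace Pool.Agent.Work.MP_2b9663_nt

open Polynomial

/-- Even degrees of powers of one curve. -/
theorem even_power {f : ℤ[X]} (hf : IsCurve f) (n k : ℕ) {F : ℂ → ℂ}
    (hF : IsContinuation (fun _ : Fin n => f) (fun _ => 1) (2 * k) F) :
    ∃ m : ℤ, meromorphicOrderAt F (((2 * k : ℕ) : ℂ) / 2 + 1) = m ∧ m ≤ -(n.choose k : ℤ) := by
  refine order_le_of_trace_ge (fun _ => hf) hF (n.choose k : ℤ) fun p _ => ?_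
  have h1 := nP_even_ge n k (nx (fun _ : Fin 1 => f) (fun _ => 1) (Fq p 1) 0)
  rw [Int.cast_natCast]
  exact h1

/-- The middle degree of the square of a product of curves. -/
theorem middle_square {r : ℕ} (hr : 1 ≤ r) {f : Fin r → ℤ[X]} (hf : ∀ j, IsCurve (f j)) {F : ℂ → ℂ}
    (hF : IsContinuation (Fin.append f f) (fun _ => 1) (2 * r) F) :
    ∃ m : ℤ, meromorphicOrderAt F (((2 * r : ℕ) : ℂ) / 2 + 1) = m ∧ m ≤ -2 := by
  have hf2 : ∀ j, IsCurve (Fin.append f f j) := by
    intro j
    refine Fin.addCases (fun a => ?_) (fun a => ?_) j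
    · rw [Fin.append_left]; exact hf a
    · rw [Fin.append_right]; exact hf a
  refine order_le_of_trace_ge hf2 hF 2 fun p _ => ?_
  have h1 := nP_middle_ge hr (nx f (fun _ => 1) (Fq p 1))
  have h2 : nx (Fin.append f f) (fun _ => 1) (Fq p 1) =
      Fin.append (nx f (fun _ => 1) (Fq p 1)) (nx f (fun _ => 1) (Fq p 1)) := by
    funext j
    refine Fin.addCases (fun a => ?_) (fun a => ?_) j
    · rw [nx, Fin.append_left, Fin.append_left, nx]
    · rw [nx, Fin.append_right, Fin.append_right, nx]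
  rw [h2]
  push_cast
  exact h1

end Pool.Agent.Work.MP_2b9663_nt
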