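import Pool.Agent.Work.MP_2b9663_nt.Asymp

set_option autoImplicit false

/-!
Quadratic characters attached to squarefree integers.
-/

namespace Pool.Agent.Work.MP_2b9663_nt

open Filter Topology NumberTheorySymbols

/-- For a squarefree integer `E ≠ 1` there is an odd `n` prime to `E` with `(E / n) = -1`. -/
lemma exists_jacobi_neg {E : ℤ} (hE : Squarefree E) (h1 : E ≠ 1) :
    ∃ n : ℕ, Odd n ∧ E.gcd n = 1 ∧ J(E | n) = -1 := by
  have hE0 : E ≠ 0 := hE.ne_zero
  by_cases hq : ∃ q : ℕ, q.Prime ∧ q ≠ 2 ∧ (q : ℤ) ∣ E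
  · obtain ⟨q, hqp, hq2, E', hE'⟩ := hq
    have : Fact q.Prime := ⟨hqp⟩
    have hqodd : Odd q := hqp.odd_of_ne_two hq2
    have hE'0 : E' ≠ 0 := by
      rintro rfl
      rw [mul_zero] at hE'
      exact hE0 hE'
    have hqE' : ¬ (q : ℤ) ∣ E' := by
      rintro ⟨w, hw⟩
      have h2 : (q : ℤ) * q ∣ E := ⟨w, by rw [hE', hw]; ring⟩
      have h3 := hE _ h2
      rw [Int.isUnit_iff] at h3
      have := hqp.two_le
      omega
    have hqE'n : ¬ q ∣ E'.natAbs := by
      intro h
      exact hqE' (Int.natCast_dvd.mpr h)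
    -- a nonresidue
    have hchar : ringChar (ZMod q) ≠ 2 := by rw [ZMod.ringChar_zmod_n]; exact hq2
    obtain ⟨r, hr⟩ := quadraticChar_exists_neg_one hchar
    have hcop : Nat.Coprime (4 * E'.natAbs) q := by
      rw [Nat.coprime_comm, Nat.Prime.coprime_iff_not_dvd hqp]
      intro h
      rcases (Nat.Prime.dvd_mul hqp).mp h with h | h
      · have : q ∣ 2 ^ 2 := h
        have h3 := hqp.dvd_of_dvd_pow this
        exact hq2 ((Nat.prime_dvd_prime_iff_eq hqp Nat.prime_two).mp h3)
      · exact hqE'n h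
    obtain ⟨n, hn1, hn2⟩ := Nat.chineseRemainder hcop 1 r.val
    have hn4 : n % 4 = 1 := by
      have : n ≡ 1 [MOD 4] := hn1.of_mul_right _
      exact this
    have hnodd : Odd n := Nat.odd_iff.mpr (by omega)
    have hnr : (n : ZMod q) = r := by
      have h3 := (ZMod.natCast_eq_natCast_iff _ _ _).mpr hn2
      rw [h3, ZMod.natCast_zmod_val]
    have hJq : J(q | n) = -1 := by
      rw [jacobiSym.quadratic_reciprocity_one_mod_four' hqodd hn4, ← jacobiSym.legendreSym.to_jacobiSym]
      rw [legendreSym]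
      push_cast
      rw [hnr]
      exact hr
    have hJE' : J(E' | n) = 1 := by
      rw [jacobiSym.mod_right E' hnodd]
      have h3 : n % (4 * E'.natAbs) = 1 % (4 * E'.natAbs) := hn1
      rw [h3]
      have h4 : 0 < E'.natAbs := Int.natAbs_pos.mpr hE'0
      rw [Nat.mod_eq_of_lt (by omega), jacobiSym.one_right]
    have hJ : J(E | n) = -1 := by
      rw [hE', jacobiSym.mul_left, hJq, hJE']
      rfl
    refine ⟨n, hnodd, ?_, hJ⟩
    by_contra hg
    have h5 : J(E | n) = 0 := by
      rw [jacobiSym.eq_zero_iff]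
      refine ⟨?_, hg⟩
      rintro rfl
      exact absurd hnodd (by decide)
    rw [h5] at hJ
    norm_num at hJ
  · push Not at hq
    -- `E ∈ {-1, 2, -2}`
    have hE2 : E = -1 ∨ E = 2 ∨ E = -2 := by
      have h2 : E.natAbs ∣ 2 := by
        have hsf : Squarefree E.natAbs := Int.squarefree_natAbs.mpr hE
        have h3 : ∀ p : ℕ, p.Prime → p ∣ E.natAbs → p = 2 := by
          intro p hp hpd
          by_contra hne
          exact hq p hp hne (Int.natCast_dvd.mpr hpd)
        have h4 : E.natAbs.primeFactors ⊆ {2} := by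
          intro p hp
          rw [Nat.mem_primeFactors] at hp
          rw [Finset.mem_singleton]
          exact h3 p hp.1 hp.2.1
        rw [← Nat.prod_primeFactors_of_squarefree hsf]
        calc ∏ p ∈ E.natAbs.primeFactors, p ∣ ∏ p ∈ ({2} : Finset ℕ), p :=
              Finset.prod_dvd_prod_of_subset _ _ _ h4
          _ = 2 := by simp
      have h3 : E.natAbs = 1 ∨ E.natAbs = 2 := (Nat.dvd_prime Nat.prime_two).mp h2
      omega
    rcases hE2 with h | h | h
    · exact ⟨3, by decide, by rw [h]; rfl, by rw [h]; norm_num⟩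
    · exact ⟨3, by decide, by rw [h]; rfl, by rw [h]; norm_num⟩
    · exact ⟨5, by decide, by rw [h]; rfl, by rw [h]; norm_num⟩

/-- The Dirichlet character `n ↦ (E / n)` modulo `4 |E|`. -/
noncomputable def quadDir (E : ℤ) : DirichletCharacter ℂ (4 * E.natAbs) :=
  MulChar.ofUnitHom
    { toFun := fun u =>
        if hE : E = 0 then 1 else
        Units.mk0 ((J(E | (u : ZMod (4 * E.natAbs)).val) : ℤ) : ℂ) (by
          have hc : Nat.Coprime (u : ZMod (4 * E.natAbs)).val (4 * E.natAbs) := ZMod.val_coe_unit_coprime u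
          have h1 : E.gcd ((u : ZMod (4 * E.natAbs)).val : ℤ) = 1 := by
            rw [Int.gcd, Int.natAbs_natCast]
            exact (Nat.Coprime.coprime_mul_left_right hc).symm
          have h2 := jacobiSym.ne_zero h1
          exact_mod_cast h2)
      map_one' := by
        split_ifs with h
        · rfl
        · ext
          have h0 : 0 < E.natAbs := Int.natAbs_pos.mpr h
          have : Fact (1 < 4 * E.natAbs) := ⟨by omega⟩
          simp only [Units.val_mk0, Units.val_one]
          rw [ZMod.val_one, jacobiSym.one_right]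
          norm_num
      map_mul' := by
        intro u v
        split_ifs with h
        · simp
        · ext
          have h0 : 0 < E.natAbs := Int.natAbs_pos.mpr h
          have : NeZero (4 * E.natAbs) := ⟨by omega⟩
          simp only [Units.val_mk0, Units.val_mul]
          have hodd : ∀ w : (ZMod (4 * E.natAbs))ˣ, Odd (w : ZMod (4 * E.natAbs)).val := by
            intro w
            have hc : Nat.Coprime (w : ZMod (4 * E.natAbs)).val (4 * E.natAbs) :=
              ZMod.val_coe_unit_coprime w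
            have h4 : Nat.Coprime (w : ZMod (4 * E.natAbs)).val 4 :=
              Nat.Coprime.coprime_mul_right_right hc
            have h5 : Nat.Coprime (w : ZMod (4 * E.natAbs)).val 2 :=
              Nat.Coprime.coprime_dvd_right (by norm_num) h4
            exact Nat.coprime_two_right.mp h5
          have hu0 : NeZero (u : ZMod (4 * E.natAbs)).val := ⟨(hodd u).pos.ne'⟩
          have hv0 : NeZero (v : ZMod (4 * E.natAbs)).val := ⟨(hodd v).pos.ne'⟩
          rw [ZMod.val_mul, ← jacobiSym.mod_right E ((hodd u).mul (hodd v)), jacobiSym.mul_right]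
          push_cast
          ring }

lemma quadDir_apply {E : ℤ} (hE : E ≠ 0) {n : ℕ} (hn : Odd n) (hc : E.gcd n = 1) :
    quadDir E (n : ZMod (4 * E.natAbs)) = (J(E | n) : ℤ) := by
  have h0 : 0 < E.natAbs := Int.natAbs_pos.mpr hE
  have : NeZero (4 * E.natAbs) := ⟨by omega⟩
  have hcop : Nat.Coprime n (4 * E.natAbs) := by
    rw [Nat.coprime_mul_iff_right]
    refine ⟨?_, ?_⟩
    · have : Nat.Coprime n (2 ^ 2) := Nat.Coprime.pow_right 2 (Nat.coprime_two_right.mpr hn)
      exact this
    · rw [Int.gcd, Int.natAbs_natCast] at hc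
      exact Nat.Coprime.symm hc
  have hu : ((ZMod.unitOfCoprime n hcop : (ZMod (4 * E.natAbs))ˣ) : ZMod (4 * E.natAbs)) = n :=
    ZMod.coe_unitOfCoprime n hcop
  rw [← hu, quadDir, MulChar.ofUnitHom_coe]
  simp only [MonoidHom.coe_mk, OneHom.coe_mk, dif_neg hE, Units.val_mk0]
  rw [hu, ZMod.val_natCast, ← jacobiSym.mod_right E hn]

lemma quadDir_ne_one {E : ℤ} (hE : Squarefree E) (h1 : E ≠ 1) : quadDir E ≠ 1 := by
  obtain ⟨n, hn, hc, hJ⟩ := exists_jacobi_neg hE h1
  intro h
  have h2 := quadDir_apply hE.ne_zero hn hc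
  rw [h, hJ] at h2
  have h0 : 0 < E.natAbs := Int.natAbs_pos.mpr hE.ne_zero
  have hcop : Nat.Coprime n (4 * E.natAbs) := by
    rw [Nat.coprime_mul_iff_right]
    refine ⟨?_, ?_⟩
    · have : Nat.Coprime n (2 ^ 2) := Nat.Coprime.pow_right 2 (Nat.coprime_two_right.mpr hn)
      exact this
    · rw [Int.gcd, Int.natAbs_natCast] at hc
      exact Nat.Coprime.symm hc
  have hu : IsUnit (n : ZMod (4 * E.natAbs)) := (ZMod.isUnit_iff_coprime n _).mpr hcop
  rw [MulChar.one_apply hu] at h2
  norm_num at h2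

/-- A bounded function of primes supported on finitely many primes. -/
lemma LA_finite {c : Nat.Primes → ℝ} (T : Finset Nat.Primes) (hc : ∀ p, p ∉ T → c p = 0) :
    LA (PS c) 0 := by
  refine LA.of_bounded (C := ∑ p ∈ T, |c p|) ?_
  filter_upwards [self_mem_nhdsWithin] with ε hε0
  have hε : (0 : ℝ) < ε := hε0
  have h1 : PS c ε = ∑ p ∈ T, c p * ((p : ℕ) : ℝ) ^ (-(1 + ε)) := by
    rw [PS]
    apply tsum_eq_sum
    intro p hp
    rw [hc p hp, zero_mul]
  rw [h1]
  refine (Finset.abs_sum_le_sum_abs _ _).trans (Finset.sum_le_sum fun p _ => ?_)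
  rw [abs_mul]
  refine mul_le_of_le_one_right (abs_nonneg _) ?_
  rw [abs_of_nonneg (Real.rpow_nonneg (Nat.cast_nonneg _) _)]
  exact Real.rpow_le_one_of_one_le_of_nonpos (by exact_mod_cast p.2.one_le) (by linarith)

lemma PS_add {c d : Nat.Primes → ℝ} {B B' : ℝ} (hc : ∀ p, |c p| ≤ B) (hd : ∀ p, |d p| ≤ B')
    {ε : ℝ} (hε : 0 < ε) : PS (fun p => c p + d p) ε = PS c ε + PS d ε := by
  rw [PS, PS, PS, ← (PS_summable hc hε).tsum_add (PS_summable hd hε)]
  refine tsum_congr fun p => ?_
  ring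

lemma PS_const_mul (a : ℝ) (c : Nat.Primes → ℝ) (ε : ℝ) :
    PS (fun p => a * c p) ε = a * PS c ε := by
  rw [PS, PS, ← tsum_mul_left]
  refine tsum_congr fun p => ?_
  ring

lemma LA.PS_congr {c d : Nat.Primes → ℝ} {B B' κ : ℝ} (hc : ∀ p, |c p| ≤ B) (hd : ∀ p, |d p| ≤ B')
    (T : Finset Nat.Primes) (hcd : ∀ p, p ∉ T → c p = d p) (h : LA (PS c) κ) : LA (PS d) κ := by
  have h1 : LA (PS (fun p => d p - c p)) 0 := LA_finite T (fun p hp => by rw [hcd p hp, sub_self])
  have h2 := h.add h1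
  rw [add_zero] at h2
  refine ⟨h2.choose, ?_⟩
  filter_upwards [h2.choose_spec, self_mem_nhdsWithin] with ε h3 hε0
  have hε : (0 : ℝ) < ε := hε0
  have h4 : PS d ε = PS c ε + PS (fun p => d p - c p) ε := by
    rw [← PS_add hc (B' := B' + B) (fun p => ?_) hε]
    · congr 1
      ext p
      ring
    · exact (abs_sub _ _).trans (add_le_add (hd p) (hc p))
  rw [h4]
  exact h3

/-- the primes below `N` -/
def smallPrimes (N : ℕ) : Finset Nat.Primes :=
  (Finset.subtype (fun n : ℕ => Nat.Prime n) (Finset.range N) : Finset {n : ℕ // Nat.Prime n})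

lemma mem_smallPrimes {N : ℕ} {p : Nat.Primes} : p ∈ smallPrimes N ↔ (p : ℕ) < N := by
  unfold smallPrimes
  exact Finset.mem_subtype.trans Finset.mem_range

/-- For distinct squarefree `D`, `D'` the product of the quadratic characters has mean zero. -/
theorem LA_quad {D D' : ℤ} (hD : Squarefree D) (hD' : Squarefree D') (hne : D ≠ D')
    {c : Nat.Primes → ℝ} {B : ℝ} (hc : ∀ p, |c p| ≤ B) (T : Finset Nat.Primes)
    (hcT : ∀ p : Nat.Primes, p ∉ T → c p = ((J(D | p) * J(D' | p) : ℤ) : ℝ)) : LA (PS c) 0 := by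
  classical
  -- the squarefree part of `D D'`
  obtain ⟨g, a, b, hg, ha, hb, hab⟩ : ∃ g a b : ℤ, g ≠ 0 ∧ D = g * a ∧ D' = g * b ∧ IsCoprime a b := by
    have hg0 : 0 < Int.gcd D D' := Int.gcd_pos_of_ne_zero_left _ hD.ne_zero
    obtain ⟨a, b, h1, h2, h3⟩ := Int.exists_gcd_one hg0
    refine ⟨Int.gcd D D', a, b, by exact_mod_cast hg0.ne', ?_, ?_, ?_⟩
    · rw [mul_comm]; exact h2
    · rw [mul_comm]; exact h3
    · exact Int.isCoprime_iff_gcd_eq_one.mpr h1
  have hasf : Squarefree a := hD.squarefree_of_dvd ⟨g, by rw [ha]; ring⟩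
  have hbsf : Squarefree b := hD'.squarefree_of_dvd ⟨g, by rw [hb]; ring⟩
  have habsf : Squarefree (a * b) := by
    rw [squarefree_mul_iff]
    exact ⟨hab.isRelPrime, hasf, hbsf⟩
  have hab1 : a * b ≠ 1 := by
    intro h
    rcases Int.mul_eq_one_iff_eq_one_or_neg_one.mp h with ⟨h1, h2⟩ | ⟨h1, h2⟩
    · apply hne; rw [ha, hb, h1, h2]
    · apply hne; rw [ha, hb, h1, h2]
  have hab0 : a * b ≠ 0 := habsf.ne_zero
  have h0 : 0 < (a * b).natAbs := Int.natAbs_pos.mpr hab0
  have : NeZero (4 * (a * b).natAbs) := ⟨by omega⟩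
  have hmain := LA_char (quadDir (a * b)) (quadDir_ne_one habsf hab1)
  -- the bad primes
  set T' : Finset Nat.Primes := T ∪ smallPrimes (2 * (D * D').natAbs + 3) with hT'
  refine LA.PS_congr (B := 1) (B' := B) (fun p => ?_) hc T' ?_ hmain
  · exact (Complex.abs_re_le_norm _).trans (DirichletCharacter.norm_le_one _ _)
  · intro p hp
    rw [hT', Finset.mem_union, not_or] at hp
    rw [hcT p hp.1]
    have hpbig : 2 * (D * D').natAbs + 3 ≤ (p : ℕ) := by
      by_contra hlt
      push Not at hlt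
      apply hp.2
      rw [mem_smallPrimes]
      exact hlt
    have hpp : (p : ℕ).Prime := p.2
    have hDD0 : D * D' ≠ 0 := mul_ne_zero hD.ne_zero hD'.ne_zero
    have hpD : ¬ ((p : ℕ) : ℤ) ∣ D * D' := by
      intro h
      have h1 := Nat.le_of_dvd (Int.natAbs_pos.mpr hDD0) (Int.natCast_dvd.mp h)
      omega
    have hodd : Odd (p : ℕ) := hpp.odd_of_ne_two (by omega)
    have hgcd : ∀ x : ℤ, x ∣ D * D' → x.gcd ((p : ℕ) : ℤ) = 1 := by
      intro x hx
      rw [← Int.isCoprime_iff_gcd_eq_one, isCoprime_comm]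
      rw [Prime.coprime_iff_not_dvd (Nat.prime_iff_prime_int.mp hpp)]
      intro h
      exact hpD (h.trans hx)
    have hJg : J(g | p) * J(g | p) = 1 := by
      have h2 := jacobiSym.sq_one (hgcd g ⟨a * D', by rw [ha]; ring⟩)
      rw [sq] at h2
      exact h2
    rw [quadDir_apply hab0 hodd (hgcd _ ⟨g * g, by rw [ha, hb]; ring⟩)]
    have h3 : J(D | p) * J(D' | p) = J(a * b | p) := by
      rw [ha, hb, jacobiSym.mul_left, jacobiSym.mul_left, jacobiSym.mul_left]
      linear_combination (J(a | p) * J(b | p)) * hJg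
    rw [h3, Complex.intCast_re]

end Pool.Agent.Work.MP_2b9663_nt
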