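import Pool.Agent.Work.MP_2b9663_nt.Homs

set_option autoImplicit false

/-!
Quadratic extensions of a number field.
-/

namespace Pool.Agent.Work.MP_2b9663_nt

open NumberField Ideal Polynomial

section

variable (K : Type) [Field K] [NumberField K]

theorem exists_quadratic (ε : 𝓞 K) (h : ¬ IsSquare (ε : K)) :
    ∃ (L : Type) (_ : Field L) (_ : NumberField L) (_ : Algebra (𝓞 K) (𝓞 L)) (θ : 𝓞 L),
      θ ^ 2 = algebraMap (𝓞 K) (𝓞 L) ε ∧
      (∀ x : 𝓞 L, ∃ a b : 𝓞 K, algebraMap (𝓞 K) (𝓞 L) (2 * ε) * x =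
        algebraMap (𝓞 K) (𝓞 L) a + algebraMap (𝓞 K) (𝓞 L) b * θ) ∧
      (∀ a b : 𝓞 K, algebraMap (𝓞 K) (𝓞 L) a + algebraMap (𝓞 K) (𝓞 L) b * θ = 0 →
        a = 0 ∧ b = 0) := by
  classical
  set f : K[X] := X ^ 2 - C (ε : K) with hf
  have hirr : Irreducible f := by
    rw [hf]
    refine X_pow_sub_C_irreducible_of_prime Nat.prime_two fun b hb => h ⟨b, ?_⟩
    rw [← hb, sq]
  have : Fact (Irreducible f) := ⟨hirr⟩
  have hmon : f.Monic := monic_X_pow_sub_C _ two_ne_zero
  have hdeg : f.natDegree = 2 := natDegree_X_pow_sub_C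
  have hfin : Module.Finite K (AdjoinRoot f) := (AdjoinRoot.powerBasis hirr.ne_zero).finite
  have hnf : NumberField (AdjoinRoot f) := NumberField.of_module_finite K (AdjoinRoot f)
  set t : AdjoinRoot f := AdjoinRoot.root f with ht
  have htt : t ^ 2 = algebraMap K (AdjoinRoot f) ε := by
    have h1 := AdjoinRoot.eval₂_root f
    rw [hf, eval₂_sub, eval₂_X_pow, eval₂_C] at h1
    exact sub_eq_zero.mp h1
  have hti : IsIntegral ℤ t := by
    refine IsIntegral.of_pow two_pos ?_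
    rw [htt]
    exact (RingOfIntegers.isIntegral_coe ε).map (algebraMap K (AdjoinRoot f)).toIntAlgHom
  have hinj : Function.Injective (algebraMap K (AdjoinRoot f)) := RingHom.injective _
  -- the conjugation
  have hconj : ∃ τ : AdjoinRoot f →+* AdjoinRoot f,
      (∀ u : K, τ (algebraMap K _ u) = algebraMap K _ u) ∧ τ t = -t := by
    refine ⟨AdjoinRoot.lift (algebraMap K (AdjoinRoot f)) (-t) ?_, fun u => ?_, ?_⟩
    · change eval₂ (algebraMap K (AdjoinRoot f)) (-t) (X ^ 2 - C (ε : K)) = 0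
      rw [eval₂_sub, eval₂_X_pow, eval₂_C, neg_sq, htt, sub_self]
    · exact AdjoinRoot.lift_of _
    · exact AdjoinRoot.lift_root _
  obtain ⟨τ, hτ1, hτ2⟩ := hconj
  have hdecK : ∀ x : AdjoinRoot f, ∃ u v : K, x = algebraMap K _ u + algebraMap K _ v * t := by
    intro x
    obtain ⟨g, rfl⟩ := AdjoinRoot.mk_surjective x
    have h1 : AdjoinRoot.mk f g = AdjoinRoot.mk f (g %ₘ f) := by
      rw [AdjoinRoot.mk_eq_mk]
      have h2 := modByMonic_add_div g f
      refine ⟨g /ₘ f, ?_⟩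
      linear_combination -h2
    have h2 : (g %ₘ f).natDegree ≤ 1 := by
      have h3 := natDegree_modByMonic_lt g hmon (fun h => by
        have := congrArg natDegree h
        rw [hdeg, natDegree_one] at this
        omega)
      omega
    obtain ⟨v, u, h3⟩ := exists_eq_X_add_C_of_natDegree_le_one h2
    refine ⟨u, v, ?_⟩
    rw [h1, h3, map_add, map_mul, AdjoinRoot.mk_C, AdjoinRoot.mk_C, AdjoinRoot.mk_X,
      AdjoinRoot.algebraMap_eq, add_comm]
  have huniqK : ∀ u v : K, algebraMap K (AdjoinRoot f) u + algebraMap K _ v * t = 0 →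
      u = 0 ∧ v = 0 := by
    intro u v huv
    have hv : v = 0 := by
      by_contra hv
      apply h
      have h1 : t = algebraMap K _ (-u / v) := by
        have h2 : algebraMap K (AdjoinRoot f) v ≠ 0 := by
          rw [Ne, ← map_zero (algebraMap K (AdjoinRoot f))]
          exact fun h => hv (hinj h)
        rw [map_div₀, map_neg, eq_div_iff h2]
        linear_combination huv
      refine ⟨-u / v, hinj ?_⟩
      rw [← htt, h1, map_mul, sq]
    rw [hv, map_zero, zero_mul, add_zero] at huv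
    exact ⟨hinj (huv.trans (map_zero _).symm), hv⟩
  let θ : 𝓞 (AdjoinRoot f) := ⟨t, hti⟩
  have hcoe : ∀ r : 𝓞 K, ((algebraMap (𝓞 K) (𝓞 (AdjoinRoot f)) r : 𝓞 (AdjoinRoot f)) :
      AdjoinRoot f) = algebraMap K (AdjoinRoot f) (r : K) := fun r => rfl
  refine ⟨AdjoinRoot f, inferInstance, hnf, inferInstance, θ, ?_, ?_, ?_⟩
  · apply RingOfIntegers.ext
    rw [hcoe, ← htt]
    rfl
  · intro x
    obtain ⟨u, v, hx⟩ := hdecK (x : AdjoinRoot f)
    have hxi : IsIntegral ℤ (x : AdjoinRoot f) := RingOfIntegers.isIntegral_coe x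
    have hτx : τ (x : AdjoinRoot f) = algebraMap K _ u - algebraMap K _ v * t := by
      rw [hx, map_add, map_mul, hτ1, hτ1, hτ2]
      ring
    have hτxi : IsIntegral ℤ (τ (x : AdjoinRoot f)) := hxi.map τ.toIntAlgHom
    have h2u : IsIntegral ℤ (2 * u) := by
      rw [← isIntegral_algebraMap_iff (R := ℤ) hinj]
      have h1 : algebraMap K (AdjoinRoot f) (2 * u) = (x : AdjoinRoot f) + τ x := by
        rw [hτx, hx, map_mul, map_ofNat]
        ring
      rw [h1]
      exact hxi.add hτxi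
    have h2v : IsIntegral ℤ (2 * v * (ε : K)) := by
      rw [← isIntegral_algebraMap_iff (R := ℤ) hinj]
      have h1 : algebraMap K (AdjoinRoot f) (2 * v * (ε : K)) =
          ((x : AdjoinRoot f) - τ x) * t := by
        rw [hτx, hx, map_mul, map_mul, map_ofNat, ← htt]
        ring
      rw [h1]
      exact (hxi.sub hτxi).mul hti
    obtain ⟨α, hα⟩ : ∃ α : 𝓞 K, (α : K) = 2 * u := ⟨⟨2 * u, h2u⟩, rfl⟩
    obtain ⟨β, hβ⟩ : ∃ β : 𝓞 K, (β : K) = 2 * v * (ε : K) := ⟨⟨2 * v * (ε : K), h2v⟩, rfl⟩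
    refine ⟨ε * α, β, ?_⟩
    apply RingOfIntegers.ext
    have e1 : ((algebraMap (𝓞 K) (𝓞 (AdjoinRoot f)) (2 * ε) * x : 𝓞 (AdjoinRoot f)) :
        AdjoinRoot f) = algebraMap K (AdjoinRoot f) (2 * (ε : K)) * (x : AdjoinRoot f) := by
      rfl
    have e2 : ((algebraMap (𝓞 K) (𝓞 (AdjoinRoot f)) (ε * α) +
        algebraMap (𝓞 K) (𝓞 (AdjoinRoot f)) β * θ : 𝓞 (AdjoinRoot f)) :
        AdjoinRoot f) = algebraMap K (AdjoinRoot f) ((ε : K) * (α : K)) +
        algebraMap K (AdjoinRoot f) (β : K) * t := by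
      rfl
    rw [e1, e2, hx, hα, hβ]
    simp only [map_mul, map_ofNat]
    ring
  · intro a b hab
    have h1 := congrArg (fun z : 𝓞 (AdjoinRoot f) => (z : AdjoinRoot f)) hab
    have h2 : algebraMap K (AdjoinRoot f) (a : K) + algebraMap K _ (b : K) * t = 0 := h1
    obtain ⟨h3, h4⟩ := huniqK _ _ h2
    exact ⟨RingOfIntegers.ext h3, RingOfIntegers.ext h4⟩

end

end Pool.Agent.Work.MP_2b9663_nt
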