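import Pool.Agent.Work.MP_2b9663_nt.Emb

set_option autoImplicit false

/-!
The rank of a number field: the number of orbits of the Galois group on pairs of embeddings.
-/

namespace Pool.Agent.Work.MP_2b9663_nt

open NumberField

section

variable {L : Type} [Field L] [CharZero L]

/-- the action of the automorphisms of `L` on the embeddings of `K` in `L` -/
@[reducible] def homAction (K : Type) [Field K] : MulAction (L ≃ₐ[ℚ] L) (K →+* L) where
  smul g σ := (g : L →+* L).comp σ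
  one_smul _ := RingHom.ext fun _ => rfl
  mul_smul _ _ _ := RingHom.ext fun _ => rfl

end

section

variable {Ω : Type} [Field Ω] [CharZero Ω] [IsAlgClosure ℚ Ω]
  {M : IntermediateField ℚ Ω} [NumberField M] [IsGalois ℚ M]

omit [IsAlgClosure ℚ Ω] [NumberField M] in
/-- automorphisms of `Ω` restrict to `M` -/
lemma exists_restrict (h : Ω ≃+* Ω) : ∃ g : M ≃ₐ[ℚ] M, ∀ x : M, ((g x : M) : Ω) = h (x : Ω) := by
  refine ⟨(h.toRatAlgEquiv : Ω ≃ₐ[ℚ] Ω).restrictNormal M, fun x => ?_⟩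
  exact AlgEquiv.restrictNormal_commutes (h.toRatAlgEquiv : Ω ≃ₐ[ℚ] Ω) M x

omit [IsAlgClosure ℚ Ω] in
theorem sum_fix_sq {K : IntermediateField ℚ Ω} [NumberField K] :
    ∑ g : M ≃ₐ[ℚ] M, (fixEmb K M g) ^ 2 ≤ Fintype.card (M ≃ₐ[ℚ] M) * embRank K Ω := by
  classical
  let _ : MulAction (M ≃ₐ[ℚ] M) (K →+* M) := homAction K
  have hsm : ∀ (g : M ≃ₐ[ℚ] M) (σ : K →+* M) z, (g • σ) z = g (σ z) := fun g σ z => rfl
  have hfin : Finite (K →+* M) := Finite.of_equiv _ (RingHom.equivRatAlgHom K M).symm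
  have hfinΩ : Finite (K →+* Ω) := Finite.of_equiv _ (RingHom.equivRatAlgHom K Ω).symm
  have : Finite (Quotient (pairSetoid K Ω)) := inferInstance
  have : ∀ g : M ≃ₐ[ℚ] M, Fintype (MulAction.fixedBy ((K →+* M) × (K →+* M)) g) := fun g =>
    Fintype.ofFinite _
  have : Fintype (Quotient (MulAction.orbitRel (M ≃ₐ[ℚ] M) ((K →+* M) × (K →+* M)))) :=
    Fintype.ofFinite _
  have h1 := MulAction.sum_card_fixedBy_eq_card_orbits_mul_card_group (M ≃ₐ[ℚ] M)
    ((K →+* M) × (K →+* M))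
  have h2 : ∀ g : M ≃ₐ[ℚ] M, (fixEmb K M g) ^ 2 =
      Fintype.card (MulAction.fixedBy ((K →+* M) × (K →+* M)) g) := by
    intro g
    rw [← Nat.card_eq_fintype_card, sq]
    unfold fixEmb
    rw [← Nat.card_prod]
    refine Nat.card_congr ⟨fun x => ⟨(x.1.1, x.2.1), ?_⟩,
      fun x => (⟨x.1.1, fun z => ?_⟩, ⟨x.1.2, fun z => ?_⟩), fun x => rfl, fun x => rfl⟩
    · change g • (x.1.1, x.2.1) = (x.1.1, x.2.1)
      refine Prod.ext (RingHom.ext fun z => x.1.2 z) (RingHom.ext fun z => x.2.2 z)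
    · have h3 : g • x.1 = x.1 := x.2
      have h4 := congrArg Prod.fst h3
      exact DFunLike.congr_fun h4 z
    · have h3 : g • x.1 = x.1 := x.2
      have h4 := congrArg Prod.snd h3
      exact DFunLike.congr_fun h4 z
  rw [Finset.sum_congr rfl fun g _ => h2 g, h1, mul_comm]
  refine Nat.mul_le_mul_left _ ?_
  rw [← Nat.card_eq_fintype_card, embRank]
  -- the map from orbits to orbits
  let ι : M →+* Ω := (M.val : M →+* Ω)
  have hι : ∀ z, ι z = (z : Ω) := fun z => rfl
  let f : Quotient (MulAction.orbitRel (M ≃ₐ[ℚ] M) ((K →+* M) × (K →+* M))) →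
      Quotient (pairSetoid K Ω) := fun a => Quotient.mk (pairSetoid K Ω)
        (ι.comp a.out.1, ι.comp a.out.2)
  refine Nat.card_le_card_of_injective f ?_
  intro a b hab
  have h3 : (pairSetoid K Ω).r (ι.comp a.out.1, ι.comp a.out.2) (ι.comp b.out.1, ι.comp b.out.2) :=
    Quotient.exact hab
  obtain ⟨h, h4, h5⟩ := h3
  obtain ⟨g, hg⟩ := exists_restrict (M := M) h
  have h6 : g • a.out = b.out := by
    refine Prod.ext (RingHom.ext fun z => ?_) (RingHom.ext fun z => ?_)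
    · apply Subtype.val_injective
      change ((g (a.out.1 z) : M) : Ω) = ((b.out.1 z : M) : Ω)
      rw [hg]
      exact h4 z
    · apply Subtype.val_injective
      change ((g (a.out.2 z) : M) : Ω) = ((b.out.2 z : M) : Ω)
      rw [hg]
      exact h5 z
  rw [← Quotient.out_eq a, ← Quotient.out_eq b]
  apply Quotient.sound
  refine ⟨g⁻¹, ?_⟩
  change g⁻¹ • b.out = a.out
  rw [← h6, inv_smul_smul]

omit [IsAlgClosure ℚ Ω] in
lemma embRank_pos (K : IntermediateField ℚ Ω) [NumberField K] : 0 < embRank K Ω := by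
  have hfinΩ : Finite (K →+* Ω) := Finite.of_equiv _ (RingHom.equivRatAlgHom K Ω).symm
  have : Finite (Quotient (pairSetoid K Ω)) := inferInstance
  have : Nonempty (Quotient (pairSetoid K Ω)) :=
    ⟨Quotient.mk _ ((K.val : K →+* Ω), (K.val : K →+* Ω))⟩
  exact Nat.card_pos

omit [IsAlgClosure ℚ Ω] in
lemma embRank_bot_le : embRank (⊥ : IntermediateField ℚ Ω) Ω ≤ 1 := by
  have e : (⊥ : IntermediateField ℚ Ω) ≃+* ℚ := (IntermediateField.botEquiv ℚ Ω).toRingEquiv
  have h1 : Subsingleton ((⊥ : IntermediateField ℚ Ω) →+* Ω) := by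
    refine ⟨fun σ τ => ?_⟩
    have h2 : σ.comp (e.symm : ℚ →+* (⊥ : IntermediateField ℚ Ω)) =
        τ.comp (e.symm : ℚ →+* (⊥ : IntermediateField ℚ Ω)) := Subsingleton.elim _ _
    refine RingHom.ext fun x => ?_
    have h3 : σ (e.symm (e x)) = τ (e.symm (e x)) := DFunLike.congr_fun h2 (e x)
    rwa [RingEquiv.symm_apply_apply] at h3
  have h2 : Subsingleton (Quotient (pairSetoid (⊥ : IntermediateField ℚ Ω) Ω)) := by
    refine ⟨fun a b => ?_⟩
    rw [← Quotient.out_eq a, ← Quotient.out_eq b]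
    exact congrArg _ (Subsingleton.elim _ _)
  exact Finite.card_le_one_iff_subsingleton.mpr h2

end

end Pool.Agent.Work.MP_2b9663_nt
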