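import Pool.Agent.Work.MP_2b9663_nt.Stepanov

set_option autoImplicit false

/-!
The character `h ↦ Res(f, h)` and its periodicity.
-/

namespace Pool.Agent.Work.MP_2b9663_nt

open Finset Polynomial

section

variable {K : Type*} [Field K]

/-- the product of the values of `h` at the roots of `f` -/
noncomputable def rho (f h : K[X]) : K :=
  resultant f h f.natDegree h.natDegree * (f.leadingCoeff ^ h.natDegree)⁻¹

lemma rho_spec {f : K[X]} (hf : f ≠ 0) (h : K[X]) {N : ℕ} (hN : h.natDegree ≤ N) :
    resultant f h f.natDegree N = f.leadingCoeff ^ N * rho f h := by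
  have hlc : f.leadingCoeff ≠ 0 := leadingCoeff_ne_zero.mpr hf
  obtain ⟨k, rfl⟩ := Nat.exists_eq_add_of_le hN
  rw [resultant_add_right_deg _ _ _ _ _ le_rfl, rho, coeff_natDegree, pow_add]
  field_simp

lemma rho_mul {f : K[X]} (hf : f ≠ 0) (g h : K[X]) : rho f (g * h) = rho f g * rho f h := by
  have hlc : f.leadingCoeff ≠ 0 := leadingCoeff_ne_zero.mpr hf
  have h1 := resultant_mul_right f g h f.natDegree le_rfl
  rw [rho_spec hf (g * h) natDegree_mul_le, rho_spec hf g le_rfl, rho_spec hf h le_rfl,
    pow_add] at h1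
  have h2 : f.leadingCoeff ^ g.natDegree * f.leadingCoeff ^ h.natDegree ≠ 0 :=
    mul_ne_zero (pow_ne_zero _ hlc) (pow_ne_zero _ hlc)
  apply mul_left_cancel₀ h2
  rw [h1]
  ring

lemma rho_add_mul {f : K[X]} (hf : f ≠ 0) (g h : K[X]) : rho f (g + f * h) = rho f g := by
  have hlc : f.leadingCoeff ≠ 0 := leadingCoeff_ne_zero.mpr hf
  set N := g.natDegree + (g + f * h).natDegree + (h.natDegree + f.natDegree) with hN
  have h1 := resultant_add_mul_right f g h f.natDegree N (by omega) le_rfl
  rw [rho_spec hf _ (by omega), rho_spec hf g (by omega)] at h1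
  exact mul_left_cancel₀ (pow_ne_zero _ hlc) h1

lemma rho_congr {f : K[X]} (hf : f ≠ 0) {g h : K[X]} (hd : f ∣ g - h) : rho f g = rho f h := by
  obtain ⟨k, hk⟩ := hd
  have : g = h + f * k := by linear_combination hk
  rw [this, rho_add_mul hf]

lemma rho_one {f : K[X]} (hf : f ≠ 0) : rho f 1 = 1 := by
  have h1 := rho_spec hf 1 (N := 0) (by simp)
  rw [resultant_one_right] at h1
  simpa using h1.symm

lemma rho_mul_left {f g : K[X]} (hf : f ≠ 0) (hg : g ≠ 0) (h : K[X]) :
    rho (f * g) h = rho f h * rho g h := by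
  have hlcf : f.leadingCoeff ≠ 0 := leadingCoeff_ne_zero.mpr hf
  have hlcg : g.leadingCoeff ≠ 0 := leadingCoeff_ne_zero.mpr hg
  have h1 := resultant_mul_left f g h h.natDegree le_rfl
  rw [← natDegree_mul hf hg, rho_spec (mul_ne_zero hf hg) h le_rfl, rho_spec hf h le_rfl,
    rho_spec hg h le_rfl, leadingCoeff_mul, mul_pow] at h1
  have h2 : f.leadingCoeff ^ h.natDegree * g.leadingCoeff ^ h.natDegree ≠ 0 :=
    mul_ne_zero (pow_ne_zero _ hlcf) (pow_ne_zero _ hlcg)
  apply mul_left_cancel₀ h2
  rw [h1]
  ring

lemma rho_ne_zero {f g : K[X]} (hf : f ≠ 0) (h : IsCoprime f g) : rho f g ≠ 0 := by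
  have h1 := resultant_ne_zero f g h
  rw [rho_spec hf g le_rfl] at h1
  exact right_ne_zero_of_mul h1

lemma rho_eq_zero {f g : K[X]} (hf : f ≠ 0) (h : ¬ IsCoprime f g) : rho f g = 0 := by
  have h1 : resultant f g = 0 := resultant_eq_zero_iff.mpr ⟨Or.inl hf, h⟩
  rw [rho_spec hf g le_rfl] at h1
  exact (mul_eq_zero.mp h1).resolve_left (pow_ne_zero _ (leadingCoeff_ne_zero.mpr hf))

end

section

variable {K E : Type*} [Field K] [Fintype K] [Field E] [Fintype E] [Algebra K E]

omit [Fintype E] in
lemma aeval_frob (x : E) (i : ℕ) (Q : K[X]) :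
    aeval (x ^ (Fintype.card K ^ i)) Q = (aeval x Q) ^ (Fintype.card K ^ i) := by
  induction i with
  | zero => simp
  | succ i ih =>
    rw [pow_succ, pow_mul, pow_mul, ← ih, ← expand_aeval, FiniteField.expand_card, map_pow]

/-- An element of a finite extension is fixed by the `j`-th power of Frobenius iff the degree of
its minimal polynomial divides `j`. -/
lemma frob_fixed_iff {P : K[X]} (hP : Irreducible P) {x : E} (hx : aeval x P = 0) (j : ℕ) :
    x ^ (Fintype.card K ^ j) = x ↔ P.natDegree ∣ j := by
  have h := hP.natDegree_dvd_iff_dvd_X_pow_card_pow_sub_X (n := j)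
  rw [h, Nat.card_eq_fintype_card]
  have hmin : P ∣ X ^ (Fintype.card K ^ j) - X ↔ aeval x (X ^ (Fintype.card K ^ j) - X : K[X]) = 0 := by
    constructor
    · rintro ⟨w, hw⟩
      rw [hw, map_mul, hx, zero_mul]
    · intro h
      have hint : IsIntegral K x := Algebra.IsIntegral.isIntegral x
      have h1 : minpoly K x ∣ P := minpoly.dvd K x hx
      have h2 : Associated (minpoly K x) P :=
        (minpoly.irreducible hint).associated_of_dvd hP h1
      exact h2.symm.dvd.trans (minpoly.dvd K x h)
  rw [hmin]
  simp only [map_sub, map_pow, aeval_X]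
  rw [sub_eq_zero]

/-- The roots of an irreducible polynomial are the Frobenius conjugates of one of them. -/
lemma roots_eq [DecidableEq E] {P : K[X]} (hP : Irreducible P) {x : E} (hx : aeval x P = 0) :
    (P.map (algebraMap K E)).roots =
      ((range P.natDegree).image (fun i => x ^ (Fintype.card K ^ i))).val ∧
    (P.map (algebraMap K E)).Splits ∧
    Set.InjOn (fun i => x ^ (Fintype.card K ^ i)) (range P.natDegree) := by
  have hfix := frob_fixed_iff (E := E) hP hx
  have hP0 : P ≠ 0 := hP.ne_zero
  have hPm : P.map (algebraMap K E) ≠ 0 := map_ne_zero hP0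
  obtain ⟨p, hp⟩ := CharP.exists K
  have hpp : Fact p.Prime := ⟨CharP.char_is_prime K p⟩
  obtain ⟨a, -, ha⟩ := FiniteField.card K p
  have hchE : CharP E p := charP_of_injective_algebraMap (algebraMap K E).injective p
  -- Frobenius is injective
  have hfrinj : ∀ (i : ℕ) (y z : E), y ^ (Fintype.card K ^ i) = z ^ (Fintype.card K ^ i) → y = z := by
    intro i y z h
    have h1 : (y - z) ^ (Fintype.card K ^ i) = 0 := by
      rw [ha, ← pow_mul, sub_pow_char_pow, pow_mul, ← ha, h, sub_self]
    have h2 : Fintype.card K ^ i ≠ 0 := pow_ne_zero _ Fintype.card_ne_zero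
    exact sub_eq_zero.mp ((pow_eq_zero_iff h2).mp h1)
  have hinj : Set.InjOn (fun i => x ^ (Fintype.card K ^ i)) (range P.natDegree) := by
    have key : ∀ i j, i ≤ j → j < P.natDegree →
        x ^ (Fintype.card K ^ i) = x ^ (Fintype.card K ^ j) → i = j := by
      intro i j hij hj h
      obtain ⟨k, rfl⟩ := Nat.exists_eq_add_of_le hij
      have h1 : (x ^ (Fintype.card K ^ k)) ^ (Fintype.card K ^ i) = x ^ (Fintype.card K ^ i) := by
        rw [← pow_mul, ← pow_add, add_comm k i, ← h]
      have h2 := hfrinj i _ _ h1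
      rw [hfix] at h2
      have h3 : k = 0 := by
        by_contra hk
        have := Nat.le_of_dvd (Nat.pos_of_ne_zero hk) h2
        omega
      omega
    intro i hi j hj h
    simp only [coe_range, Set.mem_Iio] at hi hj
    rcases le_total i j with hij | hij
    · exact key i j hij hj h
    · exact (key j i hij hi h.symm).symm
  have hroot : ∀ i, x ^ (Fintype.card K ^ i) ∈ (P.map (algebraMap K E)).roots := by
    intro i
    rw [mem_roots hPm, IsRoot.def, eval_map_algebraMap]
    rw [aeval_frob, hx, zero_pow (pow_ne_zero _ Fintype.card_ne_zero)]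
  have hsub : ((range P.natDegree).image (fun i => x ^ (Fintype.card K ^ i))).val ≤
      (P.map (algebraMap K E)).roots := by
    rw [Finset.val_le_iff_val_subset]
    intro y hy
    rw [Finset.mem_val, Finset.mem_image] at hy
    obtain ⟨i, -, rfl⟩ := hy
    exact hroot i
  have hcard : ((range P.natDegree).image (fun i => x ^ (Fintype.card K ^ i))).val.card =
      P.natDegree := by
    rw [Finset.card_val, Finset.card_image_of_injOn hinj, Finset.card_range]
  have hle : (P.map (algebraMap K E)).roots.card ≤ P.natDegree := by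
    rw [← natDegree_map (algebraMap K E)]
    exact card_roots' _
  have heq := Multiset.eq_of_le_of_card_le hsub (by rw [hcard]; exact hle)
  refine ⟨heq.symm, ?_, hinj⟩
  rw [splits_iff_card_roots, ← heq, hcard, natDegree_map]

omit [Fintype K] [Fintype E] in
lemma rho_map {f h : K[X]} :
    rho (f.map (algebraMap K E)) (h.map (algebraMap K E)) = algebraMap K E (rho f h) := by
  unfold rho
  rw [natDegree_map, natDegree_map, resultant_map_map, leadingCoeff_map, map_mul, map_inv₀, map_pow]

/-- the value of `rho P w` for an irreducible polynomial `P` -/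
lemma rho_irreducible [DecidableEq E] {P : K[X]} (hP : Irreducible P) {x : E}
    (hx : aeval x P = 0) (w : K[X]) :
    algebraMap K E (rho P w) = (aeval x w) ^ (∑ i ∈ range P.natDegree, Fintype.card K ^ i) := by
  obtain ⟨h1, h2, h3⟩ := roots_eq (E := E) hP hx
  have hPm : P.map (algebraMap K E) ≠ 0 := map_ne_zero hP.ne_zero
  rw [← rho_map]
  have h4 := resultant_eq_prod_eval (P.map (algebraMap K E)) (w.map (algebraMap K E))
    (w.map (algebraMap K E)).natDegree le_rfl h2
  rw [rho_spec hPm _ le_rfl] at h4
  have h5 : (P.map (algebraMap K E)).leadingCoeff ^ (w.map (algebraMap K E)).natDegree ≠ 0 :=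
    pow_ne_zero _ (leadingCoeff_ne_zero.mpr hPm)
  rw [mul_left_cancel₀ h5 h4, h1]
  have h6 : (Multiset.map (fun y => eval y (w.map (algebraMap K E)))
      ((range P.natDegree).image (fun i => x ^ (Fintype.card K ^ i))).val).prod =
      ∏ y ∈ (range P.natDegree).image (fun i => x ^ (Fintype.card K ^ i)),
        eval y (w.map (algebraMap K E)) := rfl
  rw [h6, Finset.prod_image h3, ← Finset.prod_pow_eq_pow_sum]
  refine Finset.prod_congr rfl fun i _ => ?_
  rw [eval_map_algebraMap, aeval_frob]

/-- The number of elements with given minimal polynomial. -/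
lemma card_roots_irreducible [DecidableEq E] {k : ℕ} (hE : Fintype.card E = Fintype.card K ^ k)
    (hk : 0 < k) {P : K[X]} (hP : Irreducible P) :
    (univ.filter (fun x : E => aeval x P = 0)).card = if P.natDegree ∣ k then P.natDegree else 0 := by
  have hPm : P.map (algebraMap K E) ≠ 0 := map_ne_zero hP.ne_zero
  split_ifs with h
  · -- there is a root
    have hdvd := (hP.natDegree_dvd_iff_dvd_X_pow_card_pow_sub_X (n := k)).mp h
    rw [Nat.card_eq_fintype_card, ← hE] at hdvd
    have hdvd' : P.map (algebraMap K E) ∣ X ^ Fintype.card E - X := by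
      have := map_dvd (mapRingHom (algebraMap K E)) hdvd
      simpa using this
    have hne : (X ^ Fintype.card E - X : E[X]) ≠ 0 :=
      FiniteField.X_pow_card_sub_X_ne_zero E Fintype.one_lt_card
    have hspl : (P.map (algebraMap K E)).Splits := by
      refine Splits.of_dvd ?_ hne hdvd'
      rw [splits_iff_card_roots, FiniteField.roots_X_pow_card_sub_X,
        FiniteField.X_pow_card_sub_X_natDegree_eq E Fintype.one_lt_card]
      rfl
    obtain ⟨x, hx⟩ : ∃ x : E, aeval x P = 0 := by
      have hd : (P.map (algebraMap K E)).degree ≠ 0 := by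
        rw [degree_map]
        exact (degree_pos_of_irreducible hP).ne'
      obtain ⟨x, hx⟩ := hspl.exists_eval_eq_zero hd
      exact ⟨x, by rw [← eval_map_algebraMap]; exact hx⟩
    obtain ⟨h1, h2, h3⟩ := roots_eq (E := E) hP hx
    have h4 : univ.filter (fun x : E => aeval x P = 0) =
        (range P.natDegree).image (fun i => x ^ (Fintype.card K ^ i)) := by
      ext y
      rw [Finset.mem_filter, ← Finset.mem_val (s := image _ _), ← h1, mem_roots hPm, IsRoot.def,
        eval_map_algebraMap]
      simp
    rw [h4, Finset.card_image_of_injOn h3, Finset.card_range]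
  · rw [Finset.card_eq_zero, Finset.filter_eq_empty_iff]
    intro x _ hx
    apply h
    rw [← frob_fixed_iff (E := E) hP hx, ← hE]
    exact FiniteField.pow_card x

end

end Pool.Agent.Work.MP_2b9663_nt
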