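import Pool.Agent.Work.MP_2b9663_nt.Rank

set_option autoImplicit false

/-!
Stability of the order of the `L`-function under base change.
-/

namespace Pool.Agent.Work.MP_2b9663_nt

open NumberField

section

variable {Ω : Type} [Field Ω] [CharZero Ω]

lemma finrank_subf {M K : IntermediateField ℚ Ω} (h : K ≤ M) :
    Module.finrank ℚ (subf M K) = Module.finrank ℚ K :=
  ((subfEquiv h).toRatAlgEquiv).toLinearEquiv.finrank_eq.symm

lemma gal_subf {M K : IntermediateField ℚ Ω} (h : K ≤ M) [IsGalois ℚ K] : IsGalois ℚ (subf M K) :=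
  IsGalois.of_algEquiv (subfEquiv h).toRatAlgEquiv

lemma normal_subf {M K : IntermediateField ℚ Ω} (h : K ≤ M) [IsGalois ℚ M] [IsGalois ℚ K] :
    (subf M K).fixingSubgroup.Normal := by
  have h1 : IsGalois ℚ (subf M K) := gal_subf h
  have h2 : @IsGalois ℚ _ (subf M K) _ (subf M K).algebra' := h1
  exact @IsGalois.fixingSubgroup_normal_of_isGalois ℚ M _ _ _ (subf M K) _ h2

lemma fixing_inf {L : Type} [Field L] [NumberField L] [IsGalois ℚ L] (K K' : IntermediateField ℚ L) :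
    (K ⊓ K').fixingSubgroup = K.fixingSubgroup ⊔ K'.fixingSubgroup :=
  (IsGalois.intermediateFieldEquivSubgroup (F := ℚ) (E := L)).map_inf K K'

variable (M : IntermediateField ℚ Ω) [NumberField M] [IsGalois ℚ M]

/-- the permutation character of the embeddings of `K` in `M` -/
noncomputable def pcf (K : IntermediateField ℚ Ω) (g : M ≃ₐ[ℚ] M) : ℝ :=
  (pc (subf M K).fixingSubgroup g : ℝ)

omit [NumberField M] [IsGalois ℚ M] in
lemma isRat_pcf (K : IntermediateField ℚ Ω) : IsRat (pcf M K) := isRat_pc _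

variable {M}

lemma fixEmb_eq_pcf {K : IntermediateField ℚ Ω} (h : K ≤ M) (g : M ≃ₐ[ℚ] M) :
    (fixEmb K M g : ℝ) = pcf M K g := by
  rw [pcf, ← fixEmb_eq_pc, fixEmb_congr (subfEquiv h)]

omit [IsGalois ℚ M] in
lemma sum_pcf (K : IntermediateField ℚ Ω) : ∑ g, pcf M K g = Fintype.card (M ≃ₐ[ℚ] M) := sum_pc _

omit [NumberField M] [IsGalois ℚ M] in
lemma pcf_bot (g : M ≃ₐ[ℚ] M) : pcf M ⊥ g = 1 := by
  have h1 : subf M ⊥ = ⊥ := by
    rw [eq_bot_iff]
    intro x hx
    rw [mem_subf, IntermediateField.mem_bot] at hx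
    obtain ⟨r, hr⟩ := hx
    rw [IntermediateField.mem_bot]
    refine ⟨r, Subtype.val_injective ?_⟩
    rw [← hr]
    rw [eq_ratCast, eq_ratCast]
    rfl
  rw [pcf, h1, IntermediateField.fixingSubgroup_bot]
  have h2 : pc (⊤ : Subgroup (M ≃ₐ[ℚ] M)) g = 1 := by
    unfold pc
    rw [Nat.card_eq_one_iff_unique]
    have h3 : Subsingleton ((M ≃ₐ[ℚ] M) ⧸ (⊤ : Subgroup (M ≃ₐ[ℚ] M))) :=
      QuotientGroup.subsingleton_quotient_top
    refine ⟨⟨fun a b => Subtype.ext ?_⟩, ⟨⟨((1 : M ≃ₐ[ℚ] M) : (M ≃ₐ[ℚ] M) ⧸ (⊤ : Subgroup (M ≃ₐ[ℚ] M))), ?_⟩⟩⟩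
    · exact Subsingleton.elim _ _
    · exact Subsingleton.elim _ _
  rw [h2, Nat.cast_one]

lemma inner_pcf_self_le {K : IntermediateField ℚ Ω} [NumberField K] (h : K ≤ M) :
    ∑ g, pcf M K g * pcf M K g ≤ Fintype.card (M ≃ₐ[ℚ] M) * embRank K Ω := by
  have h1 := sum_fix_sq (M := M) (K := K)
  have h2 : ∀ g, pcf M K g * pcf M K g = ((fixEmb K M g ^ 2 : ℕ) : ℝ) := by
    intro g
    rw [← fixEmb_eq_pcf h]
    push_cast
    ring
  rw [Finset.sum_congr rfl fun g _ => h2 g]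
  exact_mod_cast h1

omit [IsGalois ℚ M] in
lemma one_le_inner_pcf (K J : IntermediateField ℚ Ω) :
    (Fintype.card (M ≃ₐ[ℚ] M) : ℝ) ≤ ∑ g, pcf M K g * pcf M J g := one_le_inner _ _

/-- `pcf K - pcf K'` is orthogonal to `pcf J` if `J` is contained in a Galois extension `M₀` which
has the same intersection with `K` and `K'`. -/
lemma orth_pcf {M₀ K K' J : IntermediateField ℚ Ω} [IsGalois ℚ M₀] (h0 : M₀ ≤ M) (hJ : J ≤ M₀)
    (hKK : K ⊓ M₀ = K' ⊓ M₀) : ∑ g, (pcf M K g - pcf M K' g) * pcf M J g = 0 := by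
  have hN := normal_subf h0
  have hNJ : (subf M M₀).fixingSubgroup ≤ (subf M J).fixingSubgroup :=
    IntermediateField.fixingSubgroup_antitone (subf_mono M hJ)
  have h1 := inner_pc (subf M K).fixingSubgroup (subf M J).fixingSubgroup
    (subf M M₀).fixingSubgroup hNJ
  have h2 := inner_pc (subf M K').fixingSubgroup (subf M J).fixingSubgroup
    (subf M M₀).fixingSubgroup hNJ
  rw [← fixing_inf, ← subf_inf] at h1 h2
  rw [hKK, ← h2] at h1
  simp only [sub_mul]
  rw [Finset.sum_sub_distrib, sub_eq_zero]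
  exact h1

lemma hasVal_pcf {a : Nat.Primes → ℝ} (ha : BD a) {K : IntermediateField ℚ Ω} [NumberField K]
    (h : K ≤ M) {m : ℝ} (hm : MV (fun p : Nat.Primes => (idc K (p : ℕ) : ℝ) * a p) (-m)) :
    HasVal a (pcf M K) m := by
  refine hasVal_pc ha (subf M K) ?_
  have h1 : (fun p : Nat.Primes => (idc (subf M K) (p : ℕ) : ℝ) * a p) =
      fun p : Nat.Primes => (idc K (p : ℕ) : ℝ) * a p := by
    funext p
    have hp : Fact (p : ℕ).Prime := ⟨p.2⟩
    rw [idc_congr (subfEquiv h)]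
  rw [h1]
  exact hm

end

section

variable {Ω : Type} [Field Ω] [CharZero Ω] [IsAlgClosure ℚ Ω]

/-- the normal closure -/
noncomputable def NC (E : IntermediateField ℚ Ω) : IntermediateField ℚ Ω :=
  IntermediateField.normalClosure ℚ E Ω

omit [IsAlgClosure ℚ Ω] in
lemma nc_nf (E : IntermediateField ℚ Ω) [NumberField E] : NumberField (NC E) := by
  unfold NC
  have : FiniteDimensional ℚ (IntermediateField.normalClosure ℚ E Ω) :=
    normalClosure.is_finiteDimensional ℚ E Ω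
  exact ⟨⟩

lemma nc_gal (E : IntermediateField ℚ Ω) : IsGalois ℚ (NC E) := by
  unfold NC
  exact IsGalois.normalClosure ℚ E Ω

omit [IsAlgClosure ℚ Ω] in
lemma le_nc (E : IntermediateField ℚ Ω) : E ≤ NC E := IntermediateField.le_normalClosure E

lemma nc_mono {E E' : IntermediateField ℚ Ω} (h : E ≤ E') : NC E ≤ NC E' :=
  IntermediateField.normalClosure_mono E E' h

variable {κ : Type} (K : κ → IntermediateField ℚ Ω) [hK : ∀ k, NumberField (K k)] (m : κ → ℤ)

/-- the compositum of the fields which occur in a list of pairs -/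
noncomputable def cmp : List (κ × κ) → IntermediateField ℚ Ω
  | [] => ⊥
  | q :: l => (K q.1 ⊔ K q.2) ⊔ cmp l

omit [IsAlgClosure ℚ Ω] in
lemma cmp_nf (l : List (κ × κ)) : NumberField (cmp K l) := by
  induction l with
  | nil =>
    have h1 : FiniteDimensional ℚ (⊥ : IntermediateField ℚ Ω) := inferInstance
    change NumberField (⊥ : IntermediateField ℚ Ω)
    exact ⟨⟩
  | cons q l ih =>
    have h1 : FiniteDimensional ℚ (K q.1 ⊔ K q.2 : IntermediateField ℚ Ω) :=
      IntermediateField.finiteDimensional_sup (K q.1) (K q.2)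
    have h2 : FiniteDimensional ℚ ((K q.1 ⊔ K q.2) ⊔ cmp K l : IntermediateField ℚ Ω) :=
      IntermediateField.finiteDimensional_sup (K q.1 ⊔ K q.2) (cmp K l)
    change NumberField ((K q.1 ⊔ K q.2) ⊔ cmp K l : IntermediateField ℚ Ω)
    exact ⟨⟩

/-- A list of pairs of fields of rank at most `d` such that, for every pair, the two fields have
the same intersection with the normal closure of the compositum of the later fields, but
different orders. -/
def Chain (d : ℕ) : List (κ × κ) → Prop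
  | [] => True
  | q :: l => Chain d l ∧ (embRank (K q.1) Ω ≤ d ∧ embRank (K q.2) Ω ≤ d) ∧
      K q.1 ⊓ NC (cmp K l) = K q.2 ⊓ NC (cmp K l) ∧ m q.1 ≠ m q.2

/-- the test function of a list of pairs -/
noncomputable def tf (M : IntermediateField ℚ Ω) [NumberField M] : List (κ × κ) → (M ≃ₐ[ℚ] M) → ℝ
  | [] => 0
  | q :: l => ((m q.1 : ℝ) - m q.2) • (pcf M (K q.1) - pcf M (K q.2)) + tf M l

/-- the sum of squares of the differences of orders -/
noncomputable def ssq : List (κ × κ) → ℝ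
  | [] => 0
  | q :: l => ((m q.1 : ℝ) - m q.2) ^ 2 + ssq l

omit [CharZero Ω] [IsAlgClosure ℚ Ω] in
lemma ssq_nonneg (l : List (κ × κ)) : 0 ≤ ssq m l := by
  induction l with
  | nil => exact le_rfl
  | cons q l ih => exact add_nonneg (sq_nonneg _) ih

variable {K m}

omit [IsAlgClosure ℚ Ω] hK in
lemma length_le_ssq {d : ℕ} {l : List (κ × κ)} (h : Chain K m d l) : (l.length : ℝ) ≤ ssq m l := by
  induction l with
  | nil => simp [ssq]
  | cons q l ih =>
    obtain ⟨h1, -, -, h2⟩ := h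
    have h3 := ih h1
    have h4 : (1 : ℝ) ≤ ((m q.1 : ℝ) - m q.2) ^ 2 := by
      have h5 : m q.1 - m q.2 ≠ 0 := sub_ne_zero.mpr h2
      have h6 : (1 : ℤ) ≤ (m q.1 - m q.2) ^ 2 := by
        have := sq_nonneg (m q.1 - m q.2)
        have h7 : (m q.1 - m q.2) ^ 2 ≠ 0 := pow_ne_zero 2 h5
        omega
      exact_mod_cast h6
    rw [List.length_cons, ssq]
    push_cast
    linarith

section

variable {M : IntermediateField ℚ Ω} [NumberField M] [IsGalois ℚ M]

omit [IsAlgClosure ℚ Ω] [IsGalois ℚ M] hK in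
lemma isRat_tf (l : List (κ × κ)) : IsRat (tf K m M l) := by
  induction l with
  | nil => exact fun _ _ _ => rfl
  | cons q l ih =>
    intro g h hgh
    simp only [tf, Pi.add_apply, Pi.smul_apply, Pi.sub_apply]
    rw [ih g h hgh, isRat_pcf M (K q.1) g h hgh, isRat_pcf M (K q.2) g h hgh]

omit [IsAlgClosure ℚ Ω] in
lemma hasVal_tf {a : Nat.Primes → ℝ} (ha : BD a)
    (hm : ∀ k, MV (fun p : Nat.Primes => (idc (K k) (p : ℕ) : ℝ) * a p) (-(m k : ℝ)))
    (l : List (κ × κ)) (hl : cmp K l ≤ M) : HasVal a (tf K m M l) (ssq m l) := by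
  induction l with
  | nil => exact HasVal.zero
  | cons q l ih =>
    have h1 : (K q.1 ⊔ K q.2) ⊔ cmp K l ≤ M := hl
    have h2 : K q.1 ≤ M := (le_sup_left.trans le_sup_left).trans h1
    have h3 : K q.2 ≤ M := (le_sup_right.trans le_sup_left).trans h1
    have h4 := ((hasVal_pcf ha h2 (hm q.1)).sub (hasVal_pcf ha h3 (hm q.2))).smul
      ((m q.1 : ℝ) - m q.2)
    have h5 := h4.add (ih (le_sup_right.trans h1))
    rw [ssq, sq]
    exact h5

omit [IsAlgClosure ℚ Ω] [IsGalois ℚ M] hK in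
lemma sum_tf (l : List (κ × κ)) : ∑ g, tf K m M l g = 0 := by
  induction l with
  | nil => simp [tf]
  | cons q l ih =>
    simp only [tf, Pi.add_apply, Pi.smul_apply, Pi.sub_apply, smul_eq_mul]
    rw [Finset.sum_add_distrib, ih, ← Finset.mul_sum, Finset.sum_sub_distrib, sum_pcf, sum_pcf,
      sub_self, mul_zero, add_zero]

omit [IsAlgClosure ℚ Ω] [IsGalois ℚ M] hK in
lemma sum_mul_tf (u : (M ≃ₐ[ℚ] M) → ℝ) (l : List (κ × κ))
    (hu : ∀ j, K j ≤ cmp K l → ∑ g, u g * pcf M (K j) g = 0) : ∑ g, u g * tf K m M l g = 0 := by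
  induction l with
  | nil => simp [tf]
  | cons q l ih =>
    have h1 : K q.1 ≤ cmp K (q :: l) := le_sup_left.trans le_sup_left
    have h2 : K q.2 ≤ cmp K (q :: l) := le_sup_right.trans le_sup_left
    have h3 : cmp K l ≤ cmp K (q :: l) := le_sup_right
    have h4 := ih fun j hj => hu j (hj.trans h3)
    have h5 : ∑ g, u g * tf K m M (q :: l) g = ((m q.1 : ℝ) - m q.2) *
        (∑ g, u g * pcf M (K q.1) g - ∑ g, u g * pcf M (K q.2) g) +
        ∑ g, u g * tf K m M l g := by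
      rw [← Finset.sum_sub_distrib, Finset.mul_sum, ← Finset.sum_add_distrib]
      refine Finset.sum_congr rfl fun g _ => ?_
      simp only [tf, Pi.add_apply, Pi.smul_apply, Pi.sub_apply, smul_eq_mul]
      ring
    rw [h5, hu _ h1, hu _ h2, h4, sub_self, mul_zero, add_zero]

lemma sum_sq_tf {d : ℕ} (l : List (κ × κ)) (hl : Chain K m d l) (hM : NC (cmp K l) ≤ M) :
    ∑ g, tf K m M l g ^ 2 ≤ Fintype.card (M ≃ₐ[ℚ] M) * ((2 * (d - 1)) * ssq m l) := by
  induction l with
  | nil => simp [tf, ssq]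
  | cons q l ih =>
    obtain ⟨h1, ⟨hd1, hd2⟩, h2, -⟩ := hl
    have h3 : cmp K l ≤ cmp K (q :: l) := le_sup_right
    have h4 : NC (cmp K l) ≤ M := (nc_mono h3).trans hM
    have h5 := ih h1 h4
    have h6 : K q.1 ≤ M := ((le_sup_left.trans le_sup_left).trans (le_nc (cmp K (q :: l)))).trans hM
    have h7 : K q.2 ≤ M := ((le_sup_right.trans le_sup_left).trans (le_nc (cmp K (q :: l)))).trans hM
    set θ : (M ≃ₐ[ℚ] M) → ℝ := fun g => pcf M (K q.1) g - pcf M (K q.2) g with hθ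
    set x : ℝ := (m q.1 : ℝ) - m q.2 with hx
    have h8 : ∑ g, θ g * tf K m M l g = 0 := by
      refine sum_mul_tf θ l fun j hj => ?_
      have := nc_gal (cmp K l)
      exact orth_pcf h4 (hj.trans (le_nc _)) h2
    have h9 : ∑ g, θ g ^ 2 ≤ Fintype.card (M ≃ₐ[ℚ] M) * (2 * (d - 1)) := by
      have h10 : ∑ g, θ g ^ 2 = ∑ g, pcf M (K q.1) g * pcf M (K q.1) g +
          ∑ g, pcf M (K q.2) g * pcf M (K q.2) g -
          2 * ∑ g, pcf M (K q.1) g * pcf M (K q.2) g := by
        rw [Finset.mul_sum, ← Finset.sum_add_distrib, ← Finset.sum_sub_distrib]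
        refine Finset.sum_congr rfl fun g _ => ?_
        simp only [hθ]
        ring
      have h11 := inner_pcf_self_le h6
      have h12 := inner_pcf_self_le h7
      have h13 := one_le_inner_pcf (M := M) (K q.1) (K q.2)
      have hc : (0 : ℝ) ≤ Fintype.card (M ≃ₐ[ℚ] M) := Nat.cast_nonneg _
      have h14 : (embRank (K q.1) Ω : ℝ) ≤ d := by exact_mod_cast hd1
      have h15 : (embRank (K q.2) Ω : ℝ) ≤ d := by exact_mod_cast hd2
      have h16 := mul_le_mul_of_nonneg_left h14 hc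
      have h17 := mul_le_mul_of_nonneg_left h15 hc
      rw [h10]
      linarith
    have h10 : ∑ g, tf K m M (q :: l) g ^ 2 =
        x ^ 2 * ∑ g, θ g ^ 2 + 2 * x * ∑ g, θ g * tf K m M l g + ∑ g, tf K m M l g ^ 2 := by
      rw [Finset.mul_sum, Finset.mul_sum, ← Finset.sum_add_distrib, ← Finset.sum_add_distrib]
      refine Finset.sum_congr rfl fun g _ => ?_
      simp only [tf, Pi.add_apply, Pi.smul_apply, Pi.sub_apply, smul_eq_mul, hθ, hx]
      ring
    rw [h10, h8, ssq]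
    have h11 := mul_le_mul_of_nonneg_left h9 (sq_nonneg x)
    rw [← hx]
    linarith

end

/-- The length of a chain is bounded. -/
theorem chain_length {a : Nat.Primes → ℝ} {b : ℝ} (hb : 0 ≤ b) (ha : ∀ p, |a p| ≤ b)
    (hm : ∀ k, MV (fun p : Nat.Primes => (idc (K k) (p : ℕ) : ℝ) * a p) (-(m k : ℝ)))
    {k₀ : κ} (hk₀ : K k₀ = ⊥) {d : ℕ} (hd : 1 ≤ d) {l : List (κ × κ)} (hl : Chain K m d l) :
    (l.length : ℝ) ≤ 2 * (d - 1) * (b ^ 2 - (m k₀ : ℝ) ^ 2) := by
  have hBD : BD a := ⟨b, ha⟩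
  have h1 := cmp_nf K l
  set M := NC (cmp K l) with hM
  have h2 : NumberField M := nc_nf _
  have h3 : IsGalois ℚ M := nc_gal _
  have h4 := hasVal_tf hBD hm l (le_nc (cmp K l))
  have h5 : HasVal a (pcf M (K k₀)) ((m k₀ : ℤ) : ℝ) := hasVal_pcf hBD (by rw [hk₀]; exact bot_le) (hm k₀)
  set D : ℝ := 2 * (d - 1) with hD
  have hD0 : 0 ≤ D := by
    have : (1 : ℝ) ≤ d := by exact_mod_cast hd
    rw [hD]
    linarith
  set A := ssq m l with hA
  have hA0 : 0 ≤ A := ssq_nonneg m l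
  set μ : ℝ := ((m k₀ : ℤ) : ℝ) with hμ
  have h6 := (h5.smul (D * μ)).add h4
  have h7 : IsRat ((D * μ) • pcf M (K k₀) + tf K m M l) := by
    intro g h hgh
    simp only [Pi.add_apply, Pi.smul_apply]
    rw [isRat_tf l g h hgh, isRat_pcf M (K k₀) g h hgh]
  have h8 := h6.sq_le hb ha h7
  have hc : (0 : ℝ) < Fintype.card (M ≃ₐ[ℚ] M) := by exact_mod_cast Fintype.card_pos
  have h9 : ∑ g, ((D * μ) • pcf M (K k₀) + tf K m M l) g ^ 2 ≤
      Fintype.card (M ≃ₐ[ℚ] M) * (D * (D * μ * μ + A)) := by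
    have h10 : ∑ g, ((D * μ) • pcf M (K k₀) + tf K m M l) g ^ 2 =
        Fintype.card (M ≃ₐ[ℚ] M) * (D * μ) ^ 2 + 2 * (D * μ) * ∑ g, tf K m M l g +
          ∑ g, tf K m M l g ^ 2 := by
      rw [← nsmul_eq_mul, ← Finset.card_univ, ← Finset.sum_const, Finset.mul_sum,
        ← Finset.sum_add_distrib, ← Finset.sum_add_distrib]
      refine Finset.sum_congr rfl fun g _ => ?_
      simp only [Pi.add_apply, Pi.smul_apply, smul_eq_mul, hk₀, pcf_bot]
      ring
    rw [h10, sum_tf]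
    have h11 := sum_sq_tf l hl (le_refl M)
    rw [← hD, ← hA] at h11
    nlinarith
  have h10 : (Fintype.card (M ≃ₐ[ℚ] M) : ℝ) * (D * μ * μ + A) ^ 2 ≤
      Fintype.card (M ≃ₐ[ℚ] M) * (b ^ 2 * (D * (D * μ * μ + A))) := by
    refine h8.trans ?_
    have h11 := mul_le_mul_of_nonneg_left h9 (sq_nonneg b)
    linarith
  have h11 := le_of_mul_le_mul_left h10 hc
  set x := D * μ * μ + A with hx
  have hx0 : 0 ≤ x := by
    have : 0 ≤ D * μ * μ := by
      rw [mul_assoc]
      exact mul_nonneg hD0 (mul_self_nonneg μ)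
    linarith
  have h12 : x ≤ b ^ 2 * D := by
    rcases eq_or_lt_of_le hx0 with h13 | h13
    · rw [← h13]
      exact mul_nonneg (sq_nonneg b) hD0
    · have h14 : x * x ≤ (b ^ 2 * D) * x := by
        have : b ^ 2 * (D * x) = b ^ 2 * D * x := by ring
        rw [sq] at h11
        linarith
      exact le_of_mul_le_mul_right h14 h13
  have h13 := length_le_ssq hl
  have h14 : D * (b ^ 2 - μ ^ 2) = b ^ 2 * D - D * μ * μ := by ring
  rw [h14]
  linarith

end

end Pool.Agent.Work.MP_2b9663_nt
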