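import Mathlib

set_option autoImplicit false

/-!
Stepanov's method for `y ^ 2 = f(x)` over a field with `P ^ 2` elements, `P` a power of the
characteristic.
-/

namespace Pool.Agent.Work.MP_2b9663_nt

open Finset Polynomial

section

variable {K : Type*} [Field K]

/-- polynomial with given coefficients -/
noncomputable def pol {A : ℕ} (c : Fin A → K) : K[X] := ∑ i : Fin A, C (c i) * X ^ (i : ℕ)

lemma pol_coeff {A : ℕ} (c : Fin A → K) (k : Fin A) : (pol c).coeff k = c k := by
  unfold pol
  rw [finsetSum_coeff]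
  rw [Finset.sum_eq_single k]
  · simp
  · intro j _ hj
    rw [coeff_C_mul_X_pow, if_neg]
    intro h
    exact hj (Fin.ext h).symm
  · intro h
    exact absurd (Finset.mem_univ k) h

lemma pol_degree {A : ℕ} (c : Fin A → K) : (pol c).degree < A := by
  exact degree_sum_fin_lt c

lemma pol_sub {A : ℕ} (c d : Fin A → K) : pol (fun i => c i - d i) = pol c - pol d := by
  unfold pol
  rw [← Finset.sum_sub_distrib]
  refine Finset.sum_congr rfl fun i _ => ?_
  rw [C_sub]; ring

lemma pol_eq_zero {A : ℕ} {c : Fin A → K} (h : pol c = 0) : c = 0 := by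
  ext k
  rw [← pol_coeff c k, h, coeff_zero]
  rfl

lemma pol_natDegree {A : ℕ} (c : Fin (A + 1) → K) : (pol c).natDegree ≤ A := by
  by_cases h : pol c = 0
  · rw [h, natDegree_zero]; exact Nat.zero_le _
  · have := pol_degree c
    rw [degree_eq_natDegree h] at this
    have h2 : (pol c).natDegree < A + 1 := by exact_mod_cast this
    omega

/-- The independence statement: if `X ^ P` divides `u + f ^ ((P+1)/2) v` and the degrees are small,
then `u = v = 0`. -/
lemma indep (p n : ℕ) [Fact p.Prime] [CharP K p] {P t : ℕ} (hP : P = p ^ n) (hPt : P = 2 * t + 1)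
    {f : K[X]} (hf : Squarefree f) {m : ℕ} (hm : f.natDegree = m) (hm1 : 1 ≤ m) {u v : K[X]}
    (hu : u = 0 ∨ 2 * u.natDegree < P) (hv : v = 0 ∨ m + 2 * v.natDegree < P)
    (hdvd : X ^ P ∣ u + f ^ (t + 1) * v) : u = 0 ∧ v = 0 := by
  have hf0 : f ≠ 0 := hf.ne_zero
  -- `X ^ P` divides `u ^ 2 - C c * f * v ^ 2`
  set c : K := (f.coeff 0) ^ P with hc
  have h1 : (X : K[X]) ^ P ∣ f ^ P - C c := by
    have h2 : (X : K[X]) ∣ f - C (f.coeff 0) := by
      rw [X_dvd_iff, coeff_sub, coeff_C_zero, sub_self]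
    have h3 : (f - C (f.coeff 0)) ^ P = f ^ P - C c := by
      rw [hc, C_pow, hP, sub_pow_char_pow]
    rw [← h3]
    exact pow_dvd_pow_of_dvd h2 P
  have h4 : (X : K[X]) ^ P ∣ u ^ 2 - C c * f * v ^ 2 := by
    have h5 : (X : K[X]) ^ P ∣ (u + f ^ (t + 1) * v) * (u - f ^ (t + 1) * v) :=
      Dvd.dvd.mul_right hdvd _
    have h6 : (X : K[X]) ^ P ∣ (f ^ P - C c) * (f * v ^ 2) := Dvd.dvd.mul_right h1 _
    have h7 : u ^ 2 - C c * f * v ^ 2 = (u + f ^ (t + 1) * v) * (u - f ^ (t + 1) * v) +
        (f ^ P - C c) * (f * v ^ 2) := by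
      have h8 : f ^ P * f = f ^ (t + 1) * f ^ (t + 1) := by
        rw [← pow_succ, ← pow_add, hPt]; congr 1; omega
      linear_combination v ^ 2 * (-h8)
    rw [h7]
    exact dvd_add h5 h6
  have h9 : u ^ 2 - C c * f * v ^ 2 = 0 := by
    by_contra hne
    have h10 := natDegree_le_of_dvd h4 hne
    rw [natDegree_X_pow] at h10
    have h11 : (u ^ 2 - C c * f * v ^ 2).natDegree < P := by
      refine (natDegree_sub_le _ _).trans_lt (max_lt ?_ ?_)
      · rcases hu with h | h
        · rw [h]; simp; omega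
        · rw [natDegree_pow]; exact h
      · rcases hv with h | h
        · rw [h]; simp; omega
        · calc (C c * f * v ^ 2).natDegree ≤ (C c * f).natDegree + (v ^ 2).natDegree :=
                natDegree_mul_le
            _ ≤ m + 2 * v.natDegree := by
                rw [natDegree_pow]
                have := natDegree_C_mul_le c f
                omega
            _ < P := h
    omega
  by_cases hc0 : c = 0
  · -- `f(0) = 0`
    rw [hc0, C_0, zero_mul, zero_mul, sub_zero] at h9
    have hu0 : u = 0 := by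
      have := pow_eq_zero_iff (two_ne_zero) |>.mp h9
      exact this
    refine ⟨hu0, ?_⟩
    by_contra hv0
    rcases hv with h | h
    · exact hv0 h
    · rw [hu0, zero_add] at hdvd
      have hf00 : f.coeff 0 = 0 := by
        have hP0 : P ≠ 0 := by omega
        exact (pow_eq_zero_iff hP0).mp hc0
      obtain ⟨g, hg⟩ := X_dvd_iff.mpr hf00
      have hXg : ¬ (X : K[X]) ∣ g := by
        rintro ⟨w, hw⟩
        have h2 : (X : K[X]) * X ∣ f := ⟨w, by rw [hg, hw]; ring⟩
        exact not_isUnit_X (hf X h2)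
      have hg' : ¬ (X : K[X]) ∣ g ^ (t + 1) := fun h2 => hXg (prime_X.dvd_of_dvd_pow h2)
      rw [hg, mul_pow, mul_assoc] at hdvd
      have h2 : (X : K[X]) ^ P = X ^ (t + 1) * X ^ t := by rw [← pow_add, hPt]; congr 1; omega
      rw [h2] at hdvd
      have h3 : (X : K[X]) ^ t ∣ g ^ (t + 1) * v :=
        (mul_dvd_mul_iff_left (pow_ne_zero _ X_ne_zero)).mp hdvd
      have hcop : IsCoprime ((X : K[X]) ^ t) (g ^ (t + 1)) := by
        apply IsCoprime.pow_left
        exact (Irreducible.coprime_iff_not_dvd irreducible_X).mpr hg'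
      have h5 : (X : K[X]) ^ t ∣ v := hcop.dvd_of_dvd_mul_left h3
      have h6 := natDegree_le_of_dvd h5 hv0
      rw [natDegree_X_pow] at h6
      omega
  · -- `f(0) ≠ 0`
    have hCc : IsUnit (C c : K[X]) := isUnit_C.mpr (isUnit_iff_ne_zero.mpr hc0)
    by_cases hv0 : v = 0
    · rw [hv0] at h9
      refine ⟨?_, hv0⟩
      have : u ^ 2 = 0 := by simpa using h9
      exact (pow_eq_zero_iff two_ne_zero).mp this
    · exfalso
      have h10 : v ^ 2 ∣ u ^ 2 := ⟨C c * f, by linear_combination h9⟩
      obtain ⟨w, hw⟩ := (IsIntegrallyClosed.pow_dvd_pow_iff two_ne_zero).mp h10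
      have h11 : w ^ 2 = C c * f := by
        have h12 : v ^ 2 * (w ^ 2 - C c * f) = 0 := by
          rw [hw] at h9
          linear_combination h9
        rcases mul_eq_zero.mp h12 with h | h
        · exact absurd ((pow_eq_zero_iff two_ne_zero).mp h) hv0
        · exact sub_eq_zero.mp h
      have h13 : w * w ∣ f := by
        have : f = C c⁻¹ * w ^ 2 := by
          rw [h11, ← mul_assoc, ← C_mul, inv_mul_cancel₀ hc0, C_1, one_mul]
        rw [this, sq]
        exact Dvd.intro_left _ rfl
      have h14 := hf w h13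
      have h15 := natDegree_eq_zero_of_isUnit h14
      have h16 : (C c * f).natDegree = m := by rw [natDegree_C_mul hc0, hm]
      rw [← h11, natDegree_pow, h15] at h16
      omega

/-- **Stepanov's bound** over a field with `P ^ 2` elements. -/
theorem stepanov_sq [Fintype K] [DecidableEq K] (p n : ℕ) [Fact p.Prime] [CharP K p] {P t : ℕ}
    (hP : P = p ^ n) (hPt : P = 2 * t + 1) (hcard : Fintype.card K = P ^ 2) {f : K[X]}
    (hf : Squarefree f) {m : ℕ} (hm : f.natDegree = m) (hm1 : 1 ≤ m) (hmP : 2 * m ≤ P) (a : K) :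
    2 * (univ.filter (fun x : K => f.eval x ^ (P ^ 2 / 2) = a)).card ≤ P ^ 2 + 3 * m * P := by
  classical
  have hf0 : f ≠ 0 := hf.ne_zero
  have hmt : m ≤ t := by omega
  have ht1 : 1 ≤ t := by omega
  set J := t + m with hJ
  set A := t + 1 with hA
  set B := t - m + 1 with hB
  set M := J + P * t with hM
  -- the two polynomials attached to the coefficients
  set Φ : (Fin J → Fin A → K) → (Fin J → Fin B → K) → K[X] := fun c d =>
    ∑ j : Fin J, X ^ (j : ℕ) * (pol (c j)) ^ P +
      C a * f ^ (t + 1) * ∑ j : Fin J, X ^ (j : ℕ) * (pol (d j)) ^ P with hΦ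
  have hΦsub : ∀ c c' d d', Φ (fun j i => c j i - c' j i) (fun j i => d j i - d' j i) =
      Φ c d - Φ c' d' := by
    intro c c' d d'
    simp only [hΦ]
    have h1 : ∀ {A : ℕ} (c c' : Fin J → Fin A → K),
        ∑ j : Fin J, (X : K[X]) ^ (j : ℕ) * (pol (fun i => c j i - c' j i)) ^ P =
        ∑ j : Fin J, X ^ (j : ℕ) * (pol (c j)) ^ P - ∑ j : Fin J, X ^ (j : ℕ) * (pol (c' j)) ^ P := by
      intro A c c'
      rw [← Finset.sum_sub_distrib]
      refine Finset.sum_congr rfl fun j _ => ?_
      rw [pol_sub, hP, sub_pow_char_pow]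
      ring
    rw [h1, h1]
    ring
  have hΦdeg : ∀ c d, (Φ c d).natDegree < M := by
    intro c d
    simp only [hΦ]
    have hsum : ∀ {A : ℕ} (c : Fin J → Fin (A + 1) → K),
        (∑ j : Fin J, (X : K[X]) ^ (j : ℕ) * (pol (c j)) ^ P).natDegree ≤ J - 1 + P * A := by
      intro A c
      refine natDegree_sum_le_of_forall_le _ _ fun j _ => ?_
      refine natDegree_mul_le.trans ?_
      have h1 := pol_natDegree (c j)
      have h2 : (pol (c j) ^ P).natDegree ≤ P * A := by
        rw [natDegree_pow]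
        exact Nat.mul_le_mul_left P h1
      have h3 : ((X : K[X]) ^ (j : ℕ)).natDegree ≤ J - 1 := by
        rw [natDegree_X_pow]
        have := j.2
        omega
      omega
    refine (natDegree_add_le _ _).trans_lt (max_lt ?_ ?_)
    · refine (hsum (A := t) c).trans_lt ?_
      omega
    · refine natDegree_mul_le.trans_lt ?_
      have h1 : (C a * f ^ (t + 1)).natDegree ≤ (t + 1) * m := by
        refine (natDegree_C_mul_le _ _).trans ?_
        rw [natDegree_pow, hm]
      have h2 := hsum (A := t - m) d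
      have h3 : (t + 1) * m + P * (t - m) ≤ P * t := by
        obtain ⟨r, hr⟩ := Nat.exists_eq_add_of_le hmt
        have h4 : t - m = r := by omega
        rw [h4, hPt, hr]
        nlinarith
      omega
  -- pigeonhole
  set Ψ : (Fin J → Fin A → K) × (Fin J → Fin B → K) → (Fin M → K) :=
    fun cd k => (Φ cd.1 cd.2).coeff k with hΨ
  have hcardlt : Fintype.card (Fin M → K) <
      Fintype.card ((Fin J → Fin A → K) × (Fin J → Fin B → K)) := by
    rw [Fintype.card_prod]
    simp only [Fintype.card_fun, Fintype.card_fin]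
    rw [← pow_mul, ← pow_mul, ← pow_add]
    apply Nat.pow_lt_pow_right (Fintype.one_lt_card)
    obtain ⟨r, hr⟩ := Nat.exists_eq_add_of_le hmt
    have h4 : t - m = r := by omega
    rw [hM, hJ, hA, hB, h4, hPt, hr]
    nlinarith
  obtain ⟨⟨c1, d1⟩, ⟨c2, d2⟩, hne, heq⟩ := Fintype.exists_ne_map_eq_of_card_lt Ψ hcardlt
  set c : Fin J → Fin A → K := fun j i => c1 j i - c2 j i with hc
  set d : Fin J → Fin B → K := fun j i => d1 j i - d2 j i with hd
  have hcd : ¬ (c = 0 ∧ d = 0) := by
    rintro ⟨h1, h2⟩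
    apply hne
    have h3 : c1 = c2 := by
      ext j i
      have := congrFun (congrFun h1 j) i
      exact sub_eq_zero.mp this
    have h4 : d1 = d2 := by
      ext j i
      have := congrFun (congrFun h2 j) i
      exact sub_eq_zero.mp this
    rw [h3, h4]
  have hΦ0 : Φ c d = 0 := by
    have h1 : Φ c d = Φ c1 d1 - Φ c2 d2 := hΦsub c1 c2 d1 d2
    ext k
    rw [coeff_zero]
    by_cases hk : k < M
    · rw [h1, coeff_sub]
      have := congrFun heq ⟨k, hk⟩
      simp only [hΨ] at this
      rw [this, sub_self]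
    · exact coeff_eq_zero_of_natDegree_lt (lt_of_lt_of_le (hΦdeg c d) (not_lt.mp hk))
  -- the auxiliary polynomial
  set U : K[X] := ∑ j : Fin J, X ^ ((j : ℕ) * P) * pol (c j) +
    f ^ (t + 1) * ∑ j : Fin J, X ^ ((j : ℕ) * P) * pol (d j) with hU
  have hUdeg : U.natDegree ≤ (J - 1) * P + t * (m + 1) := by
    have hsum : ∀ {A : ℕ} (c : Fin J → Fin (A + 1) → K),
        (∑ j : Fin J, (X : K[X]) ^ ((j : ℕ) * P) * (pol (c j))).natDegree ≤ (J - 1) * P + A := by
      intro A c
      refine natDegree_sum_le_of_forall_le _ _ fun j _ => ?_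
      refine natDegree_mul_le.trans ?_
      have h1 := pol_natDegree (c j)
      have h3 : ((X : K[X]) ^ ((j : ℕ) * P)).natDegree ≤ (J - 1) * P := by
        rw [natDegree_X_pow]
        have := j.2
        exact Nat.mul_le_mul_right P (by omega)
      omega
    refine (natDegree_add_le _ _).trans (max_le ?_ ?_)
    · refine (hsum (A := t) c).trans ?_
      have : t ≤ t * (m + 1) := Nat.le_mul_of_pos_right t (by omega)
      omega
    · refine natDegree_mul_le.trans ?_
      have h1 : (f ^ (t + 1)).natDegree = (t + 1) * m := by rw [natDegree_pow, hm]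
      have h2 := hsum (A := t - m) d
      have h3 : (t + 1) * m + (t - m) = t * (m + 1) := by
        obtain ⟨r, hr⟩ := Nat.exists_eq_add_of_le hmt
        have h4 : t - m = r := by omega
        rw [h4, hr]
        ring
      omega
  -- it does not vanish
  have hU0 : U ≠ 0 := by
    intro hU0
    -- the smallest index with a nonzero coefficient
    have hex : ∃ j : ℕ, ∃ hj : j < J, ¬ (pol (c ⟨j, hj⟩) = 0 ∧ pol (d ⟨j, hj⟩) = 0) := by
      by_contra hcon
      push Not at hcon
      apply hcd
      constructor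
      · ext j i
        have := (hcon j j.2).1
        exact congrFun (pol_eq_zero this) i
      · ext j i
        have := (hcon j j.2).2
        exact congrFun (pol_eq_zero this) i
    obtain ⟨j0, ⟨hj0, hne0⟩, hmin'⟩ : ∃ j0 : ℕ,
        (∃ hj : j0 < J, ¬ (pol (c ⟨j0, hj⟩) = 0 ∧ pol (d ⟨j0, hj⟩) = 0)) ∧
        ∀ j < j0, ¬ ∃ hj : j < J, ¬ (pol (c ⟨j, hj⟩) = 0 ∧ pol (d ⟨j, hj⟩) = 0) :=
      ⟨Nat.find hex, Nat.find_spec hex, fun j hj => Nat.find_min hex hj⟩
    have hmin : ∀ j : Fin J, (j : ℕ) < j0 → pol (c j) = 0 ∧ pol (d j) = 0 := by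
      intro j hj
      have := hmin' j hj
      push Not at this
      have h2 := this j.2
      by_contra hcon
      exact hcon h2
    have hkey : (X : K[X]) ^ (j0 * P) * (pol (c ⟨j0, hj0⟩) + f ^ (t + 1) * pol (d ⟨j0, hj0⟩)) +
        X ^ ((j0 + 1) * P) * (∑ j ∈ Finset.filter (fun j : Fin J => j0 < (j : ℕ)) univ,
          X ^ (((j : ℕ) - (j0 + 1)) * P) * (pol (c j) + f ^ (t + 1) * pol (d j))) = U := by
      have h1 : U = ∑ j : Fin J, X ^ ((j : ℕ) * P) * (pol (c j) + f ^ (t + 1) * pol (d j)) := by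
        rw [hU, Finset.mul_sum, ← Finset.sum_add_distrib]
        refine Finset.sum_congr rfl fun j _ => ?_
        ring
      rw [h1, Finset.mul_sum]
      rw [← Finset.sum_filter_add_sum_filter_not univ (fun j : Fin J => j0 < (j : ℕ)), add_comm]
      congr 1
      · refine Finset.sum_congr rfl fun j hj => ?_
        rw [Finset.mem_filter] at hj
        rw [← mul_assoc, ← pow_add, ← add_mul]
        congr 3
        omega
      · symm
        rw [Finset.sum_eq_single (⟨j0, hj0⟩ : Fin J)]
        · intro j hj hjne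
          rw [Finset.mem_filter] at hj
          have h2 : (j : ℕ) < j0 := by
            have h3 : (j : ℕ) ≠ j0 := by
              intro h
              exact hjne (Fin.ext h)
            omega
          rw [(hmin j h2).1, (hmin j h2).2]
          ring
        · intro hcon
          exfalso
          apply hcon
          rw [Finset.mem_filter]
          exact ⟨Finset.mem_univ _, by simp⟩
    rw [hU0] at hkey
    have hdvd : (X : K[X]) ^ P ∣ pol (c ⟨j0, hj0⟩) + f ^ (t + 1) * pol (d ⟨j0, hj0⟩) := by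
      have h2 : (X : K[X]) ^ ((j0 + 1) * P) = X ^ (j0 * P) * X ^ P := by
        rw [← pow_add]; congr 1; ring
      rw [h2, mul_assoc, ← mul_add] at hkey
      have h3 := (mul_eq_zero.mp hkey).resolve_left (pow_ne_zero _ X_ne_zero)
      refine ⟨-(∑ j ∈ Finset.filter (fun j : Fin J => j0 < (j : ℕ)) univ,
          X ^ (((j : ℕ) - (j0 + 1)) * P) * (pol (c j) + f ^ (t + 1) * pol (d j))), ?_⟩
      linear_combination h3
    have hu : (pol (c ⟨j0, hj0⟩)).natDegree ≤ t := pol_natDegree _
    have hv : (pol (d ⟨j0, hj0⟩)).natDegree ≤ t - m := pol_natDegree _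
    exact hne0 (indep p n hP hPt hf hm hm1 (Or.inr (by omega)) (Or.inr (by omega)) hdvd)
  -- the zeros
  have hPP : P ^ 2 / 2 = 2 * t * (t + 1) := by
    have : P ^ 2 = 2 * (2 * t * (t + 1)) + 1 := by rw [hPt]; ring
    omega
  have hzero : ∀ x ∈ univ.filter (fun x : K => f.eval x ^ (P ^ 2 / 2) = a), U.IsRoot x := by
    intro x hx
    rw [Finset.mem_filter] at hx
    have hxa := hx.2
    rw [hPP] at hxa
    have hxq : x ^ (P * P) = x := by
      rw [← sq, ← hcard]; exact FiniteField.pow_card x
    have hev := congrArg (eval x) hΦ0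
    simp only [hΦ, eval_add, eval_mul, eval_finsetSum, eval_pow, eval_X, eval_C, eval_zero] at hev
    have hpow : (U.eval x) ^ P = 0 := by
      rw [hU]
      simp only [eval_add, eval_mul, eval_finsetSum, eval_pow, eval_X]
      rw [hP, add_pow_char_pow, ← hP, mul_pow]
      have hs : ∀ {A : ℕ} (c : Fin J → Fin A → K),
          (∑ j : Fin J, x ^ ((j : ℕ) * P) * (pol (c j)).eval x) ^ P =
            ∑ j : Fin J, x ^ (j : ℕ) * ((pol (c j)).eval x) ^ P := by
        intro A c
        rw [hP, sum_pow_char_pow, ← hP]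
        refine Finset.sum_congr rfl fun j _ => ?_
        rw [mul_pow, ← pow_mul, mul_assoc, mul_comm (j : ℕ), pow_mul, hxq]
      rw [hs, hs]
      have h3 : ((eval x f) ^ (t + 1)) ^ P = a * (eval x f) ^ (t + 1) := by
        rw [← hxa, ← pow_mul, ← pow_add]
        congr 1
        rw [hPt]
        ring
      rw [h3]
      exact hev
    have hP0 : P ≠ 0 := by omega
    exact (pow_eq_zero_iff hP0).mp hpow
  have hcardle : (univ.filter (fun x : K => f.eval x ^ (P ^ 2 / 2) = a)).card ≤ U.natDegree := by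
    have hsub : univ.filter (fun x : K => f.eval x ^ (P ^ 2 / 2) = a) ⊆ U.roots.toFinset := by
      intro x hx
      rw [Multiset.mem_toFinset, mem_roots hU0]
      exact hzero x hx
    exact (Finset.card_le_card hsub).trans ((Multiset.toFinset_card_le _).trans (card_roots' U))
  have hfin := hcardle.trans hUdeg
  have hJ1 : J - 1 = t + m - 1 := by rw [hJ]
  rw [hJ1] at hfin
  obtain ⟨m', rfl⟩ : ∃ m', m = m' + 1 := ⟨m - 1, by omega⟩
  have h5 : t + (m' + 1) - 1 = t + m' := by omega
  rw [h5] at hfin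
  rw [hPt] at hfin ⊢
  nlinarith

end

end Pool.Agent.Work.MP_2b9663_nt
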