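import Pool.Agent.Work.MP_2b9663_nt.QuadExt
import Pool.Agent.Work.MP_2b9663_nt.Family

set_option autoImplicit false

/-!
Quadratic characters over number fields.
-/

namespace Pool.Agent.Work.MP_2b9663_nt

open NumberField Ideal Polynomial

open Classical in
/-- the quadratic character of a finite field -/
noncomputable def qc (κ : Type) [Field κ] [Finite κ] (x : κ) : ℤ :=
  letI := Fintype.ofFinite κ
  quadraticChar κ x

section

variable {κ : Type} [Field κ] [Finite κ]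

lemma card_sq (hκ : ringChar κ ≠ 2) (a : κ) :
    (Nat.card {y : κ // y ^ 2 = a} : ℤ) = 1 + qc κ a := by
  classical
  let : Fintype κ := Fintype.ofFinite κ
  have h1 := card_sqrt hκ (d := 1) one_ne_zero a
  simp only [one_mul, map_one] at h1
  rw [h1, qc]

lemma qc_mul (a b : κ) : qc κ (a * b) = qc κ a * qc κ b := by
  unfold qc
  exact map_mul _ a b

lemma qc_one : qc κ 1 = 1 := by
  unfold qc
  exact map_one _

lemma qc_abs_le (a : κ) : |qc κ a| ≤ 1 := by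
  classical
  let : Fintype κ := Fintype.ofFinite κ
  unfold qc
  by_cases h : a = 0
  · rw [h, quadraticChar_zero]
    norm_num
  · rcases quadraticChar_dichotomy h with h | h <;> rw [h] <;> norm_num

lemma qc_sq {a : κ} (ha : a ≠ 0) : qc κ (a ^ 2) = 1 := by
  classical
  let : Fintype κ := Fintype.ofFinite κ
  unfold qc
  exact quadraticChar_sq_one' ha

lemma qc_prod {ι : Type*} (S : Finset ι) (a : ι → κ) : qc κ (∏ j ∈ S, a j) = ∏ j ∈ S, qc κ (a j) := by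
  unfold qc
  exact map_prod _ _ _

end

section

variable (K : Type) [Field K] [NumberField K]

/-- the sum of the values of the quadratic character at the images of `ε` -/
noncomputable def theta (ε : 𝓞 K) (p : Nat.Primes) : ℝ :=
  ∑ᶠ φ : 𝓞 K →+* Fq p 1, (qc (Fq p 1) (φ ε) : ℝ)

lemma theta_abs_le (ε : 𝓞 K) (p : Nat.Primes) : |theta K ε p| ≤ Module.finrank ℚ K := by
  classical
  have : Fintype (𝓞 K →+* Fq p 1) := Fintype.ofFinite _
  rw [theta, finsum_eq_sum_of_fintype]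
  refine (Finset.abs_sum_le_sum_abs _ _).trans ?_
  refine (Finset.sum_le_card_nsmul Finset.univ _ 1 fun φ _ => ?_).trans ?_
  · have := qc_abs_le (φ ε)
    exact_mod_cast this
  · rw [nsmul_eq_mul, mul_one, Finset.card_univ, ← Nat.card_eq_fintype_card]
    exact_mod_cast card_homs_le K (Fq p 1)

lemma theta_BD (ε : 𝓞 K) : BD (theta K ε) := ⟨_, theta_abs_le K ε⟩

variable {K}

/-- the norm of `ε` -/
noncomputable def nm (ε : 𝓞 K) : ℕ := absNorm (span {ε})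

lemma nm_ne_zero {ε : 𝓞 K} (h : ε ≠ 0) : nm ε ≠ 0 := by
  unfold nm
  rw [Ne, absNorm_eq_zero_iff, span_singleton_eq_bot]
  exact h

lemma nm_dvd (ε : 𝓞 K) : ∃ a : 𝓞 K, (nm ε : 𝓞 K) = a * ε := by
  have h1 : ((absNorm (span {ε}) : ℕ) : 𝓞 K) ∈ span {ε} := absNorm_mem _
  obtain ⟨a, ha⟩ := mem_span_singleton'.mp h1
  exact ⟨a, ha.symm⟩

lemma hom_ne_zero {ε : 𝓞 K} {p : Nat.Primes} (h : ¬ ((p : ℕ) ∣ nm ε)) {κ : Type} [Field κ]
    (hκ : CharP κ p) (φ : 𝓞 K →+* κ) : φ ε ≠ 0 := by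
  intro h0
  obtain ⟨a, ha⟩ := nm_dvd ε
  have h1 := congrArg φ ha
  rw [map_natCast, map_mul, h0, mul_zero] at h1
  exact h ((CharP.cast_eq_zero_iff κ p _).mp h1)

lemma not_dvd_nm {ε : 𝓞 K} (h : ε ≠ 0) {p : Nat.Primes} (hp : p ∉ smallPrimes (nm ε + 1)) :
    ¬ ((p : ℕ) ∣ nm ε) := by
  rw [mem_smallPrimes] at hp
  intro h1
  have := Nat.le_of_dvd (Nat.pos_of_ne_zero (nm_ne_zero h)) h1
  omega

lemma charP_Fq (p : Nat.Primes) (k : ℕ) : CharP (Fq p k) p := by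
  have : Fact (p : ℕ).Prime := ⟨p.2⟩
  infer_instance

variable (K)

lemma MV_theta_nonsquare {ε : 𝓞 K} (h0 : ε ≠ 0) (h : ¬ IsSquare (ε : K)) : MV (theta K ε) 0 := by
  classical
  obtain ⟨L, _, _, _, θ, hθ, hdec, huniq⟩ := exists_quadratic K ε h
  have h1 := (MV_idc L).add ((MV_idc K).const_mul (-1))
  rw [mul_one, add_neg_cancel] at h1
  have h20 : (2 * ε : 𝓞 K) ≠ 0 := mul_ne_zero two_ne_zero h0
  refine h1.congr (theta_BD K ε) (smallPrimes (nm (2 * ε) + 1) ∪ smallPrimes 3) fun p hp => ?_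
  rw [Finset.mem_union, not_or] at hp
  have hp2 : (p : ℕ) ≠ 2 := by
    have := hp.2
    rw [mem_smallPrimes] at this
    omega
  have hF : Fact (p : ℕ).Prime := ⟨p.2⟩
  have hcard : Nat.card (Fq p 1) = (p : ℕ) := by rw [card_Fq p one_ne_zero, pow_one]
  have hK : ringChar (Fq p 1) ≠ 2 := by rw [ringChar_Fq]; exact hp2
  have : Fintype (𝓞 K →+* Fq p 1) := Fintype.ofFinite _
  have h2 := homs_quadratic (κ := Fq p 1) hθ hdec huniq fun φ =>
    hom_ne_zero (not_dvd_nm h20 hp.1) (charP_Fq p 1) φ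
  have h3 : (Nat.card (𝓞 L →+* Fq p 1) : ℤ) =
      Nat.card (𝓞 K →+* Fq p 1) + ∑ φ : 𝓞 K →+* Fq p 1, qc (Fq p 1) (φ ε) := by
    rw [h2, Nat.card_sigma]
    push_cast
    rw [Finset.sum_congr rfl fun φ _ => card_sq hK (φ ε), Finset.sum_add_distrib]
    congr 1
    simp [Nat.card_eq_fintype_card]
  rw [card_homs_eq hcard, card_homs_eq hcard] at h3
  rw [theta, finsum_eq_sum_of_fintype]
  have h4 : ((idc L (p : ℕ) : ℤ) : ℝ) = ((idc K (p : ℕ) : ℤ) : ℝ) +
      ((∑ φ : 𝓞 K →+* Fq p 1, qc (Fq p 1) (φ ε) : ℤ) : ℝ) := by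
    rw [← Int.cast_add, h3]
  push_cast at h4
  rw [h4]
  ring

lemma MV_theta_square {ε : 𝓞 K} (h0 : ε ≠ 0) (h : IsSquare (ε : K)) : MV (theta K ε) 1 := by
  classical
  obtain ⟨u, hu⟩ := h
  have hui : IsIntegral ℤ u := by
    refine IsIntegral.of_pow two_pos ?_
    rw [sq, ← hu]
    exact RingOfIntegers.isIntegral_coe ε
  obtain ⟨η, rfl⟩ : ∃ η : 𝓞 K, (η : K) = u := ⟨⟨u, hui⟩, rfl⟩
  have hη : ε = η ^ 2 := RingOfIntegers.ext (by rw [hu, sq]; rfl)
  refine (MV_idc K).congr (theta_BD K ε) (smallPrimes (nm ε + 1)) fun p hp => ?_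
  have hF : Fact (p : ℕ).Prime := ⟨p.2⟩
  have hcard : Nat.card (Fq p 1) = (p : ℕ) := by rw [card_Fq p one_ne_zero, pow_one]
  have : Fintype (𝓞 K →+* Fq p 1) := Fintype.ofFinite _
  rw [theta, finsum_eq_sum_of_fintype, ← card_homs_eq hcard K, Nat.card_eq_fintype_card]
  have h1 : ∀ φ : 𝓞 K →+* Fq p 1, qc (Fq p 1) (φ ε) = 1 := by
    intro φ
    have h2 := hom_ne_zero (not_dvd_nm h0 hp) (charP_Fq p 1) φ
    rw [hη, map_pow] at h2 ⊢
    refine qc_sq fun h3 => h2 ?_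
    rw [h3, zero_pow two_ne_zero]
  simp [h1]

end

end Pool.Agent.Work.MP_2b9663_nt
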