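import Pool.Agent.Work.MP_2b9663_nt.Family

set_option autoImplicit false

namespace Pool.Agent.Results.MP_2b9663_nt.TwistFamilies

open Polynomial Pool.Agent.Work.MP_2b9663_nt

/-- Let `X_D` be the product of the hyperelliptic curves `D j * y ^ 2 = f j (x)`, `j < r`. For every
family of vectors `D k` of nonzero integers which are pairwise independent in degree `i`, such that
the `L`-functions of `H ^ i (X_(D k))` extend meromorphically to neighbourhoods of
`s₀ = i / 2 + 1`, the orders `m k` at `s₀` satisfy the Bessel inequality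
`∑ (m k + t) ^ 2 ≤ (b - t) ^ 2`, where `b` is the `i`-th Betti number and `t = fixedPart r i`; in
particular `m k = - t` (so that there is no zero) for all but at most `(b - t) ^ 2` indices `k`.
For odd `i` the family of all quadratic twists `X_(E, …, E)`, `E` squarefree, is such a family. -/
theorem result {r : ℕ} (f : Fin r → ℤ[X]) (hf : ∀ j, IsCurve (f j)) (i : ℕ) :
    (∀ (ι : Type) (D : ι → Fin r → ℤ), (∀ k j, D k j ≠ 0) →
      (∀ k l, k ≠ l → Independent i (D k) (D l)) →
      ∀ F : ι → ℂ → ℂ, (∀ k, IsContinuation f (D k) i (F k)) →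
        ∃ m : ι → ℤ, (∀ k, meromorphicOrderAt (F k) ((i : ℂ) / 2 + 1) = m k) ∧
          (∀ s : Finset ι, ∑ k ∈ s, (m k + (fixedPart r i : ℤ)) ^ 2 ≤
            ((betti f i : ℤ) - (fixedPart r i : ℤ)) ^ 2) ∧
          {k | m k ≠ -(fixedPart r i : ℤ)}.encard ≤ ((betti f i - fixedPart r i) ^ 2 : ℕ)) ∧
    (Odd i → {E : ℤ | Squarefree E ∧ ∃ F : ℂ → ℂ, IsContinuation f (fun _ => E) i F ∧
      meromorphicOrderAt F ((i : ℂ) / 2 + 1) ≠ 0}.encard ≤ ((betti f i) ^ 2 : ℕ)) := by
  refine ⟨fun ι D h0 hind F hF => ?_, fun hi => diag_encard hf hi⟩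
  choose m hm _ using fun k => order_mean hf (hF k)
  exact ⟨m, hm, family_bessel hf i D h0 hind F hF m hm, family_encard hf i D h0 hind F hF m hm⟩

end Pool.Agent.Results.MP_2b9663_nt.TwistFamilies
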